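import Pool.Agent.Lib.MP_0430e4_lc.Lin.FCols

set_option autoImplicit false

namespace Pool.Agent.Lib.MP_0430e4_lc.Lin

open Finset

section

variable {n r : ℕ}

theorem pow_le_choose_mul {m w : ℕ} (h : w ≤ m) : (m : ℝ) ^ w ≤ (w : ℝ) ^ w * m.choose w := by
  induction w generalizing m with
  | zero => simp
  | succ w ih =>
    obtain ⟨m, rfl⟩ : ∃ k, m = k + 1 := ⟨m - 1, by omega⟩
    have h1 : w ≤ m := by omega
    have h2 := ih h1
    have h3 : ((w : ℝ) + 1) * (m + 1).choose (w + 1) = (m + 1) * m.choose w := by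
      have := Nat.add_one_mul_choose_eq m w
      have h4 : ((m : ℝ) + 1) * m.choose w = (m + 1).choose (w + 1) * (w + 1) := by
        exact_mod_cast this
      linarith
    rcases Nat.eq_zero_or_pos w with rfl | hw
    · simp
    have hm : (0 : ℝ) < m := by
      have : 0 < m := by omega
      exact_mod_cast this
    have hw0 : (0 : ℝ) < w := by exact_mod_cast hw
    -- `((m+1)/m)^w ≤ ((w+1)/w)^w`
    have h4 : ((m : ℝ) + 1) * w ≤ (w + 1) * m := by
      have : (w : ℝ) ≤ m := by exact_mod_cast h1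
      nlinarith
    have h5 : (((m : ℝ) + 1) * w) ^ w ≤ ((w + 1) * m) ^ w := pow_le_pow_left₀ (by positivity) h4 w
    rw [mul_pow, mul_pow] at h5
    push_cast
    have h6 : ((m : ℝ) + 1) ^ w * (w : ℝ) ^ w ≤ ((w : ℝ) + 1) ^ w * (m.choose w * (w : ℝ) ^ w) := by
      calc ((m : ℝ) + 1) ^ w * (w : ℝ) ^ w ≤ ((w : ℝ) + 1) ^ w * (m : ℝ) ^ w := h5
        _ ≤ ((w : ℝ) + 1) ^ w * ((w : ℝ) ^ w * m.choose w) := by gcongr
        _ = _ := by ring
    have h7 : ((m : ℝ) + 1) ^ w ≤ ((w : ℝ) + 1) ^ w * m.choose w := by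
      refine le_of_mul_le_mul_right ?_ (pow_pos hw0 w)
      linarith
    calc ((m : ℝ) + 1) ^ (w + 1) = ((m : ℝ) + 1) ^ w * (m + 1) := pow_succ _ _
      _ ≤ (((w : ℝ) + 1) ^ w * m.choose w) * (m + 1) := by gcongr
      _ = ((w : ℝ) + 1) ^ w * ((m + 1) * m.choose w) := by ring
      _ = ((w : ℝ) + 1) ^ w * (((w : ℝ) + 1) * (m + 1).choose (w + 1)) := by rw [h3]
      _ = _ := by ring

theorem one_le_choose_mul {m w M : ℕ} (hw : w ≤ M) (hM : M ≤ m) (hm : 0 < m) :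
    1 ≤ (m.choose w : ℝ) * ((M : ℝ) / m) ^ w := by
  have hm0 : (0 : ℝ) < m := by exact_mod_cast hm
  have h1 := pow_le_choose_mul (hw.trans hM)
  have h2 : (w : ℝ) ^ w ≤ (M : ℝ) ^ w :=
    pow_le_pow_left₀ (Nat.cast_nonneg _) (by exact_mod_cast hw) _
  rw [div_pow, mul_div_assoc', one_le_div (by positivity)]
  calc (m : ℝ) ^ w ≤ (w : ℝ) ^ w * m.choose w := h1
    _ ≤ (M : ℝ) ^ w * m.choose w := by gcongr
    _ = _ := mul_comm _ _

/-- The upper bound for binomial coefficients. -/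
theorem choose_le_exp (m w : ℕ) (hw : 0 < w) :
    (m.choose w : ℝ) ≤ Real.exp w * ((m : ℝ) / w) ^ w := by
  have h1 : (m.choose w : ℝ) ≤ (m : ℝ) ^ w / (w.factorial : ℝ) := Nat.choose_le_pow_div w m
  have h2 := Real.pow_div_factorial_le_exp (w : ℝ) (Nat.cast_nonneg _) w
  have hw0 : (0 : ℝ) < (w : ℝ) ^ w := by
    have : (0 : ℝ) < w := by exact_mod_cast hw
    positivity
  have hf : (0 : ℝ) < (w.factorial : ℝ) := by exact_mod_cast Nat.factorial_pos w
  refine h1.trans ?_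
  rw [div_le_iff₀ hf] at h2
  rw [div_pow, mul_div_assoc', div_le_div_iff₀ hf hw0]
  calc (m : ℝ) ^ w * (w : ℝ) ^ w ≤ (m : ℝ) ^ w * (Real.exp w * w.factorial) := by gcongr
    _ = _ := by ring

/-- The coefficients of a radial function with bounded mean square. -/
theorem ao_sq_le (hn : 0 < n) {a : W n → ℝ} (ha : SymW a) {B : ℝ}
    (hE : EW (fun x => a x ^ 2) ≤ B ^ 2) {w : W n} {M : ℕ} (hw : wt w ≤ M) (hM : M ≤ n) :
    ao a w ^ 2 ≤ B ^ 2 * ((M : ℝ) / n) ^ wt w := by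
  have h1 := (ao_bound hn ha w).trans hE
  have h2 := one_le_choose_mul hw hM hn
  have hx : (0 : ℝ) ≤ ((M : ℝ) / n) ^ wt w := by positivity
  calc ao a w ^ 2 = 1 * ao a w ^ 2 := (one_mul _).symm
    _ ≤ ((n.choose (wt w) : ℝ) * ((M : ℝ) / n) ^ wt w) * ao a w ^ 2 := by gcongr
    _ = ((n.choose (wt w) : ℝ) * ao a w ^ 2) * ((M : ℝ) / n) ^ wt w := by ring
    _ ≤ B ^ 2 * ((M : ℝ) / n) ^ wt w := by gcongr

/-- Mean square of the low part. -/
theorem EW_flat_sq_le (hn : 0 < n) {c : ℕ} (hc : 2 * c < n) (a : W n → ℝ) :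
    EW (fun x => flat c a x ^ 2) ≤ EW (fun x => a x ^ 2) := by
  have h1 := parsevalW hn (flat c a)
  have h2 := parsevalW hn a
  have h3 : ∑ w : W n, al (flat c a) w ^ 2 ≤ ∑ w : W n, al a w ^ 2 := by
    refine sum_le_sum fun w _ => ?_
    rw [al_flat hn hc]
    split_ifs
    · exact le_rfl
    · rw [zero_pow two_ne_zero]
      exact sq_nonneg _
  rw [h1, h2] at h3
  linarith

theorem ao_flat_eq_zero (hn : 0 < n) {c : ℕ} (hc : 2 * c < n) (a : W n → ℝ) {w : W n}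
    (h : c < wt w) : ao (flat c a) w = 0 := by
  by_cases h1 : n < 2 * wt w
  · exact ao_eq_zero _ h1
  · unfold ao
    have h2 : al (flat c a) w = 0 := by
      rw [al_flat hn hc, if_neg (by omega)]
    rw [h2, mul_zero]

theorem abs_al_flat_le (hn : 0 < n) {c : ℕ} (hc : 2 * c < n) (a : W n → ℝ) (w : W n) :
    |al (flat c a) w| ≤ |al a w| := by
  rw [al_flat hn hc]
  split_ifs
  · exact le_rfl
  · simp

/-- The factors of one term. -/
noncomputable def fac (ρ τ : W n → ℝ) (S : Finset (U r)) (v : U r) : W n → ℝ :=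
  open Classical in if v ∈ S then ρ else τ

theorem trm_eq_prod (ρ τ : W n → ℝ) {T S : Finset (U r)} (hS : S ⊆ T) (X : Cf n r) :
    trm ρ τ T S X = ∏ v ∈ T, fac ρ τ S v (row v X) := by
  classical
  unfold trm
  rw [← prod_sdiff hS, mul_comm]
  congr 1
  · refine prod_congr rfl fun v hv => ?_
    unfold fac
    rw [if_neg (mem_sdiff.mp hv).2]
  · refine prod_congr rfl fun v hv => ?_
    unfold fac
    rw [if_pos hv]

/-- The part of a coefficient with few new positions. -/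
noncomputable def coA (ρ τ : W n → ℝ) (T S : Finset (U r)) (N0 : ℕ) (Ξ : Cf n r) : ℝ :=
  open Classical in
  ∑ ω ∈ univ.filter (fun ω : {v // v ∈ T} → W n => out T ω = Ξ ∧ (Zs T ω Ξ).card ≤ N0),
    ∏ v : {v // v ∈ T}, ao (fac ρ τ S v) (ω v)

/-- The part of a coefficient with many new positions. -/
noncomputable def coB (ρ τ : W n → ℝ) (T S : Finset (U r)) (N0 : ℕ) (Ξ : Cf n r) : ℝ :=
  open Classical in
  ∑ ω ∈ univ.filter (fun ω : {v // v ∈ T} → W n => out T ω = Ξ ∧ N0 < (Zs T ω Ξ).card),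
    ∏ v : {v // v ∈ T}, ao (fac ρ τ S v) (ω v)

theorem exists_ne_of_prod {T : Finset (U r)} {f : {v // v ∈ T} → ℝ} (h : ∏ v, f v ≠ 0) :
    ∀ v, f v ≠ 0 := fun v hv => h (prod_eq_zero (mem_univ v) hv)

/-- The coefficient of a term at a low frequency splits into the two parts. -/
theorem fc_trm_eq (hn : 0 < n) {ρ σ : W n → ℝ} {T S : Finset (U r)} (hS : Ind S) (hST : S ⊆ T)
    {k c N0 : ℕ} (hc : 2 * (2 ^ r * c + k) < n) {Ξ : Cf n r} (hΞ : (sup Ξ).card ≤ k) :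
    fc (trm ρ (flat c σ) T S) Ξ = coA ρ (flat c σ) T S N0 Ξ + coB ρ (flat c σ) T S N0 Ξ := by
  classical
  have hc2 : 2 * c < n := by
    have : 1 ≤ 2 ^ r := Nat.one_le_two_pow
    nlinarith
  rw [fc_congr fun X _ => trm_eq_prod ρ (flat c σ) hST X, fc_prod_rows hn]
  have h1 : ∀ ω : {v // v ∈ T} → W n,
      (∏ v : {v // v ∈ T}, ao (fac ρ (flat c σ) S v) (ω v))
        * (if ∃ s : U r, ∀ i, out T ω i + Ξ i = s then 1 else 0)
      = if out T ω = Ξ then ∏ v : {v // v ∈ T}, ao (fac ρ (flat c σ) S v) (ω v) else 0 := by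
    intro ω
    by_cases h2 : out T ω = Ξ
    · rw [if_pos h2, if_pos, mul_one]
      refine ⟨0, fun i => ?_⟩
      rw [h2, add_self_U]
    · rw [if_neg h2]
      by_cases h3 : ∏ v : {v // v ∈ T}, ao (fac ρ (flat c σ) S v) (ω v) = 0
      · rw [h3, zero_mul]
      · rw [if_neg, mul_zero]
        intro h4
        apply h2
        refine (cols_struct hS hST hΞ hc h4 (fun v => ?_) fun v hv => ?_).1
        · by_contra h5
          exact exists_ne_of_prod h3 v (ao_eq_zero _ (by omega))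
        · by_contra h5
          apply exists_ne_of_prod h3 v
          unfold fac
          rw [if_neg hv]
          exact ao_flat_eq_zero hn hc2 _ (by omega)
  rw [sum_congr rfl fun ω _ => h1 ω, ← sum_filter]
  unfold coA coB
  rw [← sum_filter_add_sum_filter_not (univ.filter fun ω : {v // v ∈ T} → W n => out T ω = Ξ)
    fun ω => (Zs T ω Ξ).card ≤ N0]
  rw [filter_filter, filter_filter]
  simp only [not_le]

/-- The first part is nonzero only if the columns are in the span. -/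
theorem kd_of_out {T : Finset (U r)} {Ξ : Cf n r} {ω : {v // v ∈ T} → W n} (h : out T ω = Ξ)
    (i : Fin n) : Ξ i ∈ Submodule.span (ZMod 2) (T : Set (U r)) := by
  rw [← h]
  unfold out
  exact Submodule.sum_mem _ fun v _ => Submodule.smul_mem _ _ (Submodule.subset_span v.2)

/-- The first bound. -/
theorem abs_coA_le {ρ τ : W n → ℝ} {T S : Finset (U r)} {N0 : ℕ} {D : ℝ}
    (hρ : ∀ w, |al ρ w| ≤ D) (hτ : ∀ w, |al τ w| ≤ D) (Ξ : Cf n r) :
    |coA ρ τ T S N0 Ξ|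
      ≤ (∑ q ∈ range (N0 + 1), (n.choose q : ℝ) * 2 ^ (T.card * (q + (sup Ξ).card)))
        * D ^ T.card := by
  classical
  have hD : 0 ≤ D := (abs_nonneg _).trans (hρ 0)
  have h1 : ∀ ω : {v // v ∈ T} → W n, |∏ v : {v // v ∈ T}, ao (fac ρ τ S v) (ω v)| ≤ D ^ T.card := by
    intro ω
    rw [abs_prod]
    have : T.card = (univ : Finset {v // v ∈ T}).card := by
      rw [card_univ, Fintype.card_coe]
    rw [this, ← prod_const]
    refine prod_le_prod (fun v _ => abs_nonneg _) fun v _ => (abs_ao_le _ _).trans ?_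
    unfold fac
    split_ifs
    · exact hρ _
    · exact hτ _
  unfold coA
  refine (abs_sum_le_sum_abs _ _).trans ((sum_le_sum fun ω _ => h1 ω).trans ?_)
  rw [sum_const, nsmul_eq_mul]
  refine mul_le_mul_of_nonneg_right ?_ (by positivity)
  have h2 : (univ.filter fun ω : {v // v ∈ T} → W n => out T ω = Ξ ∧ (Zs T ω Ξ).card ≤ N0)
      ⊆ (range (N0 + 1)).biUnion fun q =>
        univ.filter fun ω : {v // v ∈ T} → W n => (Zs T ω Ξ).card = q := by
    intro ω hω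
    rw [mem_filter] at hω
    rw [mem_biUnion]
    exact ⟨(Zs T ω Ξ).card, mem_range.mpr (by omega), mem_filter.mpr ⟨mem_univ _, rfl⟩⟩
  have h3 := (card_le_card h2).trans (card_biUnion_le.trans
    (sum_le_sum fun q _ => card_Zs T Ξ q))
  exact_mod_cast h3

/-- The product of the coefficients of a tuple of words. -/
theorem prod_ao_le (hn : 0 < n) {ρ τ : W n → ℝ} (hρs : SymW ρ) (hτs : SymW τ) {B : ℝ}
    (hρ : EW (fun x => ρ x ^ 2) ≤ B ^ 2) (hτ : EW (fun x => τ x ^ 2) ≤ B ^ 2) (hB : 0 ≤ B)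
    {T S : Finset (U r)} (hT : T ⊆ Pn r) {Ξ : Cf n r} {ω : {v // v ∈ T} → W n}
    (h : out T ω = Ξ) (hM : (Zs T ω Ξ).card + (sup Ξ).card ≤ n) :
    |∏ v : {v // v ∈ T}, ao (fac ρ τ S v) (ω v)|
      ≤ B ^ T.card * Real.sqrt ((((Zs T ω Ξ).card + (sup Ξ).card : ℝ) / n)
        ^ (3 * (Zs T ω Ξ).card + (sup Ξ).card)) := by
  classical
  have hn0 : (0 : ℝ) < n := by exact_mod_cast hn
  set M := (Zs T ω Ξ).card + (sup Ξ).card with hMd
  have hx0 : (0 : ℝ) ≤ (M : ℝ) / n := by positivity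
  have hx1 : (M : ℝ) / n ≤ 1 := by
    rw [div_le_one hn0]
    exact_mod_cast hM
  have hMc : ((Zs T ω Ξ).card + (sup Ξ).card : ℝ) = (M : ℝ) := by
    rw [hMd]
    push_cast
    rfl
  rw [hMc]
  have h1 : (∏ v : {v // v ∈ T}, ao (fac ρ τ S v) (ω v)) ^ 2
      ≤ (B ^ T.card) ^ 2 * ((M : ℝ) / n) ^ (3 * (Zs T ω Ξ).card + (sup Ξ).card) := by
    rw [← prod_pow]
    calc ∏ v : {v // v ∈ T}, ao (fac ρ τ S v) (ω v) ^ 2
        ≤ ∏ v : {v // v ∈ T}, (B ^ 2 * ((M : ℝ) / n) ^ wt (ω v)) := by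
          refine prod_le_prod (fun v _ => sq_nonneg _) fun v _ => ?_
          unfold fac
          split_ifs
          · exact ao_sq_le hn hρs hρ (wt_le_Zs T ω Ξ v) hM
          · exact ao_sq_le hn hτs hτ (wt_le_Zs T ω Ξ v) hM
      _ = (B ^ T.card) ^ 2 * ((M : ℝ) / n) ^ (∑ v : {v // v ∈ T}, wt (ω v)) := by
          rw [prod_mul_distrib, prod_const, card_univ, Fintype.card_coe, prod_pow_eq_pow_sum]
          ring
      _ ≤ _ := by
          refine mul_le_mul_of_nonneg_left ?_ (by positivity)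
          exact pow_le_pow_of_le_one hx0 hx1 (cols_count hT h)
  have h2 := Real.sqrt_le_sqrt h1
  rw [Real.sqrt_sq_eq_abs, Real.sqrt_mul (by positivity), Real.sqrt_sq (by positivity)] at h2
  exact h2

/-- The second bound. -/
theorem abs_coB_le (hn : 0 < n) {ρ σ : W n → ℝ} (hρs : SymW ρ) (hσs : SymW σ) {B : ℝ}
    (hρ : EW (fun x => ρ x ^ 2) ≤ B ^ 2) (hσ : EW (fun x => σ x ^ 2) ≤ B ^ 2) (hB : 0 ≤ B)
    {T S : Finset (U r)} (hT : T ⊆ Pn r) (hS : Ind S) (hST : S ⊆ T)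
    {k c N0 : ℕ} (hc : 2 * (2 ^ r * c + k) < n) {Ξ : Cf n r} (hΞ : (sup Ξ).card ≤ k) :
    |coB ρ (flat c σ) T S N0 Ξ|
      ≤ ∑ q ∈ Ioc N0 (2 ^ r * c), (n.choose q : ℝ) * 2 ^ (T.card * (q + (sup Ξ).card))
        * (B ^ T.card * Real.sqrt (((q + (sup Ξ).card : ℝ) / n) ^ (3 * q + (sup Ξ).card))) := by
  classical
  have hc2 : 2 * c < n := by
    have : 1 ≤ 2 ^ r := Nat.one_le_two_pow
    nlinarith
  set F := univ.filter fun ω : {v // v ∈ T} → W n => (out T ω = Ξ ∧ N0 < (Zs T ω Ξ).card)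
    ∧ (∏ v : {v // v ∈ T}, ao (fac ρ (flat c σ) S v) (ω v)) ≠ 0 with hF
  have h1 : coB ρ (flat c σ) T S N0 Ξ
      = ∑ ω ∈ F, ∏ v : {v // v ∈ T}, ao (fac ρ (flat c σ) S v) (ω v) := by
    unfold coB
    symm
    refine sum_subset (fun ω hω => ?_) fun ω hω hωF => ?_
    · rw [hF, mem_filter] at hω
      exact mem_filter.mpr ⟨mem_univ _, hω.2.1⟩
    · by_contra h2
      exact hωF (mem_filter.mpr ⟨mem_univ _, (mem_filter.mp hω).2, h2⟩)
  have hmaps : ∀ ω ∈ F, (Zs T ω Ξ).card ∈ Ioc N0 (2 ^ r * c) := by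
    intro ω hω
    rw [hF, mem_filter] at hω
    obtain ⟨_, ⟨h2, h3⟩, h4⟩ := hω
    rw [mem_Ioc]
    refine ⟨h3, ?_⟩
    refine (cols_struct hS hST hΞ hc ⟨0, fun i => by rw [h2, add_self_U]⟩ (fun v => ?_)
      fun v hv => ?_).2
    · by_contra h5
      exact exists_ne_of_prod h4 v (ao_eq_zero _ (by omega))
    · by_contra h5
      apply exists_ne_of_prod h4 v
      unfold fac
      rw [if_neg hv]
      exact ao_flat_eq_zero hn hc2 _ (by omega)
  rw [h1, ← sum_fiberwise_of_maps_to hmaps]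
  refine (abs_sum_le_sum_abs _ _).trans (sum_le_sum fun q hq => ?_)
  rw [mem_Ioc] at hq
  have h2 : ∀ ω ∈ F.filter (fun ω => (Zs T ω Ξ).card = q),
      |∏ v : {v // v ∈ T}, ao (fac ρ (flat c σ) S v) (ω v)|
        ≤ B ^ T.card * Real.sqrt (((q + (sup Ξ).card : ℝ) / n) ^ (3 * q + (sup Ξ).card)) := by
    intro ω hω
    rw [mem_filter, hF, mem_filter] at hω
    obtain ⟨⟨_, ⟨h3, h4⟩, h5⟩, h6⟩ := hω
    have h7 := prod_ao_le (S := S) hn hρs (symW_flat hσs c) hρ ((EW_flat_sq_le hn hc2 σ).trans hσ)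
      hB hT h3 (by omega)
    rwa [h6] at h7
  refine (abs_sum_le_sum_abs _ _).trans ((sum_le_sum h2).trans ?_)
  rw [sum_const, nsmul_eq_mul]
  refine mul_le_mul_of_nonneg_right ?_ (by positivity)
  have h3 : F.filter (fun ω => (Zs T ω Ξ).card = q)
      ⊆ univ.filter fun ω : {v // v ∈ T} → W n => (Zs T ω Ξ).card = q :=
    filter_subset_filter _ (subset_univ _)
  exact_mod_cast (card_le_card h3).trans (card_Zs T Ξ q)

end

end Pool.Agent.Lib.MP_0430e4_lc.Lin
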