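import Pool.Agent.Lib.MP_0430e4_lc.Lin.FBase

/-!
# IND: products over independent sets

PROOF. Use `fc_prod_rows` of FBase or a variant with `β v w = al a w / 2` (`a x = ∑_w (al a w / 2) chw w x` on even words).
If two tuples `ω, ω'` satisfy the condition then `∑_v (ω v i + ω' v i) v` does not depend on `i`,
so by independence each `ω v + ω' v` is constant: there are at most `2^|T|` tuples (and for all of
them the product has absolute value at most `(η / 2)^|T|`). So `|fc| ≤ η^|T|`. If `fc ≠ 0` some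
tuple exists, and every `w` with `w ⬝ v = 0` for all `v ∈ T` is in `Kd Ξ`; these `w` form a space
of dimension at least `r - |T|`.
-/

set_option autoImplicit false

namespace Pool.Agent.Lib.MP_0430e4_lc.Lin

open Finset

variable {n r : ℕ}

theorem kd_add_const (Ξ : Cf n r) (s : U r) : kd (fun i => Ξ i + s) = kd Ξ := by
  have h : Kd (fun i => Ξ i + s) = Kd Ξ := by
    ext w
    constructor
    · rintro ⟨t, ht⟩
      refine ⟨t - w ⬝ᵥ s, fun i => ?_⟩
      have h1 := ht i
      rw [dotProduct_add] at h1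
      rw [← h1]
      ring
    · rintro ⟨t, ht⟩
      refine ⟨t + w ⬝ᵥ s, fun i => ?_⟩
      rw [dotProduct_add, ht i]
  unfold kd
  rw [h]

theorem kd_le (Ξ : Cf n r) : kd Ξ ≤ r := by
  unfold kd
  have h := Submodule.finrank_le (Kd Ξ)
  rwa [Module.finrank_fin_fun] at h

/-- the pairing with the elements of `T` -/
def indMap (T : Finset (U r)) : U r →ₗ[ZMod 2] ({v // v ∈ T} → ZMod 2) where
  toFun w := fun v => w ⬝ᵥ (v : U r)
  map_add' a b := by
    funext v
    exact add_dotProduct _ _ _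
  map_smul' c a := by
    funext v
    exact smul_dotProduct _ _ _

theorem ind_ker_le (T : Finset (U r)) (Ξ : Cf n r) (ω : {v // v ∈ T} → W n)
    (h : ∃ s : U r, ∀ i, out T ω i + Ξ i = s) : LinearMap.ker (indMap T) ≤ Kd Ξ := by
  obtain ⟨s, hs⟩ := h
  intro w hw
  refine ⟨w ⬝ᵥ s, fun i => ?_⟩
  have h1 : w ⬝ᵥ out T ω i = 0 := by
    unfold out
    rw [dotProduct_sum]
    refine Finset.sum_eq_zero fun v _ => ?_
    have h2 : w ⬝ᵥ (v : U r) = 0 := congrFun (LinearMap.mem_ker.1 hw) v
    rw [dotProduct_smul, h2, smul_zero]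
  have h3 := congrArg (fun u => w ⬝ᵥ u) (hs i)
  simp only [dotProduct_add, h1, zero_add] at h3
  exact h3

theorem ind_ker (T : Finset (U r)) :
    r = Module.finrank (ZMod 2) (LinearMap.range (indMap T)) +
      Module.finrank (ZMod 2) (LinearMap.ker (indMap T)) := by
  have h := LinearMap.finrank_range_add_finrank_ker (indMap T)
  rw [Module.finrank_fin_fun] at h
  exact h.symm

theorem ind_card (T : Finset (U r)) :
    Module.finrank (ZMod 2) ({v // v ∈ T} → ZMod 2) = T.card := by
  rw [Module.finrank_fintype_fun_eq_card, Fintype.card_coe]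

/-- The annihilator of `T` has dimension at least `r - |T|`; if it is contained in `Kd Ξ`: -/
theorem le_kd_of_out (T : Finset (U r)) (Ξ : Cf n r) (ω : {v // v ∈ T} → W n)
    (h : ∃ s : U r, ∀ i, out T ω i + Ξ i = s) : r ≤ kd Ξ + T.card := by
  have h1 := Submodule.finrank_mono (ind_ker_le T Ξ ω h)
  have h2 := ind_ker T
  have h3 := Submodule.finrank_le (LinearMap.range (indMap T))
  rw [ind_card] at h3
  unfold kd
  omega

/-- The same for dependent sets. -/
theorem lt_kd_of_out (T : Finset (U r)) (hT : ¬ Ind T) (Ξ : Cf n r) (ω : {v // v ∈ T} → W n)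
    (h : ∃ s : U r, ∀ i, out T ω i + Ξ i = s) : r < kd Ξ + T.card := by
  have h1 := Submodule.finrank_mono (ind_ker_le T Ξ ω h)
  have h2 := ind_ker T
  have h3 : Module.finrank (ZMod 2) (LinearMap.range (indMap T)) < T.card := by
    rw [← ind_card T]
    refine Submodule.finrank_lt ?_
    intro htop
    apply hT
    unfold Ind
    rw [Fintype.linearIndependent_iff]
    intro g hg v
    have hsurj := LinearMap.range_eq_top.1 htop
    obtain ⟨w, hw⟩ := hsurj (Pi.single v 1)
    have h4 : w ⬝ᵥ (∑ u : {v // v ∈ T}, g u • (u : U r)) = 0 := by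
      rw [hg, dotProduct_zero]
    rw [dotProduct_sum, Finset.sum_eq_single v] at h4
    · have h5 : w ⬝ᵥ (v : U r) = 1 := by
        have := congrFun hw v
        rw [Pi.single_eq_same] at this
        exact this
      rw [dotProduct_smul, h5, smul_eq_mul, mul_one] at h4
      exact h4
    · intro u _ hu
      have h5 : w ⬝ᵥ (u : U r) = 0 := by
        have := congrFun hw u
        rw [Pi.single_eq_of_ne hu] at this
        exact this
      rw [dotProduct_smul, h5, smul_zero]
    · intro h'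
      exact absurd (mem_univ _) h'
  unfold kd
  omega

theorem ind_ao (a : W n → ℝ) (w : W n) : ao a w + ao a (w + 1) = al a w := by
  have e1 := wt_add_one w
  unfold ao
  rw [al_add_one, ← add_mul]
  rcases lt_trichotomy (2 * wt w) n with h | h | h
  · rw [if_pos h, if_neg (by omega), if_neg (by omega)]
    ring
  · rw [if_neg (by omega), if_pos h, if_neg (by omega), if_pos (by omega)]
    ring
  · rw [if_neg (by omega), if_neg (by omega), if_pos (by omega)]
    ring

theorem ind_fc_eq (hn : 1 ≤ n) {T : Finset (U r)} (hT : Ind T) (a : W n → ℝ) (Ξ : Cf n r)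
    (ω0 : {v // v ∈ T} → W n) (h0 : ∃ s : U r, ∀ i, out T ω0 i + Ξ i = s) :
    fc (fun X => ∏ v ∈ T, a (row v X)) Ξ = ∏ v : {v // v ∈ T}, al a (ω0 v) := by
  classical
  have hz : ∀ x : ZMod 2, x + x = 0 := by decide
  rw [fc_prod_rows hn T (fun _ => a) Ξ]
  obtain ⟨s0, hs0⟩ := h0
  have key : ∑ ε : {v // v ∈ T} → ZMod 2, ∏ v : {v // v ∈ T}, ao a (fun i => ω0 v i + ε v) =
      ∑ ω : {v // v ∈ T} → W n, (∏ v : {v // v ∈ T}, ao a (ω v))
        * if ∃ s : U r, ∀ i, out T ω i + Ξ i = s then 1 else 0 := by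
    refine Finset.sum_of_injOn (fun ε v i => ω0 v i + ε v) ?_ ?_ ?_ ?_
    · intro ε _ ε' _ h
      funext v
      have h1 := congrFun (congrFun h v) ⟨0, hn⟩
      exact add_left_cancel h1
    · intro ε _
      exact mem_coe.2 (mem_univ _)
    · intro ω _ hω
      rw [if_neg, mul_zero]
      rintro ⟨s, hs⟩
      apply hω
      refine ⟨fun v => ω v ⟨0, hn⟩ + ω0 v ⟨0, hn⟩, mem_coe.2 (mem_univ _), ?_⟩
      have h1 : ∀ i : Fin n, ∑ v : {v // v ∈ T},
          ((ω v i + ω0 v i) + (ω v ⟨0, hn⟩ + ω0 v ⟨0, hn⟩)) • (v : U r) = 0 := by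
        intro i
        have e1 : ∑ v : {v // v ∈ T},
            ((ω v i + ω0 v i) + (ω v ⟨0, hn⟩ + ω0 v ⟨0, hn⟩)) • (v : U r) =
            (out T ω i + out T ω0 i) + (out T ω ⟨0, hn⟩ + out T ω0 ⟨0, hn⟩) := by
          unfold out
          simp only [add_smul, Finset.sum_add_distrib]
        have e2 : ∀ i : Fin n, out T ω i + out T ω0 i = s + s0 := by
          intro i
          rw [← hs i, ← hs0 i]
          have e3 : out T ω i + Ξ i + (out T ω0 i + Ξ i) =
              out T ω i + out T ω0 i + (Ξ i + Ξ i) := by abel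
          rw [e3, add_self_U, add_zero]
        rw [e1, e2, e2, add_self_U]
      have h2 : ∀ (i : Fin n) (v : {v // v ∈ T}),
          (ω v i + ω0 v i) + (ω v ⟨0, hn⟩ + ω0 v ⟨0, hn⟩) = 0 := by
        intro i v
        have h3 := (Fintype.linearIndependent_iff.1 hT) _ (h1 i) v
        exact h3
      funext v i
      have h4 := h2 i v
      have h5 : ∀ a b c : ZMod 2, (a + b) + c = 0 → b + c = a := by decide
      exact h5 _ _ _ h4
    · intro ε _
      rw [if_pos, mul_one]
      refine ⟨s0 + ∑ v : {v // v ∈ T}, ε v • (v : U r), fun i => ?_⟩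
      have e1 : out T (fun v i => ω0 v i + ε v) i = out T ω0 i + ∑ v : {v // v ∈ T}, ε v • (v : U r) := by
        unfold out
        simp only [add_smul, Finset.sum_add_distrib]
      rw [e1, ← hs0 i]
      abel
  rw [← key]
  have h1 := Finset.prod_univ_sum (fun _ : {v // v ∈ T} => (univ : Finset (ZMod 2)))
    fun v c => ao a (fun i => ω0 v i + c)
  rw [Fintype.piFinset_univ] at h1
  rw [← h1]
  refine Finset.prod_congr rfl fun v _ => ?_
  have hu : (univ : Finset (ZMod 2)) = {0, 1} := by decide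
  rw [hu, Finset.sum_pair (by decide), ← ind_ao a (ω0 v)]
  congr 2
  funext i
  exact add_zero _

theorem fc_ind (hn : 1 ≤ n) {T : Finset (U r)} (hT : Ind T) {a : W n → ℝ} {η : ℝ}
    (ha : ∀ w, |al a w| ≤ η) (Ξ : Cf n r) :
    |fc (fun X => ∏ v ∈ T, a (row v X)) Ξ| ≤ η ^ T.card ∧
      (fc (fun X => ∏ v ∈ T, a (row v X)) Ξ ≠ 0 → r ≤ kd Ξ + T.card) := by
  classical
  have hη : 0 ≤ η := (abs_nonneg _).trans (ha 0)
  by_cases h : ∃ ω0 : {v // v ∈ T} → W n, ∃ s : U r, ∀ i, out T ω0 i + Ξ i = s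
  · obtain ⟨ω0, h0⟩ := h
    refine ⟨?_, fun _ => le_kd_of_out T Ξ ω0 h0⟩
    rw [ind_fc_eq hn hT a Ξ ω0 h0, Finset.abs_prod]
    calc ∏ v : {v // v ∈ T}, |al a (ω0 v)| ≤ ∏ v : {v // v ∈ T}, η :=
          Finset.prod_le_prod (fun v _ => abs_nonneg _) fun v _ => ha _
      _ = η ^ T.card := by
          rw [Finset.prod_const, Finset.card_univ, Fintype.card_coe]
  · have h0 : fc (fun X => ∏ v ∈ T, a (row v X)) Ξ = 0 := by
      rw [fc_prod_rows hn T (fun _ => a) Ξ]
      refine Finset.sum_eq_zero fun ω _ => ?_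
      rw [if_neg (fun h' => h ⟨ω, h'⟩), mul_zero]
    rw [h0]
    refine ⟨?_, fun h' => absurd rfl h'⟩
    rw [abs_zero]
    positivity

end Pool.Agent.Lib.MP_0430e4_lc.Lin
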