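import Pool.Agent.Lib.MP_0430e4_lc.Lin.TUP
import Pool.Agent.Lib.MP_0430e4_lc.Lin.FCoef
import Pool.Agent.Lib.MP_0430e4_lc.Lin.IND

set_option autoImplicit false

namespace Pool.Agent.Lib.MP_0430e4_lc.Lin

open Finset

variable {n r : ℕ}

/-- The sum over the tuples with a condition on the number of outer positions. -/
noncomputable def tsum (T : Finset (U r)) (β : U r → W n → ℝ) (Ξ : Cf n r) (p : ℕ → Prop)
    [DecidablePred p] : ℝ :=
  open Classical in
  ∑ ω ∈ univ.filter (fun ω : {v // v ∈ T} → W n => out T ω = Ξ ∧ p (Zs T ω Ξ).card),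
    ∏ v : {v // v ∈ T}, β v (ω v)

theorem sumA (T : Finset (U r)) {β : U r → W n → ℝ} {B : ℝ} (hB : 0 ≤ B)
    (hβ : ∀ v ∈ T, ∀ w, |β v w| ≤ B) (Ξ : Cf n r) (N0 : ℕ) :
    |tsum T β Ξ (fun q => q ≤ N0)| ≤
      (∑ q ∈ range (N0 + 1), (n.choose q : ℝ)) * 2 ^ (T.card * (N0 + (sup Ξ).card)) * B ^ T.card := by
  classical
  have h1 : ∀ ω : {v // v ∈ T} → W n, |∏ v : {v // v ∈ T}, β v (ω v)| ≤ B ^ T.card := by
    intro ω
    rw [abs_prod]
    have : T.card = (univ : Finset {v // v ∈ T}).card := by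
      rw [card_univ, Fintype.card_coe]
    rw [this, ← prod_const]
    exact prod_le_prod (fun v _ => abs_nonneg _) fun v _ => hβ v v.2 _
  unfold tsum
  refine (abs_sum_le_sum_abs _ _).trans ((sum_le_sum fun ω _ => h1 ω).trans ?_)
  rw [sum_const, nsmul_eq_mul]
  refine mul_le_mul_of_nonneg_right ?_ (by positivity)
  have h2 : (univ.filter fun ω : {v // v ∈ T} → W n => out T ω = Ξ ∧ (Zs T ω Ξ).card ≤ N0)
      ⊆ (range (N0 + 1)).biUnion fun q =>
        univ.filter fun ω : {v // v ∈ T} → W n => (Zs T ω Ξ).card = q := by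
    intro ω hω
    rw [mem_filter] at hω
    rw [mem_biUnion]
    exact ⟨(Zs T ω Ξ).card, mem_range.mpr (by omega), mem_filter.mpr ⟨mem_univ _, rfl⟩⟩
  have h3 : (univ.filter fun ω : {v // v ∈ T} → W n => out T ω = Ξ ∧ (Zs T ω Ξ).card ≤ N0).card
      ≤ ∑ q ∈ range (N0 + 1), n.choose q * 2 ^ (T.card * (q + (sup Ξ).card)) :=
    (card_le_card h2).trans (card_biUnion_le.trans (sum_le_sum fun q _ => card_Zs T Ξ q))
  have h4 : ∑ q ∈ range (N0 + 1), n.choose q * 2 ^ (T.card * (q + (sup Ξ).card))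
      ≤ (∑ q ∈ range (N0 + 1), n.choose q) * 2 ^ (T.card * (N0 + (sup Ξ).card)) := by
    rw [sum_mul]
    refine sum_le_sum fun q hq => ?_
    rw [mem_range] at hq
    exact Nat.mul_le_mul_left _ (Nat.pow_le_pow_right (by norm_num)
      (Nat.mul_le_mul_left _ (by omega)))
  exact_mod_cast h3.trans h4

theorem inv_sqrt_choose_le {m w M : ℕ} (hw : w ≤ M) (hM : M ≤ m) :
    1 / Real.sqrt (m.choose w) ≤ Real.sqrt ((M : ℝ) / m) ^ w := by
  rcases Nat.eq_zero_or_pos m with rfl | hm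
  · have h1 : M = 0 := by omega
    have h2 : w = 0 := by omega
    subst h1 h2
    simp
  · have h1 := one_le_choose_mul hw hM hm
    have hc : (0 : ℝ) < m.choose w := by exact_mod_cast Nat.choose_pos (hw.trans hM)
    rw [div_le_iff₀ (Real.sqrt_pos.mpr hc)]
    have h2 : Real.sqrt ((M : ℝ) / m) ^ w = Real.sqrt (((M : ℝ) / m) ^ w) := by
      rw [Real.sqrt_eq_rpow, Real.sqrt_eq_rpow, ← Real.rpow_natCast, ← Real.rpow_mul (by positivity),
        ← Real.rpow_natCast (((M : ℝ) / m)), ← Real.rpow_mul (by positivity)]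
      congr 1
      ring
    rw [h2, ← Real.sqrt_mul (by positivity), mul_comm]
    rw [Real.one_le_sqrt]
    exact h1

theorem prod_choose {T : Finset (U r)} (hT : T ⊆ Pn r) {Ξ : Cf n r} {ω : {v // v ∈ T} → W n}
    (h : out T ω = Ξ) (hq : (Zs T ω Ξ).card + (sup Ξ).card ≤ n) :
    ∏ v, (1 / Real.sqrt (n.choose (wt (ω v)))) ≤
      (Real.sqrt ((((Zs T ω Ξ).card : ℝ) + (sup Ξ).card) / n)) ^
        (3 * (Zs T ω Ξ).card + (sup Ξ).card) := by
  obtain ⟨h1, h2⟩ := weights hT h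
  have e : (((Zs T ω Ξ).card : ℝ) + (sup Ξ).card) = (((Zs T ω Ξ).card + (sup Ξ).card : ℕ) : ℝ) := by
    push_cast
    rfl
  rw [e]
  set M := (Zs T ω Ξ).card + (sup Ξ).card with hM
  have hx0 : 0 ≤ Real.sqrt ((M : ℝ) / n) := Real.sqrt_nonneg _
  have hx1 : Real.sqrt ((M : ℝ) / n) ≤ 1 := by
    rw [Real.sqrt_le_one]
    refine div_le_one_of_le₀ ?_ (Nat.cast_nonneg _)
    exact_mod_cast hq
  calc ∏ v, (1 / Real.sqrt (n.choose (wt (ω v))))
      ≤ ∏ v : {v // v ∈ T}, Real.sqrt ((M : ℝ) / n) ^ wt (ω v) := by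
        refine prod_le_prod (fun v _ => by positivity) fun v _ => ?_
        exact inv_sqrt_choose_le (h2 v) hq
    _ = Real.sqrt ((M : ℝ) / n) ^ (∑ v : {v // v ∈ T}, wt (ω v)) := by
        rw [prod_pow_eq_pow_sum]
    _ ≤ _ := pow_le_pow_of_le_one hx0 hx1 h1

theorem sumB {T : Finset (U r)} (hT : T ⊆ Pn r) {β : U r → W n → ℝ}
    (hβ : ∀ v ∈ T, ∀ w, |β v w| ≤ 2 / Real.sqrt (n.choose (wt w))) (Ξ : Cf n r) (N0 Q : ℕ)
    (hQ : Q + (sup Ξ).card ≤ n) :
    |tsum T β Ξ (fun q => N0 < q ∧ q ≤ Q)| ≤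
      ∑ q ∈ Ioc N0 Q, (n.choose q : ℝ) * 2 ^ (T.card * (q + (sup Ξ).card)) * 2 ^ T.card *
        (Real.sqrt (((q : ℝ) + (sup Ξ).card) / n)) ^ (3 * q + (sup Ξ).card) := by
  classical
  unfold tsum
  set F := univ.filter fun ω : {v // v ∈ T} → W n =>
    out T ω = Ξ ∧ N0 < (Zs T ω Ξ).card ∧ (Zs T ω Ξ).card ≤ Q with hF
  have hmaps : ∀ ω ∈ F, (Zs T ω Ξ).card ∈ Ioc N0 Q := by
    intro ω hω
    rw [hF, mem_filter] at hω
    exact mem_Ioc.mpr hω.2.2
  rw [← sum_fiberwise_of_maps_to hmaps]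
  refine (abs_sum_le_sum_abs _ _).trans (sum_le_sum fun q hq => ?_)
  rw [mem_Ioc] at hq
  have h2 : ∀ ω ∈ F.filter (fun ω => (Zs T ω Ξ).card = q),
      |∏ v : {v // v ∈ T}, β v (ω v)|
        ≤ 2 ^ T.card * (Real.sqrt (((q : ℝ) + (sup Ξ).card) / n)) ^ (3 * q + (sup Ξ).card) := by
    intro ω hω
    rw [mem_filter, hF, mem_filter] at hω
    obtain ⟨⟨_, h3, h4, h5⟩, h6⟩ := hω
    have h7 := prod_choose hT h3 (by omega)
    rw [h6] at h7
    calc |∏ v : {v // v ∈ T}, β v (ω v)|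
        ≤ ∏ v : {v // v ∈ T}, (2 * (1 / Real.sqrt (n.choose (wt (ω v))))) := by
          rw [abs_prod]
          refine prod_le_prod (fun v _ => abs_nonneg _) fun v _ => ?_
          rw [mul_one_div]
          exact hβ v v.2 _
      _ = 2 ^ T.card * ∏ v : {v // v ∈ T}, (1 / Real.sqrt (n.choose (wt (ω v)))) := by
          rw [prod_mul_distrib, prod_const, card_univ, Fintype.card_coe]
      _ ≤ _ := mul_le_mul_of_nonneg_left h7 (by positivity)
  refine (abs_sum_le_sum_abs _ _).trans ((sum_le_sum h2).trans ?_)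
  rw [sum_const, nsmul_eq_mul, ← mul_assoc]
  refine mul_le_mul_of_nonneg_right (mul_le_mul_of_nonneg_right ?_ (by positivity)) (by positivity)
  have h3 : F.filter (fun ω => (Zs T ω Ξ).card = q)
      ⊆ univ.filter fun ω : {v // v ∈ T} → W n => (Zs T ω Ξ).card = q :=
    filter_subset_filter _ (subset_univ _)
  exact_mod_cast (card_le_card h3).trans (card_Zs T Ξ q)

/-- The main formula for the coefficients of low frequency of a term. -/
theorem fc_trm (hn : 1 ≤ n) {T S : Finset (U r)} (hS : S ⊆ T) (hI : Ind S) {f a : W n → ℝ}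
    {c : ℕ} {Ξ : Cf n r} (hcn : 2 * (2 ^ r * c + (sup Ξ).card) < n) (N0 : ℕ)
    (β : U r → W n → ℝ) (hβ1 : ∀ v ∈ S, ∀ w, β v w = ao f w)
    (hβ2 : ∀ v ∈ T \ S, ∀ w, β v w = if wt w ≤ c then al a w else 0) :
    fc (trm f (flat c a) T S) Ξ =
      tsum T β Ξ (fun q => q ≤ N0) + tsum T β Ξ (fun q => N0 < q ∧ q ≤ 2 ^ r * c) := by
  classical
  have hc2 : 2 * c < n := by
    have : 1 ≤ 2 ^ r := Nat.one_le_two_pow
    nlinarith
  -- the coefficients are the canonical ones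
  have hfac : ∀ v ∈ T, ∀ w, ao (fac f (flat c a) S v) w = β v w := by
    intro v hv w
    unfold fac
    by_cases h : v ∈ S
    · rw [if_pos h, hβ1 v h w]
    · rw [if_neg h, hβ2 v (mem_sdiff.mpr ⟨hv, h⟩) w]
      split_ifs with h1
      · unfold ao
        rw [if_pos (by omega), one_mul, al_flat hn hc2, if_pos (Or.inl h1)]
      · exact ao_flat_eq_zero hn hc2 _ (by omega)
  rw [fc_congr fun X _ => trm_eq_prod f (flat c a) hS X, fc_prod_rows hn]
  have e : ∀ ω : {v // v ∈ T} → W n, ∏ v : {v // v ∈ T}, ao (fac f (flat c a) S v) (ω v)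
      = ∏ v : {v // v ∈ T}, β v (ω v) := fun ω => prod_congr rfl fun v _ => hfac v v.2 _
  have key : ∀ ω : {v // v ∈ T} → W n, ∏ v : {v // v ∈ T}, β v (ω v) ≠ 0 →
      (∃ s : U r, ∀ i, out T ω i + Ξ i = s) → out T ω = Ξ ∧ (Zs T ω Ξ).card ≤ 2 ^ r * c := by
    intro ω h3 h4
    rw [← e ω] at h3
    have h5 : ∀ v : {v // v ∈ T}, ao (fac f (flat c a) S v) (ω v) ≠ 0 := exists_ne_of_prod h3
    refine tuple_small hS hI hcn ω (fun v => ?_) (fun v hv => ?_) h4
    · by_contra h6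
      exact h5 v (ao_eq_zero _ (by omega))
    · by_contra h6
      apply h5 v
      unfold fac
      rw [if_neg hv]
      exact ao_flat_eq_zero hn hc2 _ (by omega)
  have hconst : ∀ ω : {v // v ∈ T} → W n, out T ω = Ξ → ∃ s : U r, ∀ i, out T ω i + Ξ i = s :=
    fun ω h6 => ⟨0, fun i => by rw [h6, add_self_U]⟩
  have h1 : ∀ ω : {v // v ∈ T} → W n,
      (∏ v : {v // v ∈ T}, ao (fac f (flat c a) S v) (ω v))
        * (if ∃ s : U r, ∀ i, out T ω i + Ξ i = s then 1 else 0)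
      = if out T ω = Ξ then ∏ v : {v // v ∈ T}, β v (ω v) else 0 := by
    intro ω
    rw [e ω]
    by_cases h3 : ∏ v : {v // v ∈ T}, β v (ω v) = 0
    · rw [h3, zero_mul]
      simp
    · by_cases h4 : ∃ s : U r, ∀ i, out T ω i + Ξ i = s
      · rw [if_pos h4, if_pos (key ω h3 h4).1, mul_one]
      · rw [if_neg h4, if_neg fun h6 => h4 (hconst ω h6), mul_zero]
  rw [sum_congr rfl fun ω _ => h1 ω, ← sum_filter]
  unfold tsum
  rw [← sum_filter_add_sum_filter_not (univ.filter fun ω : {v // v ∈ T} → W n =>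
    out T ω = Ξ) fun ω => (Zs T ω Ξ).card ≤ N0]
  congr 1
  · refine sum_congr ?_ fun _ _ => rfl
    ext ω
    simp only [mem_filter, mem_univ, true_and]
  · symm
    refine sum_subset (fun ω hω => ?_) fun ω hω hωF => ?_
    · simp only [mem_filter, mem_univ, true_and] at hω ⊢
      exact ⟨hω.1, by omega⟩
    · simp only [mem_filter, mem_univ, true_and] at hω hωF
      by_contra h2
      have := (key ω h2 (hconst ω hω.1)).2
      exact hωF ⟨hω.1, by omega, this⟩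

/-- If the first sum is not zero, the rank of `Ξ` is small. -/
theorem tsum_ne_zero {T : Finset (U r)} (hT : ¬ Ind T) {β : U r → W n → ℝ} {Ξ : Cf n r}
    {p : ℕ → Prop} [DecidablePred p] (h : tsum T β Ξ p ≠ 0) : r < kd Ξ + T.card := by
  classical
  unfold tsum at h
  obtain ⟨ω, hω, _⟩ := exists_ne_zero_of_sum_ne_zero h
  rw [mem_filter] at hω
  exact lt_kd_of_out T hT Ξ ω ⟨0, fun i => by rw [hω.2.1, add_self_U]⟩

theorem wt_comp (w : W n) (p : Equiv.Perm (Fin n)) : wt (w ∘ p) = wt w := by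
  unfold wt
  refine card_bij (fun i _ => p i) ?_ ?_ ?_
  · intro i hi
    rw [mem_filter] at hi ⊢
    exact ⟨mem_univ _, hi.2⟩
  · intro i _ j _ hij
    exact p.injective hij
  · intro i hi
    rw [mem_filter] at hi
    exact ⟨p.symm i, mem_filter.mpr ⟨mem_univ _, by simpa using hi.2⟩, by simp⟩

theorem tsum_perm {T : Finset (U r)} {β : U r → W n → ℝ}
    (hβ : ∀ v ∈ T, ∀ (p : Equiv.Perm (Fin n)) (w : W n), β v (w ∘ p) = β v w) (Ξ : Cf n r)
    (P : ℕ → Prop) [DecidablePred P] (p : Equiv.Perm (Fin n)) :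
    tsum T β (Ξ ∘ p) P = tsum T β Ξ P := by
  classical
  have hZ : ∀ (ω : {v // v ∈ T} → W n) (q : Equiv.Perm (Fin n)) (Θ : Cf n r),
      (Zs T (fun v => ω v ∘ q) (Θ ∘ q)).card = (Zs T ω Θ).card := by
    intro ω q Θ
    unfold Zs
    refine card_bij (fun i _ => q i) ?_ ?_ ?_
    · intro i hi
      rw [mem_filter] at hi ⊢
      exact ⟨mem_univ _, hi.2⟩
    · intro i _ j _ hij
      exact q.injective hij
    · intro i hi
      rw [mem_filter] at hi
      exact ⟨q.symm i, mem_filter.mpr ⟨mem_univ _, by simpa using hi.2⟩, by simp⟩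
  have hout : ∀ (ω : {v // v ∈ T} → W n) (q : Equiv.Perm (Fin n)),
      out T (fun v => ω v ∘ q) = out T ω ∘ q := by
    intro ω q
    rfl
  unfold tsum
  refine Finset.sum_nbij' (fun ω v => ω v ∘ p.symm) (fun ω v => ω v ∘ p) ?_ ?_ ?_ ?_ ?_
  · intro ω hω
    rw [mem_filter] at hω ⊢
    refine ⟨mem_univ _, ?_, ?_⟩
    · rw [hout, hω.2.1]
      funext i
      simp
    · have := hZ ω p.symm (Ξ ∘ p)
      have e : (Ξ ∘ p) ∘ p.symm = Ξ := by
        funext i
        simp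
      rw [e] at this
      rw [this]
      exact hω.2.2
  · intro ω hω
    rw [mem_filter] at hω ⊢
    refine ⟨mem_univ _, ?_, ?_⟩
    · rw [hout, hω.2.1]
    · rw [hZ ω p Ξ]
      exact hω.2.2
  · intro ω _
    funext v i
    simp
  · intro ω _
    funext v i
    simp
  · intro ω _
    exact prod_congr rfl fun v _ => (hβ v v.2 p.symm (ω v)).symm

end Pool.Agent.Lib.MP_0430e4_lc.Lin
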