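import Pool.Agent.Lib.MP_0430e4_lc.Lin.DUA
import Pool.Agent.Lib.MP_0430e4_lc.Hier.Fin

/-!
# LV1: the sharp function of level one
-/

set_option autoImplicit false

namespace Pool.Agent.Lib.MP_0430e4_lc.Lin

open Finset Filter

theorem lv_sg_add (a b : ZMod 2) : sg (a + b) = sg a * sg b := by
  have h : ∀ a b : ZMod 2, (a = 0 ↔ b = 0) ↔ a + b = 0 := by decide
  unfold sg
  by_cases ha : a = 0 <;> by_cases hb : b = 0
  · rw [if_pos ((h a b).1 (by simp [ha, hb])), if_pos ha, if_pos hb, one_mul]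
  · rw [if_neg (fun hh => by have := (h a b).2 hh; simp [ha, hb] at this), if_pos ha, if_neg hb,
      one_mul]
  · rw [if_neg (fun hh => by have := (h a b).2 hh; simp [ha, hb] at this), if_neg ha, if_pos hb,
      mul_one]
  · rw [if_pos ((h a b).1 (by simp [ha, hb])), if_neg ha, if_neg hb]
    norm_num

theorem lv_sg_sum {ι : Type*} (s : Finset ι) (f : ι → ZMod 2) :
    sg (∑ i ∈ s, f i) = ∏ i ∈ s, sg (f i) := by
  classical
  induction s using Finset.induction_on with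
  | empty => simp [sg]
  | insert a s ha ih => rw [sum_insert ha, prod_insert ha, lv_sg_add, ih]

theorem lv_wt_le {n : ℕ} (x : W n) : wt x ≤ n := by
  unfold wt
  refine (card_filter_le _ _).trans ?_
  simp

theorem lv_prod_ite {n : ℕ} (x : W n) (A B : ℂ) :
    ∏ i, (if x i = 0 then A else B) = A ^ (n - wt x) * B ^ wt x := by
  rw [prod_ite, prod_const, prod_const]
  have h1 : (univ.filter fun i => ¬ x i = 0).card = wt x := rfl
  have h2 : (univ.filter fun i => x i = 0).card = n - wt x := by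
    have := card_filter_add_card_filter_not (s := (univ : Finset (Fin n))) (fun i => x i = 0)
    rw [h1, card_univ, Fintype.card_fin] at this
    omega
  rw [h1, h2]

/-- The sum over all words, for a product function. -/
theorem lv_prod_sum {n : ℕ} (F : Fin n → ZMod 2 → ℂ) :
    ∑ x : W n, ∏ i, F i (x i) = ∏ i, (F i 0 + F i 1) := by
  have h1 := Finset.prod_univ_sum (fun _ : Fin n => (univ : Finset (ZMod 2))) F
  rw [Fintype.piFinset_univ] at h1
  rw [← h1]
  refine prod_congr rfl fun i _ => ?_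
  have : (univ : Finset (ZMod 2)) = {0, 1} := by decide
  rw [this, sum_pair (by decide)]

theorem lv_gen {n : ℕ} (y : W n) (z : ℂ) :
    ∑ x : W n, ((chw y x : ℝ) : ℂ) * ((1 - z) ^ wt x * (1 + z) ^ (n - wt x)) =
      2 ^ n * z ^ wt y := by
  have h1 : ∀ x : W n, ((chw y x : ℝ) : ℂ) * ((1 - z) ^ wt x * (1 + z) ^ (n - wt x)) =
      ∏ i, ((sg (y i * x i) : ℝ) : ℂ) * (if x i = 0 then 1 + z else 1 - z) := by
    intro x
    rw [prod_mul_distrib, lv_prod_ite]
    unfold chw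
    push_cast
    ring
  rw [sum_congr rfl fun x _ => h1 x]
  refine (lv_prod_sum (fun (i : Fin n) (a : ZMod 2) =>
        ((sg (y i * a) : ℝ) : ℂ) * (if a = 0 then 1 + z else 1 - z))).trans ?_
  have h2 : ∀ i : Fin n, ((sg (y i * 0) : ℝ) : ℂ) * (if (0 : ZMod 2) = 0 then 1 + z else 1 - z) +
      ((sg (y i * 1) : ℝ) : ℂ) * (if (1 : ZMod 2) = 0 then 1 + z else 1 - z) =
      if y i = 0 then 2 else 2 * z := by
    intro i
    rw [if_pos rfl, if_neg (by decide), mul_zero, mul_one]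
    unfold sg
    by_cases h : y i = 0
    · rw [if_pos rfl, if_pos h, if_pos h]
      push_cast
      ring
    · rw [if_pos rfl, if_neg h, if_neg h]
      push_cast
      ring
  rw [prod_congr rfl fun i _ => h2 i, lv_prod_ite, mul_pow, ← mul_assoc, ← pow_add,
    Nat.sub_add_cancel (lv_wt_le y)]

theorem lv_gen2 {n : ℕ} (y : W n) (z : ℂ) :
    ∑ x : W n, ((sg (∑ i, x i) : ℝ) : ℂ) *
      (((chw y x : ℝ) : ℂ) * ((1 - z) ^ wt x * (1 + z) ^ (n - wt x))) =
      2 ^ n * z ^ (n - wt y) := by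
  have h1 : ∀ x : W n, ((sg (∑ i, x i) : ℝ) : ℂ) *
      (((chw y x : ℝ) : ℂ) * ((1 - z) ^ wt x * (1 + z) ^ (n - wt x))) =
      ∏ i, ((sg (x i) : ℝ) : ℂ) *
        (((sg (y i * x i) : ℝ) : ℂ) * (if x i = 0 then 1 + z else 1 - z)) := by
    intro x
    rw [prod_mul_distrib, prod_mul_distrib, lv_prod_ite, lv_sg_sum]
    unfold chw
    push_cast
    ring
  rw [sum_congr rfl fun x _ => h1 x]
  refine (lv_prod_sum (fun (i : Fin n) (a : ZMod 2) =>
        ((sg a : ℝ) : ℂ) *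
          (((sg (y i * a) : ℝ) : ℂ) * (if a = 0 then 1 + z else 1 - z)))).trans ?_
  have h2 : ∀ i : Fin n, ((sg 0 : ℝ) : ℂ) *
      (((sg (y i * 0) : ℝ) : ℂ) * (if (0 : ZMod 2) = 0 then 1 + z else 1 - z)) +
      ((sg 1 : ℝ) : ℂ) *
      (((sg (y i * 1) : ℝ) : ℂ) * (if (1 : ZMod 2) = 0 then 1 + z else 1 - z)) =
      if y i = 0 then 2 * z else 2 := by
    intro i
    rw [if_pos rfl, if_neg (by decide), mul_zero, mul_one]
    unfold sg
    by_cases h : y i = 0
    · rw [if_pos rfl, if_pos h, if_pos h, if_neg (by decide)]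
      push_cast
      ring
    · rw [if_pos rfl, if_neg h, if_neg h, if_neg (by decide)]
      push_cast
      ring
  rw [prod_congr rfl fun i _ => h2 i, lv_prod_ite, mul_pow]
  have h3 : (2 : ℂ) ^ (n - wt y) * z ^ (n - wt y) * 2 ^ wt y =
      2 ^ (n - wt y) * 2 ^ wt y * z ^ (n - wt y) := by ring
  rw [h3, ← pow_add, Nat.sub_add_cancel (lv_wt_le y)]

/-- The generating function over even words. -/
theorem lv_gen_ev {n : ℕ} (hn : 1 ≤ n) (y : W n) (z : ℂ) :
    ∑ x ∈ evW n, ((chw y x : ℝ) : ℂ) * ((1 - z) ^ wt x * (1 + z) ^ (n - wt x)) =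
      2 ^ (n - 1) * (z ^ wt y + z ^ (n - wt y)) := by
  have h1 : ∀ x : W n, (if ∑ i, x i = 0 then
      ((chw y x : ℝ) : ℂ) * ((1 - z) ^ wt x * (1 + z) ^ (n - wt x)) else 0) =
      (1 / 2) * (((chw y x : ℝ) : ℂ) * ((1 - z) ^ wt x * (1 + z) ^ (n - wt x))) +
      (1 / 2) * (((sg (∑ i, x i) : ℝ) : ℂ) *
        (((chw y x : ℝ) : ℂ) * ((1 - z) ^ wt x * (1 + z) ^ (n - wt x)))) := by
    intro x
    unfold sg
    by_cases h : ∑ i, x i = 0
    · rw [if_pos h, if_pos h]
      push_cast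
      ring
    · rw [if_neg h, if_neg h]
      push_cast
      ring
  unfold evW
  rw [sum_filter, sum_congr rfl fun x _ => h1 x, sum_add_distrib, ← mul_sum, ← mul_sum, lv_gen,
    lv_gen2]
  have h2 : (2 : ℂ) ^ n = 2 * 2 ^ (n - 1) := by
    rw [← pow_succ']
    congr 1
    omega
  rw [h2]
  ring

/-- The coefficients of a function on the dual side. -/
noncomputable def lvb (n : ℕ) (h : W n → ℝ) (w : ℕ) : ℝ :=
  (∑ x ∈ (evW n).filter (fun x => wt x = w), ∑ y, h y * chw y x) / 2 ^ (n - 1)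

theorem lv_sum_fiber {n : ℕ} (H : W n → ℂ) (g : ℕ → ℂ) :
    ∑ w ∈ range (n + 1), (∑ x ∈ (evW n).filter (fun x => wt x = w), H x) * g w =
      ∑ x ∈ evW n, H x * g (wt x) := by
  rw [← Finset.sum_fiberwise_of_maps_to (s := evW n) (t := range (n + 1)) (g := wt)
    (fun x _ => mem_range.2 (Nat.lt_succ_of_le (lv_wt_le x)))]
  refine sum_congr rfl fun w _ => ?_
  rw [sum_mul]
  refine sum_congr rfl fun x hx => ?_
  rw [(mem_filter.1 hx).2]

theorem lv_Fp {n : ℕ} (hn : 1 ≤ n) (h : W n → ℝ) (z : ℂ) :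
    LPLOW.Fp n (lvb n h) z = ∑ y, (h y : ℂ) * (z ^ wt y + z ^ (n - wt y)) := by
  have h2 : (2 : ℂ) ^ (n - 1) ≠ 0 := pow_ne_zero _ two_ne_zero
  have h1 : LPLOW.Fp n (lvb n h) z * 2 ^ (n - 1) = ∑ w ∈ range (n + 1),
      (∑ x ∈ (evW n).filter (fun x => wt x = w), ∑ y, (h y : ℂ) * ((chw y x : ℝ) : ℂ)) *
        ((1 - z) ^ w * (1 + z) ^ (n - w)) := by
    unfold LPLOW.Fp lvb
    rw [sum_mul]
    refine sum_congr rfl fun w _ => ?_
    push_cast
    field_simp
  rw [lv_sum_fiber (fun x => ∑ y, (h y : ℂ) * ((chw y x : ℝ) : ℂ))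
    (fun w => (1 - z) ^ w * (1 + z) ^ (n - w))] at h1
  have h3 : ∑ x ∈ evW n, (∑ y, (h y : ℂ) * ((chw y x : ℝ) : ℂ)) *
      ((1 - z) ^ wt x * (1 + z) ^ (n - wt x)) =
      (∑ y, (h y : ℂ) * (z ^ wt y + z ^ (n - wt y))) * 2 ^ (n - 1) := by
    rw [sum_congr rfl fun x _ => sum_mul _ _ _, sum_comm, sum_mul]
    refine sum_congr rfl fun y _ => ?_
    have := lv_gen_ev hn y z
    rw [sum_congr rfl fun x _ => mul_assoc _ _ _, ← mul_sum, this]
    ring
  rw [h3] at h1
  exact mul_right_cancel₀ h2 h1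

theorem lv_Fp_le {n : ℕ} (hn : 1 ≤ n) (h : W n → ℝ) {z : ℂ} (hz : ‖z‖ ≤ 1) :
    ‖LPLOW.Fp n (lvb n h) z‖ ≤ 2 * ∑ y, |h y| := by
  rw [lv_Fp hn, mul_sum]
  refine (norm_sum_le _ _).trans (sum_le_sum fun y _ => ?_)
  rw [norm_mul, Complex.norm_real, Real.norm_eq_abs, mul_comm]
  refine mul_le_mul_of_nonneg_right ?_ (abs_nonneg _)
  refine (norm_add_le _ _).trans ?_
  rw [norm_pow, norm_pow]
  have h1 : ‖z‖ ^ wt y ≤ 1 := pow_le_one₀ (norm_nonneg _) hz
  have h2 : ‖z‖ ^ (n - wt y) ≤ 1 := pow_le_one₀ (norm_nonneg _) hz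
  linarith

theorem lv_even {n : ℕ} {x : W n} (hx : x ∈ evW n) : Even (wt x) := by
  unfold evW at hx
  have h1 := (mem_filter.1 hx).2
  have h2 : (∑ i, x i) = (wt x : ZMod 2) := by
    unfold wt
    rw [card_filter]
    push_cast
    refine sum_congr rfl fun i _ => ?_
    have : ∀ a : ZMod 2, a = if a ≠ 0 then 1 else 0 := by decide
    exact this _
  rw [h2] at h1
  exact (ZMod.natCast_eq_zero_iff_even).1 h1

theorem lv_odd {n : ℕ} (h : W n → ℝ) {w : ℕ} (hw : Odd w) : lvb n h w = 0 := by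
  unfold lvb
  rw [filter_eq_empty_iff.2 ?_, sum_empty, zero_div]
  intro x hx hxw
  rw [← hxw] at hw
  exact (Nat.not_even_iff_odd.2 hw) (lv_even hx)

theorem lv_large {n : ℕ} (h : W n → ℝ) {w : ℕ} (hw : n < w) : lvb n h w = 0 := by
  unfold lvb
  rw [filter_eq_empty_iff.2 ?_, sum_empty, zero_div]
  intro x hx hxw
  have := lv_wt_le x
  omega

/-- The main inequality: polynomials with small low coefficients. -/
theorem lv_key {R R2 δ C ε2 : ℝ} (hC : 0 < C) (hε2 : 0 < ε2) (hδ : δ < 1 / 2)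
    (hb : ∀ (n : ℕ) (b : ℕ → ℝ), (∀ k, Odd k → b k = 0) →
      (∀ z : ℂ, ‖z‖ ≤ 1 → ‖LPLOW.Fp n b z‖ ≤ Real.exp (n * R2) * LPLOW.Nb n b) →
      ∀ k ≤ n, (k : ℝ) ≤ δ * n → |b k| ≤ C * LPLOW.Nb n b * Real.exp (-(n * ε2)))
    {n : ℕ} (hn : 1 ≤ n) (hn1 : 2 ≤ Real.exp (n * (R2 - R)))
    (hn2 : 2 * (n + 1) * C * Real.exp (-(n * (ε2 / 2))) ≤ 1) (h : W n → ℝ) :
    ∑ w ∈ range ⌈δ * n⌉₊, lvb n h w ≤ Real.exp (-(n * R)) * ∑ y, |h y| +
      Real.exp (-(n * (ε2 / 2))) *
        ∑ w ∈ (range (n + 1)).filter (fun w => ¬ w < ⌈δ * n⌉₊), |lvb n h w| := by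
  by_contra hcon
  rw [not_le] at hcon
  set d : ℕ := ⌈δ * n⌉₊ with hd
  set κ : ℝ := Real.exp (-(n * (ε2 / 2))) with hκ
  set N : ℝ := LPLOW.Nb n (lvb n h) with hN
  have hκ0 : 0 < κ := Real.exp_pos _
  have hdn : d ≤ n + 1 := by
    have h1 : d ≤ n := by
      rw [hd, Nat.ceil_le]
      have : (0 : ℝ) ≤ n := Nat.cast_nonneg n
      nlinarith
    omega
  have hlow : ∑ w ∈ range d, |lvb n h w| ≤ N := by
    rw [hN]
    unfold LPLOW.Nb
    exact sum_le_sum_of_subset_of_nonneg (range_subset_range.2 hdn) fun _ _ _ => abs_nonneg _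
  have hlow' : ∑ w ∈ range d, lvb n h w ≤ ∑ w ∈ range d, |lvb n h w| :=
    sum_le_sum fun _ _ => le_abs_self _
  have hS0 : 0 ≤ ∑ y, |h y| := sum_nonneg fun _ _ => abs_nonneg _
  have hH0 : 0 ≤ ∑ w ∈ (range (n + 1)).filter (fun w => ¬ w < d), |lvb n h w| :=
    sum_nonneg fun _ _ => abs_nonneg _
  have hE0 : 0 < Real.exp (-(n * R)) := Real.exp_pos _
  -- the size of `h`
  have g1 : Real.exp (-(n * R)) * ∑ y, |h y| < N := by
    have := mul_nonneg hκ0.le hH0
    linarith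
  have hN0 : 0 < N := lt_of_le_of_lt (mul_nonneg hE0.le hS0) g1
  have g2 : ∑ y, |h y| ≤ Real.exp (n * R) * N := by
    have h1 := mul_le_mul_of_nonneg_left g1.le (Real.exp_pos (n * R)).le
    rw [← mul_assoc, ← Real.exp_add] at h1
    have h2 : (n : ℝ) * R + -(n * R) = 0 := by ring
    rw [h2, Real.exp_zero, one_mul] at h1
    exact h1
  have g3 : ∀ z : ℂ, ‖z‖ ≤ 1 → ‖LPLOW.Fp n (lvb n h) z‖ ≤ Real.exp (n * R2) * N := by
    intro z hz
    refine (lv_Fp_le hn h hz).trans ?_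
    have h1 : Real.exp (n * R2) = Real.exp (n * (R2 - R)) * Real.exp (n * R) := by
      rw [← Real.exp_add]
      congr 1
      ring
    rw [h1]
    have h2 : 0 < Real.exp (n * R) * N := mul_pos (Real.exp_pos _) hN0
    calc 2 * ∑ y, |h y| ≤ 2 * (Real.exp (n * R) * N) := by linarith
      _ ≤ Real.exp (n * (R2 - R)) * (Real.exp (n * R) * N) :=
          mul_le_mul_of_nonneg_right hn1 h2.le
      _ = _ := by ring
  have g4 : ∀ w ∈ range d, |lvb n h w| ≤ C * N * Real.exp (-(n * ε2)) := by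
    intro w hw
    have hw1 : w < d := mem_range.1 hw
    have hw2 : (w : ℝ) < δ * n := Nat.lt_ceil.1 hw1
    exact hb n _ (fun k hk => lv_odd h hk) g3 w (by omega) hw2.le
  have g5 : ∑ w ∈ range d, |lvb n h w| ≤ (n + 1) * (C * N * Real.exp (-(n * ε2))) := by
    refine (sum_le_card_nsmul _ _ _ g4).trans ?_
    rw [card_range, nsmul_eq_mul]
    refine mul_le_mul_of_nonneg_right ?_ (by positivity)
    exact_mod_cast hdn
  have g6 : Real.exp (-(n * ε2)) = κ * κ := by
    rw [hκ, ← Real.exp_add]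
    congr 1
    ring
  have g7 : N = ∑ w ∈ range d, |lvb n h w| +
      ∑ w ∈ (range (n + 1)).filter (fun w => ¬ w < d), |lvb n h w| := by
    rw [hN]
    unfold LPLOW.Nb
    rw [← sum_filter_add_sum_filter_not (range (n + 1)) (fun w => w < d)]
    congr 1
    refine sum_congr ?_ fun _ _ => rfl
    ext w
    simp only [mem_filter, mem_range]
    omega
  have g8 : κ * ∑ w ∈ (range (n + 1)).filter (fun w => ¬ w < d), |lvb n h w| <
      (n + 1) * (C * N * Real.exp (-(n * ε2))) := by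
    have := mul_nonneg hE0.le hS0
    linarith
  have hκ1 : κ ≤ 1 := by
    rw [hκ, Real.exp_le_one_iff]
    have : 0 ≤ (n : ℝ) * (ε2 / 2) := by positivity
    linarith
  have g9 : κ * N < 2 * ((n + 1) * (C * N * Real.exp (-(n * ε2)))) := by
    have h1 : κ * ∑ w ∈ range d, |lvb n h w| ≤ 1 * ((n + 1) * (C * N * Real.exp (-(n * ε2)))) :=
      mul_le_mul hκ1 g5 (sum_nonneg fun _ _ => abs_nonneg _) zero_le_one
    have h2 : κ * N = κ * ∑ w ∈ range d, |lvb n h w| +
        κ * ∑ w ∈ (range (n + 1)).filter (fun w => ¬ w < d), |lvb n h w| := by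
      rw [← mul_add, ← g7]
    linarith
  rw [g6] at g9
  have g10 : 2 * (n + 1) * C * κ * (κ * N) ≤ 1 * (κ * N) :=
    mul_le_mul_of_nonneg_right hn2 (mul_pos hκ0 hN0).le
  have g11 : 2 * ((n + 1) * (C * N * (κ * κ))) = 2 * (n + 1) * C * κ * (κ * N) := by ring
  linarith

theorem lv_exists {R R2 δ C ε2 : ℝ} (hC : 0 < C) (hε2 : 0 < ε2) (hδ : δ < 1 / 2)
    (hb : ∀ (n : ℕ) (b : ℕ → ℝ), (∀ k, Odd k → b k = 0) →
      (∀ z : ℂ, ‖z‖ ≤ 1 → ‖LPLOW.Fp n b z‖ ≤ Real.exp (n * R2) * LPLOW.Nb n b) →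
      ∀ k ≤ n, (k : ℝ) ≤ δ * n → |b k| ≤ C * LPLOW.Nb n b * Real.exp (-(n * ε2)))
    {n : ℕ} (hn : 1 ≤ n) (hn1 : 2 ≤ Real.exp (n * (R2 - R)))
    (hn2 : 2 * (n + 1) * C * Real.exp (-(n * (ε2 / 2))) ≤ 1) :
    ∃ a : ℕ → ℝ,
      (∀ w, w < ⌈δ * n⌉₊ → a w = -1) ∧
      (∀ w, ⌈δ * n⌉₊ ≤ w → |a w| ≤ Real.exp (-(n * (ε2 / 2)))) ∧
      ∀ w : W n, |al (fun x => a (wt x)) w| ≤ Real.exp (-(n * R)) := by
  set d : ℕ := ⌈δ * n⌉₊ with hd
  have hdn : d ≤ n := by
    rw [hd, Nat.ceil_le]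
    have : (0 : ℝ) ≤ n := Nat.cast_nonneg n
    nlinarith
  obtain ⟨e, he1, he2⟩ := exists_small
    (I := Fin (n + 1)) (J := W n)
    (fun y w => if (w : ℕ) < d then 0 else
      (∑ x ∈ (evW n).filter (fun x => wt x = w), chw y x) / 2 ^ (n - 1))
    (fun y => (∑ x ∈ (evW n).filter (fun x => wt x < d), chw y x) / 2 ^ (n - 1))
    (κ := Real.exp (-(n * (ε2 / 2)))) (η := Real.exp (-(n * R)))
    (Real.exp_pos _).le (Real.exp_pos _).le (by
      intro h
      have hk := lv_key hC hε2 hδ hb hn hn1 hn2 h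
      have h1 : ∑ y, h y * ((∑ x ∈ (evW n).filter (fun x => wt x < d), chw y x) / 2 ^ (n - 1)) =
          ∑ w ∈ range d, lvb n h w := by
        unfold lvb
        rw [← sum_div]
        have h2 : ∑ w ∈ range d, ∑ x ∈ (evW n).filter (fun x => wt x = w), ∑ y, h y * chw y x =
            ∑ x ∈ (evW n).filter (fun x => wt x < d), ∑ y, h y * chw y x := by
          rw [← Finset.sum_fiberwise_of_maps_to (s := (evW n).filter (fun x => wt x < d))
            (t := range d) (g := wt) (fun x hx => mem_range.2 (mem_filter.1 hx).2)]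
          refine sum_congr rfl fun w hw => sum_congr ?_ fun _ _ => rfl
          rw [filter_filter]
          ext x
          simp only [mem_filter]
          have := mem_range.1 hw
          constructor
          · rintro ⟨q1, q2⟩
            exact ⟨q1, by omega, q2⟩
          · rintro ⟨q1, _, q2⟩
            exact ⟨q1, q2⟩
        rw [h2, sum_comm, sum_div]
        refine sum_congr rfl fun y _ => ?_
        rw [← mul_sum, mul_div_assoc]
      have h3 : ∑ i : Fin (n + 1), |∑ y, h y * (if (i : ℕ) < d then 0 else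
          (∑ x ∈ (evW n).filter (fun x => wt x = i), chw y x) / 2 ^ (n - 1))| =
          ∑ w ∈ (range (n + 1)).filter (fun w => ¬ w < d), |lvb n h w| := by
        rw [sum_filter, ← Fin.sum_univ_eq_sum_range (fun w => if ¬ w < d then |lvb n h w| else 0)]
        refine sum_congr rfl fun i _ => ?_
        by_cases hi : (i : ℕ) < d
        · rw [if_neg (not_not.2 hi)]
          simp only [if_pos hi, mul_zero, sum_const_zero, abs_zero]
        · rw [if_pos hi]
          simp only [if_neg hi]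
          congr 1
          unfold lvb
          rw [sum_comm, sum_div]
          refine sum_congr rfl fun y _ => ?_
          rw [← mul_sum, mul_div_assoc]
      rw [h1, h3]
      exact hk)
  refine ⟨fun w => if w < d then -1 else if hw : w < n + 1 then e ⟨w, hw⟩ else 0, ?_, ?_, ?_⟩
  · intro w hw
    simp only [if_pos hw]
  · intro w hw
    simp only [if_neg (not_lt.2 hw)]
    by_cases h : w < n + 1
    · rw [dif_pos h]
      exact he1 _
    · rw [dif_neg h, abs_zero]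
      exact (Real.exp_pos _).le
  · intro y
    have h1 := he2 y
    refine le_trans (le_of_eq ?_) h1
    congr 1
    have h2 : ∑ i : Fin (n + 1), (if (i : ℕ) < d then 0 else
        (∑ x ∈ (evW n).filter (fun x => wt x = i), chw y x) / 2 ^ (n - 1)) * e i =
        (∑ x ∈ (evW n).filter (fun x => ¬ wt x < d),
          (if hw : wt x < n + 1 then e ⟨wt x, hw⟩ else 0) * chw y x) / 2 ^ (n - 1) := by
      rw [← Finset.sum_fiberwise_of_maps_to (s := (evW n).filter (fun x => ¬ wt x < d))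
        (t := (univ : Finset (Fin (n + 1))))
        (g := fun x => ⟨wt x, Nat.lt_succ_of_le (lv_wt_le x)⟩) (fun x _ => mem_univ _), sum_div]
      refine sum_congr rfl fun i _ => ?_
      by_cases hi : (i : ℕ) < d
      · rw [if_pos hi, zero_mul, filter_eq_empty_iff.2 ?_, sum_empty, zero_div]
        intro x hx hxi
        have q1 := (mem_filter.1 hx).2
        have q2 : wt x = i := congrArg Fin.val hxi
        omega
      · rw [if_neg hi, div_mul_eq_mul_div, sum_mul, filter_filter]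
        congr 1
        refine sum_congr ?_ ?_
        · ext x
          simp only [mem_filter]
          constructor
          · rintro ⟨q1, q2⟩
            exact ⟨q1, by omega, Fin.ext q2⟩
          · rintro ⟨q1, _, q2⟩
            exact ⟨q1, congrArg Fin.val q2⟩
        · intro x hx
          have q2 : wt x = i := congrArg Fin.val (mem_filter.1 hx).2.2
          have q3 : wt x < n + 1 := Nat.lt_succ_of_le (lv_wt_le x)
          rw [dif_pos q3, mul_comm]
          congr 2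
          exact Fin.ext q2.symm
    rw [h2]
    unfold al EW
    rw [← sub_div]
    congr 1
    rw [← sum_filter_add_sum_filter_not (evW n) (fun x => wt x < d)]
    have h3 : ∑ x ∈ (evW n).filter (fun x => wt x < d),
        (if wt x < d then -1 else if hw : wt x < n + 1 then e ⟨wt x, hw⟩ else 0) * chw y x =
        - ∑ x ∈ (evW n).filter (fun x => wt x < d), chw y x := by
      rw [← sum_neg_distrib]
      refine sum_congr rfl fun x hx => ?_
      rw [if_pos (mem_filter.1 hx).2, neg_one_mul]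
    have h4 : ∑ x ∈ (evW n).filter (fun x => ¬ wt x < d),
        (if wt x < d then -1 else if hw : wt x < n + 1 then e ⟨wt x, hw⟩ else 0) * chw y x =
        ∑ x ∈ (evW n).filter (fun x => ¬ wt x < d),
          (if hw : wt x < n + 1 then e ⟨wt x, hw⟩ else 0) * chw y x := by
      refine sum_congr rfl fun x hx => ?_
      rw [if_neg (mem_filter.1 hx).2]
    rw [h3, h4]
    ring

theorem level1 {δ R : ℝ} (h0 : 0 < δ) (h1 : δ < 1 / 2) (hR : R < Tensor.ell δ * Real.log 2) :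
    ∃ ε : ℝ, 0 < ε ∧ ∀ᶠ n : ℕ in atTop, ∃ a : ℕ → ℝ,
      (∀ w, w < ⌈δ * n⌉₊ → a w = -1) ∧
      (∀ w, ⌈δ * n⌉₊ ≤ w → |a w| ≤ Real.exp (-(n * ε))) ∧
      ∀ w : W n, |al (fun x => a (wt x)) w| ≤ Real.exp (-(n * R)) := by
  obtain ⟨R2, hR1, hR2⟩ := exists_between hR
  obtain ⟨C, ε2, hC, hε2, hb⟩ := Hier.coef_all h0 h1 hR2
  refine ⟨ε2 / 2, by linarith, ?_⟩
  have e1 : ∀ᶠ n : ℕ in atTop, 2 ≤ Real.exp (n * (R2 - R)) := by
    have : Tendsto (fun n : ℕ => Real.exp (n * (R2 - R))) atTop atTop :=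
      Real.tendsto_exp_atTop.comp
        (tendsto_natCast_atTop_atTop.atTop_mul_const (by linarith))
    exact this.eventually_ge_atTop 2
  have e2 : ∀ᶠ n : ℕ in atTop, 2 * (n + 1) * C * Real.exp (-(n * (ε2 / 2))) ≤ 1 := by
    have t1 : Tendsto (fun n : ℕ => (n : ℝ) * (ε2 / 2)) atTop atTop :=
      tendsto_natCast_atTop_atTop.atTop_mul_const (by linarith)
    have t2 := (Real.tendsto_pow_mul_exp_neg_atTop_nhds_zero 1).comp t1
    have t3 := (Real.tendsto_pow_mul_exp_neg_atTop_nhds_zero 0).comp t1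
    have t4 : Tendsto (fun n : ℕ => 2 * C * (2 / ε2) * (((n : ℝ) * (ε2 / 2)) ^ 1 *
        Real.exp (-((n : ℝ) * (ε2 / 2)))) + 2 * C * (((n : ℝ) * (ε2 / 2)) ^ 0 *
        Real.exp (-((n : ℝ) * (ε2 / 2))))) atTop (nhds (2 * C * (2 / ε2) * 0 + 2 * C * 0)) :=
      (t2.const_mul _).add (t3.const_mul _)
    have t5 : ∀ n : ℕ, 2 * C * (2 / ε2) * (((n : ℝ) * (ε2 / 2)) ^ 1 *
        Real.exp (-((n : ℝ) * (ε2 / 2)))) + 2 * C * (((n : ℝ) * (ε2 / 2)) ^ 0 *
        Real.exp (-((n : ℝ) * (ε2 / 2)))) = 2 * (n + 1) * C * Real.exp (-(n * (ε2 / 2))) := by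
      intro n
      field_simp
    have t6 : Tendsto (fun n : ℕ => 2 * ((n : ℝ) + 1) * C * Real.exp (-(n * (ε2 / 2)))) atTop
        (nhds 0) := by
      have := t4
      simp only [t5] at this
      simpa using this
    exact (t6.eventually (eventually_lt_nhds (show (0 : ℝ) < 1 by norm_num))).mono
      fun n hn => hn.le
  filter_upwards [e1, e2, eventually_ge_atTop 1] with n g1 g2 g3
  exact lv_exists hC hε2 h1 hb g3 g1 g2

end Pool.Agent.Lib.MP_0430e4_lc.Lin
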