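import Pool.Agent.Lib.MP_0430e4_lc.Lin.Defs
import Pool.Agent.Lib.MP_0430e4_lc.LPL.ENT

set_option autoImplicit false

namespace Pool.Agent.Lib.MP_0430e4_lc.Lin

open Finset

section

variable {n r : ℕ}

theorem xsg_zero : sg 0 = 1 := by simp [sg]

theorem xsg_add (a b : ZMod 2) : sg (a + b) = sg a * sg b := by
  have h2 : ∀ a : ZMod 2, a = 0 ∨ a = 1 := by decide
  rcases h2 a with rfl | rfl <;> rcases h2 b with rfl | rfl
  · simp [sg]
  · simp [sg]
  · simp [sg]
  · have : (1 : ZMod 2) + 1 = 0 := by decide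
    rw [this]; simp [sg]

theorem xsg_sum {ι : Type*} (s : Finset ι) (f : ι → ZMod 2) :
    sg (∑ i ∈ s, f i) = ∏ i ∈ s, sg (f i) := by
  classical
  induction s using Finset.induction_on with
  | empty => simp [sg]
  | insert a s ha ih => rw [sum_insert ha, prod_insert ha, xsg_add, ih]

theorem xsg_sq (a : ZMod 2) : sg a * sg a = 1 := by
  unfold sg; split_ifs <;> norm_num

theorem xabs_sg (a : ZMod 2) : |sg a| = 1 := by
  unfold sg; split_ifs <;> norm_num

/-- The sum of a nontrivial character. -/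
theorem xsum_sg {v : U r} (hv : v ≠ 0) : ∑ u : U r, sg (v ⬝ᵥ u) = 0 := by
  obtain ⟨i, hi⟩ := Function.ne_iff.mp hv
  have h2 : ∀ a : ZMod 2, a ≠ 0 → a = 1 := by decide
  have hi1 : v i = 1 := h2 _ hi
  have h := Equiv.sum_comp (Equiv.addRight (Pi.single i 1 : U r)) fun u => sg (v ⬝ᵥ u)
  have h3 : ∀ u : U r, sg (v ⬝ᵥ (Equiv.addRight (Pi.single i 1 : U r)) u) = - sg (v ⬝ᵥ u) := by
    intro u
    rw [Equiv.coe_addRight, dotProduct_add, xsg_add, dotProduct_single, hi1]
    simp [sg]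
  rw [sum_congr rfl fun u _ => h3 u, sum_neg_distrib] at h
  linarith

theorem xsum_sg_mul {v w : U r} (h : v ≠ w) : ∑ u : U r, sg (v ⬝ᵥ u) * sg (w ⬝ᵥ u) = 0 := by
  have : ∀ u : U r, sg (v ⬝ᵥ u) * sg (w ⬝ᵥ u) = sg ((v + w) ⬝ᵥ u) := by
    intro u
    rw [add_dotProduct, xsg_add]
  rw [sum_congr rfl fun u _ => this u]
  refine xsum_sg fun h0 => h ?_
  have h2 : ∀ a b : ZMod 2, a + b = 0 → a = b := by decide
  funext i
  exact h2 _ _ (congrFun h0 i)

theorem xcard_U : (Fintype.card (U r) : ℝ) = 2 ^ r := by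
  simp [U, ZMod.card]

theorem xsum_prod (g : U r → ℝ) : ∑ X : Cf n r, ∏ i, g (X i) = (∑ u, g u) ^ n := by
  have := (Finset.prod_univ_sum (fun _ : Fin n => (univ : Finset (U r))) fun _ u => g u).symm
  rw [Fintype.piFinset_univ] at this
  rw [this]
  simp

theorem xsum_sg_wt (x : W n) : ∑ i, sg (x i) = n - 2 * wt x := by
  have : ∀ i, sg (x i) = 1 - 2 * (if x i ≠ 0 then 1 else 0 : ℝ) := by
    intro i
    unfold sg
    by_cases h : x i = 0 <;> simp [h]
    norm_num
  have h2 : (∑ i, (if x i ≠ 0 then (1 : ℝ) else 0)) = wt x := by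
    rw [Finset.sum_boole]
    rfl
  rw [sum_congr rfl fun i _ => this i, sum_sub_distrib, ← mul_sum, h2]
  simp

theorem xwt_le (x : W n) : wt x ≤ n := by
  unfold wt
  exact (card_le_univ _).trans (by simp)

/-- The exponential moment. -/
theorem xmoment (P : Finset (U r)) (c : U r → ℝ) :
    ∑ X : Cf n r, Real.exp (∑ v ∈ P, c v * (n - 2 * wt (row v X)))
      = (∑ u : U r, Real.exp (∑ v ∈ P, c v * sg (v ⬝ᵥ u))) ^ n := by
  rw [← xsum_prod]
  refine sum_congr rfl fun X _ => ?_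
  rw [← Real.exp_sum]
  congr 1
  rw [sum_comm]
  refine sum_congr rfl fun v _ => ?_
  rw [← mul_sum, ← xsum_sg_wt]
  rfl

theorem xexp_le {y : ℝ} (h : |y| ≤ 1 / 4) : Real.exp y ≤ 1 + y + 5 / 9 * y ^ 2 := by
  have h1 := Real.exp_bound (x := y) (by linarith) (n := 3) (by norm_num)
  have h2 := (abs_le.mp h1).2
  simp [sum_range_succ, Nat.factorial] at h2
  have h3 : |y| ^ 3 ≤ 1 / 4 * y ^ 2 := by
    have : |y| ^ 3 = |y| * y ^ 2 := by
      rw [← sq_abs y]; ring
    rw [this]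
    exact mul_le_mul_of_nonneg_right h (sq_nonneg _)
  nlinarith

/-- The mean of the exponential of a small combination of characters. -/
theorem xmean_exp (P : Finset (U r)) (hP : (0 : U r) ∉ P) (c : U r → ℝ)
    (hc : ∑ v ∈ P, |c v| ≤ 1 / 4) :
    ∑ u : U r, Real.exp (∑ v ∈ P, c v * sg (v ⬝ᵥ u))
      ≤ 2 ^ r * Real.exp (5 / 9 * ∑ v ∈ P, c v ^ 2) := by
  have hy : ∀ u : U r, |∑ v ∈ P, c v * sg (v ⬝ᵥ u)| ≤ 1 / 4 := by
    intro u
    refine (abs_sum_le_sum_abs _ _).trans (le_trans (le_of_eq ?_) hc)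
    refine sum_congr rfl fun v _ => ?_
    rw [abs_mul, xabs_sg, mul_one]
  have h1 : ∑ u : U r, ∑ v ∈ P, c v * sg (v ⬝ᵥ u) = 0 := by
    rw [sum_comm]
    refine sum_eq_zero fun v hv => ?_
    rw [← mul_sum, xsum_sg (fun h => hP (h ▸ hv)), mul_zero]
  have h2 : ∑ u : U r, (∑ v ∈ P, c v * sg (v ⬝ᵥ u)) ^ 2 = 2 ^ r * ∑ v ∈ P, c v ^ 2 := by
    have : ∀ u : U r, (∑ v ∈ P, c v * sg (v ⬝ᵥ u)) ^ 2
        = ∑ v ∈ P, ∑ w ∈ P, c v * c w * (sg (v ⬝ᵥ u) * sg (w ⬝ᵥ u)) := by
      intro u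
      rw [sq, sum_mul_sum]
      refine sum_congr rfl fun v _ => sum_congr rfl fun w _ => by ring
    rw [sum_congr rfl fun u _ => this u, sum_comm, mul_sum]
    refine sum_congr rfl fun v hv => ?_
    rw [sum_comm, sum_eq_single v]
    · rw [← mul_sum, sum_congr rfl fun u _ => xsg_sq _]
      rw [sum_const, card_univ, nsmul_eq_mul, xcard_U]
      ring
    · intro w _ hw
      rw [← mul_sum, xsum_sg_mul (Ne.symm hw), mul_zero]
    · intro h
      exact absurd hv h
  calc ∑ u : U r, Real.exp (∑ v ∈ P, c v * sg (v ⬝ᵥ u))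
      ≤ ∑ u : U r, (1 + (∑ v ∈ P, c v * sg (v ⬝ᵥ u))
          + 5 / 9 * (∑ v ∈ P, c v * sg (v ⬝ᵥ u)) ^ 2) := sum_le_sum fun u _ => xexp_le (hy u)
    _ = 2 ^ r * (5 / 9 * ∑ v ∈ P, c v ^ 2 + 1) := by
        rw [sum_add_distrib, sum_add_distrib, h1, ← mul_sum, h2, sum_const, card_univ,
          nsmul_eq_mul, xcard_U]
        ring
    _ ≤ _ := mul_le_mul_of_nonneg_left (Real.add_one_le_exp _) (by positivity)

/-- The number of tuples with given weights. -/
theorem xcard_weights (hn : 0 < n) (P : Finset (U r)) (hP : (0 : U r) ∉ P) (w : U r → ℕ)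
    (hc : ∑ v ∈ P, |1 - 2 * (w v : ℝ) / n| ≤ 1 / 4) :
    ((univ.filter fun X : Cf n r => ∀ v ∈ P, wt (row v X) = w v).card : ℝ)
      ≤ 2 ^ (r * n) * Real.exp (-(4 / 9) * (n * ∑ v ∈ P, (1 - 2 * (w v : ℝ) / n) ^ 2)) := by
  set c : U r → ℝ := fun v => 1 - 2 * (w v : ℝ) / n with hcd
  have hn0 : (n : ℝ) ≠ 0 := by positivity
  have h1 := xmoment (n := n) P c
  have h2 := xmean_exp P hP c hc
  have h3 : ((univ.filter fun X : Cf n r => ∀ v ∈ P, wt (row v X) = w v).card : ℝ)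
      * Real.exp (n * ∑ v ∈ P, c v ^ 2)
      ≤ ∑ X : Cf n r, Real.exp (∑ v ∈ P, c v * (n - 2 * wt (row v X))) := by
    rw [← nsmul_eq_mul, ← sum_const]
    refine le_trans (le_of_eq ?_) (sum_le_sum_of_subset_of_nonneg
      (filter_subset (fun X : Cf n r => ∀ v ∈ P, wt (row v X) = w v) univ)
      fun X _ _ => (Real.exp_pos _).le)
    refine sum_congr rfl fun X hX => ?_
    rw [mem_filter] at hX
    congr 1
    rw [mul_sum]
    refine sum_congr rfl fun v hv => ?_
    rw [hX.2 v hv, hcd]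
    field_simp
  have h4 : (∑ u : U r, Real.exp (∑ v ∈ P, c v * sg (v ⬝ᵥ u))) ^ n
      ≤ (2 ^ r * Real.exp (5 / 9 * ∑ v ∈ P, c v ^ 2)) ^ n :=
    pow_le_pow_left₀ (sum_nonneg fun u _ => (Real.exp_pos _).le) h2 n
  have h5 : (2 ^ r * Real.exp (5 / 9 * ∑ v ∈ P, c v ^ 2)) ^ n
      = 2 ^ (r * n) * Real.exp (-(4 / 9) * (n * ∑ v ∈ P, c v ^ 2))
        * Real.exp (n * ∑ v ∈ P, c v ^ 2) := by
    rw [mul_assoc, ← Real.exp_add, mul_pow, ← pow_mul, ← Real.exp_nat_mul]
    congr 2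
    ring
  have h6 := h3.trans ((h1.le.trans h4).trans h5.le)
  exact le_of_mul_le_mul_right h6 (Real.exp_pos _)

/-- The number of tuples with an unbalanced row. -/
theorem xcard_tail (v : U r) (hv : v ≠ 0) {s : ℝ} (hs : 0 ≤ s) :
    ((univ.filter fun X : Cf n r => s * n < |(n : ℝ) - 2 * wt (row v X)|).card : ℝ)
      ≤ 2 ^ (r * n + 1) * Real.exp (-(s ^ 2 * n / 2)) := by
  have key : ∀ t : ℝ, ∑ X : Cf n r, Real.exp (t * (n - 2 * wt (row v X)))
      ≤ 2 ^ (r * n) * Real.exp (t ^ 2 * n / 2) := by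
    intro t
    have h1 := xmoment (n := n) {v} fun _ => t
    simp only [sum_singleton] at h1
    rw [h1]
    have h2 : ∑ u : U r, Real.exp (t * sg (v ⬝ᵥ u)) = 2 ^ r * Real.cosh t := by
      have : ∀ u : U r, Real.exp (t * sg (v ⬝ᵥ u))
          = Real.cosh t + sg (v ⬝ᵥ u) * Real.sinh t := by
        intro u
        unfold sg
        split_ifs
        · rw [mul_one, one_mul, Real.cosh_add_sinh]
        · rw [mul_neg_one, neg_one_mul, ← sub_eq_add_neg, Real.cosh_sub_sinh]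
      rw [sum_congr rfl fun u _ => this u, sum_add_distrib, ← sum_mul, xsum_sg hv, zero_mul,
        add_zero, sum_const, card_univ, nsmul_eq_mul, xcard_U]
    rw [h2, mul_pow, ← pow_mul]
    refine mul_le_mul_of_nonneg_left ?_ (by positivity)
    calc Real.cosh t ^ n ≤ (Real.exp (t ^ 2 / 2)) ^ n :=
          pow_le_pow_left₀ (Real.cosh_pos t).le (Real.cosh_le_exp_half_sq t) n
      _ = _ := by
          rw [← Real.exp_nat_mul]
          congr 1
          ring
  have h1 : ((univ.filter fun X : Cf n r => s * n < |(n : ℝ) - 2 * wt (row v X)|).card : ℝ)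
      * Real.exp (s ^ 2 * n)
      ≤ ∑ X : Cf n r, (Real.exp (s * (n - 2 * wt (row v X)))
        + Real.exp (-s * (n - 2 * wt (row v X)))) := by
    rw [← nsmul_eq_mul, ← sum_const]
    refine le_trans (sum_le_sum fun X hX => ?_) (sum_le_sum_of_subset_of_nonneg
      (filter_subset _ _) fun X _ _ => by positivity)
    rw [mem_filter] at hX
    rcases le_total 0 ((n : ℝ) - 2 * wt (row v X)) with h | h
    · have h3 := hX.2
      rw [abs_of_nonneg h] at h3
      have : s ^ 2 * n ≤ s * (n - 2 * wt (row v X)) := by nlinarith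
      have := Real.exp_le_exp.mpr this
      have := (Real.exp_pos (-s * (n - 2 * wt (row v X)))).le
      linarith
    · have h3 := hX.2
      rw [abs_of_nonpos h] at h3
      have : s ^ 2 * n ≤ -s * (n - 2 * wt (row v X)) := by nlinarith
      have := Real.exp_le_exp.mpr this
      have := (Real.exp_pos (s * (n - 2 * wt (row v X)))).le
      linarith
  rw [sum_add_distrib] at h1
  have h2 := key s
  have h3 := key (-s)
  rw [neg_sq] at h3
  have h4 : (2 : ℝ) ^ (r * n + 1) * Real.exp (-(s ^ 2 * n / 2)) * Real.exp (s ^ 2 * n)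
      = 2 * (2 ^ (r * n) * Real.exp (s ^ 2 * n / 2)) := by
    rw [mul_assoc, ← Real.exp_add, pow_succ]
    have : -(s ^ 2 * n / 2) + s ^ 2 * n = s ^ 2 * n / 2 := by ring
    rw [this]
    ring
  refine le_of_mul_le_mul_right ?_ (Real.exp_pos (s ^ 2 * n))
  rw [h4]
  linarith

/-- Radial functions depend on the weight only. -/
theorem xradial {a : W n → ℝ} (ha : SymW a) {x y : W n} (h : wt x = wt y) : a x = a y := by
  classical
  have hc : Fintype.card {i // y i ≠ 0} = Fintype.card {i // x i ≠ 0} := by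
    rw [Fintype.card_subtype, Fintype.card_subtype]
    exact h.symm
  let e : {i // y i ≠ 0} ≃ {i // x i ≠ 0} := Fintype.equivOfCardEq hc
  have key : x ∘ (e.extendSubtype) = y := by
    funext i
    have h2 : ∀ a b : ZMod 2, (a ≠ 0 ↔ b ≠ 0) → a = b := by decide
    refine h2 _ _ ⟨fun h1 => ?_, fun h1 => ?_⟩
    · by_contra h3
      exact e.extendSubtype_not_mem i (not_not.mpr h3) h1
    · exact e.extendSubtype_mem i h1
  rw [← key, ha]

theorem xeven_iff (x : W n) : x ∈ evW n ↔ Even (wt x) := by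
  have h1 : ∑ i, x i = ((wt x : ℕ) : ZMod 2) := by
    unfold wt
    rw [Finset.card_eq_sum_ones, Nat.cast_sum, sum_filter]
    refine sum_congr rfl fun i _ => ?_
    have h2 : ∀ a : ZMod 2, a = if a ≠ 0 then ((1 : ℕ) : ZMod 2) else 0 := by decide
    exact h2 _
  unfold evW
  rw [mem_filter, h1, ZMod.natCast_eq_zero_iff_even]
  simp

theorem xchoose_le (k : ℕ) : n.choose k ≤ (univ.filter fun x : W n => wt x = k).card := by
  classical
  have h1 : (powersetCard k (univ : Finset (Fin n))).card = n.choose k := by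
    rw [card_powersetCard, card_univ, Fintype.card_fin]
  rw [← h1]
  refine card_le_card_of_injOn (fun s i => if i ∈ s then 1 else 0) ?_ ?_
  · intro s hs
    rw [mem_coe, mem_powersetCard] at hs
    simp only [coe_filter, mem_univ, true_and, Set.mem_ofPred_eq]
    unfold wt
    rw [← hs.2]
    congr 1
    ext i
    simp
  · intro s _ t _ hst
    ext i
    have := congrFun hst i
    by_cases h3 : i ∈ s <;> by_cases h4 : i ∈ t <;> simp_all

/-- Pointwise bound for a radial function by its mean square. -/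
theorem xpoint {a : W n → ℝ} (ha : SymW a) {η : ℝ}
    (hE : EW (fun x => a x ^ 2) ≤ η ^ 2) {x : W n} (hx : x ∈ evW n) :
    (n.choose (wt x) : ℝ) * a x ^ 2 ≤ η ^ 2 * 2 ^ (n - 1) := by
  have h1 : ∑ y ∈ evW n, a y ^ 2 ≤ η ^ 2 * 2 ^ (n - 1) := by
    unfold EW at hE
    rwa [div_le_iff₀ (by positivity)] at hE
  refine le_trans ?_ h1
  have h2 : ((univ.filter fun y : W n => wt y = wt x).card : ℝ) * a x ^ 2
      = ∑ y ∈ univ.filter (fun y : W n => wt y = wt x), a y ^ 2 := by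
    rw [← nsmul_eq_mul, ← sum_const]
    refine sum_congr rfl fun y hy => ?_
    rw [mem_filter] at hy
    rw [xradial ha hy.2]
  calc (n.choose (wt x) : ℝ) * a x ^ 2
      ≤ ((univ.filter fun y : W n => wt y = wt x).card : ℝ) * a x ^ 2 :=
        mul_le_mul_of_nonneg_right (by exact_mod_cast xchoose_le _) (sq_nonneg _)
    _ = _ := h2
    _ ≤ _ := by
        refine sum_le_sum_of_subset_of_nonneg (fun y hy => ?_) fun y _ _ => sq_nonneg _
        rw [mem_filter] at hy
        rw [xeven_iff, hy.2, ← xeven_iff]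
        exact hx

theorem xpoint' (hn : 0 < n) {a : W n → ℝ} (ha : SymW a) {η : ℝ} (hη : 0 ≤ η)
    (hE : EW (fun x => a x ^ 2) ≤ η ^ 2) {x : W n} (hx : x ∈ evW n)
    (h1 : |(n : ℝ) - 2 * wt x| ≤ n / 2) :
    |a x| ≤ η * (n + 1) * Real.exp (7 / 20 * (n * (1 - 2 * (wt x : ℝ) / n) ^ 2)) := by
  have hn0 : (0 : ℝ) < n := by exact_mod_cast hn
  obtain ⟨h2, h3⟩ := abs_le.mp h1
  have h4 : n ≤ 4 * wt x := by
    have : (n : ℝ) ≤ 4 * wt x := by linarith
    exact_mod_cast this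
  have h5 : 4 * wt x ≤ 3 * n := by
    have : 4 * (wt x : ℝ) ≤ 3 * n := by linarith
    exact_mod_cast this
  have h6 := LPL.choose_ge h4 h5 hn
  have h7 := xpoint ha hE hx
  have hc : (0 : ℝ) < n.choose (wt x) := by exact_mod_cast Nat.choose_pos (xwt_le x)
  have h8 : (2 : ℝ) ^ (((n : ℝ) - 2 * wt x) ^ 2 / n)
      ≤ Real.exp (7 / 10 * (n * (1 - 2 * (wt x : ℝ) / n) ^ 2)) := by
    rw [Real.rpow_def_of_pos (by norm_num)]
    refine Real.exp_le_exp.mpr ?_
    have e1 : ((n : ℝ) - 2 * wt x) ^ 2 / n = n * (1 - 2 * (wt x : ℝ) / n) ^ 2 := by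
      field_simp
    rw [e1]
    have h10 : Real.log 2 ≤ 7 / 10 := by
      have := Real.log_two_lt_d9
      linarith
    exact mul_le_mul_of_nonneg_right h10 (by positivity)
  have h9 : a x ^ 2 ≤ (η * (n + 1) * Real.exp (7 / 20 * (n * (1 - 2 * (wt x : ℝ) / n) ^ 2))) ^ 2 := by
    have e2 : (η * (n + 1) * Real.exp (7 / 20 * (n * (1 - 2 * (wt x : ℝ) / n) ^ 2))) ^ 2
        = η ^ 2 * (n + 1) ^ 2 * Real.exp (7 / 10 * (n * (1 - 2 * (wt x : ℝ) / n) ^ 2)) := by
      rw [mul_pow, mul_pow, ← Real.exp_nat_mul]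
      congr 2
      push_cast
      ring
    rw [e2]
    have h11 : (2 : ℝ) ^ (n - 1) ≤ 2 ^ n := pow_le_pow_right₀ (by norm_num) (by omega)
    have h12 : (n.choose (wt x) : ℝ) * a x ^ 2 ≤ n.choose (wt x) * (η ^ 2 * (n + 1)
        * Real.exp (7 / 10 * (n * (1 - 2 * (wt x : ℝ) / n) ^ 2))) := by
      calc (n.choose (wt x) : ℝ) * a x ^ 2 ≤ η ^ 2 * 2 ^ (n - 1) := h7
        _ ≤ η ^ 2 * (((n : ℝ) + 1) * n.choose (wt x) * (2 : ℝ) ^ (((n : ℝ) - 2 * wt x) ^ 2 / n)) :=
            mul_le_mul_of_nonneg_left (h11.trans h6) (sq_nonneg _)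
        _ ≤ η ^ 2 * (((n : ℝ) + 1) * n.choose (wt x)
            * Real.exp (7 / 10 * (n * (1 - 2 * (wt x : ℝ) / n) ^ 2))) := by
            gcongr
        _ = _ := by ring
    refine (le_of_mul_le_mul_left h12 hc).trans ?_
    have h13 : (n : ℝ) + 1 ≤ (n + 1) ^ 2 := by nlinarith
    gcongr
  have h14 : 0 ≤ η * (n + 1) * Real.exp (7 / 20 * (n * (1 - 2 * (wt x : ℝ) / n) ^ 2)) := by
    positivity
  rw [← abs_of_nonneg h14]
  exact sq_le_sq.mp h9

theorem xrow_even {X : Cf n r} (hX : X ∈ evC n r) (v : U r) : row v X ∈ evW n := by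
  unfold evC at hX
  rw [mem_filter] at hX
  unfold evW
  rw [mem_filter]
  refine ⟨mem_univ _, ?_⟩
  unfold row
  rw [← dotProduct_sum, hX.2, dotProduct_zero]

/-- Lemma X. -/
theorem lemX (hr : 1 ≤ r) (hn : 0 < n) {a : W n → ℝ} (ha : SymW a) {η A : ℝ} (hη : 0 ≤ η)
    (hη1 : η ≤ 1) (hE : EW (fun x => a x ^ 2) ≤ η ^ 2) (hA : ∀ x ∈ evW n, |a x| ≤ A) (hA1 : 1 ≤ A)
    {R : Finset (U r)} (hR : R ⊆ Pn r) (hR0 : R.Nonempty) :
    EC (fun X : Cf n r => ∏ v ∈ R, |a (row v X)|)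
      ≤ 2 ^ r * (n + 1) ^ (2 * 2 ^ r) * η
        + 2 ^ (2 * r + 1) * A ^ 2 ^ r * Real.exp (-((1 / (2 * (2 ^ r) ^ 2)) ^ 2 * n / 2)) := by
  classical
  set s : ℝ := 1 / (2 * (2 ^ r) ^ 2) with hs
  have hs0 : 0 < s := by positivity
  have hn0 : (0 : ℝ) < n := by exact_mod_cast hn
  have hN2 : (2 : ℝ) ≤ 2 ^ r := by
    calc (2 : ℝ) = 2 ^ 1 := by norm_num
      _ ≤ 2 ^ r := pow_le_pow_right₀ (by norm_num) hr
  have hP0 : (0 : U r) ∉ Pn r := by simp [Pn]
  have hPc : (Pn r).card ≤ 2 ^ r := by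
    have h1 : (Pn r).card ≤ (univ : Finset (U r)).card := card_le_card (subset_univ _)
    have h2 : ((univ : Finset (U r)).card : ℝ) = 2 ^ r := by
      rw [card_univ]
      exact xcard_U
    have h3 : (univ : Finset (U r)).card = 2 ^ r := by exact_mod_cast h2
    omega
  have hRc : R.card ≤ 2 ^ r := (card_le_card hR).trans hPc
  have hs2 : 2 ^ r * s ≤ 1 / 4 := by
    rw [hs]
    have : (2 : ℝ) ^ r * (1 / (2 * (2 ^ r) ^ 2)) = 1 / (2 * 2 ^ r) := by
      field_simp
    rw [this]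
    exact one_div_le_one_div_of_le (by norm_num) (by linarith)
  have hs3 : s ≤ 1 / 4 := by nlinarith
  -- the two parts
  set F : Cf n r → ℝ := fun X => ∏ v ∈ R, |a (row v X)| with hF
  have hF0 : ∀ X, 0 ≤ F X := fun X => prod_nonneg fun v _ => abs_nonneg _
  set good : Finset (Cf n r) := (evC n r).filter fun X => ∀ v ∈ Pn r,
    |(n : ℝ) - 2 * wt (row v X)| ≤ s * n with hgood
  set bad : U r → Finset (Cf n r) := fun v => (evC n r).filter fun X =>
    s * n < |(n : ℝ) - 2 * wt (row v X)| with hbad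
  have hcov : evC n r ⊆ good ∪ (Pn r).biUnion bad := by
    intro X hX
    by_cases h : ∀ v ∈ Pn r, |(n : ℝ) - 2 * wt (row v X)| ≤ s * n
    · exact mem_union_left _ (mem_filter.mpr ⟨hX, h⟩)
    · push Not at h
      obtain ⟨v, hv, h⟩ := h
      exact mem_union_right _ (mem_biUnion.mpr ⟨v, hv, mem_filter.mpr ⟨hX, h⟩⟩)
  have hAF : ∀ X ∈ evC n r, F X ≤ A ^ 2 ^ r := by
    intro X hX
    calc F X ≤ ∏ _v ∈ R, A :=
          prod_le_prod (fun v _ => abs_nonneg _) fun v _ => hA _ (xrow_even hX v)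
      _ = A ^ R.card := by rw [prod_const]
      _ ≤ A ^ 2 ^ r := pow_le_pow_right₀ hA1 hRc
  -- the bad part
  have hB : ∀ v ∈ Pn r, ∑ X ∈ bad v, F X
      ≤ A ^ 2 ^ r * (2 ^ (r * n + 1) * Real.exp (-(s ^ 2 * n / 2))) := by
    intro v hv
    have hv0 : v ≠ 0 := fun h => hP0 (h ▸ hv)
    calc ∑ X ∈ bad v, F X ≤ ∑ _X ∈ bad v, A ^ 2 ^ r :=
          sum_le_sum fun X hX => hAF X (mem_filter.mp hX).1
      _ = ((bad v).card : ℝ) * A ^ 2 ^ r := by rw [sum_const, nsmul_eq_mul]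
      _ ≤ (2 ^ (r * n + 1) * Real.exp (-(s ^ 2 * n / 2))) * A ^ 2 ^ r := by
          refine mul_le_mul_of_nonneg_right ?_ (by positivity)
          refine le_trans ?_ (xcard_tail (n := n) v hv0 hs0.le)
          have : bad v ⊆ univ.filter fun X : Cf n r => s * n < |(n : ℝ) - 2 * wt (row v X)| :=
            filter_subset_filter _ (subset_univ _)
          exact Nat.cast_le.mpr (card_le_card this)
      _ = _ := by ring
  have hBall : ∑ v ∈ Pn r, ∑ X ∈ bad v, F X
      ≤ 2 ^ r * (A ^ 2 ^ r * (2 ^ (r * n + 1) * Real.exp (-(s ^ 2 * n / 2)))) := by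
    calc ∑ v ∈ Pn r, ∑ X ∈ bad v, F X
        ≤ ∑ _v ∈ Pn r, A ^ 2 ^ r * (2 ^ (r * n + 1) * Real.exp (-(s ^ 2 * n / 2))) :=
          sum_le_sum hB
      _ = ((Pn r).card : ℝ) * (A ^ 2 ^ r * (2 ^ (r * n + 1) * Real.exp (-(s ^ 2 * n / 2)))) := by
          rw [sum_const, nsmul_eq_mul]
      _ ≤ _ := by
          refine mul_le_mul_of_nonneg_right ?_ (by positivity)
          exact_mod_cast hPc
  -- the good part
  have hG1 : ∀ X ∈ good, F X ≤ η * ((n : ℝ) + 1) ^ 2 ^ r
      * Real.exp (7 / 20 * (n * ∑ v ∈ Pn r, (1 - 2 * (wt (row v X) : ℝ) / n) ^ 2)) := by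
    intro X hX
    rw [hgood, mem_filter] at hX
    obtain ⟨hX1, hX2⟩ := hX
    obtain ⟨v0, hv0⟩ := hR0
    have step : F X ≤ ∏ v ∈ R, (η * ((n : ℝ) + 1)
        * Real.exp (7 / 20 * (n * (1 - 2 * (wt (row v X) : ℝ) / n) ^ 2))) := by
      refine prod_le_prod (fun v _ => abs_nonneg _) fun v hv => ?_
      refine xpoint' hn ha hη hE (xrow_even hX1 v) ((hX2 v (hR hv)).trans ?_)
      nlinarith
    refine step.trans ?_
    rw [prod_mul_distrib, prod_mul_distrib, prod_const, prod_const, ← Real.exp_sum]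
    have e1 : η ^ R.card ≤ η := by
      have : 1 ≤ R.card := card_pos.mpr ⟨v0, hv0⟩
      calc η ^ R.card ≤ η ^ 1 := pow_le_pow_of_le_one hη hη1 this
        _ = η := pow_one _
    have e2 : ((n : ℝ) + 1) ^ R.card ≤ ((n : ℝ) + 1) ^ 2 ^ r :=
      pow_le_pow_right₀ (by linarith) hRc
    have e3 : Real.exp (∑ v ∈ R, 7 / 20 * (n * (1 - 2 * (wt (row v X) : ℝ) / n) ^ 2))
        ≤ Real.exp (7 / 20 * (n * ∑ v ∈ Pn r, (1 - 2 * (wt (row v X) : ℝ) / n) ^ 2)) := by
      refine Real.exp_le_exp.mpr ?_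
      rw [mul_sum, mul_sum]
      exact sum_le_sum_of_subset_of_nonneg hR fun v _ _ => by positivity
    gcongr
  set K : Finset (U r → ℕ) := Fintype.piFinset fun v => if v ∈ Pn r then range (n + 1) else {0}
    with hK
  have hKc : (K.card : ℝ) ≤ ((n : ℝ) + 1) ^ 2 ^ r := by
    have h1 : K.card ≤ (n + 1) ^ 2 ^ r := by
      rw [hK, Fintype.card_piFinset]
      have h3 : (univ : Finset (U r)).card = 2 ^ r := by
        have h2 : ((univ : Finset (U r)).card : ℝ) = 2 ^ r := by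
          rw [card_univ]
          exact xcard_U
        exact_mod_cast h2
      rw [← h3]
      refine prod_le_pow_card _ _ _ fun v _ => ?_
      split_ifs
      · simp
      · simp
    exact_mod_cast h1
  set ws : Cf n r → U r → ℕ := fun X v => if v ∈ Pn r then wt (row v X) else 0 with hws
  have hmaps : ∀ X ∈ good, ws X ∈ K := by
    intro X _
    rw [hK, Fintype.mem_piFinset]
    intro v
    rw [hws]
    by_cases h : v ∈ Pn r
    · simp only [h, if_true, mem_range]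
      have := xwt_le (row v X)
      omega
    · simp [h]
  have hG2 : ∀ w ∈ K, ∑ X ∈ good.filter (fun X => ws X = w), F X
      ≤ 2 ^ (r * n) * (η * ((n : ℝ) + 1) ^ 2 ^ r) := by
    intro w _
    by_cases hne : (good.filter fun X => ws X = w).Nonempty
    swap
    · rw [not_nonempty_iff_eq_empty] at hne
      rw [hne, sum_empty]
      positivity
    obtain ⟨X0, hX0⟩ := hne
    rw [mem_filter] at hX0
    obtain ⟨hX0, hX0w⟩ := hX0
    rw [hgood, mem_filter] at hX0
    have hw : ∀ v ∈ Pn r, wt (row v X0) = w v := by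
      intro v hv
      rw [← hX0w, hws]
      simp only [hv, if_true]
    have hc : ∑ v ∈ Pn r, |1 - 2 * (w v : ℝ) / n| ≤ 1 / 4 := by
      calc ∑ v ∈ Pn r, |1 - 2 * (w v : ℝ) / n| ≤ ∑ _v ∈ Pn r, s := by
            refine sum_le_sum fun v hv => ?_
            have h1 := hX0.2 v hv
            rw [hw v hv] at h1
            have h2 : 1 - 2 * (w v : ℝ) / n = ((n : ℝ) - 2 * w v) / n := by
              field_simp
            rw [h2, abs_div, abs_of_pos hn0, div_le_iff₀ hn0]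
            exact h1
        _ = ((Pn r).card : ℝ) * s := by rw [sum_const, nsmul_eq_mul]
        _ ≤ 2 ^ r * s := by
            refine mul_le_mul_of_nonneg_right ?_ hs0.le
            exact_mod_cast hPc
        _ ≤ 1 / 4 := hs2
    have hcw := xcard_weights hn (Pn r) hP0 w hc
    set E0 : ℝ := n * ∑ v ∈ Pn r, (1 - 2 * (w v : ℝ) / n) ^ 2 with hE0
    have hE00 : 0 ≤ E0 := mul_nonneg hn0.le (sum_nonneg fun v _ => sq_nonneg _)
    calc ∑ X ∈ good.filter (fun X => ws X = w), F X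
        ≤ ∑ _X ∈ good.filter (fun X => ws X = w), η * ((n : ℝ) + 1) ^ 2 ^ r
            * Real.exp (7 / 20 * E0) := by
          refine sum_le_sum fun X hX => ?_
          rw [mem_filter] at hX
          refine (hG1 X hX.1).trans (le_of_eq ?_)
          rw [hE0]
          congr 4
          refine sum_congr rfl fun v hv => ?_
          have : wt (row v X) = w v := by
            rw [← hX.2, hws]
            simp only [hv, if_true]
          rw [this]
      _ = ((good.filter fun X => ws X = w).card : ℝ) * (η * ((n : ℝ) + 1) ^ 2 ^ r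
            * Real.exp (7 / 20 * E0)) := by rw [sum_const, nsmul_eq_mul]
      _ ≤ (2 ^ (r * n) * Real.exp (-(4 / 9) * E0)) * (η * ((n : ℝ) + 1) ^ 2 ^ r
            * Real.exp (7 / 20 * E0)) := by
          refine mul_le_mul_of_nonneg_right ?_ (by positivity)
          refine le_trans ?_ hcw
          have : (good.filter fun X => ws X = w) ⊆
              (univ.filter fun X : Cf n r => ∀ v ∈ Pn r, wt (row v X) = w v) := by
            intro X hX
            rw [mem_filter] at hX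
            rw [mem_filter]
            refine ⟨mem_univ _, fun v hv => ?_⟩
            rw [← hX.2, hws]
            simp only [hv, if_true]
          exact_mod_cast card_le_card this
      _ = 2 ^ (r * n) * (η * ((n : ℝ) + 1) ^ 2 ^ r) * Real.exp (-(4 / 9) * E0 + 7 / 20 * E0) := by
          rw [Real.exp_add]
          ring
      _ ≤ 2 ^ (r * n) * (η * ((n : ℝ) + 1) ^ 2 ^ r) * 1 := by
          refine mul_le_mul_of_nonneg_left ?_ (by positivity)
          rw [← Real.exp_zero]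
          exact Real.exp_le_exp.mpr (by nlinarith)
      _ = _ := mul_one _
  have hG : ∑ X ∈ good, F X
      ≤ ((n : ℝ) + 1) ^ 2 ^ r * (2 ^ (r * n) * (η * ((n : ℝ) + 1) ^ 2 ^ r)) := by
    rw [← sum_fiberwise_of_maps_to hmaps F]
    calc ∑ w ∈ K, ∑ X ∈ good.filter (fun X => ws X = w), F X
        ≤ ∑ _w ∈ K, 2 ^ (r * n) * (η * ((n : ℝ) + 1) ^ 2 ^ r) := sum_le_sum hG2
      _ = (K.card : ℝ) * (2 ^ (r * n) * (η * ((n : ℝ) + 1) ^ 2 ^ r)) := by
          rw [sum_const, nsmul_eq_mul]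
      _ ≤ _ := mul_le_mul_of_nonneg_right hKc (by positivity)
  -- assembly
  have htot : ∑ X ∈ evC n r, F X ≤ ∑ X ∈ good, F X + ∑ v ∈ Pn r, ∑ X ∈ bad v, F X := by
    calc ∑ X ∈ evC n r, F X ≤ ∑ X ∈ good ∪ (Pn r).biUnion bad, F X :=
          sum_le_sum_of_subset_of_nonneg hcov fun X _ _ => hF0 X
      _ ≤ ∑ X ∈ good, F X + ∑ X ∈ (Pn r).biUnion bad, F X := by
          rw [← sum_union_inter]
          have : 0 ≤ ∑ X ∈ good ∩ (Pn r).biUnion bad, F X := sum_nonneg fun X _ => hF0 X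
          linarith
      _ ≤ _ := by
          have : ∑ X ∈ (Pn r).biUnion bad, F X ≤ ∑ v ∈ Pn r, ∑ X ∈ bad v, F X := by
            induction (Pn r) using Finset.induction_on with
            | empty => simp
            | insert v t hv ih =>
              rw [biUnion_insert, sum_insert hv]
              have h1 : ∑ X ∈ bad v ∪ t.biUnion bad, F X
                  ≤ ∑ X ∈ bad v, F X + ∑ X ∈ t.biUnion bad, F X := by
                rw [← sum_union_inter]
                have : 0 ≤ ∑ X ∈ bad v ∩ t.biUnion bad, F X := sum_nonneg fun X _ => hF0 X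
                linarith
              linarith
          linarith
  unfold EC
  rw [div_le_iff₀ (by positivity)]
  have hpow : (2 : ℝ) ^ (r * n) = 2 ^ r * 2 ^ (r * (n - 1)) := by
    rw [← pow_add]
    congr 1
    obtain ⟨m, rfl⟩ : ∃ m, n = m + 1 := ⟨n - 1, by omega⟩
    rw [Nat.add_sub_cancel]
    ring
  refine htot.trans ((add_le_add hG hBall).trans (le_of_eq ?_))
  rw [pow_succ, hpow]
  rw [show (2 : ℝ) ^ (2 * r + 1) = 2 ^ r * 2 ^ r * 2 by rw [pow_succ, two_mul, pow_add]]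
  rw [show ((n : ℝ) + 1) ^ (2 * 2 ^ r) = ((n : ℝ) + 1) ^ 2 ^ r * ((n : ℝ) + 1) ^ 2 ^ r by
    rw [two_mul, pow_add]]
  ring

end

end Pool.Agent.Lib.MP_0430e4_lc.Lin
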