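import Pool.Agent.Lib.MP_0430e4_lc.Hier.Fin
import Pool.Agent.Lib.MP_0430e4_lc.LPX.FIN
import Pool.Agent.Lib.MP_0430e4_lc.TensorAsym

/-!
# NEAR: the exponent near 1/2
-/

set_option autoImplicit false

namespace Pool.Agent.Lib.MP_0430e4_lc.Lin

open Finset Filter

theorem near_tau {ε τ : ℝ} (h0 : 0 < ε) (hτ0 : 0 ≤ τ) (hτ2 : τ ≤ 1 / 2) (h : τ * (1 - τ) = ε ^ 2)
    (h1 : ε ≤ 1 / 8) : ε ^ 2 ≤ τ ∧ τ ≤ 10 / 9 * ε ^ 2 ∧ 0 < τ ∧ τ < 1 / 10 := by
  have h2 : ε ^ 2 ≤ 1 / 64 := by nlinarith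
  have h3 : ε ^ 2 ≤ τ := by nlinarith
  have h4 : τ ≤ 2 * ε ^ 2 := by nlinarith
  have h5 : 0 < ε ^ 2 := by positivity
  refine ⟨h3, ?_, by linarith, by linarith⟩
  have h6 : τ ≤ 1 / 10 := by linarith
  nlinarith

theorem near_entU {τ : ℝ} (h0 : 0 < τ) (h1 : τ < 1 / 2) :
    Real.binEntropy τ ≤ τ * Real.log (1 / τ) + τ := by
  unfold Real.binEntropy
  rw [one_div]
  have h2 : Real.log (1 - τ)⁻¹ ≤ (1 - τ)⁻¹ - 1 :=
    Real.log_le_sub_one_of_pos (inv_pos.2 (by linarith))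
  have h3 : (1 - τ) * Real.log (1 - τ)⁻¹ ≤ (1 - τ) * ((1 - τ)⁻¹ - 1) :=
    mul_le_mul_of_nonneg_left h2 (by linarith)
  have h4 : (1 - τ) * ((1 - τ)⁻¹ - 1) = τ := by
    rw [mul_sub, mul_inv_cancel₀ (by linarith)]
    ring
  linarith

theorem near_entL {τ : ℝ} (h0 : 0 < τ) (h1 : τ < 1 / 2) :
    τ * Real.log (1 / τ) ≤ Real.binEntropy τ := by
  unfold Real.binEntropy
  rw [one_div]
  have h2 : 0 ≤ Real.log (1 - τ)⁻¹ := by
    apply Real.log_nonneg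
    rw [le_inv_comm₀ one_pos (by linarith)]
    linarith
  have h3 : 0 ≤ (1 - τ) * Real.log (1 - τ)⁻¹ := mul_nonneg (by linarith) h2
  linarith

theorem near_log {ε : ℝ} (h0 : 0 < ε) (h1 : ε ≤ 1 / 8) : 2 ≤ Real.log (1 / ε) := by
  rw [Real.le_log_iff_exp_le (by positivity)]
  have h2 : (8 : ℝ) ≤ 1 / ε := by
    rw [le_div_iff₀ h0]
    linarith
  refine le_trans ?_ h2
  have h3 : Real.exp 2 = Real.exp 1 ^ 2 := by rw [← Real.exp_nat_mul]; norm_num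
  have h4 := Real.exp_one_lt_d9
  have h5 := Real.exp_pos 1
  rw [h3]
  nlinarith

theorem near_up {ε τ : ℝ} (h0 : 0 < ε) (hτ0 : 0 ≤ τ) (hτ2 : τ ≤ 1 / 2) (h : τ * (1 - τ) = ε ^ 2)
    (h1 : ε ≤ 1 / 8) : Real.binEntropy τ ≤ 3 * (ε ^ 2 * Real.log (1 / ε)) := by
  obtain ⟨e1, e2, e3, e4⟩ := near_tau h0 hτ0 hτ2 h h1
  have e5 := near_log h0 h1
  have h5 : 0 < ε ^ 2 := by positivity
  have h6 : Real.log (1 / τ) ≤ 2 * Real.log (1 / ε) := by
    rw [one_div, one_div, Real.log_inv, Real.log_inv]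
    have : Real.log (ε ^ 2) ≤ Real.log τ := Real.log_le_log h5 e1
    rw [Real.log_pow] at this
    push_cast at this
    linarith
  have h7 := near_entU e3 (by linarith : τ < 1 / 2)
  have h8 : τ * Real.log (1 / τ) ≤ τ * (2 * Real.log (1 / ε)) :=
    mul_le_mul_of_nonneg_left h6 e3.le
  have h9 : τ * (2 * Real.log (1 / ε)) ≤ 10 / 9 * ε ^ 2 * (2 * Real.log (1 / ε)) :=
    mul_le_mul_of_nonneg_right e2 (by linarith)
  have h10 : ε ^ 2 * 2 ≤ ε ^ 2 * Real.log (1 / ε) := mul_le_mul_of_nonneg_left e5 h5.le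
  linarith

theorem near_lo {ε τ : ℝ} (h0 : 0 < ε) (hτ0 : 0 ≤ τ) (hτ2 : τ ≤ 1 / 2) (h : τ * (1 - τ) = ε ^ 2)
    (h1 : ε ≤ 1 / 20) : ε ^ 2 * Real.log (1 / ε) ≤
      (Real.binEntropy τ / Real.log 2 - 13 * τ ^ 2) * Real.log 2 := by
  obtain ⟨e1, e2, e3, e4⟩ := near_tau h0 hτ0 hτ2 h (by linarith)
  have e5 := near_log h0 (by linarith)
  have h5 : 0 < ε ^ 2 := by positivity
  have l1 := Real.log_two_lt_d9
  have l2 := Real.log_two_gt_d9
  have h6 : 2 * Real.log (1 / ε) - Real.log 2 ≤ Real.log (1 / τ) := by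
    have h61 : τ ≤ 2 * ε ^ 2 := by linarith
    have h62 : Real.log τ ≤ Real.log (2 * ε ^ 2) := Real.log_le_log e3 h61
    rw [Real.log_mul (by norm_num) (by positivity), Real.log_pow] at h62
    push_cast at h62
    rw [one_div, one_div, Real.log_inv, Real.log_inv]
    linarith
  have h7 := near_entL e3 (by linarith : τ < 1 / 2)
  have h8 : ε ^ 2 * (2 * Real.log (1 / ε) - Real.log 2) ≤ τ * Real.log (1 / τ) :=
    mul_le_mul e1 h6 (by linarith) e3.le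
  have h9 : ε ^ 2 * 2 ≤ ε ^ 2 * Real.log (1 / ε) := mul_le_mul_of_nonneg_left e5 h5.le
  have h10 : (Real.binEntropy τ / Real.log 2 - 13 * τ ^ 2) * Real.log 2 =
      Real.binEntropy τ - 13 * Real.log 2 * τ ^ 2 := by
    field_simp
  rw [h10]
  have h11 : ε ^ 2 ≤ 1 / 400 := by nlinarith
  have h12 : τ ^ 2 ≤ 2 * ε ^ 2 / 360 := by
    have : τ ≤ 1 / 360 := by linarith
    nlinarith
  have h13 : 13 * Real.log 2 * τ ^ 2 ≤ 13 * (7 / 10) * (2 * ε ^ 2 / 360) :=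
    mul_le_mul (by linarith) h12 (by positivity) (by positivity)
  nlinarith

/-- `ε log (1/ε)` is at most `2 √ε`. -/
theorem near_small {ε : ℝ} (h0 : 0 < ε) : ε * Real.log (1 / ε) ≤ 2 * Real.sqrt ε := by
  have hs : 0 < Real.sqrt ε := Real.sqrt_pos.2 h0
  have h1 : Real.log (1 / Real.sqrt ε) ≤ 1 / Real.sqrt ε := by
    have := Real.log_le_sub_one_of_pos (x := 1 / Real.sqrt ε) (by positivity)
    linarith
  have h2 : Real.log (1 / ε) = 2 * Real.log (1 / Real.sqrt ε) := by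
    rw [one_div, one_div, Real.log_inv, Real.log_inv, Real.log_sqrt h0.le]
    ring
  rw [h2]
  have h3 : ε * (2 * Real.log (1 / Real.sqrt ε)) ≤ ε * (2 * (1 / Real.sqrt ε)) :=
    mul_le_mul_of_nonneg_left (by linarith) h0.le
  refine h3.trans (le_of_eq ?_)
  have h4 : ε = Real.sqrt ε * Real.sqrt ε := (Real.mul_self_sqrt h0.le).symm
  rw [mul_one_div, mul_div_assoc']
  rw [div_eq_iff hs.ne']
  nlinarith

theorem ell_near : ∃ ε₀ : ℝ, 0 < ε₀ ∧ ε₀ < 1 / 4 ∧ ∀ ε : ℝ, 0 < ε → ε < ε₀ →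
    ε ^ 2 * Real.log (1 / ε) ≤ Tensor.ell (1 / 2 - ε) * Real.log 2 ∧
      Tensor.ell (1 / 2 - ε) * Real.log 2 ≤ 3 * (ε ^ 2 * Real.log (1 / ε)) := by
  obtain ⟨d0, hd0, hd1, hd⟩ := LPX.liminf_near
  have hl2 : 0 < Real.log 2 := Real.log_pos (by norm_num)
  refine ⟨min (1 / 20) (1 / 2 - d0), lt_min (by norm_num) (by linarith),
    lt_of_le_of_lt (min_le_left _ _) (by norm_num), ?_⟩
  intro ε h0 hε
  have h1 : ε < 1 / 20 := lt_of_lt_of_le hε (min_le_left _ _)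
  have h2 : ε < 1 / 2 - d0 := lt_of_lt_of_le hε (min_le_right _ _)
  constructor
  · have h3 := hd (1 / 2 - ε) (by linarith) (by linarith)
    have h4 := Exact.fin_tendsto Exact.inputs (δ := 1 / 2 - ε) (by linarith) (by linarith)
    have h5 : liminf (fun n : ℕ => Real.logb 2 (Impr.lpBound n ⌈(1 / 2 - ε) * n⌉₊) / n) atTop =
        Tensor.ell (1 / 2 - ε) := h4.liminf_eq
    rw [h5] at h3
    have h6 := mul_le_mul_of_nonneg_right h3 hl2.le
    refine le_trans (near_lo h0 ?_ ?_ ?_ h1.le) h6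
    · exact (LPX.tau_pos (by linarith) (by linarith)).le
    · unfold LPL.tau
      have := Real.sqrt_nonneg ((1 / 2 - ε) * (1 - (1 / 2 - ε)))
      linarith
    · unfold LPL.tau
      have h7 : 0 ≤ (1 / 2 - ε) * (1 - (1 / 2 - ε)) := mul_nonneg (by linarith) (by linarith)
      have h8 := Real.sq_sqrt h7
      nlinarith
  · have h3 := Tensor.ell_le_B (δ := 1 / 2 - ε) (u := 2 * ε) (by linarith) (by linarith)
      (by linarith)
    have h4 : (2 * ε) ^ 2 + 2 * (1 / 2 - ε) * (2 * ε) + 2 * (1 / 2 - ε) = 1 := by ring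
    rw [h4, sub_self, Real.sqrt_zero, mul_zero, sub_zero] at h3
    have h5 : Real.binEntropy (1 / 2) = Real.log 2 := by
      rw [one_div]
      exact Real.binEntropy_two_inv
    rw [h5] at h3
    have h6 := mul_le_mul_of_nonneg_right h3 hl2.le
    have h7 : (1 + (Real.binEntropy (1 / 2 - 1 / 2 * Real.sqrt (1 - (2 * ε) ^ 2)) - Real.log 2) /
        Real.log 2) * Real.log 2 =
        Real.binEntropy (1 / 2 - 1 / 2 * Real.sqrt (1 - (2 * ε) ^ 2)) := by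
      field_simp
      ring
    rw [h7] at h6
    refine h6.trans (near_up h0 ?_ ?_ ?_ (by linarith))
    · have : Real.sqrt (1 - (2 * ε) ^ 2) ≤ 1 := Real.sqrt_le_one.2 (by nlinarith)
      linarith
    · have := Real.sqrt_nonneg (1 - (2 * ε) ^ 2)
      linarith
    · have h8 : 0 ≤ 1 - (2 * ε) ^ 2 := by nlinarith
      have h9 := Real.sq_sqrt h8
      nlinarith

theorem ell_ratio {J ζ : ℝ} (hJ : 0 < J) (hζ : 0 < ζ) : ∃ ε₀ : ℝ, 0 < ε₀ ∧ ε₀ < 1 / 4 ∧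
    ∀ ε : ℝ, 0 < ε → ε < ε₀ → J * (ε ^ 2 * Real.log (1 / ε)) < ε / 8 ∧
      (1 - ζ) * Tensor.ell (1 / 2 - ε) <
        Tensor.ell (1 / 2 - ε + J * (ε ^ 2 * Real.log (1 / ε))) := by
  obtain ⟨e1, he1, he1', hn⟩ := ell_near
  have hl2 : 0 < Real.log 2 := Real.log_pos (by norm_num)
  obtain ⟨c, hc⟩ : ∃ c : ℝ, c = min (ζ / (48 * J)) (1 / (32 * J)) := ⟨_, rfl⟩
  have hc0 : 0 < c := by
    rw [hc]
    exact lt_min (by positivity) (by positivity)
  refine ⟨min (e1 / 2) (c ^ 2), lt_min (by linarith) (by positivity),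
    lt_of_le_of_lt (min_le_left _ _) (by linarith), ?_⟩
  intro ε h0 hε
  have h1 : ε < e1 / 2 := lt_of_lt_of_le hε (min_le_left _ _)
  have h2 : ε < c ^ 2 := lt_of_lt_of_le hε (min_le_right _ _)
  have h3 : Real.sqrt ε < c := by
    rw [Real.sqrt_lt' hc0]
    exact h2
  have h4 := near_small h0
  obtain ⟨Lg, hLg⟩ : ∃ Lg : ℝ, Lg = Real.log (1 / ε) := ⟨_, rfl⟩
  rw [← hLg] at h4 ⊢
  have hLg0 : 0 < Lg := by
    rw [hLg]
    apply Real.log_pos
    rw [lt_div_iff₀ h0]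
    linarith
  obtain ⟨θ, hθ⟩ : ∃ θ : ℝ, θ = J * (ε ^ 2 * Lg) := ⟨_, rfl⟩
  rw [← hθ]
  have hθ0 : 0 < θ := by
    rw [hθ]
    positivity
  -- `θ / ε` is small
  have h5 : θ = ε * (J * (ε * Lg)) := by rw [hθ]; ring
  have h6 : J * (ε * Lg) ≤ J * (2 * Real.sqrt ε) := mul_le_mul_of_nonneg_left h4 hJ.le
  have h7 : J * (2 * Real.sqrt ε) < J * (2 * c) :=
    mul_lt_mul_of_pos_left (by linarith) hJ
  have h8 : J * (2 * c) ≤ ζ / 24 := by
    have : c ≤ ζ / (48 * J) := hc.le.trans (min_le_left _ _)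
    have h81 := mul_le_mul_of_nonneg_left this hJ.le
    have h82 : J * (ζ / (48 * J)) = ζ / 48 := by field_simp
    linarith
  have h9 : J * (2 * c) ≤ 1 / 16 := by
    have : c ≤ 1 / (32 * J) := hc.le.trans (min_le_right _ _)
    have h81 := mul_le_mul_of_nonneg_left this hJ.le
    have h82 : J * (1 / (32 * J)) = 1 / 32 := by field_simp
    linarith
  have h10 : θ < ε / 8 := by
    rw [h5]
    have : J * (ε * Lg) < 1 / 8 := by linarith
    have := mul_lt_mul_of_pos_left this h0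
    linarith
  have h11 : θ < ε * (ζ / 24) := by
    rw [h5]
    exact mul_lt_mul_of_pos_left (by linarith) h0
  refine ⟨h10, ?_⟩
  obtain ⟨g1, g2⟩ := hn ε h0 (by linarith)
  obtain ⟨g3, g4⟩ := hn (2 * ε) (by linarith) (by linarith)
  rw [← hLg] at g1 g2
  have g5 : Real.log (1 / (2 * ε)) ≤ Lg := by
    rw [hLg]
    apply Real.log_le_log (by positivity)
    apply one_div_le_one_div_of_le h0
    linarith
  have g6 : Tensor.ell (1 / 2 - 2 * ε) * Real.log 2 ≤ 12 * (Tensor.ell (1 / 2 - ε) * Real.log 2) := by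
    have : (2 * ε) ^ 2 * Real.log (1 / (2 * ε)) ≤ (2 * ε) ^ 2 * Lg :=
      mul_le_mul_of_nonneg_left g5 (by positivity)
    nlinarith
  have g7 : Tensor.ell (1 / 2 - 2 * ε) ≤ 12 * Tensor.ell (1 / 2 - ε) := by
    have : Tensor.ell (1 / 2 - 2 * ε) * Real.log 2 ≤ (12 * Tensor.ell (1 / 2 - ε)) * Real.log 2 := by
      linarith
    exact le_of_mul_le_mul_right this hl2
  have g8 : 0 < Tensor.ell (1 / 2 - ε) := by
    have : 0 < ε ^ 2 * Lg := by positivity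
    have h : 0 < Tensor.ell (1 / 2 - ε) * Real.log 2 := by linarith
    exact (mul_pos_iff_of_pos_right hl2).1 h
  have g9 : 0 ≤ Tensor.ell (1 / 2 - ε + θ) := Tensor.ell_nonneg (by linarith)
  -- convexity
  have hs : 0 < ε + θ := by linarith
  have m1 : (1 / 2 - 2 * ε : ℝ) ∈ Set.Ici (0 : ℝ) := by simp only [Set.mem_Ici]; linarith
  have m2 : (1 / 2 - ε + θ : ℝ) ∈ Set.Ici (0 : ℝ) := by simp only [Set.mem_Ici]; linarith
  have m3 : (0 : ℝ) ≤ θ / (ε + θ) := by positivity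
  have m4 : (0 : ℝ) ≤ ε / (ε + θ) := by positivity
  have m5 : θ / (ε + θ) + ε / (ε + θ) = 1 := by
    rw [← add_div, add_comm θ ε, div_self hs.ne']
  have c1 := Tensor.ell_convexOn.2 m1 m2 m3 m4 m5
  have c2 : (θ / (ε + θ)) • (1 / 2 - 2 * ε) + (ε / (ε + θ)) • (1 / 2 - ε + θ) = 1 / 2 - ε := by
    simp only [smul_eq_mul]
    field_simp
    ring
  rw [c2] at c1
  simp only [smul_eq_mul] at c1
  have c3 : θ / (ε + θ) ≤ θ / ε := div_le_div_of_nonneg_left hθ0.le h0 (by linarith)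
  have c4 : θ / ε < ζ / 24 := by
    rw [div_lt_iff₀ h0]
    linarith
  have c5 : ε / (ε + θ) ≤ 1 := by
    rw [div_le_one hs]
    linarith
  have c6 : ε / (ε + θ) * Tensor.ell (1 / 2 - ε + θ) ≤ Tensor.ell (1 / 2 - ε + θ) := by
    nlinarith
  have c7 : θ / (ε + θ) * Tensor.ell (1 / 2 - 2 * ε) ≤ ζ / 24 * (12 * Tensor.ell (1 / 2 - ε)) :=
    mul_le_mul (by linarith) g7 (Tensor.ell_nonneg (by linarith)) (by positivity)
  nlinarith

end Pool.Agent.Lib.MP_0430e4_lc.Lin
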