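import Pool.Agent.Lib.MP_0430e4_lc.Lin.Defs

/-!
# NUM: the numerical estimate of one term (pure real analysis)

PROOF. `binom (n, q) ≤ (e n / q)^q`, `binom (n, m) ≤ (e n / m)^m` (`= 1` for `m = 0`). With natural
logarithms, `g = log (n / q) ≥ 0`: `log (n / (q+m)) = g - log (1 + m/q) ≥ g - m/q`, so
`-(3q/2) log (n/(q+m)) ≤ -(3q/2) g + (3/2) m`; and `-(m/2) log (n/(q+m)) + (m/2)(1 + log (n/m)) =
(m/2)(1 + log (1 + q/m)) ≤ m/2 + q/2` (for `m ≥ 1`). Sum of all logarithms:
`≤ q (1 + g) + t log 2 (q + m + 1) - (3q/2) g + (3/2) m + m/2 + q/2 + (r log 2 / 2) m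
 ≤ -(q/2) g + q (3/2 + 2K + 2^r (2 + K) + r K / 2) ≤ -(q/2) (g - 10 * 2^r (K+1)(r+1))`.
-/

set_option autoImplicit false

namespace Pool.Agent.Lib.MP_0430e4_lc.Lin

open Finset

/-- `binom (n, q) ≤ (e n / q)^q`. -/
theorem num_choose_le {n q : ℕ} (hq : 1 ≤ q) (hn : q ≤ n) :
    (n.choose q : ℝ) ≤ Real.exp (q * (1 + Real.log (n / q))) := by
  have hq0 : (0 : ℝ) < q := by exact_mod_cast hq
  have hn0 : (0 : ℝ) < n := by exact_mod_cast (lt_of_lt_of_le hq hn)
  have h1 : (n.choose q : ℝ) ≤ (n : ℝ) ^ q / (q.factorial : ℝ) := Nat.choose_le_pow_div q n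
  have h2 : (q : ℝ) ^ q / (q.factorial : ℝ) ≤ Real.exp q :=
    Real.pow_div_factorial_le_exp _ hq0.le q
  have h3 : Real.exp (q * (1 + Real.log (n / q))) = Real.exp q * ((n : ℝ) / q) ^ q := by
    have : (q : ℝ) * (1 + Real.log (n / q)) = q + q * Real.log (n / q) := by ring
    rw [this, Real.exp_add, Real.exp_nat_mul, Real.exp_log (by positivity)]
  rw [h3]
  calc (n.choose q : ℝ) ≤ (n : ℝ) ^ q / (q.factorial : ℝ) := h1
    _ = ((q : ℝ) ^ q / (q.factorial : ℝ)) * ((n : ℝ) / q) ^ q := by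
        rw [div_pow]; field_simp
    _ ≤ Real.exp q * ((n : ℝ) / q) ^ q := by
        apply mul_le_mul_of_nonneg_right h2; positivity

theorem num_term {n q m t r : ℕ} {K : ℝ} (hq : 1 ≤ q) (hK : 1 ≤ K) (hm : (m : ℝ) ≤ K * q)
    (ht : t ≤ 2 ^ r) (hr : 1 ≤ r) (hn : q + m ≤ n) :
    (n.choose q : ℝ) * 2 ^ (t * (q + m)) * 2 ^ t * (Real.sqrt (((q : ℝ) + m) / n)) ^ (3 * q + m) *
        Real.sqrt ((n.choose m : ℝ) * 2 ^ (r * m)) ≤
      Real.exp (-(q / 2 * (Real.log (n / q) - 10 * 2 ^ r * (K + 1) * (r + 1)))) := by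
  have hq0 : (0 : ℝ) < q := by exact_mod_cast hq
  have hq1 : (1 : ℝ) ≤ q := by exact_mod_cast hq
  have hn0 : (0 : ℝ) < n := by
    have : 0 < n := by omega
    exact_mod_cast this
  have hm0 : (0 : ℝ) ≤ m := Nat.cast_nonneg m
  have hqm : (0 : ℝ) < (q : ℝ) + m := by positivity
  have hr1 : (1 : ℝ) ≤ r := by exact_mod_cast hr
  have ht' : (t : ℝ) ≤ 2 ^ r := by exact_mod_cast ht
  have h2r : (2 : ℝ) ≤ 2 ^ r := by
    calc (2 : ℝ) = 2 ^ 1 := by norm_num
      _ ≤ 2 ^ r := pow_le_pow_right₀ (by norm_num) hr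
  set g := Real.log ((n : ℝ) / q) with hg
  have hl2 : Real.log 2 ≤ 1 := by
    have := Real.log_two_lt_d9
    linarith
  have hl20 : 0 ≤ Real.log 2 := Real.log_nonneg (by norm_num)
  -- the five factors
  have e1 : (n.choose q : ℝ) ≤ Real.exp (q * (1 + g)) := num_choose_le hq (by omega)
  have e2 : (2 : ℝ) ^ (t * (q + m)) * 2 ^ t ≤ Real.exp (2 ^ r * (q * (K + 2))) := by
    rw [← pow_add]
    have : ((2 : ℝ)) ^ (t * (q + m) + t) = Real.exp (((t * (q + m) + t : ℕ) : ℝ) * Real.log 2) := by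
      rw [Real.exp_nat_mul, Real.exp_log (by norm_num)]
    rw [this]
    apply Real.exp_le_exp.mpr
    push_cast
    have a1 : ((t : ℝ) * (q + m) + t) * Real.log 2 ≤ (t : ℝ) * (q + m) + t := by
      have : 0 ≤ (t : ℝ) * (q + m) + t := by positivity
      nlinarith
    have a2 : (t : ℝ) * (q + m) + t = t * (q + m + 1) := by ring
    have a3 : (t : ℝ) * (q + m + 1) ≤ 2 ^ r * (q + m + 1) := by
      apply mul_le_mul_of_nonneg_right ht'; positivity
    have a4 : (q : ℝ) + m + 1 ≤ q * (K + 2) := by nlinarith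
    have a5 : (2 : ℝ) ^ r * (q + m + 1) ≤ 2 ^ r * (q * (K + 2)) :=
      mul_le_mul_of_nonneg_left a4 (by positivity)
    linarith
  have e3 : (Real.sqrt (((q : ℝ) + m) / n)) ^ (3 * q + m) =
      Real.exp (-((3 * q + m) / 2 * Real.log (n / (q + m)))) := by
    have hpos : 0 < ((q : ℝ) + m) / n := by positivity
    have b1 : Real.sqrt (((q : ℝ) + m) / n) = Real.exp (-(Real.log (n / (q + m)) / 2)) := by
      rw [← Real.exp_log (Real.sqrt_pos.mpr hpos), Real.log_sqrt hpos.le]
      congr 1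
      have : ((q : ℝ) + m) / n = ((n : ℝ) / (q + m))⁻¹ := by rw [inv_div]
      rw [this, Real.log_inv]; ring
    rw [b1, ← Real.exp_nat_mul]
    congr 1
    push_cast; ring
  have hgm : g - m / q ≤ Real.log (n / (q + m)) := by
    have c1 : Real.log ((n : ℝ) / (q + m)) = g - Real.log (1 + m / q) := by
      rw [hg, ← Real.log_div (by positivity) (by positivity)]
      congr 1
      field_simp
    have c2 : Real.log (1 + (m : ℝ) / q) ≤ m / q := by
      have := Real.log_le_sub_one_of_pos (show (0 : ℝ) < 1 + (m : ℝ) / q by positivity)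
      linarith
    linarith
  have e4 : Real.sqrt ((n.choose m : ℝ) * 2 ^ (r * m)) ≤
      Real.exp (m / 2 * Real.log (n / (q + m)) + m / 2 + q / 2 + r * m / 2) := by
    rcases Nat.eq_zero_or_pos m with hm1 | hm1
    · subst hm1
      simp
      positivity
    · have hm2 : (0 : ℝ) < m := by exact_mod_cast hm1
      have d1 : (n.choose m : ℝ) ≤ Real.exp (m * (1 + Real.log (n / m))) :=
        num_choose_le hm1 (by omega)
      have d2 : (2 : ℝ) ^ (r * m) ≤ Real.exp (r * m) := by
        have : ((2 : ℝ)) ^ (r * m) = Real.exp (((r * m : ℕ) : ℝ) * Real.log 2) := by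
          rw [Real.exp_nat_mul, Real.exp_log (by norm_num)]
        rw [this]
        apply Real.exp_le_exp.mpr
        push_cast
        have : 0 ≤ (r : ℝ) * m := by positivity
        nlinarith
      have d3 : Real.log ((n : ℝ) / m) ≤ Real.log (n / (q + m)) + q / m := by
        have c1 : Real.log ((n : ℝ) / (q + m)) = Real.log (n / m) - Real.log (1 + q / m) := by
          rw [← Real.log_div (by positivity) (by positivity)]
          congr 1
          field_simp
          ring
        have c2 : Real.log (1 + (q : ℝ) / m) ≤ q / m := by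
          have := Real.log_le_sub_one_of_pos (show (0 : ℝ) < 1 + (q : ℝ) / m by positivity)
          linarith
        linarith
      rw [Real.sqrt_le_left (Real.exp_pos _).le, ← Real.exp_nat_mul]
      calc (n.choose m : ℝ) * 2 ^ (r * m) ≤
          Real.exp (m * (1 + Real.log (n / m))) * Real.exp (r * m) := by
            apply mul_le_mul d1 d2 (by positivity) (Real.exp_pos _).le
        _ = Real.exp (m * (1 + Real.log (n / m)) + r * m) := by rw [Real.exp_add]
        _ ≤ _ := by
            apply Real.exp_le_exp.mpr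
            have d4 : (m : ℝ) * Real.log ((n : ℝ) / m) ≤
                m * Real.log (n / (q + m)) + q := by
              have := mul_le_mul_of_nonneg_left d3 hm2.le
              have h5 : (m : ℝ) * (Real.log (n / (q + m)) + q / m) =
                m * Real.log (n / (q + m)) + q := by
                field_simp
              linarith
            push_cast
            nlinarith
  have hfin : (q * (1 + g)) + (2 ^ r * (q * (K + 2))) + (-((3 * q + m) / 2 * Real.log (n / (q + m))))
      + (m / 2 * Real.log (n / (q + m)) + m / 2 + q / 2 + r * m / 2) ≤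
      -(q / 2 * (g - 10 * 2 ^ r * (K + 1) * (r + 1))) := by
    have f1 : -((3 * q + m) / 2 * Real.log (n / (q + m))) + m / 2 * Real.log (n / (q + m)) =
        -(3 * q / 2 * Real.log (n / (q + m))) := by ring
    have f2 : (3 * (q : ℝ) / 2) * (g - m / q) ≤ 3 * q / 2 * Real.log (n / (q + m)) :=
      mul_le_mul_of_nonneg_left hgm (by positivity)
    have f3 : (3 * (q : ℝ) / 2) * (g - m / q) = 3 * q / 2 * g - 3 / 2 * m := by
      field_simp
    have f4 : (r : ℝ) * m ≤ r * (K * q) := mul_le_mul_of_nonneg_left hm (by positivity)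
    have f5 : (3 : ℝ) / 2 + 2 * K + 2 ^ r * (K + 2) + r * K / 2 ≤
        5 * 2 ^ r * (K + 1) * (r + 1) := by
      have g1 : (3 : ℝ) / 2 + 2 * K ≤ 2 ^ r * (K + 1) := by nlinarith
      have g2 : (2 : ℝ) ^ r * (K + 2) ≤ 2 * (2 ^ r * (K + 1)) := by nlinarith
      have g3 : (r : ℝ) * K / 2 ≤ 2 ^ r * (K + 1) * (r + 1) := by
        have : (r : ℝ) * K / 2 ≤ (K + 1) * (r + 1) := by nlinarith
        have h0 : 0 ≤ (K + 1) * ((r : ℝ) + 1) := by positivity
        nlinarith
      have g4 : 0 ≤ 2 ^ r * (K + 1) := by positivity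
      have g5 : 3 * (2 ^ r * (K + 1)) ≤ 3 / 2 * (2 ^ r * (K + 1)) * (r + 1) := by nlinarith
      nlinarith
    have f6 := mul_le_mul_of_nonneg_left f5 hq0.le
    nlinarith
  calc (n.choose q : ℝ) * 2 ^ (t * (q + m)) * 2 ^ t * (Real.sqrt (((q : ℝ) + m) / n)) ^ (3 * q + m) *
        Real.sqrt ((n.choose m : ℝ) * 2 ^ (r * m))
      = (n.choose q : ℝ) * (2 ^ (t * (q + m)) * 2 ^ t) *
        (Real.sqrt (((q : ℝ) + m) / n)) ^ (3 * q + m) *
        Real.sqrt ((n.choose m : ℝ) * 2 ^ (r * m)) := by ring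
    _ ≤ Real.exp (q * (1 + g)) * Real.exp (2 ^ r * (q * (K + 2))) *
        Real.exp (-((3 * q + m) / 2 * Real.log (n / (q + m)))) *
        Real.exp (m / 2 * Real.log (n / (q + m)) + m / 2 + q / 2 + r * m / 2) := by
        rw [e3]
        gcongr
    _ = Real.exp ((q * (1 + g)) + (2 ^ r * (q * (K + 2))) +
        (-((3 * q + m) / 2 * Real.log (n / (q + m))))
      + (m / 2 * Real.log (n / (q + m)) + m / 2 + q / 2 + r * m / 2)) := by
        rw [← Real.exp_add, ← Real.exp_add, ← Real.exp_add]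
    _ ≤ _ := Real.exp_le_exp.mpr hfin

/-- Sums of binomial coefficients. -/
theorem sum_choose_le {n N0 : ℕ} (h1 : 1 ≤ N0) (h2 : 2 * N0 ≤ n) :
    ∑ q ∈ range (N0 + 1), (n.choose q : ℝ) ≤ Real.exp (N0 * (1 + Real.log (n / N0))) := by
  have hq0 : (0 : ℝ) < N0 := by exact_mod_cast h1
  have hn0 : (0 : ℝ) < n := by
    have : 0 < n := by omega
    exact_mod_cast this
  have hge : (1 : ℝ) ≤ (n : ℝ) / N0 := by
    rw [le_div_iff₀ hq0, one_mul]
    have : N0 ≤ n := by omega
    exact_mod_cast this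
  have h3 : Real.exp (N0 * (1 + Real.log (n / N0))) = Real.exp N0 * ((n : ℝ) / N0) ^ N0 := by
    have : (N0 : ℝ) * (1 + Real.log (n / N0)) = N0 + N0 * Real.log (n / N0) := by ring
    rw [this, Real.exp_add, Real.exp_nat_mul, Real.exp_log (by positivity)]
  rw [h3]
  calc ∑ q ∈ range (N0 + 1), (n.choose q : ℝ)
      ≤ ∑ q ∈ range (N0 + 1), ((N0 : ℝ) ^ q / (q.factorial : ℝ)) * ((n : ℝ) / N0) ^ N0 := by
        apply Finset.sum_le_sum
        intro q hq
        have hqN : q ≤ N0 := by
          have := Finset.mem_range.mp hq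
          omega
        calc (n.choose q : ℝ) ≤ (n : ℝ) ^ q / (q.factorial : ℝ) := Nat.choose_le_pow_div q n
          _ = ((N0 : ℝ) ^ q / (q.factorial : ℝ)) * ((n : ℝ) / N0) ^ q := by
              rw [div_pow]; field_simp
          _ ≤ ((N0 : ℝ) ^ q / (q.factorial : ℝ)) * ((n : ℝ) / N0) ^ N0 := by
              apply mul_le_mul_of_nonneg_left _ (by positivity)
              exact pow_le_pow_right₀ hge hqN
    _ = (∑ q ∈ range (N0 + 1), ((N0 : ℝ) ^ q / (q.factorial : ℝ))) * ((n : ℝ) / N0) ^ N0 := by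
        rw [Finset.sum_mul]
    _ ≤ Real.exp N0 * ((n : ℝ) / N0) ^ N0 := by
        apply mul_le_mul_of_nonneg_right _ (by positivity)
        exact Real.sum_le_exp_of_nonneg hq0.le (N0 + 1)

theorem choose_mono_half {n a t : ℕ} (h1 : a ≤ t) (h2 : 2 * t ≤ n) :
    n.choose a ≤ n.choose t := by
  induction t with
  | zero => simp_all
  | succ t ih =>
    rcases Nat.lt_or_ge t a with h | h
    · have : a = t + 1 := by omega
      rw [this]
    · exact (ih h (by omega)).trans (Nat.choose_le_succ_of_lt_half_left (by omega))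

/-- Unimodality. -/
theorem choose_between {n a b t : ℕ} (ha : 2 * a ≤ n) (hb : 2 * b ≤ n) (h1 : a ≤ t)
    (h2 : t + b ≤ n) : min (n.choose a) (n.choose b) ≤ n.choose t := by
  rcases Nat.le_total (2 * t) n with h | h
  · exact (min_le_left _ _).trans (choose_mono_half h1 h)
  · have : n.choose t = n.choose (n - t) := (Nat.choose_symm (by omega)).symm
    rw [this]
    exact (min_le_right _ _).trans (choose_mono_half (by omega) (by omega))

theorem choose_ge_pow {n a : ℕ} (h1 : 1 ≤ a) (h2 : a ≤ n) :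
    Real.exp (a * Real.log (n / a)) ≤ (n.choose a : ℝ) := by
  have key : ∀ a n : ℕ, a ≤ n → ((n : ℝ) / a) ^ a ≤ (n.choose a : ℝ) := by
    intro a
    induction a with
    | zero => intro n _; simp
    | succ a ih =>
      intro n hn
      obtain ⟨n, rfl⟩ : ∃ k, n = k + 1 := ⟨n - 1, by omega⟩
      have hn' : a ≤ n := by omega
      have h3 := ih n hn'
      have h4 : ((n : ℝ) + 1) * (n.choose a : ℝ) = ((n + 1).choose (a + 1) : ℝ) * (a + 1) := by
        exact_mod_cast Nat.add_one_mul_choose_eq n a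
      have h5 : (((n + 1).choose (a + 1) : ℕ) : ℝ) = ((n : ℝ) + 1) / (a + 1) * (n.choose a : ℝ) := by
        field_simp
        linarith
      rw [h5]
      push_cast
      rw [pow_succ, mul_comm]
      apply mul_le_mul_of_nonneg_left _ (by positivity)
      refine le_trans ?_ h3
      rcases Nat.eq_zero_or_pos a with h0 | h0
      · subst h0; simp
      · apply pow_le_pow_left₀ (by positivity)
        have ha0 : (0 : ℝ) < a := by exact_mod_cast h0
        have hn'' : (a : ℝ) ≤ n := by exact_mod_cast hn'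
        rw [div_le_div_iff₀ (by positivity) ha0]
        nlinarith
  have ha0 : (0 : ℝ) < a := by exact_mod_cast h1
  have hn0 : (0 : ℝ) < n := by exact_mod_cast (lt_of_lt_of_le h1 h2)
  rw [Real.exp_nat_mul, Real.exp_log (by positivity)]
  exact key a n h2

end Pool.Agent.Lib.MP_0430e4_lc.Lin
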