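import Pool.Agent.Lib.MP_0430e4_lc.Lin.BDD
import Pool.Agent.Lib.MP_0430e4_lc.Impr.LPV

/-!
# The upper bound: level `l` is at most the `l`-th power of Delsarte's linear program
-/

set_option autoImplicit false

namespace Pool.Agent.Lib.MP_0430e4_lc.Lin.Asm

open Finset Matrix

variable {n l : ℕ}

/-- the isomorphism of the two-element sets -/
def bz : Bool ≃ ZMod 2 where
  toFun b := if b = true then 1 else 0
  invFun a := decide (a = 1)
  left_inv b := by cases b <;> decide
  right_inv a := by
    rcases zm2 a with rfl | rfl <;> decide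

/-- words over `Bool` and over `ZMod 2` -/
def bw (n : ℕ) : (Fin n → Bool) ≃ W n := Equiv.piCongrRight fun _ => bz

theorem bw_apply (x : Fin n → Bool) (i : Fin n) : bw n x i = if x i = true then 1 else 0 := rfl

theorem wt_bw (x : Fin n → Bool) : wt (bw n x) = (univ.filter fun i => x i = true).card := by
  unfold wt
  congr 1
  ext i
  simp only [mem_filter, mem_univ, true_and, bw_apply]
  by_cases h : x i = true <;> simp [h]

theorem chw_bw (x y : Fin n → Bool) : chw (bw n y) (bw n x) = Tensor.chi x y := by
  unfold chw Tensor.chi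
  apply Finset.prod_congr rfl
  intro i _
  rw [sg_mul, bw_apply, bw_apply]
  cases hx : x i <;> cases hy : y i <;> simp

/-- tuples of `l + 1` words -/
def consE (n l : ℕ) : W n × Cf n l ≃ Cf n (l + 1) where
  toFun p := fun i => vecCons (p.1 i) (p.2 i)
  invFun X := (fun i => X i 0, fun i => Fin.tail (X i))
  left_inv p := by
    rcases p with ⟨x, Y⟩
    rfl
  right_inv X := by
    funext i
    exact Fin.cons_self_tail (X i)

theorem row_cons (a : ZMod 2) (c : U l) (x : W n) (Y : Cf n l) :
    row (vecCons a c) (consE n l (x, Y)) = a • x + row c Y := by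
  funext i
  unfold row consE
  simp

theorem ch_cons (w : W n) (Ξ : Cf n l) (x : W n) (Y : Cf n l) :
    ch (consE n l (w, Ξ)) (consE n l (x, Y)) = chw w x * ch Ξ Y := by
  unfold ch chw consE
  simp only [Equiv.coe_fn_mk, cons_dotProduct_cons]
  rw [← Finset.prod_mul_distrib]
  exact Finset.prod_congr rfl fun i _ => sg_add _ _

theorem sum_cons (F : Cf n (l + 1) → ℝ) : ∑ X, F X = ∑ x : W n, ∑ Y : Cf n l, F (consE n l (x, Y)) := by
  rw [← Equiv.sum_comp (consE n l), Fintype.sum_prod_type]

theorem consE_zero : consE n l (0, 0) = 0 := by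
  funext i
  unfold consE
  simp

theorem chw_zero_left (x : W n) : chw 0 x = 1 := by
  unfold chw
  simp [sg_zero]

/-- the characters of words are orthogonal -/
theorem sum_chw (x : W n) : ∑ w : W n, chw w x = if x = 0 then 2 ^ n else 0 := by
  unfold chw
  have h2 : ∑ w : W n, ∏ i, sg (w i * x i) = ∏ i : Fin n, ∑ a : ZMod 2, sg (a * x i) := by
    rw [Finset.prod_univ_sum, Fintype.piFinset_univ]
  rw [h2]
  have h3 : ∀ b : ZMod 2, ∑ a : ZMod 2, sg (a * b) = if b = 0 then 2 else 0 := by
    intro b
    have : (univ : Finset (ZMod 2)) = {0, 1} := by decide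
    rw [this, Finset.sum_pair (by decide)]
    rcases zm2 b with rfl | rfl
    · simp [sg]; norm_num
    · simp [sg]
  simp_rw [h3]
  by_cases hx : x = 0
  · subst hx
    simp
  · rw [if_neg hx]
    obtain ⟨i, hi⟩ := Function.ne_iff.1 hx
    exact Finset.prod_eq_zero (mem_univ i) (if_neg hi)

/-- a function on words with the properties of the program, up to normalisation -/
theorem le_lpBound_mul {d : ℕ} {h : W n → ℝ} (h0 : ∀ x, 0 ≤ h x) (hpos : 0 < h 0)
    (hd : ∀ x, 0 < wt x → wt x < d → h x = 0) (hF : ∀ w, 0 ≤ ∑ x, h x * chw w x) :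
    ∑ x, h x ≤ Impr.lpBound n d * h 0 := by
  have key : (∑ x, h x) / h 0 ≤ Impr.lpBound n d := by
    unfold Impr.lpBound
    apply le_csSup (Impr.lpBound_bdd n d)
    refine ⟨fun x => h (bw n x) / h 0, ?_, fun x => div_nonneg (h0 _) hpos.le, ?_, ?_, ?_⟩
    · have : bw n (fun _ => false) = 0 := by
        funext i
        simp [bw_apply]
      change h (bw n fun _ => false) / h 0 = 1
      rw [this, div_self hpos.ne']
    · intro x hx hxd
      rw [← wt_bw] at hxd
      have h1 : 0 < wt (bw n x) := by
        rw [wt_bw, Finset.card_pos]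
        by_contra hcon
        rw [Finset.not_nonempty_iff_eq_empty] at hcon
        apply hx
        funext i
        have : i ∉ (univ.filter fun i => x i = true) := by rw [hcon]; exact Finset.notMem_empty i
        simpa using this
      simp only [hd _ h1 hxd, zero_div]
    · intro y
      have h1 := hF (bw n y)
      rw [← Equiv.sum_comp (bw n)] at h1
      have h2 : ∑ x, h (bw n x) / h 0 * Tensor.chi x y = (∑ x, h (bw n x) * chw (bw n y) (bw n x)) / h 0 := by
        rw [Finset.sum_div]
        exact Finset.sum_congr rfl fun x _ => by rw [chw_bw]; ring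
      rw [h2]
      exact div_nonneg h1 hpos.le
    · rw [← Equiv.sum_comp (bw n), Finset.sum_div]
  rwa [div_le_iff₀ hpos] at key

theorem nonempty_vals (l n d : ℕ) :
    {s : ℝ | ∃ f : Cf n l → ℝ, Feas l n d f ∧ s = ∑ X, f X}.Nonempty :=
  ⟨_, _, feas_delta l n d, rfl⟩

theorem linLP_succ_le (l n d : ℕ) :
    linLP (l + 1) n d ≤ Impr.lpBound n d * linLP l n d := by
  rw [linLP_eq]
  apply csSup_le (nonempty_vals _ _ _)
  rintro s ⟨f, hf, rfl⟩
  -- the fibre over zero is feasible
  have hfib : Feas l n d (fun Y => f (consE n l (0, Y))) := by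
    refine ⟨fun Y => hf.nonneg _, ?_, ?_, ?_⟩
    · rw [consE_zero, hf.zero]
    · intro Y c hc hcd
      apply hf.dist _ (vecCons 0 c)
      · rw [row_cons, zero_smul, zero_add]; exact hc
      · rw [row_cons, zero_smul, zero_add]; exact hcd
    · intro Ξ
      have h1 : ∀ w : W n, 0 ≤ ∑ x : W n, ∑ Y : Cf n l, f (consE n l (x, Y)) * (chw w x * ch Ξ Y) := by
        intro w
        have := hf.four (consE n l (w, Ξ))
        rw [sum_cons] at this
        simpa only [ch_cons] using this
      have h2 : ∑ w : W n, ∑ x : W n, ∑ Y : Cf n l, f (consE n l (x, Y)) * (chw w x * ch Ξ Y) =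
          2 ^ n * ∑ Y : Cf n l, f (consE n l (0, Y)) * ch Ξ Y := by
        rw [Finset.sum_comm]
        have h3 : ∀ x : W n, ∑ w : W n, ∑ Y : Cf n l, f (consE n l (x, Y)) * (chw w x * ch Ξ Y) =
            (∑ w : W n, chw w x) * ∑ Y : Cf n l, f (consE n l (x, Y)) * ch Ξ Y := by
          intro x
          rw [Finset.sum_mul]
          apply Finset.sum_congr rfl
          intro w _
          rw [Finset.mul_sum]
          exact Finset.sum_congr rfl fun Y _ => by ring
        simp_rw [h3, sum_chw]
        rw [Finset.sum_eq_single (0 : W n)]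
        · rw [if_pos rfl]
        · intro x _ hx
          rw [if_neg hx, zero_mul]
        · intro h
          exact absurd (mem_univ _) h
      have h4 := Finset.sum_nonneg fun w (_ : w ∈ (univ : Finset (W n))) => h1 w
      rw [h2] at h4
      exact nonneg_of_mul_nonneg_right h4 (by positivity)
  have hm := le_linLP hfib
  set m : ℝ := ∑ Y : Cf n l, f (consE n l (0, Y)) with hm0
  have hm1 : 1 ≤ m := by
    have : f (consE n l (0, 0)) ≤ m :=
      Finset.single_le_sum (f := fun Y => f (consE n l (0, Y))) (fun Y _ => hf.nonneg _) (mem_univ 0)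
    rwa [consE_zero, hf.zero] at this
  -- the marginal
  have hmarg := le_lpBound_mul (n := n) (d := d) (h := fun x => ∑ Y : Cf n l, f (consE n l (x, Y)))
    (fun x => Finset.sum_nonneg fun Y _ => hf.nonneg _) (by
      change 0 < m
      linarith) (by
      intro x hx hxd
      apply Finset.sum_eq_zero
      intro Y _
      apply hf.dist _ (vecCons 1 0)
      · rw [row_cons, one_smul]
        have : row (0 : U l) Y = 0 := by
          unfold row
          funext i
          simp
        rw [this, add_zero]
        exact hx
      · rw [row_cons, one_smul]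
        have : row (0 : U l) Y = 0 := by
          unfold row
          funext i
          simp
        rw [this, add_zero]
        exact hxd) (by
      intro w
      have := hf.four (consE n l (w, 0))
      rw [sum_cons] at this
      refine this.trans_eq ?_
      apply Finset.sum_congr rfl
      intro x _
      rw [Finset.sum_mul]
      apply Finset.sum_congr rfl
      intro Y _
      rw [ch_cons, ch_zero_left, mul_one])
  rw [sum_cons]
  refine hmarg.trans ?_
  apply mul_le_mul_of_nonneg_left hm
  have h1 : 1 ≤ Impr.lpBound n d := by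
    have := le_lpBound_mul (n := n) (d := d) (h := fun x : W n => if x = 0 then 1 else 0)
      (fun x => by split_ifs <;> norm_num) (by simp) (by
        intro x hx _
        rw [if_neg]
        rintro rfl
        unfold wt at hx
        simp at hx) (by
        intro w
        apply Finset.sum_nonneg
        intro x _
        split_ifs with h
        · rw [h]
          unfold chw
          simp [sg_zero]
        · simp)
    simpa using this
  linarith

/-- THE UPPER BOUND. -/
theorem linLP_le (l n d : ℕ) : linLP l n d ≤ Impr.lpBound n d ^ l := by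
  induction l with
  | zero =>
    rw [pow_zero, linLP_eq]
    apply csSup_le (nonempty_vals _ _ _)
    rintro s ⟨f, hf, rfl⟩
    have := feas_le hf
    simpa using this
  | succ l ih =>
    refine (linLP_succ_le l n d).trans ?_
    rw [pow_succ']
    apply mul_le_mul_of_nonneg_left ih
    by_contra hcon
    push Not at hcon
    have h1 := linLP_succ_le l n d
    have h2 := one_le_linLP (l + 1) n d
    have h3 := one_le_linLP l n d
    nlinarith

end Pool.Agent.Lib.MP_0430e4_lc.Lin.Asm
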