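import Pool.Agent.Lib.MP_0430e4_lc.Lin.ASM
import Pool.Agent.Lib.MP_0430e4_lc.Lin.UP
import Pool.Agent.Lib.MP_0430e4_lc.Exact.INP

/-!
# The exponent of level `l` from the existence of generic functions
-/

set_option autoImplicit false

namespace Pool.Agent.Lib.MP_0430e4_lc.Lin.Asm

open Finset Matrix Filter Topology

/-- The exponent of level `l` is the exponent of Delsarte's linear program whenever generic
functions exist for all smaller rates. -/
theorem tendsto_of_generic {l : ℕ} (hl : 1 ≤ l) {δ : ℝ} (h0 : 0 < δ) (h1 : δ < 1 / 2)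
    (hm : ∀ R : ℝ, R < Tensor.ell δ * Real.log 2 →
      ∃ C : ℝ, 1 ≤ C ∧ ∀ᶠ n : ℕ in atTop, Generic l n ⌈δ * n⌉₊ (Real.exp (n * R)) C) :
    Tendsto (fun n : ℕ => Real.logb 2 (linLP l n ⌈δ * n⌉₊) / (l * n)) atTop
      (𝓝 (Tensor.ell δ)) := by
  have hl2 : 0 < Real.log 2 := Real.log_pos (by norm_num)
  have hlR : (0 : ℝ) < l := by exact_mod_cast hl
  apply tendsto_order.2
  constructor
  · intro a ha
    rcases lt_or_ge a 0 with ha0 | ha0
    · filter_upwards with n
      refine lt_of_lt_of_le ha0 ?_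
      apply div_nonneg _ (by positivity)
      exact Real.logb_nonneg (by norm_num) (one_le_linLP _ _ _)
    · have ha' : a * Real.log 2 < Tensor.ell δ * Real.log 2 := mul_lt_mul_of_pos_right ha hl2
      obtain ⟨R, hR1, hR2⟩ := exists_between ha'
      have hR0 : 0 < R := lt_of_le_of_lt (mul_nonneg ha0 hl2.le) hR1
      obtain ⟨C, hC, hev⟩ := hm R hR2
      set G : ℝ := 4 * 2 ^ (l * l) * C with hG
      have hN : (1 : ℝ) ≤ 2 ^ (l * l) := one_le_pow₀ (by norm_num)
      have hG1 : 1 ≤ G := by
        rw [hG]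
        nlinarith
      have hG0 : 0 < G := by linarith
      have htop : Tendsto (fun n : ℕ => Real.exp (n * R)) atTop atTop :=
        Real.tendsto_exp_atTop.comp (tendsto_natCast_atTop_atTop.atTop_mul_const hR0)
      have hev2 := htop.eventually_ge_atTop (G * G ^ l)
      have htop3 : Tendsto (fun n : ℕ => (n : ℝ) * (R - a * Real.log 2)) atTop atTop :=
        tendsto_natCast_atTop_atTop.atTop_mul_const (by linarith)
      have hev3 := htop3.eventually_gt_atTop (Real.log G)
      filter_upwards [hev, hev2, hev3, eventually_ge_atTop 1] with n hn1 hn2 hn3 hn4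
      have hn0 : (0 : ℝ) < n := by exact_mod_cast hn4
      have hd : 1 ≤ ⌈δ * n⌉₊ := Nat.one_le_ceil_iff.2 (by positivity)
      have key := asm hd hC hn2 hn1
      rw [← hG] at key
      have hpos : 0 < (Real.exp (n * R) / G) ^ l := by positivity
      have h2 := Real.logb_le_logb_of_le (b := 2) (by norm_num) hpos key
      rw [lt_div_iff₀ (by positivity)]
      refine lt_of_lt_of_le ?_ h2
      rw [← Real.rpow_natCast, Real.logb_rpow_eq_mul_logb_of_pos (by positivity), Real.logb,
        Real.log_div (Real.exp_pos _).ne' hG0.ne', Real.log_exp]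
      rw [mul_comm a, mul_assoc]
      apply mul_lt_mul_of_pos_left _ hlR
      rw [lt_div_iff₀ hl2]
      nlinarith
  · intro a ha
    filter_upwards [(tendsto_order.1 (Exact.fin_tendsto Exact.inputs h0 h1)).2 a ha,
      eventually_ge_atTop 1] with n hn hn4
    refine lt_of_le_of_lt ?_ hn
    have hn0 : (0 : ℝ) < n := by exact_mod_cast hn4
    have hpos : 0 < linLP l n ⌈δ * n⌉₊ := lt_of_lt_of_le one_pos (one_le_linLP _ _ _)
    have hlp : 0 < Impr.lpBound n ⌈δ * n⌉₊ := by
      have h2 := one_le_linLP 1 n ⌈δ * n⌉₊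
      have h3 := linLP_le 1 n ⌈δ * n⌉₊
      rw [pow_one] at h3
      linarith
    have h2 := Real.logb_le_logb_of_le (b := 2) (by norm_num) hpos (linLP_le l n ⌈δ * n⌉₊)
    rw [← Real.rpow_natCast, Real.logb_rpow_eq_mul_logb_of_pos hlp] at h2
    have h5 : Exact.lpRate δ n = Real.logb 2 (Impr.lpBound n ⌈δ * n⌉₊) / n := rfl
    rw [h5, div_le_div_iff₀ (by positivity) hn0]
    have h6 := mul_le_mul_of_nonneg_right h2 hn0.le
    calc _ ≤ _ := h6
      _ = _ := by ring

end Pool.Agent.Lib.MP_0430e4_lc.Lin.Asm
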