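import Pool.Agent.Lib.MP_0430e4_lc.Lin.BDD

/-!
# Soundness: the program of level `l` bounds the size of linear codes
-/

set_option autoImplicit false

namespace Pool.Agent.Lib.MP_0430e4_lc.Lin.Asm

open Finset Matrix

variable {n l : ℕ}

theorem chw_add (w x y : W n) : chw w (x + y) = chw w x * chw w y := by
  unfold chw
  rw [← Finset.prod_mul_distrib]
  apply Finset.prod_congr rfl
  intro i _
  rw [Pi.add_apply, mul_add, sg_add]

theorem chw_cases (w x : W n) : chw w x = 1 ∨ chw w x = -1 := by
  have h : chw w x = sg (∑ i, w i * x i) := by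
    unfold chw
    rw [sg_sum]
  rw [h]
  rcases zm2 (∑ i, w i * x i) with h | h <;> rw [h] <;> simp [sg]

theorem ch_rows (X Y : Fin l → Fin n → ZMod 2) :
    ch (tr l n Y) (tr l n X) = ∏ j, chw (Y j) (X j) := by
  rw [← sign_eq]
  apply Finset.prod_congr rfl
  intro j _
  unfold chw
  apply Finset.prod_congr rfl
  intro i _
  rw [sg_mul]
  exact if_congr and_comm rfl rfl

open Classical in
/-- character sums over a linear code are nonnegative -/
theorem sum_code_nonneg (C : Submodule (ZMod 2) (W n)) (w : W n) :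
    0 ≤ ∑ x : W n, if x ∈ C then chw w x else 0 := by
  by_cases h : ∃ y ∈ C, chw w y = -1
  · obtain ⟨y, hy, hwy⟩ := h
    have h1 : ∑ x : W n, (if x ∈ C then chw w x else 0) =
        - ∑ x : W n, (if x ∈ C then chw w x else 0) := by
      conv_lhs => rw [← Equiv.sum_comp (Equiv.addRight y)]
      rw [← Finset.sum_neg_distrib]
      apply Finset.sum_congr rfl
      intro x _
      rw [Equiv.coe_addRight]
      by_cases hx : x ∈ C
      · rw [if_pos hx, if_pos (C.add_mem hx hy), chw_add, hwy]
        ring
      · rw [if_neg hx, if_neg, neg_zero]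
        intro h2
        apply hx
        have := C.sub_mem h2 hy
        rwa [add_sub_cancel_right] at this
    linarith
  · push Not at h
    apply Finset.sum_nonneg
    intro x _
    split_ifs with hx
    · rcases chw_cases w x with h1 | h1
      · rw [h1]; norm_num
      · exact absurd h1 (h x hx)
    · exact le_rfl

/-- SOUNDNESS. -/
theorem sound (l n d : ℕ) (C : Submodule (ZMod 2) (Fin n → ZMod 2))
    (hC : ∀ x ∈ C, x ≠ 0 → d ≤ hammingNorm x) : (Nat.card C : ℝ) ^ l ≤ linLP l n d := by
  classical
  have hfeas : Feas l n d (fun X => if ∀ j, (tr l n).symm X j ∈ C then 1 else 0) := by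
    refine ⟨?_, ?_, ?_, ?_⟩
    · intro X
      split_ifs <;> norm_num
    · rw [if_pos]
      intro j
      exact C.zero_mem
    · intro X c hc hcd
      rw [if_neg]
      intro h
      have h1 : ∑ j, c j • (tr l n).symm X j ∈ C :=
        C.sum_mem fun j _ => C.smul_mem _ (h j)
      have h2 := norm_eq ((tr l n).symm X) c
      rw [Equiv.apply_symm_apply] at h2
      have h3 : ∑ j, c j • (tr l n).symm X j ≠ 0 := by
        intro h4
        rw [h4, hammingNorm_zero] at h2
        omega
      have h4 := hC _ h1 h3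
      omega
    · intro Ξ
      rw [← Equiv.sum_comp (tr l n)]
      have h1 : ∀ X : Fin l → Fin n → ZMod 2,
          (if ∀ j, (tr l n).symm (tr l n X) j ∈ C then (1 : ℝ) else 0) * ch Ξ (tr l n X) =
          ∏ j, (if X j ∈ C then chw ((tr l n).symm Ξ j) (X j) else 0) := by
        intro X
        have e1 : ch Ξ (tr l n X) = ∏ j, chw ((tr l n).symm Ξ j) (X j) := by
          rw [← ch_rows, Equiv.apply_symm_apply]
        rw [Equiv.symm_apply_apply, e1]
        by_cases h : ∀ j, X j ∈ C
        · rw [if_pos h, one_mul]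
          exact Finset.prod_congr rfl fun j _ => by rw [if_pos (h j)]
        · rw [if_neg h, zero_mul]
          push Not at h
          obtain ⟨j, hj⟩ := h
          symm
          exact Finset.prod_eq_zero (mem_univ j) (if_neg hj)
      simp_rw [h1]
      have h2 : ∑ X : Fin l → Fin n → ZMod 2,
          ∏ j, (if X j ∈ C then chw ((tr l n).symm Ξ j) (X j) else 0) =
          ∏ j : Fin l, ∑ x : W n, (if x ∈ C then chw ((tr l n).symm Ξ j) x else 0) := by
        rw [Finset.prod_univ_sum, Fintype.piFinset_univ]
      rw [h2]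
      exact Finset.prod_nonneg fun j _ => sum_code_nonneg C _
  refine le_trans (le_of_eq ?_) (le_linLP hfeas)
  rw [← Equiv.sum_comp (tr l n)]
  have h1 : ∀ X : Fin l → Fin n → ZMod 2,
      (if ∀ j, (tr l n).symm (tr l n X) j ∈ C then (1 : ℝ) else 0) =
      ∏ j, (if X j ∈ C then (1 : ℝ) else 0) := by
    intro X
    rw [Equiv.symm_apply_apply]
    by_cases h : ∀ j, X j ∈ C
    · rw [if_pos h]
      symm
      exact Finset.prod_eq_one fun j _ => by rw [if_pos (h j)]
    · rw [if_neg h]
      push Not at h
      obtain ⟨j, hj⟩ := h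
      symm
      exact Finset.prod_eq_zero (mem_univ j) (if_neg hj)
  simp_rw [h1]
  have h2 : ∑ X : Fin l → Fin n → ZMod 2, ∏ j, (if X j ∈ C then (1 : ℝ) else 0) =
      ∏ _j : Fin l, ∑ x : W n, (if x ∈ C then (1 : ℝ) else 0) := by
    rw [Finset.prod_univ_sum, Fintype.piFinset_univ]
  rw [h2, Finset.prod_const, Finset.card_univ, Fintype.card_fin]
  congr 1
  rw [Finset.sum_boole, Nat.card_eq_fintype_card, Fintype.card_subtype]

end Pool.Agent.Lib.MP_0430e4_lc.Lin.Asm
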