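import Pool.Agent.Lib.MP_0430e4_lc.Lin.BDD

/-!
# The assembly: from a generic function to a feasible solution of level `l`

The solution is the sum over all matrices `A` of the push-forwards of the generic function under
`A`, with weights `T ^ rank A`.
-/

set_option autoImplicit false

namespace Pool.Agent.Lib.MP_0430e4_lc.Lin.Asm

open Finset Matrix

variable {n l : ℕ}

/-- a matrix acting on all columns -/
def act (A : Matrix (Fin l) (Fin l) (ZMod 2)) (X : Cf n l) : Cf n l := fun i => A *ᵥ X i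

theorem ch_act (A : Matrix (Fin l) (Fin l) (ZMod 2)) (Ξ X : Cf n l) :
    ch Ξ (act A X) = ch (act Aᵀ Ξ) X := by
  unfold ch act
  apply Finset.prod_congr rfl
  intro i _
  rw [Matrix.dotProduct_mulVec, Matrix.mulVec_transpose]

theorem row_act (A : Matrix (Fin l) (Fin l) (ZMod 2)) (v : U l) (X : Cf n l) :
    row v (act A X) = row (Aᵀ *ᵥ v) X := by
  unfold row act
  funext i
  rw [Matrix.dotProduct_mulVec, Matrix.mulVec_transpose]

theorem Kd_act (A : Matrix (Fin l) (Fin l) (ZMod 2)) (Ξ : Cf n l) :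
    Kd (act Aᵀ Ξ) = (Kd Ξ).comap A.mulVecLin := by
  ext w
  rw [Submodule.mem_comap]
  change (∃ s : ZMod 2, ∀ i, w ⬝ᵥ (Aᵀ *ᵥ Ξ i) = s) ↔ (∃ s : ZMod 2, ∀ i, (A *ᵥ w) ⬝ᵥ Ξ i = s)
  have h : ∀ i, w ⬝ᵥ (Aᵀ *ᵥ Ξ i) = (A *ᵥ w) ⬝ᵥ Ξ i := fun i => by
    rw [Matrix.dotProduct_mulVec, Matrix.vecMul_transpose]
  simp_rw [h]

theorem finrank_comap (f : U l →ₗ[ZMod 2] U l) (K : Submodule (ZMod 2) (U l)) :
    Module.finrank (ZMod 2) (K.comap f) =
      Module.finrank (ZMod 2) (LinearMap.range f ⊓ K : Submodule (ZMod 2) (U l)) +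
      Module.finrank (ZMod 2) (LinearMap.ker f) := by
  have h := LinearMap.finrank_range_add_finrank_ker (f.domRestrict (K.comap f))
  have h1 : LinearMap.range (f.domRestrict (K.comap f)) = LinearMap.range f ⊓ K := by
    rw [LinearMap.range_domRestrict, Submodule.map_comap_eq]
  have h2 : LinearMap.ker f ≤ K.comap f := by
    intro x hx
    rw [Submodule.mem_comap, LinearMap.mem_ker.1 hx]
    exact K.zero_mem
  have h3 : LinearMap.ker (f.domRestrict (K.comap f)) = (LinearMap.ker f).submoduleOf (K.comap f) := by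
    rw [LinearMap.ker_domRestrict]
    rfl
  have h4 := (Submodule.submoduleOfEquivOfLe h2).finrank_eq
  rw [h1, h3, h4] at h
  exact h.symm

theorem rank_add_ker (A : Matrix (Fin l) (Fin l) (ZMod 2)) :
    A.rank + Module.finrank (ZMod 2) (LinearMap.ker A.mulVecLin) = l := by
  have h := LinearMap.finrank_range_add_finrank_ker A.mulVecLin
  rw [Module.finrank_fin_fun] at h
  exact h

/-- the number of matrices -/
theorem card_mat : Fintype.card (Matrix (Fin l) (Fin l) (ZMod 2)) = 2 ^ (l * l) := by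
  have h : Fintype.card (Fin l → Fin l → ZMod 2) = 2 ^ (l * l) := by
    simp [ZMod.card, pow_mul]
  rw [← h]
  exact Fintype.card_congr (Equiv.refl _)

theorem kd_zero : kd (0 : Cf n l) = l := by
  unfold kd
  have : Kd (0 : Cf n l) = ⊤ := by
    rw [eq_top_iff]
    intro w _
    exact ⟨0, fun i => by simp⟩
  rw [this, finrank_top, Module.finrank_fin_fun]

theorem kd_le (Ξ : Cf n l) : kd Ξ ≤ l := by
  unfold kd
  refine (Submodule.finrank_le _).trans_eq ?_
  rw [Module.finrank_fin_fun]

/-- a term of the transform which is not good -/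
theorem bad_term {M C G : ℝ} (hC : 1 ≤ C) (hG : C ≤ G) (hM : G * G ^ l ≤ M) {F : Cf n l → ℝ}
    (hF : ∀ Ξ : Cf n l, kd Ξ < l → |F Ξ| * M ^ l ≤ C * M ^ kd Ξ) (Ξ : Cf n l)
    (A : Matrix (Fin l) (Fin l) (ZMod 2)) (hA : ¬ LinearMap.range A.mulVecLin ≤ Kd Ξ) :
    (M / G) ^ A.rank * |F (act Aᵀ Ξ)| ≤ C / G * (M / G) ^ kd Ξ := by
  have hG1 : 1 ≤ G := hC.trans hG
  have hG0 : 0 < G := by linarith
  have hM1 : 1 ≤ M := le_trans (one_le_mul_of_one_le_of_one_le hG1 (one_le_pow₀ hG1)) hM
  have hM0 : 0 < M := by linarith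
  set k := Module.finrank (ZMod 2) (LinearMap.ker A.mulVecLin) with hk
  set j := Module.finrank (ZMod 2) (LinearMap.range A.mulVecLin ⊓ Kd Ξ : Submodule (ZMod 2) (U l))
    with hj
  have h1 : kd (act Aᵀ Ξ) = j + k := by
    unfold kd
    rw [Kd_act, finrank_comap]
  have h2 : A.rank + k = l := rank_add_ker A
  have h3 : j ≤ kd Ξ := Submodule.finrank_mono inf_le_right
  have h4 : j < A.rank := by
    have : LinearMap.range A.mulVecLin ⊓ Kd Ξ < LinearMap.range A.mulVecLin := by
      refine lt_of_le_of_ne inf_le_left fun h => hA ?_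
      exact inf_eq_left.1 h
    exact Submodule.finrank_lt_finrank_of_lt this
  have h5 : kd (act Aᵀ Ξ) < l := by omega
  have h6 := hF _ h5
  rw [h1] at h6
  have h7 : |F (act Aᵀ Ξ)| * M ^ A.rank ≤ C * M ^ j := by
    have e1 : M ^ l = M ^ A.rank * M ^ k := by rw [← pow_add, h2]
    rw [e1, pow_add, ← mul_assoc, ← mul_assoc] at h6
    exact le_of_mul_le_mul_right h6 (pow_pos hM0 k)
  have h8 : (M / G) ^ A.rank * |F (act Aᵀ Ξ)| ≤ C * M ^ j / G ^ A.rank := by
    rw [div_pow, div_mul_eq_mul_div, mul_comm (M ^ A.rank)]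
    exact div_le_div_of_nonneg_right h7 (pow_pos hG0 _).le
  refine h8.trans ?_
  rw [div_pow, div_mul_div_comm, ← pow_succ', div_le_div_iff₀ (pow_pos hG0 _) (pow_pos hG0 _)]
  rcases Nat.lt_or_ge j (kd Ξ) with hlt | hge
  · -- one power of `M` is lost
    have e1 : C * M ^ j * G ^ (kd Ξ + 1) ≤ C * M ^ j * (G * G ^ l) := by
      apply mul_le_mul_of_nonneg_left _ (by positivity)
      rw [← pow_succ']
      exact pow_le_pow_right₀ hG1 (by have := kd_le Ξ; omega)
    have e2 : C * M ^ j * (G * G ^ l) ≤ C * M ^ j * M :=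
      mul_le_mul_of_nonneg_left hM (by positivity)
    have e3 : C * M ^ j * M ≤ C * M ^ kd Ξ := by
      rw [mul_assoc, ← pow_succ]
      exact mul_le_mul_of_nonneg_left (pow_le_pow_right₀ hM1 hlt) (by linarith)
    have e4 : C * M ^ kd Ξ ≤ C * M ^ kd Ξ * G ^ A.rank :=
      le_mul_of_one_le_right (by positivity) (one_le_pow₀ hG1)
    linarith
  · have hje : j = kd Ξ := le_antisymm h3 hge
    rw [hje]
    apply mul_le_mul_of_nonneg_left _ (by positivity)
    exact pow_le_pow_right₀ hG1 (by omega)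

/-- positivity of the transform -/
theorem transform_nonneg {M C : ℝ} (hC : 1 ≤ C)
    (hM : (4 * 2 ^ (l * l) * C) * (4 * 2 ^ (l * l) * C) ^ l ≤ M) {F : Cf n l → ℝ}
    (h0 : 1 / 2 ≤ F 0) (hF : ∀ Ξ : Cf n l, kd Ξ < l → |F Ξ| * M ^ l ≤ C * M ^ kd Ξ)
    (hK : ∀ Ξ : Cf n l, kd Ξ = l → F Ξ = F 0) (Ξ : Cf n l) :
    0 ≤ ∑ A : Matrix (Fin l) (Fin l) (ZMod 2),
      (M / (4 * 2 ^ (l * l) * C)) ^ A.rank * F (act Aᵀ Ξ) := by
  classical
  set G : ℝ := 4 * 2 ^ (l * l) * C with hG
  have hN : (1 : ℝ) ≤ 2 ^ (l * l) := one_le_pow₀ (by norm_num)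
  have hCG : C ≤ G := by
    rw [hG]
    nlinarith
  have hG1 : 1 ≤ G := hC.trans hCG
  have hG0 : 0 < G := by linarith
  have hM1 : 1 ≤ M := le_trans (one_le_mul_of_one_le_of_one_le hG1 (one_le_pow₀ hG1)) hM
  have hM0 : 0 < M := by linarith
  have hT : 0 < M / G := div_pos hM0 hG0
  -- a matrix whose range is `Kd Ξ`
  obtain ⟨A0, hA0⟩ : ∃ A : Matrix (Fin l) (Fin l) (ZMod 2), LinearMap.range A.mulVecLin = Kd Ξ := by
    obtain ⟨q, hq⟩ := (Kd Ξ).exists_isCompl
    let f : U l →ₗ[ZMod 2] U l := (Kd Ξ).subtype ∘ₗ (Kd Ξ).projectionOnto q hq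
    refine ⟨LinearMap.toMatrix' f, ?_⟩
    rw [← Matrix.toLin'_apply', Matrix.toLin'_toMatrix']
    rw [LinearMap.range_comp, Submodule.range_projectionOnto hq, Submodule.map_top, Submodule.range_subtype]
  have hrk0 : A0.rank = kd Ξ := by
    unfold Matrix.rank kd
    rw [hA0]
  have hgood : ∀ A : Matrix (Fin l) (Fin l) (ZMod 2), LinearMap.range A.mulVecLin ≤ Kd Ξ →
      F (act Aᵀ Ξ) = F 0 := by
    intro A hA
    apply hK
    unfold kd
    rw [Kd_act]
    have : (Kd Ξ).comap A.mulVecLin = ⊤ := by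
      rw [eq_top_iff]
      intro x _
      exact hA ⟨x, rfl⟩
    rw [this, finrank_top, Module.finrank_fin_fun]
  -- lower bounds of all terms
  have hterm : ∀ A : Matrix (Fin l) (Fin l) (ZMod 2),
      (if A = A0 then (M / G) ^ kd Ξ * (1 / 2) else 0) - C / G * (M / G) ^ kd Ξ ≤
        (M / G) ^ A.rank * F (act Aᵀ Ξ) := by
    intro A
    have hpos : 0 ≤ C / G * (M / G) ^ kd Ξ := by positivity
    by_cases hA : LinearMap.range A.mulVecLin ≤ Kd Ξ
    · rw [hgood A hA]
      split_ifs with h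
      · rw [h, hrk0]
        have : (M / G) ^ kd Ξ * (1 / 2) ≤ (M / G) ^ kd Ξ * F 0 :=
          mul_le_mul_of_nonneg_left h0 (pow_pos hT _).le
        linarith
      · have : 0 ≤ (M / G) ^ A.rank * F 0 := mul_nonneg (pow_pos hT _).le (by linarith)
        linarith
    · rw [if_neg (by rintro rfl; exact hA hA0.le)]
      have h1 := bad_term hC hCG hM hF Ξ A hA
      have h2 : -((M / G) ^ A.rank * |F (act Aᵀ Ξ)|) ≤ (M / G) ^ A.rank * F (act Aᵀ Ξ) := by
        rw [← mul_neg]
        exact mul_le_mul_of_nonneg_left (neg_abs_le _) (pow_pos hT _).le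
      linarith
  refine le_trans ?_ (Finset.sum_le_sum fun A _ => hterm A)
  rw [Finset.sum_sub_distrib, Finset.sum_ite_eq' univ A0, if_pos (mem_univ _), Finset.sum_const,
    Finset.card_univ, card_mat, nsmul_eq_mul]
  have h1 : ((2 ^ (l * l) : ℕ) : ℝ) * (C / G * (M / G) ^ kd Ξ) = (M / G) ^ kd Ξ * (1 / 4) := by
    push_cast
    rw [hG]
    field_simp
  rw [h1]
  have := pow_pos hT (kd Ξ)
  nlinarith

/-- the sum of a function against the push-forward -/
theorem sum_push (c : Matrix (Fin l) (Fin l) (ZMod 2) → ℝ) (h φ : Cf n l → ℝ) :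
    ∑ X, (∑ A, c A * ∑ Y, if act A Y = X then h Y else 0) * φ X =
      ∑ A, c A * ∑ Y, h Y * φ (act A Y) := by
  have h1 : ∀ X, (∑ A, c A * ∑ Y, if act A Y = X then h Y else 0) * φ X =
      ∑ A, c A * ∑ Y, if act A Y = X then h Y * φ X else 0 := by
    intro X
    rw [Finset.sum_mul]
    apply Finset.sum_congr rfl
    intro A _
    rw [mul_assoc, Finset.sum_mul]
    congr 1
    apply Finset.sum_congr rfl
    intro Y _
    rw [ite_mul, zero_mul]
  simp_rw [h1]
  rw [Finset.sum_comm]
  apply Finset.sum_congr rfl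
  intro A _
  rw [← Finset.mul_sum, Finset.sum_comm]
  congr 1
  apply Finset.sum_congr rfl
  intro Y _
  rw [Finset.sum_ite_eq univ (act A Y), if_pos (mem_univ _)]

/-- THE ASSEMBLY. -/
theorem asm {d : ℕ} (hd : 1 ≤ d) {M C : ℝ} (hC : 1 ≤ C)
    (hM : (4 * 2 ^ (l * l) * C) * (4 * 2 ^ (l * l) * C) ^ l ≤ M) (hg : Generic l n d M C) :
    (M / (4 * 2 ^ (l * l) * C)) ^ l ≤ linLP l n d := by
  classical
  obtain ⟨g, hg0, hgev, hgd, hge, hgF⟩ := hg
  set G : ℝ := 4 * 2 ^ (l * l) * C with hG
  have hN : (1 : ℝ) ≤ 2 ^ (l * l) := one_le_pow₀ (by norm_num)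
  have hCG : C ≤ G := by
    rw [hG]
    nlinarith
  have hG1 : 1 ≤ G := hC.trans hCG
  have hG0 : 0 < G := by linarith
  have hM1 : 1 ≤ M := le_trans (one_le_mul_of_one_le_of_one_le hG1 (one_le_pow₀ hG1)) hM
  have hM0 : 0 < M := by linarith
  have hT : 0 < M / G := div_pos hM0 hG0
  have he : 0 < fc g 0 := by linarith
  -- sums over all tuples
  have hfc : ∀ Ξ : Cf n l, ∑ X, g X * ch Ξ X = 2 ^ (l * (n - 1)) * fc g Ξ := by
    intro Ξ
    unfold fc EC
    rw [mul_div_cancel₀ _ (by positivity)]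
    symm
    apply Finset.sum_subset (subset_univ _)
    intro X _ hX
    rw [hgev X hX, zero_mul]
  set h : Cf n l → ℝ := fun X => g X / (2 ^ (l * (n - 1)) * fc g 0) with hh
  have hh0 : ∀ X, 0 ≤ h X := fun X => div_nonneg (hg0 X) (by positivity)
  have hsum : ∀ Ξ : Cf n l, ∑ X, h X * ch Ξ X = fc g Ξ / fc g 0 := by
    intro Ξ
    have e1 : ∀ X, h X * ch Ξ X = (g X * ch Ξ X) / (2 ^ (l * (n - 1)) * fc g 0) := fun X => by
      rw [hh]
      ring
    simp_rw [e1]
    rw [← Finset.sum_div, hfc]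
    have : (2 : ℝ) ^ (l * (n - 1)) ≠ 0 := by positivity
    field_simp
  have hsum1 : ∑ X, h X = 1 := by
    have := hsum 0
    simp only [ch_zero_left, mul_one] at this
    rw [this, div_self he.ne']
  -- `F = fc g / fc g 0`
  have hKeq : ∀ Ξ : Cf n l, kd Ξ = l → fc g Ξ = fc g 0 := by
    intro Ξ hΞ
    have htop : Kd Ξ = ⊤ := by
      apply Submodule.eq_top_of_finrank_eq
      rw [Module.finrank_fin_fun]
      exact hΞ
    -- all columns are equal
    have hcol : ∀ i j, Ξ i = Ξ j := by
      intro i j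
      funext t
      have : (Pi.single t 1 : U l) ∈ Kd Ξ := by rw [htop]; trivial
      obtain ⟨s, hs⟩ := this
      have h1 := hs i
      have h2 := hs j
      rw [single_dotProduct, one_mul] at h1 h2
      rw [h1, h2]
    unfold fc EC
    congr 1
    apply Finset.sum_congr rfl
    intro X hX
    change g X * ch Ξ X = g X * ch 0 X
    congr 1
    rw [ch_zero_left]
    rcases Nat.eq_zero_or_pos n with hn | hn
    · subst hn
      unfold ch
      simp
    · have h1 : ch Ξ X = sg (Ξ ⟨0, hn⟩ ⬝ᵥ ∑ i, X i) := by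
        unfold ch
        rw [dotProduct_sum, sg_sum]
        exact Finset.prod_congr rfl fun i _ => by rw [hcol i ⟨0, hn⟩]
      have h2 : ∑ i, X i = 0 := by
        have := hX
        unfold evC at this
        simpa using this
      rw [h1, h2, dotProduct_zero, sg_zero]
  -- the feasible solution
  have hfeas : Feas l n d (fun X => ∑ A : Matrix (Fin l) (Fin l) (ZMod 2),
      (M / G) ^ A.rank * ∑ Y, if act A Y = X then h Y else 0) := by
    refine ⟨?_, ?_, ?_, ?_⟩
    · intro X
      apply Finset.sum_nonneg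
      intro A _
      apply mul_nonneg (pow_pos hT _).le
      apply Finset.sum_nonneg
      intro Y _
      split_ifs
      · exact hh0 Y
      · exact le_rfl
    · -- the value at zero
      rw [Finset.sum_eq_single (0 : Matrix (Fin l) (Fin l) (ZMod 2))]
      · rw [Matrix.rank_zero, pow_zero, one_mul, ← hsum1]
        apply Finset.sum_congr rfl
        intro Y _
        rw [if_pos]
        funext i
        unfold act
        rw [Matrix.zero_mulVec]
        rfl
      · intro A _ hA
        rw [Finset.sum_eq_zero, mul_zero]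
        intro Y _
        split_ifs with hY
        · -- `g Y = 0`
          have hAt : Aᵀ ≠ 0 := by
            intro h
            apply hA
            rw [← Matrix.transpose_transpose A, h, Matrix.transpose_zero]
          obtain ⟨w, hw⟩ : ∃ w : U l, Aᵀ *ᵥ w ≠ 0 := by
            by_contra hcon
            push Not at hcon
            apply hAt
            ext i j
            have := congrFun (hcon (Pi.single j 1)) i
            rw [Matrix.mulVec_single_one] at this
            exact this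
          have hz : row (Aᵀ *ᵥ w) Y = 0 := by
            rw [← row_act, hY]
            unfold row
            funext i
            simp
          have : g Y = 0 := by
            apply hgd
            refine ⟨Aᵀ *ᵥ w, ?_, ?_⟩
            · unfold Pn
              exact Finset.mem_erase.2 ⟨hw, mem_univ _⟩
            · rw [hz]
              unfold wt
              simp
              omega
          rw [hh]
          simp only [this, zero_div]
        · rfl
      · intro h
        exact absurd (mem_univ _) h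
    · intro X c hc hcd
      apply Finset.sum_eq_zero
      intro A _
      rw [Finset.sum_eq_zero, mul_zero]
      intro Y _
      split_ifs with hY
      · have hz : row (Aᵀ *ᵥ c) Y = row c X := by
          rw [← row_act, hY]
        have hne : Aᵀ *ᵥ c ≠ 0 := by
          intro h
          rw [h] at hz
          rw [← hz] at hc
          have : wt (row (0 : U l) Y) = 0 := by
            unfold wt row
            simp
          omega
        have : g Y = 0 := by
          apply hgd
          refine ⟨Aᵀ *ᵥ c, Finset.mem_erase.2 ⟨hne, mem_univ _⟩, ?_⟩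
          rw [hz]
          exact hcd
        rw [hh]
        simp only [this, zero_div]
      · rfl
    · intro Ξ
      rw [sum_push]
      have e1 : ∀ A : Matrix (Fin l) (Fin l) (ZMod 2), ∑ Y, h Y * ch Ξ (act A Y) =
          fc g (act Aᵀ Ξ) / fc g 0 := by
        intro A
        rw [← hsum]
        apply Finset.sum_congr rfl
        intro Y _
        rw [ch_act]
      simp_rw [e1]
      have h1 := transform_nonneg hC hM hge hgF hKeq Ξ
      have e2 : ∑ A : Matrix (Fin l) (Fin l) (ZMod 2), (M / G) ^ A.rank *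
          (fc g (act Aᵀ Ξ) / fc g 0) = (∑ A : Matrix (Fin l) (Fin l) (ZMod 2), (M / G) ^ A.rank *
          fc g (act Aᵀ Ξ)) / fc g 0 := by
        rw [Finset.sum_div]
        exact Finset.sum_congr rfl fun A _ => by rw [mul_div_assoc]
      rw [e2]
      exact div_nonneg h1 he.le
  refine le_trans ?_ (le_linLP hfeas)
  have h1 := sum_push (fun A : Matrix (Fin l) (Fin l) (ZMod 2) => (M / G) ^ A.rank) h
    (fun _ : Cf n l => (1 : ℝ))
  simp only [mul_one, hsum1] at h1
  rw [h1]
  have h2 : (M / G) ^ (1 : Matrix (Fin l) (Fin l) (ZMod 2)).rank ≤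
      ∑ A : Matrix (Fin l) (Fin l) (ZMod 2), (M / G) ^ A.rank :=
    Finset.single_le_sum (f := fun A : Matrix (Fin l) (Fin l) (ZMod 2) => (M / G) ^ A.rank)
      (fun A _ => (pow_pos hT _).le) (mem_univ _)
  rwa [Matrix.rank_one, Fintype.card_fin] at h2

end Pool.Agent.Lib.MP_0430e4_lc.Lin.Asm
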