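import Pool.Agent.Lib.MP_0430e4_lc.Lin.Defs

/-!
# AVG: the mean of a character over the permutations is a polynomial in the counts
-/

set_option autoImplicit false

namespace Pool.Agent.Lib.MP_0430e4_lc.Lin

open Finset

/-- The nonzero columns. -/
abbrev NZ (r : ℕ) := {u : U r // u ≠ 0}

/-- The counts of the nonzero columns. -/
def cz {n r : ℕ} (X : Cf n r) : NZ r → ℝ := fun u => (cnt X u.1 : ℝ)

variable {n r : ℕ}

/-- Symmetry in the positions outside `S`. -/
theorem swap_sum (S : Finset (Fin n)) (g : Fin n → U r → ℝ) (h : U r → ℝ) (X : Cf n r)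
    {i j : Fin n} (hi : i ∉ S) (hj : j ∉ S) :
    ∑ p : Equiv.Perm (Fin n), (∏ s ∈ S, g s (X (p s))) * h (X (p i)) =
      ∑ p : Equiv.Perm (Fin n), (∏ s ∈ S, g s (X (p s))) * h (X (p j)) := by
  refine Fintype.sum_equiv (Equiv.mulRight (Equiv.swap i j)) _ _ fun p => ?_
  have h1 : ∀ s ∈ S, (Equiv.mulRight (Equiv.swap i j)) p s = p s := by
    intro s hs
    rw [Equiv.coe_mulRight, Equiv.Perm.mul_apply, Equiv.swap_apply_of_ne_of_ne]
    · rintro rfl; exact hi hs
    · rintro rfl; exact hj hs
  have h2 : (Equiv.mulRight (Equiv.swap i j)) p j = p i := by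
    rw [Equiv.coe_mulRight, Equiv.Perm.mul_apply, Equiv.swap_apply_right]
  rw [h2]
  congr 1
  exact prod_congr rfl fun s hs => by rw [h1 s hs]

/-- The sum of a function of the columns is a linear function of the counts. -/
theorem lin_poly (h : U r → ℝ) : ∃ P : MvPolynomial (NZ r) ℝ, P.totalDegree ≤ 1 ∧
    ∀ X : Cf n r, ∑ a, h (X a) = MvPolynomial.eval (cz X) P := by
  classical
  refine ⟨MvPolynomial.C (n * h 0) +
    ∑ u : NZ r, MvPolynomial.C (h u.1 - h 0) * MvPolynomial.X u, ?_, ?_⟩
  · refine (MvPolynomial.totalDegree_add _ _).trans (max_le ?_ ?_)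
    · rw [MvPolynomial.totalDegree_C]; exact Nat.zero_le _
    · refine (MvPolynomial.totalDegree_finsetSum _ _).trans (Finset.sup_le fun u _ => ?_)
      refine (MvPolynomial.totalDegree_mul _ _).trans ?_
      rw [MvPolynomial.totalDegree_C, MvPolynomial.totalDegree_X]
  · intro X
    rw [map_add, map_sum, MvPolynomial.eval_C]
    simp_rw [map_mul, MvPolynomial.eval_C, MvPolynomial.eval_X]
    have h1 : ∀ a, h (X a) = h 0 + ∑ u : NZ r, (h u.1 - h 0) * (if X a = u.1 then 1 else 0) := by
      intro a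
      by_cases ha : X a = 0
      · rw [sum_eq_zero, ha, add_zero]
        intro u _
        rw [if_neg, mul_zero]
        intro h2
        exact u.2 (h2.symm.trans ha)
      · rw [sum_eq_single (⟨X a, ha⟩ : NZ r)]
        · simp
        · intro u _ hu
          rw [if_neg, mul_zero]
          intro h2
          exact hu (Subtype.ext h2.symm)
        · intro h2
          exact absurd (mem_univ _) h2
    rw [sum_congr rfl fun a _ => h1 a, sum_add_distrib, sum_comm]
    congr 1
    · simp
    · refine sum_congr rfl fun u _ => ?_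
      rw [← mul_sum]
      congr 1
      unfold cz cnt
      simp

/-- Sums over permutations of products of functions of few columns are polynomials in the
counts. -/
theorem perm_poly (S : Finset (Fin n)) : ∀ g : Fin n → U r → ℝ,
    ∃ P : MvPolynomial (NZ r) ℝ, P.totalDegree ≤ S.card ∧
      ∀ X : Cf n r, ∑ p : Equiv.Perm (Fin n), ∏ i ∈ S, g i (X (p i)) =
        MvPolynomial.eval (cz X) P := by
  classical
  induction S using Finset.induction_on with
  | empty =>
    intro g
    refine ⟨MvPolynomial.C (Fintype.card (Equiv.Perm (Fin n))), ?_, ?_⟩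
    · rw [MvPolynomial.totalDegree_C]
      exact Nat.zero_le _
    · intro X
      simp
  | insert i S hi ih =>
    intro g
    obtain ⟨P0, hP0, hX0⟩ := ih g
    obtain ⟨L, hL, hXL⟩ := lin_poly (n := n) (g i)
    choose Q hQ hXQ using fun s : Fin n =>
      ih (fun t => if t = s then fun u => g s u * g i u else g t)
    have hcard : S.card < n := by
      have := card_lt_univ_of_notMem hi
      simpa using this
    have hne : ((n : ℝ) - S.card) ≠ 0 := by
      have : (S.card : ℝ) < n := by exact_mod_cast hcard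
      linarith
    refine ⟨MvPolynomial.C ((n : ℝ) - S.card)⁻¹ * (L * P0 - ∑ s ∈ S, Q s), ?_, ?_⟩
    · refine (MvPolynomial.totalDegree_mul _ _).trans ?_
      rw [MvPolynomial.totalDegree_C, zero_add, card_insert_of_notMem hi]
      refine (MvPolynomial.totalDegree_sub _ _).trans (max_le ?_ ?_)
      · refine (MvPolynomial.totalDegree_mul _ _).trans ?_
        omega
      · refine (MvPolynomial.totalDegree_finsetSum _ _).trans (Finset.sup_le fun u _ => ?_)
        exact (hQ u).trans (Nat.le_succ _)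
    · intro X
      rw [map_mul, map_sub, map_mul, map_sum, MvPolynomial.eval_C, ← hXL, ← hX0]
      simp_rw [← hXQ]
      rw [eq_inv_mul_iff_mul_eq₀ hne]
      have hcompl : ((n : ℝ) - S.card) = ((Sᶜ).card : ℝ) := by
        rw [card_compl, Fintype.card_fin, Nat.cast_sub hcard.le]
      have h1 : ((n : ℝ) - S.card) * ∑ p : Equiv.Perm (Fin n), ∏ t ∈ insert i S, g t (X (p t)) =
          ∑ j ∈ Sᶜ, ∑ p : Equiv.Perm (Fin n), (∏ s ∈ S, g s (X (p s))) * g i (X (p j)) := by
        rw [hcompl, ← nsmul_eq_mul, ← sum_const]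
        refine sum_congr rfl fun j hj => ?_
        rw [← swap_sum S g (g i) X hi (mem_compl.mp hj)]
        refine sum_congr rfl fun p _ => ?_
        rw [prod_insert hi, mul_comm]
      rw [h1, sum_comm, mul_sum, sum_comm (s := S), ← sum_sub_distrib]
      refine sum_congr rfl fun p _ => ?_
      have h2 : ∑ j ∈ Sᶜ, (∏ s ∈ S, g s (X (p s))) * g i (X (p j)) =
          (∏ s ∈ S, g s (X (p s))) * (∑ a, g i (X a) - ∑ s ∈ S, g i (X (p s))) := by
        rw [← mul_sum]
        congr 1
        rw [eq_sub_iff_add_eq, sum_compl_add_sum]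
        exact Equiv.sum_comp p fun a => g i (X a)
      rw [h2, mul_sub, mul_comm (∏ s ∈ S, g s (X (p s)))]
      congr 1
      rw [mul_sum]
      refine sum_congr rfl fun s hs => ?_
      rw [← mul_prod_erase S _ hs, ← mul_prod_erase S _ hs, if_pos rfl]
      have h3 : ∏ t ∈ S.erase s, (if t = s then fun u => g s u * g i u else g t) (X (p t)) =
          ∏ t ∈ S.erase s, g t (X (p t)) :=
        prod_congr rfl fun t ht => by rw [if_neg (ne_of_mem_erase ht)]
      rw [h3]
      ring

/-- The sum of a character over the permutations of `X`. -/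
theorem ch_poly {k : ℕ} (Ξ : Cf n r) (hk : (sup Ξ).card ≤ k) :
    ∃ P : MvPolynomial (NZ r) ℝ, P.totalDegree ≤ k ∧
      ∀ X : Cf n r, ∑ p : Equiv.Perm (Fin n), ch Ξ (X ∘ p) = MvPolynomial.eval (cz X) P := by
  obtain ⟨P, hP, hX⟩ := perm_poly (sup Ξ) fun i u => sg (Ξ i ⬝ᵥ u)
  refine ⟨P, hP.trans hk, fun X => ?_⟩
  rw [← hX]
  refine sum_congr rfl fun p _ => ?_
  unfold ch
  symm
  refine prod_subset (subset_univ _) fun i _ hi => ?_
  unfold sup at hi
  rw [mem_filter, not_and, not_not] at hi
  rw [hi (mem_univ _), zero_dotProduct]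
  rfl

theorem avg_poly {k : ℕ} (Ξ : Cf n r) (h : (sup Ξ).card ≤ k) :
    ∃ Q : MvPolynomial {u : U r // u ≠ 0} ℝ, (∀ u, Q.degreeOf u ≤ k) ∧
      ∀ X : Cf n r, (∑ p : Equiv.Perm (Fin n), ch Ξ (X ∘ p)) / (n.factorial : ℝ) =
        MvPolynomial.eval (fun u : {u : U r // u ≠ 0} => (cnt X u : ℝ)) Q := by
  obtain ⟨P, hP, hX⟩ := ch_poly Ξ h
  refine ⟨MvPolynomial.C ((n.factorial : ℝ)⁻¹) * P, fun u => ?_, fun X => ?_⟩
  · refine (MvPolynomial.degreeOf_le_totalDegree _ _).trans ?_
    refine (MvPolynomial.totalDegree_mul _ _).trans ?_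
    rw [MvPolynomial.totalDegree_C, zero_add]
    exact hP
  · rw [hX X, map_mul, MvPolynomial.eval_C, div_eq_inv_mul]
    rfl

end Pool.Agent.Lib.MP_0430e4_lc.Lin
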