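import Pool.Agent.Lib.MP_0430e4_lc.Lin.Defs

/-!
# Basic facts on the linear program of level `l` (column form, boundedness)
-/

set_option autoImplicit false

namespace Pool.Agent.Lib.MP_0430e4_lc.Lin.Asm

open Finset Matrix

theorem zm2 (a : ZMod 2) : a = 0 ∨ a = 1 := by
  revert a
  decide

theorem sg_add (a b : ZMod 2) : sg (a + b) = sg a * sg b := by
  have h11 : (1 : ZMod 2) + 1 = 0 := by decide
  rcases zm2 a with rfl | rfl <;> rcases zm2 b with rfl | rfl <;> simp [sg, h11]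

theorem sg_zero : sg 0 = 1 := by simp [sg]

theorem sg_one : sg 1 = -1 := by simp [sg]

theorem sg_sum {ι : Type*} (s : Finset ι) (f : ι → ZMod 2) : sg (∑ i ∈ s, f i) = ∏ i ∈ s, sg (f i) := by
  classical
  induction s using Finset.induction_on with
  | empty => simp [sg_zero]
  | insert a s ha ih => rw [Finset.sum_insert ha, Finset.prod_insert ha, sg_add, ih]

theorem sg_mul (a b : ZMod 2) : sg (a * b) = if a = 1 ∧ b = 1 then -1 else 1 := by
  rcases zm2 a with rfl | rfl <;> rcases zm2 b with rfl | rfl <;> simp [sg]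

theorem abs_sg (a : ZMod 2) : |sg a| = 1 := by
  rcases zm2 a with rfl | rfl <;> simp [sg]

theorem sg_le_one (a : ZMod 2) : sg a ≤ 1 := by
  rcases zm2 a with rfl | rfl <;> simp [sg]

variable {n l : ℕ}

/-- the sum of the signs over one column -/
theorem sum_col (y : U l) : ∑ u : U l, sg (u ⬝ᵥ y) = if y = 0 then 2 ^ l else 0 := by
  have h1 : ∀ u : U l, sg (u ⬝ᵥ y) = ∏ j, sg (u j * y j) := fun u => by
    rw [dotProduct, sg_sum]
  simp_rw [h1]
  have h2 : ∑ u : U l, ∏ j, sg (u j * y j) = ∏ j : Fin l, ∑ a : ZMod 2, sg (a * y j) := by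
    rw [Finset.prod_univ_sum, Fintype.piFinset_univ]
  rw [h2]
  have h3 : ∀ b : ZMod 2, ∑ a : ZMod 2, sg (a * b) = if b = 0 then 2 else 0 := by
    intro b
    have : (univ : Finset (ZMod 2)) = {0, 1} := by decide
    rw [this, Finset.sum_pair (by decide)]
    rcases zm2 b with rfl | rfl
    · simp [sg]; norm_num
    · simp [sg]
  simp_rw [h3]
  by_cases hy : y = 0
  · subst hy
    simp
  · rw [if_neg hy]
    obtain ⟨j, hj⟩ := Function.ne_iff.1 hy
    exact Finset.prod_eq_zero (mem_univ j) (if_neg hj)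

/-- orthogonality -/
theorem sum_ch (X : Cf n l) : ∑ Ξ : Cf n l, ch Ξ X = if X = 0 then 2 ^ (n * l) else 0 := by
  unfold ch
  have h2 : ∑ Ξ : Cf n l, ∏ i, sg (Ξ i ⬝ᵥ X i) = ∏ i : Fin n, ∑ u : U l, sg (u ⬝ᵥ X i) := by
    rw [Finset.prod_univ_sum, Fintype.piFinset_univ]
  rw [h2]
  simp_rw [sum_col]
  by_cases hX : X = 0
  · subst hX
    simp only [Pi.zero_apply, if_true, Finset.prod_const, Finset.card_univ, Fintype.card_fin]
    rw [← pow_mul, mul_comm]
  · rw [if_neg hX]
    obtain ⟨i, hi⟩ := Function.ne_iff.1 hX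
    exact Finset.prod_eq_zero (mem_univ i) (if_neg hi)

theorem ch_zero_right (Ξ : Cf n l) : ch Ξ 0 = 1 := by
  unfold ch
  simp [sg_zero]

theorem ch_zero_left (X : Cf n l) : ch 0 X = 1 := by
  unfold ch
  simp [sg_zero]

theorem ch_comm (Ξ X : Cf n l) : ch Ξ X = ch X Ξ := by
  unfold ch
  exact Finset.prod_congr rfl fun i _ => by rw [dotProduct_comm]

/-- Feasible solutions in column form. -/
structure Feas (l n d : ℕ) (f : Cf n l → ℝ) : Prop where
  nonneg : ∀ X, 0 ≤ f X
  zero : f 0 = 1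
  dist : ∀ X (c : U l), 0 < wt (row c X) → wt (row c X) < d → f X = 0
  four : ∀ Ξ, 0 ≤ ∑ X, f X * ch Ξ X

/-- rows to columns -/
def tr (l n : ℕ) : (Fin l → Fin n → ZMod 2) ≃ Cf n l := Equiv.piComm _

theorem tr_apply (X : Fin l → Fin n → ZMod 2) (i : Fin n) (j : Fin l) : tr l n X i j = X j i := rfl

theorem sign_eq (X Y : Fin l → Fin n → ZMod 2) :
    (∏ j, ∏ i, if X j i = 1 ∧ Y j i = 1 then (-1 : ℝ) else 1) = ch (tr l n Y) (tr l n X) := by
  unfold ch
  rw [Finset.prod_comm]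
  apply Finset.prod_congr rfl
  intro i _
  rw [dotProduct, sg_sum]
  apply Finset.prod_congr rfl
  intro j _
  rw [tr_apply, tr_apply, sg_mul]
  exact if_congr and_comm rfl rfl

theorem norm_eq (X : Fin l → Fin n → ZMod 2) (c : U l) :
    hammingNorm (∑ j, c j • X j) = wt (row c (tr l n X)) := by
  unfold hammingNorm wt row
  congr 1
  ext i
  simp only [mem_filter, mem_univ, true_and]
  rw [Finset.sum_apply, dotProduct]
  rfl

theorem linLP_eq (l n d : ℕ) : linLP l n d = sSup {s : ℝ | ∃ f : Cf n l → ℝ, Feas l n d f ∧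
    s = ∑ X, f X} := by
  unfold linLP
  congr 1
  ext s
  constructor
  · rintro ⟨f, h1, h2, h3, h4, h5⟩
    refine ⟨fun X => f ((tr l n).symm X), ⟨fun X => h1 _, ?_, ?_, ?_⟩, ?_⟩
    · exact h2
    · intro X c hc hcd
      apply h3
      refine ⟨c, ?_, ?_⟩
      · rw [norm_eq, Equiv.apply_symm_apply]; exact hc
      · rw [norm_eq, Equiv.apply_symm_apply]; exact hcd
    · intro Ξ
      have := h4 ((tr l n).symm Ξ)
      rw [← Equiv.sum_comp (tr l n)]
      refine this.trans_eq (Finset.sum_congr rfl fun X _ => ?_)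
      rw [sign_eq, Equiv.apply_symm_apply, Equiv.symm_apply_apply]
    · rw [h5, ← Equiv.sum_comp (tr l n)]
      exact Finset.sum_congr rfl fun X _ => by rw [Equiv.symm_apply_apply]
  · rintro ⟨f, hf, h5⟩
    refine ⟨fun X => f (tr l n X), fun X => hf.nonneg _, hf.zero, ?_, ?_, ?_⟩
    · rintro X ⟨c, hc, hcd⟩
      rw [norm_eq] at hc hcd
      exact hf.dist _ c hc hcd
    · intro Y
      have := hf.four (tr l n Y)
      rw [← Equiv.sum_comp (tr l n)] at this
      refine this.trans_eq (Finset.sum_congr rfl fun X _ => ?_)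
      rw [sign_eq]
    · rw [h5, ← Equiv.sum_comp (tr l n)]

theorem feas_le {d : ℕ} {f : Cf n l → ℝ} (hf : Feas l n d f) : ∑ X, f X ≤ 2 ^ (n * l) := by
  have h1 : ∑ Ξ : Cf n l, ∑ X, f X * ch Ξ X = 2 ^ (n * l) := by
    rw [Finset.sum_comm]
    simp_rw [← Finset.mul_sum, sum_ch]
    rw [Finset.sum_eq_single (0 : Cf n l)]
    · rw [if_pos rfl, hf.zero, one_mul]
    · intro X _ hX
      rw [if_neg hX, mul_zero]
    · intro h
      exact absurd (mem_univ _) h
  have h2 : ∑ X, f X * ch 0 X ≤ ∑ Ξ : Cf n l, ∑ X, f X * ch Ξ X :=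
    Finset.single_le_sum (f := fun Ξ : Cf n l => ∑ X, f X * ch Ξ X) (fun Ξ _ => hf.four Ξ)
      (mem_univ 0)
  rw [h1] at h2
  simpa [ch_zero_left] using h2

theorem bdd (l n d : ℕ) : BddAbove {s : ℝ | ∃ f : Cf n l → ℝ, Feas l n d f ∧ s = ∑ X, f X} := by
  refine ⟨2 ^ (n * l), ?_⟩
  rintro s ⟨f, hf, rfl⟩
  exact feas_le hf

theorem le_linLP {d : ℕ} {f : Cf n l → ℝ} (hf : Feas l n d f) : ∑ X, f X ≤ linLP l n d := by
  rw [linLP_eq]
  exact le_csSup (bdd l n d) ⟨f, hf, rfl⟩

/-- the indicator of zero is feasible -/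
theorem feas_delta (l n d : ℕ) : Feas l n d (fun X : Cf n l => if X = 0 then 1 else 0) where
  nonneg X := by split_ifs <;> norm_num
  zero := if_pos rfl
  dist X c h _ := by
    rw [if_neg]
    rintro rfl
    have : wt (row c (0 : Cf n l)) = 0 := by
      unfold wt row
      simp
    omega
  four Ξ := by
    rw [Finset.sum_eq_single (0 : Cf n l)]
    · rw [if_pos rfl, ch_zero_right]; norm_num
    · intro X _ hX
      rw [if_neg hX, zero_mul]
    · intro h
      exact absurd (mem_univ _) h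

theorem one_le_linLP (l n d : ℕ) : 1 ≤ linLP l n d := by
  refine le_trans (le_of_eq ?_) (le_linLP (feas_delta l n d))
  rw [Finset.sum_eq_single (0 : Cf n l)]
  · rw [if_pos rfl]
  · intro X _ hX
    rw [if_neg hX]
  · intro h
    exact absurd (mem_univ _) h

end Pool.Agent.Lib.MP_0430e4_lc.Lin.Asm
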