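import Pool.Agent.Lib.MP_0430e4_lc.Lin.Defs

/-!
# TLG: tensor Lagrange interpolation and the size of the basis polynomials
-/

set_option autoImplicit false

namespace Pool.Agent.Lib.MP_0430e4_lc.Lin

open Finset

/-- The Lagrange identity for one variable, on powers. -/
theorem lag_pow {k : ℕ} {x : Fin (k + 1) → ℝ} (hx : Function.Injective x) (e : ℕ) (he : e ≤ k)
    (z : ℝ) : ∑ j, x j ^ e * lag x j z = z ^ e := by
  have h1 : (Polynomial.X ^ e : Polynomial ℝ) =
      Lagrange.interpolate univ x (fun j => x j ^ e) := by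
    refine Lagrange.eq_interpolate_of_eval_eq _ (hx.injOn) ?_ ?_
    · rw [Polynomial.degree_X_pow, card_univ, Fintype.card_fin]
      exact_mod_cast Nat.lt_succ_of_le he
    · intro i _
      simp
  have h2 := congrArg (Polynomial.eval z) h1
  rw [Polynomial.eval_pow, Polynomial.eval_X, Lagrange.interpolate_apply,
    Polynomial.eval_finsetSum] at h2
  rw [h2]
  refine sum_congr rfl fun j _ => ?_
  rw [Polynomial.eval_mul, Polynomial.eval_C]
  congr 1
  unfold lag Lagrange.basis
  rw [Polynomial.eval_prod]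
  refine prod_congr rfl fun i _ => ?_
  unfold Lagrange.basisDivisor
  rw [Polynomial.eval_mul, Polynomial.eval_C, Polynomial.eval_sub, Polynomial.eval_X,
    Polynomial.eval_C]
  field_simp

theorem tensor_lagrange {σ : Type} [Fintype σ] [DecidableEq σ] {k : ℕ} (x : Fin (k + 1) → ℝ)
    (hx : Function.Injective x) (Q : MvPolynomial σ ℝ) (hQ : ∀ u, Q.degreeOf u ≤ k) (z : σ → ℝ) :
    MvPolynomial.eval z Q = ∑ j : σ → Fin (k + 1),
      MvPolynomial.eval (fun u => x (j u)) Q * ∏ u, lag x (j u) (z u) := by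
  classical
  rw [MvPolynomial.eval_eq']
  simp_rw [MvPolynomial.eval_eq', sum_mul]
  rw [sum_comm]
  refine sum_congr rfl fun d hd => ?_
  have hdk : ∀ u, d u ≤ k := fun u => (MvPolynomial.degreeOf_le_iff.mp (hQ u)) d hd
  have h2 : ∏ u, z u ^ d u = ∏ u, ∑ i, x i ^ d u * lag x i (z u) :=
    prod_congr rfl fun u _ => (lag_pow hx (d u) (hdk u) _).symm
  rw [h2, prod_univ_sum, Fintype.piFinset_univ, mul_sum]
  refine sum_congr rfl fun j _ => ?_
  rw [mul_assoc, prod_mul_distrib]

/-- The product of the distances to the other nodes. -/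
theorem prod_dist {k : ℕ} (j : Fin (k + 1)) :
    ∏ i ∈ univ.erase j, |(j : ℝ) - (i : ℝ)| = (j : ℕ).factorial * (k - j).factorial := by
  classical
  set F : ℕ → ℝ := fun i => if i = (j : ℕ) then 1 else |(j : ℝ) - i| with hF
  have h1 : ∏ i ∈ univ.erase j, |(j : ℝ) - (i : ℝ)| = ∏ i : Fin (k + 1), F i := by
    rw [← mul_prod_erase univ (fun i : Fin (k + 1) => F i) (mem_univ j)]
    rw [hF]
    simp only [if_true, one_mul]
    refine prod_congr rfl fun i hi => ?_
    rw [if_neg]
    intro h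
    exact (ne_of_mem_erase hi) (Fin.ext h)
  have hj := j.2
  obtain ⟨l, hl⟩ : ∃ l, k + 1 = (j : ℕ) + (l + 1) := ⟨k - j, by omega⟩
  have hkl : k - j = l := by omega
  have h2 : ∏ i ∈ range (k + 1), F i = ∏ i ∈ range ((j : ℕ) + (l + 1)), F i :=
    congrArg (fun t => ∏ i ∈ range t, F i) hl
  rw [h1, Fin.prod_univ_eq_prod_range F (k + 1), h2, prod_range_add, prod_range_succ', hkl]
  have e1 : ∏ x ∈ range (j : ℕ), F x = ((j : ℕ).factorial : ℝ) := by
    rw [← Nat.descFactorial_self, Nat.descFactorial_eq_prod_range, Nat.cast_prod]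
    refine prod_congr rfl fun i hi => ?_
    rw [mem_range] at hi
    rw [hF]
    simp only
    rw [if_neg hi.ne, Nat.cast_sub hi.le, abs_of_pos]
    have : (i : ℝ) < (j : ℕ) := by exact_mod_cast hi
    linarith
  have e2 : ∏ x ∈ range l, F (j + (x + 1)) = (l.factorial : ℝ) := by
    rw [← prod_range_add_one_eq_factorial, Nat.cast_prod]
    refine prod_congr rfl fun i _ => ?_
    rw [hF]
    simp only
    rw [if_neg (by omega), abs_sub_comm, abs_of_pos]
    · push_cast
      ring
    · push_cast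
      have : (0 : ℝ) ≤ i := Nat.cast_nonneg _
      linarith
  rw [e1, e2, hF]
  simp

theorem abs_lag_le {k a h : ℕ} (hk : 1 ≤ k) (hh : 1 ≤ h) {c b : ℝ} (x : Fin (k + 1) → ℝ)
    (hx : ∀ i, x i = 2 * ((a : ℝ) + i * h)) (hxb : ∀ i, |x i - c| ≤ b) (j : Fin (k + 1)) (z : ℝ) :
    |lag x j z| ≤ (Real.exp 1 * (|z - c| + b) / (h * k)) ^ k := by
  classical
  have hk0 : (0 : ℝ) < k := by exact_mod_cast hk
  have hh0 : (0 : ℝ) < h := by exact_mod_cast hh
  have hb : 0 ≤ b := (abs_nonneg _).trans (hxb j)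
  have hcard : (univ.erase j).card = k := by
    rw [card_erase_of_mem (mem_univ _), card_univ, Fintype.card_fin, Nat.add_sub_cancel]
  unfold lag
  rw [prod_div_distrib, abs_div, abs_prod, abs_prod]
  have hnum : ∏ i ∈ univ.erase j, |z - x i| ≤ (|z - c| + b) ^ k := by
    calc ∏ i ∈ univ.erase j, |z - x i| ≤ ∏ i ∈ univ.erase j, (|z - c| + b) := by
          refine prod_le_prod (fun i _ => abs_nonneg _) fun i _ => ?_
          have h1 : |z - x i| ≤ |z - c| + |c - x i| := by
            have := abs_add_le (z - c) (c - x i)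
            simpa using this
          have h2 := hxb i
          rw [abs_sub_comm] at h2
          linarith
      _ = (|z - c| + b) ^ k := by rw [prod_const, hcard]
  have hden : ∏ i ∈ univ.erase j, |x j - x i| =
      (2 * (h : ℝ)) ^ k * ((j : ℕ).factorial * (k - j).factorial) := by
    have h0 : (2 * (h : ℝ)) ^ k = ∏ i ∈ univ.erase j, (2 * (h : ℝ)) := by
      rw [prod_const, hcard]
    rw [← prod_dist j, h0, ← prod_mul_distrib]
    refine prod_congr rfl fun i _ => ?_
    rw [hx j, hx i]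
    have h1 : 2 * ((a : ℝ) + (j : ℝ) * h) - 2 * ((a : ℝ) + (i : ℝ) * h) =
        2 * (h : ℝ) * ((j : ℝ) - i) := by ring
    rw [h1, abs_mul, abs_of_pos (by positivity : (0 : ℝ) < 2 * h)]
  have hjk : (j : ℕ) ≤ k := Nat.le_of_lt_succ j.2
  have hfac : (k.factorial : ℝ) ≤ 2 ^ k * ((j : ℕ).factorial * (k - j).factorial) := by
    have h1 := Nat.choose_mul_factorial_mul_factorial hjk
    have h2 := Nat.choose_le_two_pow k j
    have h3 : k.factorial ≤ 2 ^ k * ((j : ℕ).factorial * (k - j).factorial) := by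
      rw [← h1, mul_assoc]
      exact Nat.mul_le_mul_right _ h2
    exact_mod_cast h3
  have hexp : (k : ℝ) ^ k ≤ Real.exp 1 ^ k * k.factorial := by
    have h1 := Real.pow_div_factorial_le_exp (x := (k : ℝ)) hk0.le k
    rw [div_le_iff₀ (by positivity)] at h1
    rwa [← Real.exp_nat_mul, mul_one]
  have hlow : ((h : ℝ) * k) ^ k ≤ Real.exp 1 ^ k *
      ((2 * (h : ℝ)) ^ k * ((j : ℕ).factorial * (k - j).factorial)) := by
    calc ((h : ℝ) * k) ^ k = (h : ℝ) ^ k * (k : ℝ) ^ k := mul_pow _ _ _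
      _ ≤ (h : ℝ) ^ k * (Real.exp 1 ^ k * (2 ^ k * ((j : ℕ).factorial * (k - j).factorial))) := by
          refine mul_le_mul_of_nonneg_left (hexp.trans ?_) (by positivity)
          exact mul_le_mul_of_nonneg_left hfac (by positivity)
      _ = _ := by rw [mul_pow]; ring
  rw [hden]
  have hpos : (0 : ℝ) < (2 * (h : ℝ)) ^ k * ((j : ℕ).factorial * (k - j).factorial) := by
    positivity
  rw [div_pow, div_le_div_iff₀ hpos (by positivity), mul_pow (Real.exp 1)]
  have hA : 0 ≤ |z - c| + b := by positivity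
  calc (∏ i ∈ univ.erase j, |z - x i|) * ((h : ℝ) * k) ^ k
      ≤ (|z - c| + b) ^ k * (Real.exp 1 ^ k *
        ((2 * (h : ℝ)) ^ k * ((j : ℕ).factorial * (k - j).factorial))) := by
        refine mul_le_mul hnum hlow (by positivity) (by positivity)
    _ = _ := by ring

end Pool.Agent.Lib.MP_0430e4_lc.Lin
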