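import Pool.Agent.Lib.MP_0430e4_lc.Lin.FBase
import Pool.Agent.Lib.MP_0430e4_lc.Lin.AVG
import Pool.Agent.Lib.MP_0430e4_lc.Lin.TLG

/-!
# COR: the correction
-/

set_option autoImplicit false

namespace Pool.Agent.Lib.MP_0430e4_lc.Lin

open Finset

variable {n r : ℕ}

theorem evC_comp (p : Equiv.Perm (Fin n)) {X : Cf n r} (hX : X ∈ evC n r) :
    X ∘ p ∈ evC n r := by
  unfold evC at hX ⊢
  rw [mem_filter] at hX ⊢
  refine ⟨mem_univ _, ?_⟩
  rw [← hX.2]
  exact Equiv.sum_comp p X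

theorem EC_perm (f : Cf n r → ℝ) (p : Equiv.Perm (Fin n)) :
    EC (fun X => f (X ∘ p)) = EC f := by
  unfold EC
  congr 1
  refine Finset.sum_nbij' (fun X => X ∘ p) (fun X => X ∘ p.symm) ?_ ?_ ?_ ?_ ?_
  · intro X hX
    exact evC_comp p hX
  · intro X hX
    exact evC_comp p.symm hX
  · intro X _
    funext i
    simp
  · intro X _
    funext i
    simp
  · intro X _
    rfl

/-- Averaging a character against a symmetric function. -/
theorem EC_avg {g : Cf n r → ℝ} (hg : SymC g) (Ξ : Cf n r) :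
    EC (fun X => g X * ((∑ p : Equiv.Perm (Fin n), ch Ξ (X ∘ p)) / (n.factorial : ℝ))) =
      EC fun X => g X * ch Ξ X := by
  have hf : (n.factorial : ℝ) ≠ 0 := by
    exact_mod_cast Nat.factorial_ne_zero n
  have h1 : ∀ X : Cf n r, g X * ((∑ p : Equiv.Perm (Fin n), ch Ξ (X ∘ p)) / (n.factorial : ℝ)) =
      (n.factorial : ℝ)⁻¹ * ∑ p : Equiv.Perm (Fin n), g (X ∘ p) * ch Ξ (X ∘ p) := by
    intro X
    have h2 : ∑ p : Equiv.Perm (Fin n), g (X ∘ p) * ch Ξ (X ∘ p) =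
        g X * ∑ p : Equiv.Perm (Fin n), ch Ξ (X ∘ p) := by
      rw [mul_sum]
      exact sum_congr rfl fun p _ => by rw [hg p X]
    rw [h2]
    ring
  rw [show (fun X : Cf n r => g X * ((∑ p : Equiv.Perm (Fin n), ch Ξ (X ∘ p)) /
    (n.factorial : ℝ))) = fun X => (n.factorial : ℝ)⁻¹ *
      ∑ p : Equiv.Perm (Fin n), g (X ∘ p) * ch Ξ (X ∘ p) from funext h1]
  rw [EC_mul_left, EC_sum]
  rw [sum_congr rfl fun p _ => EC_perm (fun X => g X * ch Ξ X) p, sum_const, card_univ,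
    Fintype.card_perm, Fintype.card_fin, nsmul_eq_mul]
  field_simp

theorem ch_comp (Ξ X : Cf n r) (p : Equiv.Perm (Fin n)) : ch (Ξ ∘ p) (X ∘ p) = ch Ξ X := by
  unfold ch
  exact Equiv.prod_comp p fun i => sg (Ξ i ⬝ᵥ X i)

theorem sup_comp (Ξ : Cf n r) (p : Equiv.Perm (Fin n)) : (sup (Ξ ∘ p)).card = (sup Ξ).card := by
  unfold sup
  refine card_bij' (fun i _ => p i) (fun i _ => p.symm i) ?_ ?_ ?_ ?_
  · intro i hi
    rw [mem_filter] at hi ⊢
    exact ⟨mem_univ _, hi.2⟩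
  · intro i hi
    rw [mem_filter] at hi ⊢
    refine ⟨mem_univ _, ?_⟩
    simpa using hi.2
  · intro i _
    simp
  · intro i _
    simp

theorem cnt_comp (X : Cf n r) (p : Equiv.Perm (Fin n)) (u : U r) : cnt (X ∘ p) u = cnt X u := by
  unfold cnt
  refine card_bij' (fun i _ => p i) (fun i _ => p.symm i) ?_ ?_ ?_ ?_
  · intro i hi
    rw [mem_filter] at hi ⊢
    exact ⟨mem_univ _, hi.2⟩
  · intro i hi
    rw [mem_filter] at hi ⊢
    refine ⟨mem_univ _, ?_⟩
    simpa using hi.2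
  · intro i _
    simp
  · intro i _
    simp

/-- The function with the low coefficients `u`. -/
noncomputable def uvf (k : ℕ) (u : Cf n r → ℝ) (X : Cf n r) : ℝ :=
  ∑ Ξ ∈ univ.filter (fun Ξ : Cf n r => (sup Ξ).card ≤ k), u Ξ * ch Ξ X

theorem uvf_sym (k : ℕ) {u : Cf n r → ℝ} (hu : SymC u) : SymC (uvf k u) := by
  intro p X
  unfold uvf
  refine Finset.sum_nbij' (fun Ξ => Ξ ∘ p.symm) (fun Ξ => Ξ ∘ p) ?_ ?_ ?_ ?_ ?_
  · intro Ξ hΞ
    rw [mem_filter] at hΞ ⊢
    refine ⟨mem_univ _, ?_⟩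
    rw [sup_comp]
    exact hΞ.2
  · intro Ξ hΞ
    rw [mem_filter] at hΞ ⊢
    refine ⟨mem_univ _, ?_⟩
    rw [sup_comp]
    exact hΞ.2
  · intro Ξ _
    funext i
    simp
  · intro Ξ _
    funext i
    simp
  · intro Ξ _
    rw [hu p.symm Ξ]
    congr 1
    have h1 := ch_comp (Ξ ∘ p.symm) X p
    rw [← h1]
    congr 1
    funext i
    simp

theorem EC_uvf_ch (hn : 1 ≤ n) {k : ℕ} (hk : 2 * k < n) (u : Cf n r → ℝ) {Ξ : Cf n r}
    (hΞ : (sup Ξ).card ≤ k) : EC (fun X => uvf k u X * ch Ξ X) = u Ξ := by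
  classical
  have h1 : ∀ X : Cf n r, uvf k u X * ch Ξ X =
      ∑ Θ ∈ univ.filter (fun Θ : Cf n r => (sup Θ).card ≤ k), u Θ * ch (Θ + Ξ) X := by
    intro X
    unfold uvf
    rw [sum_mul]
    refine sum_congr rfl fun Θ _ => ?_
    rw [ch_add]
    ring
  rw [show (fun X => uvf k u X * ch Ξ X) = _ from funext h1, EC_sum]
  rw [sum_eq_single Ξ]
  · rw [EC_mul_left, add_self_Cf, EC_ch hn, if_pos ⟨0, fun _ => rfl⟩, mul_one]
  · intro Θ hΘ hne
    rw [EC_mul_left, EC_ch hn, if_neg, mul_zero]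
    rintro ⟨s, hs⟩
    by_cases h0 : s = 0
    · apply hne
      funext i
      have := hs i
      rw [h0] at this
      exact eq_of_add_U this
    · have h2 : (univ : Finset (Fin n)) ⊆ sup Θ ∪ sup Ξ := by
        intro i _
        rw [mem_union]
        by_contra h3
        rw [not_or] at h3
        unfold sup at h3
        rw [mem_filter, mem_filter] at h3
        have h4 : Θ i = 0 := by
          by_contra h5
          exact h3.1 ⟨mem_univ _, h5⟩
        have h5 : Ξ i = 0 := by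
          by_contra h5
          exact h3.2 ⟨mem_univ _, h5⟩
        have h6 := hs i
        rw [Pi.add_apply, h4, h5, add_zero] at h6
        exact h0 h6.symm
      have h3 := (card_le_card h2).trans (card_union_le _ _)
      rw [card_univ, Fintype.card_fin] at h3
      rw [mem_filter] at hΘ
      omega
  · intro h
    refine absurd ?_ h
    rw [mem_filter]
    exact ⟨mem_univ _, hΞ⟩

theorem EC_uvf_sq (hn : 1 ≤ n) {k : ℕ} (hk : 2 * k < n) (u : Cf n r → ℝ) :
    EC (fun X => uvf k u X ^ 2) =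
      ∑ Ξ ∈ univ.filter (fun Ξ : Cf n r => (sup Ξ).card ≤ k), u Ξ ^ 2 := by
  have h1 : ∀ X : Cf n r, uvf k u X ^ 2 =
      ∑ Ξ ∈ univ.filter (fun Ξ : Cf n r => (sup Ξ).card ≤ k), u Ξ * (uvf k u X * ch Ξ X) := by
    intro X
    rw [sq]
    nth_rewrite 2 [uvf]
    rw [mul_sum]
    refine sum_congr rfl fun Ξ _ => ?_
    ring
  rw [show (fun X => uvf k u X ^ 2) = _ from funext h1, EC_sum]
  refine sum_congr rfl fun Ξ hΞ => ?_
  rw [mem_filter] at hΞ
  rw [EC_mul_left, EC_uvf_ch hn hk u hΞ.2, sq]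

/-- Cauchy-Schwarz. -/
theorem EC_mul_sq_le (f g : Cf n r → ℝ) :
    EC (fun X => f X * g X) ^ 2 ≤ EC (fun X => f X ^ 2) * EC fun X => g X ^ 2 := by
  unfold EC
  rw [div_pow, div_mul_div_comm, ← sq]
  exact div_le_div_of_nonneg_right (sum_mul_sq_le_sq_mul_sq _ _ _) (by positivity)

theorem ev_of_cnt {X : Cf n r} (h : ∀ u : U r, u ≠ 0 → Even (cnt X u)) : X ∈ evC n r := by
  classical
  unfold evC
  rw [mem_filter]
  refine ⟨mem_univ _, ?_⟩
  have h1 : ∑ i, X i = ∑ u : U r, ∑ i ∈ univ.filter (fun i => X i = u), X i :=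
    (sum_fiberwise univ X X).symm
  rw [h1]
  refine sum_eq_zero fun u _ => ?_
  have h2 : ∑ i ∈ univ.filter (fun i => X i = u), X i = cnt X u • u := by
    unfold cnt
    rw [← sum_const]
    exact sum_congr rfl fun i hi => (mem_filter.mp hi).2
  rw [h2]
  by_cases hu : u = 0
  · rw [hu, smul_zero]
  · obtain ⟨m, hm⟩ := h u hu
    rw [hm, add_smul, add_self_U]

theorem correction (hn : 1 ≤ n) {k : ℕ} (hk : 2 * k < n) (x : Fin (k + 1) → ℕ)
    (hx : Function.Injective x) (hev : ∀ i, Even (x i)) (u : Cf n r → ℝ) (hu : SymC u) {θ : ℝ}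
    (hθ : 0 ≤ θ) (hu2 : ∑ Ξ ∈ univ.filter (fun Ξ : Cf n r => (sup Ξ).card ≤ k), u Ξ ^ 2 ≤ θ ^ 2)
    {Lm pm : ℝ} (hLm : 0 ≤ Lm)
    (hL : ∀ j, EC (fun X : Cf n r => Lag (fun i => (x i : ℝ)) j X ^ 2) ≤ Lm ^ 2) (hpm : 0 < pm)
    (hp : ∀ j : {u : U r // u ≠ 0} → Fin (k + 1), pm * 2 ^ (r * (n - 1)) ≤
      ((univ.filter fun X : Cf n r => ∀ u : {u : U r // u ≠ 0}, cnt X u = x (j u)).card : ℝ)) :
    ∃ a : Cf n r → ℝ, SymC a ∧
      (∀ X, a X ≠ 0 → X ∈ evC n r ∧
        ∃ j : {u : U r // u ≠ 0} → Fin (k + 1), ∀ u : {u : U r // u ≠ 0}, cnt X u = x (j u)) ∧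
      (∀ Ξ, (sup Ξ).card ≤ k → fc a Ξ = -u Ξ) ∧ ∀ X, |a X| ≤ θ * Lm / pm := by
  classical
  set xr : Fin (k + 1) → ℝ := fun i => (x i : ℝ) with hxr
  have hxi : Function.Injective xr := fun i j h => hx (Nat.cast_injective h)
  set T : (NZ r → Fin (k + 1)) → Finset (Cf n r) :=
    fun j => univ.filter fun X : Cf n r => ∀ u : NZ r, cnt X u.1 = x (j u) with hT
  have memT : ∀ j X, X ∈ T j ↔ ∀ u : NZ r, cnt X u.1 = x (j u) := fun j X => by
    rw [hT]
    simp
  set Dn : ℝ := 2 ^ (r * (n - 1)) with hDn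
  have hD : 0 < Dn := by positivity
  have hTc : ∀ j, 0 < ((T j).card : ℝ) := fun j => lt_of_lt_of_le (by positivity) (hp j)
  have uniq : ∀ j j' X, X ∈ T j → X ∈ T j' → j = j' := by
    intro j j' X h1 h2
    rw [memT] at h1 h2
    funext u
    exact hx ((h1 u).symm.trans (h2 u))
  have Tev : ∀ j X, X ∈ T j → X ∈ evC n r := by
    intro j X h1
    rw [memT] at h1
    refine ev_of_cnt fun u hu => ?_
    rw [h1 ⟨u, hu⟩]
    exact hev _
  set c : (NZ r → Fin (k + 1)) → ℝ := fun j => EC fun X : Cf n r => Lag xr j X * uvf k u X with hc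
  have hcb : ∀ j, |c j| ≤ θ * Lm := by
    intro j
    have h1 := EC_mul_sq_le (fun X : Cf n r => Lag xr j X) (uvf k u)
    rw [EC_uvf_sq hn hk] at h1
    have h2 : c j ^ 2 ≤ (θ * Lm) ^ 2 := by
      calc c j ^ 2 ≤ _ := h1
        _ ≤ Lm ^ 2 * θ ^ 2 := mul_le_mul (hL j) hu2 (sum_nonneg fun _ _ => sq_nonneg _)
            (sq_nonneg _)
        _ = (θ * Lm) ^ 2 := by ring
    exact abs_le_of_sq_le_sq h2 (by positivity)
  set a : Cf n r → ℝ := fun X => ∑ j, if X ∈ T j then -c j * Dn / (T j).card else 0 with ha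
  have aT : ∀ j X, X ∈ T j → a X = -c j * Dn / (T j).card := by
    intro j X h1
    rw [ha]
    simp only
    rw [sum_eq_single j, if_pos h1]
    · intro j' _ hj'
      rw [if_neg]
      intro h2
      exact hj' (uniq _ _ _ h2 h1)
    · intro h2
      exact absurd (mem_univ _) h2
  have a0 : ∀ X, (∀ j, X ∉ T j) → a X = 0 := by
    intro X h1
    rw [ha]
    exact sum_eq_zero fun j _ => if_neg (h1 j)
  have asym : SymC a := by
    intro p X
    rw [ha]
    refine sum_congr rfl fun j _ => ?_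
    have h1 : X ∘ p ∈ T j ↔ X ∈ T j := by
      rw [memT, memT]
      simp_rw [cnt_comp]
    simp only [h1]
  refine ⟨a, asym, ?_, ?_, ?_⟩
  · intro X hX
    by_contra hcon
    refine hX (a0 X fun j hj => hcon ⟨Tev j X hj, j, (memT j X).mp hj⟩)
  · intro Ξ hΞ
    obtain ⟨Q, hQ, hQX⟩ := avg_poly Ξ hΞ
    have h1 : fc a Ξ = EC fun X => a X *
        ((∑ p : Equiv.Perm (Fin n), ch Ξ (X ∘ p)) / (n.factorial : ℝ)) := (EC_avg asym Ξ).symm
    have h2 : u Ξ = EC fun X => uvf k u X *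
        ((∑ p : Equiv.Perm (Fin n), ch Ξ (X ∘ p)) / (n.factorial : ℝ)) := by
      rw [EC_avg (uvf_sym k hu) Ξ, EC_uvf_ch hn hk u hΞ]
    set Fj : (NZ r → Fin (k + 1)) → ℝ := fun j => MvPolynomial.eval (fun u => xr (j u)) Q with hFj
    have h3 : u Ξ = ∑ j, Fj j * c j := by
      rw [h2, hc]
      simp only
      rw [← sum_congr rfl fun j _ => EC_mul_left (Fj j) fun X : Cf n r => Lag xr j X * uvf k u X,
        ← EC_sum]
      congr 1
      funext X
      rw [hQX X, tensor_lagrange xr hxi Q hQ, mul_sum]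
      refine sum_congr rfl fun j _ => ?_
      rw [hFj]
      unfold Lag
      ring
    have h4 : ∀ X, a X * ((∑ p : Equiv.Perm (Fin n), ch Ξ (X ∘ p)) / (n.factorial : ℝ)) =
        ∑ j, if X ∈ T j then -c j * Dn / (T j).card * Fj j else 0 := by
      intro X
      rw [hQX X, ha, sum_mul]
      refine sum_congr rfl fun j _ => ?_
      split_ifs with h5
      · congr 1
        rw [hFj]
        simp only
        congr 1
        congr 1
        funext u
        rw [(memT j X).mp h5 u, hxr]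
      · rw [zero_mul]
    have h5 : fc a Ξ = ∑ j, -(Fj j * c j) := by
      rw [h1, show (fun X => a X * ((∑ p : Equiv.Perm (Fin n), ch Ξ (X ∘ p)) /
        (n.factorial : ℝ))) = _ from funext h4, EC_sum]
      refine sum_congr rfl fun j _ => ?_
      unfold EC
      rw [← sum_filter]
      have h6 : (evC n r).filter (fun X => X ∈ T j) = T j := by
        ext X
        rw [mem_filter]
        exact ⟨fun h => h.2, fun h => ⟨Tev j X h, h⟩⟩
      rw [h6, sum_const, nsmul_eq_mul]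
      have h7 := (hTc j).ne'
      rw [← hDn]
      field_simp
    rw [h5, h3, sum_neg_distrib]
  · intro X
    by_cases h1 : ∃ j, X ∈ T j
    · obtain ⟨j, hj⟩ := h1
      rw [aT j X hj, neg_mul, neg_div, abs_neg, abs_div, abs_mul, abs_of_pos hD,
        abs_of_pos (hTc j), div_le_div_iff₀ (hTc j) hpm]
      calc |c j| * Dn * pm = |c j| * (pm * Dn) := by ring
        _ ≤ θ * Lm * (T j).card :=
            mul_le_mul (hcb j) (hp j) (by positivity) (by positivity)
    · rw [a0 X fun j hj => h1 ⟨j, hj⟩, abs_zero]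
      positivity

end Pool.Agent.Lib.MP_0430e4_lc.Lin
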