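import Pool.Agent.Lib.MP_0430e4_lc.Lin.Defs

/-!
# ECN: exponential moments of the number of columns of a given value

PROOF. The number of columns equal to `u` is binomial `(n, 2^-r)`: with `p = 2^-r`,
`∑_X exp (t (cnt X u - n p)) = (2^r)^n (p e^((1-p) t) + (1-p) e^(-p t))^n ≤ 2^(rn) exp (t^2 n / 8)`
(Hoeffding's lemma for one column). `exp |y| ≤ exp y + exp (-y)`.
-/

set_option autoImplicit false

namespace Pool.Agent.Lib.MP_0430e4_lc.Lin

open Finset

variable {n r : ℕ}

private theorem two_point {p : ℝ} (h0 : 0 ≤ p) (h1 : p ≤ 1) (t : ℝ) :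
    p * Real.exp (t * (1 - p)) + (1 - p) * Real.exp (t * (-p)) ≤ Real.exp (t ^ 2 / 8) := by
  classical
  let μ : MeasureTheory.Measure ℝ := ENNReal.ofReal p • MeasureTheory.Measure.dirac (1 - p)
    + ENNReal.ofReal (1 - p) • MeasureTheory.Measure.dirac (-p)
  have hμ : MeasureTheory.IsProbabilityMeasure μ := by
    constructor
    simp only [μ, MeasureTheory.Measure.coe_add, MeasureTheory.Measure.coe_smul, Pi.add_apply,
      Pi.smul_apply, MeasureTheory.measure_univ, smul_eq_mul, mul_one]
    rw [← ENNReal.ofReal_add h0 (by linarith)]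
    simp
  have hint : ∀ f : ℝ → ℝ, ∫ x, f x ∂μ = p * f (1 - p) + (1 - p) * f (-p) := by
    intro f
    simp only [μ]
    rw [MeasureTheory.integral_add_measure, MeasureTheory.integral_smul_measure,
      MeasureTheory.integral_smul_measure, MeasureTheory.integral_dirac,
      MeasureTheory.integral_dirac, ENNReal.toReal_ofReal h0, ENNReal.toReal_ofReal (by linarith)]
    · rfl
    · exact (MeasureTheory.integrable_dirac (by simp)).smul_measure (by simp)
    · exact (MeasureTheory.integrable_dirac (by simp)).smul_measure (by simp)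
  have hb : ∀ᵐ x ∂μ, id x ∈ Set.Icc (-p) (1 - p) := by
    have hm : MeasurableSet {x : ℝ | id x ∈ Set.Icc (-p) (1 - p)} := measurableSet_Icc
    simp only [μ]
    rw [MeasureTheory.ae_add_measure_iff]
    constructor
    · apply MeasureTheory.Measure.ae_smul_measure
      rw [MeasureTheory.ae_dirac_iff hm]
      simp only [id, Set.mem_Icc]
      constructor <;> linarith
    · apply MeasureTheory.Measure.ae_smul_measure
      rw [MeasureTheory.ae_dirac_iff hm]
      simp only [id, Set.mem_Icc]
      constructor <;> linarith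
  have h := ProbabilityTheory.hasSubgaussianMGF_of_mem_Icc_of_integral_eq_zero (X := id) (μ := μ)
    aemeasurable_id hb (by rw [hint]; simp only [id]; ring)
  have h2 := h.mgf_le t
  unfold ProbabilityTheory.mgf at h2
  rw [hint] at h2
  simp only [id] at h2
  refine h2.trans (Real.exp_le_exp.2 (le_of_eq ?_))
  have h3 : (1 - p) - (-p) = 1 := by ring
  rw [h3]
  simp
  ring

private theorem sum_cols' (g : U r → ℝ) : ∑ X : Cf n r, ∏ i, g (X i) = (∑ u, g u) ^ n := by
  have h2 := Finset.prod_univ_sum (fun _ : Fin n => (univ : Finset (U r)))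
    (fun _ a => g a)
  rw [Fintype.piFinset_univ] at h2
  rw [← h2, prod_const, card_univ, Fintype.card_fin]

private theorem sum_exp_cnt (u : U r) (t : ℝ) :
    ∑ X : Cf n r, Real.exp (t * ((cnt X u : ℝ) - n / 2 ^ r))
      ≤ 2 ^ (r * n) * Real.exp (t ^ 2 * n / 8) := by
  classical
  set p : ℝ := 1 / 2 ^ r with hp
  have hp0 : 0 ≤ p := by positivity
  have hp1 : p ≤ 1 := by
    rw [hp]
    have : (1 : ℝ) ≤ 2 ^ r := one_le_pow₀ (by norm_num)
    exact (div_le_one (by positivity)).2 this
  have h1 : ∀ X : Cf n r, Real.exp (t * ((cnt X u : ℝ) - n / 2 ^ r))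
      = ∏ i, Real.exp (t * ((if X i = u then 1 else 0) - p)) := by
    intro X
    rw [← Real.exp_sum]
    congr 1
    rw [← mul_sum, sum_sub_distrib]
    congr 2
    · unfold cnt
      rw [Finset.card_filter]
      push_cast
      rfl
    · rw [sum_const, card_univ, Fintype.card_fin, nsmul_eq_mul, hp]
      ring
  simp_rw [h1]
  rw [sum_cols' (fun v => Real.exp (t * ((if v = u then 1 else 0) - p)))]
  have hN : (((univ : Finset (U r)).erase u).card : ℝ) = 2 ^ r - 1 := by
    rw [card_erase_of_mem (mem_univ u), Nat.cast_sub]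
    · simp [Fintype.card_pi, ZMod.card]
    · exact card_pos.2 ⟨u, mem_univ u⟩
  have h2 : ∑ v : U r, Real.exp (t * ((if v = u then 1 else 0) - p))
      = 2 ^ r * (p * Real.exp (t * (1 - p)) + (1 - p) * Real.exp (t * (-p))) := by
    rw [← add_sum_erase univ _ (mem_univ u), if_pos rfl]
    have h3 : ∑ v ∈ univ.erase u, Real.exp (t * ((if v = u then 1 else 0) - p))
        = ∑ _v ∈ univ.erase u, Real.exp (t * (-p)) := by
      apply sum_congr rfl
      intro v hv
      rw [if_neg (mem_erase.1 hv).1, zero_sub]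
    rw [h3, sum_const, nsmul_eq_mul, hN]
    have h4 : (2 : ℝ) ^ r * p = 1 := by
      rw [hp]
      field_simp
    linear_combination (Real.exp (t * (-p)) - Real.exp (t * (1 - p))) * h4
  rw [h2]
  calc _ ≤ (2 ^ r * Real.exp (t ^ 2 / 8)) ^ n := by
        apply pow_le_pow_left₀
        · have h5 : 0 ≤ 1 - p := by linarith
          positivity
        · exact mul_le_mul_of_nonneg_left (two_point hp0 hp1 t) (by positivity)
    _ = _ := by
        rw [mul_pow, ← pow_mul, ← Real.exp_nat_mul]
        congr 2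
        ring

theorem exp_cnt (u : U r) (t : ℝ) :
    ∑ X : Cf n r, Real.exp (t * |(cnt X u : ℝ) - n / 2 ^ r|) ≤
      2 ^ (r * n) * (2 * Real.exp (t ^ 2 * n / 8)) := by
  have e1 := sum_exp_cnt (n := n) u t
  have e2 := sum_exp_cnt (n := n) u (-t)
  rw [neg_sq] at e2
  calc _ ≤ ∑ X : Cf n r, (Real.exp (t * ((cnt X u : ℝ) - n / 2 ^ r))
        + Real.exp (-t * ((cnt X u : ℝ) - n / 2 ^ r))) := by
        apply sum_le_sum
        intro X _
        have p1 := Real.exp_pos (t * ((cnt X u : ℝ) - n / 2 ^ r))
        have p2 := Real.exp_pos (-t * ((cnt X u : ℝ) - n / 2 ^ r))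
        rcases le_total 0 ((cnt X u : ℝ) - n / 2 ^ r) with h0 | h0
        · rw [abs_of_nonneg h0]
          linarith
        · rw [abs_of_nonpos h0, mul_neg, ← neg_mul]
          linarith
    _ ≤ _ := by
        rw [sum_add_distrib]
        linarith

end Pool.Agent.Lib.MP_0430e4_lc.Lin
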