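import Pool.Agent.Lib.MP_0430e4_lc.Lin.TLG
import Pool.Agent.Lib.MP_0430e4_lc.Lin.ECN

/-!
# LSQ: mean square of the product Lagrange basis functions; the rows at the nodes

PROOFS. `EC_Lag_sq`: `|lag x j z| ≤ (B (1 + |z - c|/b))^k ≤ B^k exp (k |z - c| / b)` with
`B = e b / (h k)` (`abs_lag_le`), `c = n / 2^r`. So `Lag^2 ≤ B^(2 k (2^r - 1)) exp (t ∑_{u ≠ 0} |cnt X u - c|)`,
`t = 2k/b`. By convexity of `exp` (AM of the `N = 2^r - 1` numbers `N t |cnt X u - c|`; for `r = 0` trivial)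
the mean over all `X` is at most `2 exp ((N t)^2 n / 8)` (`exp_cnt`), and `EC f ≤ 2^r` times the mean over
all `X` for `f ≥ 0`. `wt_of_cnt`: `n - 2 wt (row v X) = ∑_u sg (v ⬝ u) cnt X u = ∑_u sg (v ⬝ u) (cnt X u - n/2^r)`
(the signs of `v ≠ 0` sum to 0), and `|cnt X 0 - n/2^r| ≤ ∑_{u ≠ 0} |cnt X u - n/2^r|`.
-/

set_option autoImplicit false

namespace Pool.Agent.Lib.MP_0430e4_lc.Lin

open Finset

variable {n r : ℕ}

private theorem card_nz : (Fintype.card {u : U r // u ≠ 0}) = 2 ^ r - 1 := by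
  rw [Fintype.card_subtype_compl, Fintype.card_subtype_eq]
  simp [Fintype.card_pi, ZMod.card]

theorem EC_Lag_sq (hn : 1 ≤ n) {k a h : ℕ} (hk : 1 ≤ k) (hh : 1 ≤ h) {b : ℝ} (hb : 0 < b)
    (x : Fin (k + 1) → ℝ) (hx : ∀ i, x i = 2 * ((a : ℝ) + i * h))
    (hxb : ∀ i, |x i - n / 2 ^ r| ≤ b) (j : {u : U r // u ≠ 0} → Fin (k + 1)) :
    EC (fun X : Cf n r => Lag x j X ^ 2) ≤
      (Real.exp 1 * b / (h * k)) ^ (2 * k * (2 ^ r - 1)) *
        (2 ^ r * (2 * Real.exp ((2 * k / b * 2 ^ r) ^ 2 * n / 8))) := by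
  classical
  have hn0 : (0 : ℝ) < n := by exact_mod_cast hn
  have hk0 : (0 : ℝ) < k := by exact_mod_cast hk
  have hh0 : (0 : ℝ) < h := by exact_mod_cast hh
  set B : ℝ := Real.exp 1 * b / (h * k) with hB
  have hB0 : 0 < B := by positivity
  set t : ℝ := 2 * k / b with ht
  have ht0 : 0 < t := by positivity
  have hlag : ∀ (i : Fin (k + 1)) (z : ℝ), lag x i z ^ 2
      ≤ B ^ (2 * k) * Real.exp (t * |z - n / 2 ^ r|) := by
    intro i z
    have h1 := abs_lag_le hk hh x hx hxb i z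
    have h2 : (Real.exp 1 * (|z - n / 2 ^ r| + b) / (h * k)) ^ k
        ≤ B ^ k * Real.exp (k / b * |z - n / 2 ^ r|) := by
      have e1 : Real.exp 1 * (|z - n / 2 ^ r| + b) / (h * k)
          = B * (|z - n / 2 ^ r| / b + 1) := by
        rw [hB]
        field_simp
      rw [e1, mul_pow]
      apply mul_le_mul_of_nonneg_left _ (by positivity)
      calc (|z - n / 2 ^ r| / b + 1) ^ k ≤ Real.exp (|z - n / 2 ^ r| / b) ^ k :=
            pow_le_pow_left₀ (by positivity) (Real.add_one_le_exp _) k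
        _ = _ := by
            rw [← Real.exp_nat_mul]
            congr 1
            ring
    calc lag x i z ^ 2 = |lag x i z| ^ 2 := (sq_abs _).symm
      _ ≤ (B ^ k * Real.exp (k / b * |z - n / 2 ^ r|)) ^ 2 :=
          pow_le_pow_left₀ (abs_nonneg _) (h1.trans h2) 2
      _ = _ := by
          rw [mul_pow, ← pow_mul, ← Real.exp_nat_mul, ht]
          congr 2
          · ring
          · push_cast
            ring
  -- pointwise bound
  have hpt : ∀ X : Cf n r, Lag x j X ^ 2 ≤ B ^ (2 * k * (2 ^ r - 1))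
      * Real.exp (∑ u : {u : U r // u ≠ 0}, t * |(cnt X u : ℝ) - n / 2 ^ r|) := by
    intro X
    unfold Lag
    rw [← prod_pow]
    calc _ ≤ ∏ u : {u : U r // u ≠ 0}, (B ^ (2 * k) * Real.exp (t * |(cnt X u : ℝ) - n / 2 ^ r|)) :=
          prod_le_prod (fun _ _ => sq_nonneg _) fun u _ => hlag _ _
      _ = _ := by
          rw [prod_mul_distrib, prod_const, card_univ, card_nz, ← pow_mul, Real.exp_sum]
  -- the mean
  have hmean : ∑ X : Cf n r, Real.exp (∑ u : {u : U r // u ≠ 0}, t * |(cnt X u : ℝ) - n / 2 ^ r|)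
      ≤ 2 ^ (r * n) * (2 * Real.exp ((t * 2 ^ r) ^ 2 * n / 8)) := by
    rcases isEmpty_or_nonempty {u : U r // u ≠ 0} with hE | hE
    · simp only [univ_eq_empty, sum_empty, Real.exp_zero, sum_const, card_univ, nsmul_eq_mul,
        mul_one]
      have e1 : (Fintype.card (Cf n r) : ℝ) = 2 ^ (r * n) := by
        simp [Fintype.card_pi, ZMod.card, pow_mul]
      rw [e1]
      have e2 : 1 ≤ Real.exp ((t * 2 ^ r) ^ 2 * n / 8) := Real.one_le_exp (by positivity)
      have e3 : (0 : ℝ) < 2 ^ (r * n) := by positivity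
      nlinarith
    · set N : ℕ := Fintype.card {u : U r // u ≠ 0} with hN
      have hN0 : (0 : ℝ) < N := by exact_mod_cast Fintype.card_pos
      have hNle : (N : ℝ) ≤ 2 ^ r := by
        have : N ≤ 2 ^ r := by
          rw [hN, card_nz]
          exact Nat.sub_le _ _
        exact_mod_cast this
      have hj : ∀ X : Cf n r,
          Real.exp (∑ u : {u : U r // u ≠ 0}, t * |(cnt X u : ℝ) - n / 2 ^ r|)
          ≤ ∑ u : {u : U r // u ≠ 0}, (1 / (N : ℝ))
            * Real.exp (N * t * |(cnt X u : ℝ) - n / 2 ^ r|) := by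
        intro X
        have h1 := convexOn_exp.map_sum_le (t := (univ : Finset {u : U r // u ≠ 0}))
          (w := fun _ => 1 / (N : ℝ)) (p := fun u => N * t * |(cnt X u : ℝ) - n / 2 ^ r|)
          (fun _ _ => by positivity)
          (by rw [sum_const, card_univ, ← hN, nsmul_eq_mul]; field_simp) (fun _ _ => Set.mem_univ _)
        simp only [smul_eq_mul] at h1
        refine le_trans (le_of_eq ?_) h1
        congr 1
        apply sum_congr rfl
        intro u _
        field_simp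
      calc _ ≤ ∑ X : Cf n r, ∑ u : {u : U r // u ≠ 0}, (1 / (N : ℝ))
            * Real.exp (N * t * |(cnt X u : ℝ) - n / 2 ^ r|) := sum_le_sum fun X _ => hj X
        _ = ∑ u : {u : U r // u ≠ 0}, (1 / (N : ℝ)) * ∑ X : Cf n r,
            Real.exp (N * t * |(cnt X u : ℝ) - n / 2 ^ r|) := by
            rw [sum_comm]
            simp_rw [← mul_sum]
        _ ≤ ∑ _u : {u : U r // u ≠ 0}, (1 / (N : ℝ)) *
            (2 ^ (r * n) * (2 * Real.exp ((t * 2 ^ r) ^ 2 * n / 8))) := by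
            apply sum_le_sum
            intro u _
            apply mul_le_mul_of_nonneg_left _ (by positivity)
            refine (exp_cnt (n := n) (u : U r) (N * t)).trans ?_
            apply mul_le_mul_of_nonneg_left _ (by positivity)
            apply mul_le_mul_of_nonneg_left _ (by positivity)
            apply Real.exp_le_exp.2
            have e1 : (N : ℝ) * t ≤ t * 2 ^ r := by
              rw [mul_comm]
              exact mul_le_mul_of_nonneg_left hNle ht0.le
            have e2 : ((N : ℝ) * t) ^ 2 ≤ (t * 2 ^ r) ^ 2 :=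
              pow_le_pow_left₀ (by positivity) e1 2
            have e3 : ((N : ℝ) * t) ^ 2 * n ≤ (t * 2 ^ r) ^ 2 * n :=
              mul_le_mul_of_nonneg_right e2 hn0.le
            linarith
        _ = _ := by
            rw [sum_const, card_univ, ← hN, nsmul_eq_mul]
            field_simp
  have hsum : ∑ X ∈ evC n r, Lag x j X ^ 2
      ≤ B ^ (2 * k * (2 ^ r - 1)) * (2 ^ (r * n) * (2 * Real.exp ((t * 2 ^ r) ^ 2 * n / 8))) := by
    calc _ ≤ ∑ X : Cf n r, Lag x j X ^ 2 :=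
          sum_le_sum_of_subset_of_nonneg (subset_univ _) fun _ _ _ => sq_nonneg _
      _ ≤ ∑ X : Cf n r, B ^ (2 * k * (2 ^ r - 1))
          * Real.exp (∑ u : {u : U r // u ≠ 0}, t * |(cnt X u : ℝ) - n / 2 ^ r|) :=
          sum_le_sum fun X _ => hpt X
      _ ≤ _ := by
          rw [← mul_sum]
          exact mul_le_mul_of_nonneg_left hmean (by positivity)
  have hpow : (2 : ℝ) ^ (r * n) = 2 ^ r * 2 ^ (r * (n - 1)) := by
    rw [← pow_add]
    congr 1
    obtain ⟨m, rfl⟩ : ∃ m, n = m + 1 := ⟨n - 1, by omega⟩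
    simp only [Nat.add_sub_cancel]
    ring
  unfold EC
  rw [div_le_iff₀ (by positivity)]
  refine hsum.trans (le_of_eq ?_)
  rw [hpow]
  ring

private theorem sg_add' (a b : ZMod 2) : sg (a + b) = sg a * sg b := by
  have h : ∀ a : ZMod 2, a = 0 ∨ a = 1 := by decide
  have h11 : (1 : ZMod 2) + 1 = 0 := by decide
  have h0 : sg 0 = 1 := by simp [sg]
  have h1 : sg 1 = -1 := by simp [sg]
  rcases h a with rfl | rfl <;> rcases h b with rfl | rfl <;> simp [h0, h1, h11]

private theorem sg_sum' {ι : Type*} (s : Finset ι) (f : ι → ZMod 2) :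
    sg (∑ i ∈ s, f i) = ∏ i ∈ s, sg (f i) := by
  classical
  induction s using Finset.induction_on with
  | empty => simp [sg]
  | insert a s ha ih => rw [sum_insert ha, prod_insert ha, sg_add', ih]

private theorem sum_sg' (v : U r) (hv : v ≠ 0) : ∑ u : U r, sg (v ⬝ᵥ u) = 0 := by
  have h1 : ∀ u : U r, sg (v ⬝ᵥ u) = ∏ j, sg (v j * u j) := fun u => by
    unfold dotProduct
    exact sg_sum' _ _
  simp_rw [h1]
  have h2 := Finset.prod_univ_sum (fun _ : Fin r => (univ : Finset (ZMod 2)))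
    (fun j a => sg (v j * a))
  rw [Fintype.piFinset_univ] at h2
  rw [← h2]
  obtain ⟨j, hj⟩ := Function.ne_iff.1 hv
  apply prod_eq_zero (mem_univ j)
  have h : ∀ a : ZMod 2, a = 0 ∨ a = 1 := by decide
  have h3 : v j = 1 := by
    rcases h (v j) with h | h
    · exact absurd h hj
    · exact h
  rw [h3]
  have h4 : (univ : Finset (ZMod 2)) = {0, 1} := by decide
  rw [h4, sum_pair (by decide)]
  norm_num [sg]

theorem wt_of_cnt {X : Cf n r} {b : ℝ} (h : ∀ u : U r, u ≠ 0 → |(cnt X u : ℝ) - n / 2 ^ r| ≤ b)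
    {v : U r} (hv : v ∈ Pn r) : |(n : ℝ) - 2 * wt (row v X)| ≤ 2 * 2 ^ r * b := by
  classical
  have hv0 : v ≠ 0 := (mem_erase.1 hv).1
  have hb0 : 0 ≤ b := (abs_nonneg _).trans (h v hv0)
  have h1 : (n : ℝ) - 2 * wt (row v X) = ∑ i, sg (v ⬝ᵥ X i) := by
    unfold wt row
    have e : ∀ i : Fin n, sg (v ⬝ᵥ X i) = 1 - 2 * (if v ⬝ᵥ X i ≠ 0 then (1 : ℝ) else 0) := by
      intro i
      unfold sg
      split_ifs <;> first | contradiction | norm_num
    simp_rw [e]
    rw [sum_sub_distrib, ← mul_sum, sum_boole]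
    simp
  have h2 : ∑ i, sg (v ⬝ᵥ X i) = ∑ u : U r, sg (v ⬝ᵥ u) * cnt X u := by
    rw [← sum_fiberwise univ X (fun i => sg (v ⬝ᵥ X i))]
    apply sum_congr rfl
    intro u _
    have e : ∀ i ∈ univ.filter (fun i => X i = u), sg (v ⬝ᵥ X i) = sg (v ⬝ᵥ u) := by
      intro i hi
      rw [(mem_filter.1 hi).2]
    rw [sum_congr rfl e, sum_const, nsmul_eq_mul, mul_comm]
    rfl
  have h3 : ∑ u : U r, sg (v ⬝ᵥ u) * cnt X u
      = ∑ u : U r, sg (v ⬝ᵥ u) * ((cnt X u : ℝ) - n / 2 ^ r) := by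
    simp_rw [mul_sub]
    rw [sum_sub_distrib, ← sum_mul, sum_sg' v hv0, zero_mul, sub_zero]
  have hcnt : ∑ u : U r, (cnt X u : ℝ) = n := by
    have e := Finset.card_eq_sum_card_fiberwise (f := X) (s := univ) (t := univ)
      (fun _ _ => mem_univ _)
    rw [card_univ, Fintype.card_fin] at e
    have e2 : ∑ u : U r, cnt X u = n := e.symm
    exact_mod_cast e2
  have hU : Fintype.card (U r) = 2 ^ r := by
    simp [Fintype.card_pi, ZMod.card]
  have hsum0 : ∑ u : U r, ((cnt X u : ℝ) - n / 2 ^ r) = 0 := by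
    rw [sum_sub_distrib, hcnt, sum_const, card_univ, hU, nsmul_eq_mul]
    push_cast
    field_simp
    ring
  have h4 : |∑ u : U r, sg (v ⬝ᵥ u) * ((cnt X u : ℝ) - n / 2 ^ r)|
      ≤ ∑ u : U r, |(cnt X u : ℝ) - n / 2 ^ r| := by
    refine (abs_sum_le_sum_abs _ _).trans (sum_le_sum fun u _ => ?_)
    rw [abs_mul]
    have : |sg (v ⬝ᵥ u)| = 1 := by
      unfold sg
      split_ifs <;> norm_num
    rw [this, one_mul]
  have hcardE : ((univ.erase (0 : U r)).card : ℝ) ≤ 2 ^ r := by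
    have : (univ.erase (0 : U r)).card ≤ 2 ^ r := by
      rw [← hU]
      exact card_le_univ _
    exact_mod_cast this
  have h5 : ∑ u ∈ univ.erase (0 : U r), |(cnt X u : ℝ) - n / 2 ^ r| ≤ 2 ^ r * b := by
    calc _ ≤ ∑ _u ∈ univ.erase (0 : U r), b := sum_le_sum fun u hu => h u (mem_erase.1 hu).1
      _ = ((univ.erase (0 : U r)).card : ℝ) * b := by rw [sum_const, nsmul_eq_mul]
      _ ≤ _ := mul_le_mul_of_nonneg_right hcardE hb0
  have h6 : |(cnt X 0 : ℝ) - n / 2 ^ r| ≤ 2 ^ r * b := by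
    rw [← add_sum_erase univ _ (mem_univ (0 : U r))] at hsum0
    have e : (cnt X 0 : ℝ) - n / 2 ^ r
        = - ∑ u ∈ univ.erase (0 : U r), ((cnt X u : ℝ) - n / 2 ^ r) := by linarith
    rw [e, abs_neg]
    exact (abs_sum_le_sum_abs _ _).trans h5
  rw [h1, h2, h3]
  refine h4.trans ?_
  rw [← add_sum_erase univ _ (mem_univ (0 : U r))]
  linarith

end Pool.Agent.Lib.MP_0430e4_lc.Lin
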