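import Pool.Agent.Lib.MP_0430e4_lc.Lin.Defs

/-!
# PAR: the numerical parameters of the construction
-/

set_option autoImplicit false

namespace Pool.Agent.Lib.MP_0430e4_lc.Lin

/-- The order of the exponent at distance `ε` from `1/2`. -/
noncomputable def Yf (ε : ℝ) : ℝ := ε ^ 2 * Real.log (1 / ε)

/-- Frequencies up to `kk` are low. -/
noncomputable def kk (r : ℕ) (ε : ℝ) (n : ℕ) : ℕ := ⌈6 * r * ε ^ 2 * n⌉₊

/-- The border between the two sums over tuples. -/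
noncomputable def NN (ε : ℝ) (n : ℕ) : ℕ := ⌊ε ^ 2 * n / 16⌋₊

/-- Frequencies of the flat part of the smooth function. -/
noncomputable def cc (c₀ : ℝ) (n : ℕ) : ℕ := ⌊c₀ * n⌋₊

/-- The number of smoothing steps. -/
noncomputable def jj (J ε : ℝ) (n : ℕ) : ℕ := ⌈J * Yf ε * n⌉₊

/-- The half length of the box of the nodes. -/
noncomputable def bb (r : ℕ) (ε : ℝ) (n : ℕ) : ℝ := ε * n / 2 ^ (r + 2)

/-- Half the step of the nodes. -/
noncomputable def hs (r : ℕ) (ε : ℝ) (n : ℕ) : ℕ := ⌊bb r ε n / (4 * kk r ε n)⌋₊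

/-- Half the first node. -/
noncomputable def aa (r : ℕ) (ε : ℝ) (n : ℕ) : ℕ := ⌈((n : ℝ) / 2 ^ r - bb r ε n) / 2⌉₊

/-- The bound for the mean square of the basis functions. -/
noncomputable def Lmx (r n k h : ℕ) (b : ℝ) : ℝ :=
  Real.sqrt ((Real.exp 1 * b / (h * k)) ^ (2 * k * (2 ^ r - 1)) *
    (2 ^ r * (2 * Real.exp ((2 * k / b * 2 ^ r) ^ 2 * n / 8))))

/-- The lower bound for the probability of a node. -/
noncomputable def pmx (r n : ℕ) (b : ℝ) : ℝ :=
  Real.exp (-(8 ^ r * b ^ 2 / n)) / (n + 1) ^ (2 ^ r)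

end Pool.Agent.Lib.MP_0430e4_lc.Lin
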