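import Pool.Agent.Lib.MP_0430e4_lc.Lin.Defs

/-!
# TYP: number of tuples of a given type

PROOF. The number is the multinomial coefficient of `τ`. With `p_u = τ_u / n`:
`n^n = ∑_σ multinomial σ ∏ τ_u^{σ_u}` over the types `σ` (at most `(n+1)^(2^r)`), and the largest
term is the one with `σ = τ` (`σ_u! τ_u^{-σ_u} ≥ τ_u! τ_u^{-τ_u}`: `m! / l! ≥ l^(m-l)`). So
`multinomial τ * (n+1)^(2^r) ≥ ∏ (n/τ_u)^{τ_u} = exp (- n ∑ p_u log p_u)`, and
`log (2^r) + ∑ p_u log p_u = ∑ p_u log (2^r p_u) ≤ ∑ p_u (2^r p_u - 1) = 2^r ∑ (p_u - 2^-r)^2`.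
-/

set_option autoImplicit false

namespace Pool.Agent.Lib.MP_0430e4_lc.Lin

open Finset

variable {n r : ℕ}

section TYPaux

variable {ι : Type*} [Fintype ι] [DecidableEq ι]

/-- the type of a word -/
private def typ (X : Fin n → ι) (u : ι) : ℕ := (univ.filter fun i => X i = u).card

/-- the type class -/
private def cls (n : ℕ) (σ : ι → ℕ) : Finset (Fin n → ι) := univ.filter fun X => ∀ u, typ X u = σ u

private theorem exists_typ (τ : ι → ℕ) (hτ : ∑ u, τ u = n) : (cls n τ).Nonempty := by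
  classical
  have h1 : Fintype.card (Fin n) = Fintype.card (Σ u : ι, Fin (τ u)) := by
    simp [Fintype.card_sigma, hτ]
  let e := Fintype.equivOfCardEq h1
  refine ⟨fun i => (e i).1, mem_filter.2 ⟨mem_univ _, fun u => ?_⟩⟩
  have h2 : (univ.filter fun i => (e i).1 = u).card
      = (univ.filter fun z : (Σ u : ι, Fin (τ u)) => z.1 = u).card := by
    apply Finset.card_bij (fun i _ => e i)
    · intro i hi
      simpa using hi
    · intro i _ j _ h
      exact e.injective h
    · intro z hz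
      exact ⟨e.symm z, by simpa using hz, by simp⟩
  unfold typ
  rw [h2]
  have h3 : (univ.filter fun z : (Σ u : ι, Fin (τ u)) => z.1 = u)
      = (univ : Finset (Fin (τ u))).map ⟨fun a => (⟨u, a⟩ : Σ u : ι, Fin (τ u)), by
        intro a b h
        simpa using h⟩ := by
    ext ⟨z1, z2⟩
    simp only [mem_filter, mem_univ, true_and, mem_map]
    constructor
    · intro h
      subst h
      exact ⟨z2, rfl⟩
    · rintro ⟨a, ha⟩
      exact (congrArg Sigma.fst ha).symm
  rw [h3, card_map, card_univ, Fintype.card_fin]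

omit [Fintype ι] in
private theorem exists_comp {X X0 : Fin n → ι} (h : ∀ u, typ X u = typ X0 u) :
    ∃ p : Equiv.Perm (Fin n), X0 ∘ p = X := by
  classical
  have e : ∀ u, {i // X i = u} ≃ {i // X0 i = u} := fun u => by
    apply Fintype.equivOfCardEq
    rw [Fintype.card_subtype, Fintype.card_subtype]
    exact h u
  exact ⟨Equiv.ofFiberEquiv e, funext fun i => Equiv.ofFiberEquiv_map e i⟩

private theorem card_cls (σ : ι → ℕ) (hσ : ∑ u, σ u = n) :
    (cls n σ).card * (∏ u, (σ u).factorial) = n.factorial := by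
  classical
  obtain ⟨X0, h0⟩ := exists_typ σ hσ
  have h0' := (mem_filter.1 h0).2
  have hmaps : ∀ p ∈ (univ : Finset (Equiv.Perm (Fin n))), X0 ∘ p ∈ cls n σ := by
    intro p _
    refine mem_filter.2 ⟨mem_univ _, fun u => ?_⟩
    rw [← h0' u]
    apply Finset.card_bij (fun i _ => p i)
    · intro i hi
      simpa using hi
    · intro i _ j _ h
      exact p.injective h
    · intro i hi
      exact ⟨p.symm i, by simpa using hi, by simp⟩
  have h1 := Finset.card_eq_sum_card_fiberwise hmaps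
  rw [Finset.card_univ, Fintype.card_perm, Fintype.card_fin] at h1
  rw [h1, ← smul_eq_mul, ← sum_const]
  apply sum_congr rfl
  intro X hX
  have hX' := (mem_filter.1 hX).2
  obtain ⟨p0, hp0⟩ := exists_comp (X := X) (X0 := X0) fun u => by rw [hX' u, h0' u]
  have h3 := DomMulAct.stabilizer_card X0
  have h4 : ∀ u, Fintype.card {a // X0 a = u} = σ u := by
    intro u
    rw [Fintype.card_subtype]
    exact h0' u
  simp_rw [h4] at h3
  rw [← h3, Fintype.card_subtype]
  apply Finset.card_bij (fun g _ => p0.trans g)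
  · intro g hg
    have hg2 := (mem_filter.1 hg).2
    refine mem_filter.2 ⟨mem_univ _, ?_⟩
    rw [← hp0]
    funext i
    have := congrFun hg2 (p0 i)
    simpa using this
  · intro g _ g' _ h
    ext i
    have := congrArg (fun e : Equiv.Perm (Fin n) => e (p0.symm i)) h
    simpa using congrArg Fin.val this
  · intro p hp
    have hp2 := (mem_filter.1 hp).2
    refine ⟨p0.symm.trans p, mem_filter.2 ⟨mem_univ _, ?_⟩, ?_⟩
    · funext i
      have e1 := congrFun hp2 (p0.symm i)
      have e2 := congrFun hp0 (p0.symm i)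
      simp only [Function.comp_apply, Equiv.apply_symm_apply] at e1 e2
      simp only [Function.comp_apply, Equiv.trans_apply]
      rw [e1, ← e2]
    · ext i
      simp

private theorem fact_add_le (s m : ℕ) : (s + m).factorial ≤ s.factorial * (s + m) ^ m := by
  induction m with
  | zero => simp
  | succ m ih =>
    have h1 : (s + (m + 1)).factorial = (s + (m + 1)) * (s + m).factorial := by
      rw [← Nat.add_assoc, Nat.factorial_succ]
    rw [h1]
    calc (s + (m + 1)) * (s + m).factorial ≤ (s + (m + 1)) * (s.factorial * (s + m) ^ m) :=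
          Nat.mul_le_mul_left _ ih
      _ ≤ (s + (m + 1)) * (s.factorial * (s + (m + 1)) ^ m) :=
          Nat.mul_le_mul_left _ (Nat.mul_le_mul_left _ (Nat.pow_le_pow_left (by omega) m))
      _ = _ := by ring

private theorem pow_div_fact_le (t s : ℕ) :
    (t : ℝ) ^ s * t.factorial ≤ (t : ℝ) ^ t * s.factorial := by
  rcases le_total s t with h | h
  · obtain ⟨m, rfl⟩ := Nat.exists_eq_add_of_le h
    have h2 : ((s + m).factorial : ℝ) ≤ s.factorial * ((s + m : ℕ) : ℝ) ^ m := by
      have h3 := fact_add_le s m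
      exact_mod_cast h3
    calc (((s + m : ℕ) : ℝ)) ^ s * (s + m).factorial
        ≤ (((s + m : ℕ) : ℝ)) ^ s * (s.factorial * ((s + m : ℕ) : ℝ) ^ m) :=
          mul_le_mul_of_nonneg_left h2 (by positivity)
      _ = _ := by rw [pow_add]; ring
  · obtain ⟨m, rfl⟩ := Nat.exists_eq_add_of_le h
    have h2 : (t.factorial : ℝ) * (t : ℝ) ^ m ≤ (t + m).factorial := by
      have h3 : t.factorial * t ^ m ≤ (t + m).factorial :=
        (Nat.mul_le_mul_left _ (Nat.pow_le_pow_left (Nat.le_succ t) m)).trans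
          Nat.factorial_mul_pow_le_factorial
      exact_mod_cast h3
    calc (t : ℝ) ^ (t + m) * t.factorial = (t : ℝ) ^ t * (t.factorial * (t : ℝ) ^ m) := by
          rw [pow_add]; ring
      _ ≤ _ := mul_le_mul_of_nonneg_left h2 (by positivity)

private theorem prod_eq (τ : ι → ℕ) (X : Fin n → ι) :
    ∏ i, (τ (X i) : ℝ) = ∏ u, (τ u : ℝ) ^ typ X u := by
  classical
  rw [← prod_fiberwise univ X (fun i => (τ (X i) : ℝ))]
  apply prod_congr rfl
  intro u _
  unfold typ
  rw [← prod_const]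
  apply prod_congr rfl
  intro i hi
  rw [(mem_filter.1 hi).2]

private theorem sum_typ (X : Fin n → ι) : ∑ u, typ X u = n := by
  classical
  have h := Finset.card_eq_sum_card_fiberwise (f := X) (s := univ) (t := univ)
    (fun _ _ => mem_univ _)
  rw [card_univ, Fintype.card_fin] at h
  exact h.symm

private theorem pow_le_types (τ : ι → ℕ) (hτ : ∑ u, τ u = n) :
    (n : ℝ) ^ n ≤ ((n : ℝ) + 1) ^ Fintype.card ι * ((cls n τ).card * ∏ u, (τ u : ℝ) ^ τ u) := by
  classical
  set B : ℝ := (cls n τ).card * ∏ u, (τ u : ℝ) ^ τ u with hB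
  have hB0 : 0 ≤ B := by positivity
  have hτn : ∑ u, (τ u : ℝ) = n := by exact_mod_cast hτ
  have h1 : (n : ℝ) ^ n = ∑ X : Fin n → ι, ∏ i, (τ (X i) : ℝ) := by
    have h2 := Finset.prod_univ_sum (fun _ : Fin n => (univ : Finset ι)) (fun _ a => (τ a : ℝ))
    rw [Fintype.piFinset_univ] at h2
    rw [← h2, prod_const, card_univ, Fintype.card_fin, hτn]
  -- comparison of the classes
  have hcls : ∀ σ : ι → ℕ, ∑ u, σ u = n →
      ((cls n σ).card : ℝ) * ∏ u, (τ u : ℝ) ^ σ u ≤ B := by
    intro σ hσ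
    have e1 : ((cls n σ).card : ℝ) * ∏ u, ((σ u).factorial : ℝ) = n.factorial := by
      exact_mod_cast card_cls σ hσ
    have e2 : ((cls n τ).card : ℝ) * ∏ u, ((τ u).factorial : ℝ) = n.factorial := by
      exact_mod_cast card_cls τ hτ
    have p1 : 0 < ∏ u, ((σ u).factorial : ℝ) :=
      prod_pos fun u _ => by exact_mod_cast (σ u).factorial_pos
    have p2 : 0 < ∏ u, ((τ u).factorial : ℝ) :=
      prod_pos fun u _ => by exact_mod_cast (τ u).factorial_pos
    have e3 : (∏ u, (τ u : ℝ) ^ σ u) * ∏ u, ((τ u).factorial : ℝ)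
        ≤ (∏ u, (τ u : ℝ) ^ τ u) * ∏ u, ((σ u).factorial : ℝ) := by
      rw [← prod_mul_distrib, ← prod_mul_distrib]
      exact prod_le_prod (fun u _ => by positivity) fun u _ => pow_div_fact_le (τ u) (σ u)
    have c1 : ((cls n σ).card : ℝ) = n.factorial / ∏ u, ((σ u).factorial : ℝ) := by
      rw [← e1]
      field_simp
    have c2 : ((cls n τ).card : ℝ) = n.factorial / ∏ u, ((τ u).factorial : ℝ) := by
      rw [← e2]
      field_simp
    rw [hB, c1, c2, div_mul_eq_mul_div, div_mul_eq_mul_div, div_le_div_iff₀ p1 p2, mul_assoc,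
      mul_assoc]
    exact mul_le_mul_of_nonneg_left e3 (by positivity)
  have h2 : ∑ X : Fin n → ι, ∏ i, (τ (X i) : ℝ)
      = ∑ σ ∈ (univ : Finset (Fin n → ι)).image typ, ∑ X ∈ univ.filter (fun X => typ X = σ),
        ∏ i, (τ (X i) : ℝ) :=
    (sum_fiberwise_of_maps_to (fun X _ => mem_image_of_mem _ (mem_univ X)) _).symm
  have h3 : ∀ σ ∈ (univ : Finset (Fin n → ι)).image typ,
      ∑ X ∈ univ.filter (fun X : Fin n → ι => typ X = σ), ∏ i, (τ (X i) : ℝ) ≤ B := by
    intro σ hσ
    obtain ⟨X1, _, hX1⟩ := mem_image.1 hσ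
    have hs : ∑ u, σ u = n := by
      rw [← hX1]
      exact sum_typ X1
    refine le_trans (le_of_eq ?_) (hcls σ hs)
    have e1 : univ.filter (fun X : Fin n → ι => typ X = σ) = cls n σ := by
      unfold cls
      apply filter_congr
      intro X _
      exact funext_iff
    rw [e1]
    have e2 : ∀ X ∈ cls n σ, ∏ i, (τ (X i) : ℝ) = ∏ u, (τ u : ℝ) ^ σ u := by
      intro X hX
      rw [prod_eq]
      apply prod_congr rfl
      intro u _
      rw [(mem_filter.1 hX).2 u]
    rw [sum_congr rfl e2, sum_const, nsmul_eq_mul]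
  have h4 : (((univ : Finset (Fin n → ι)).image typ).card : ℝ) ≤ ((n : ℝ) + 1) ^ Fintype.card ι := by
    have h5 : (univ : Finset (Fin n → ι)).image typ
        ⊆ Fintype.piFinset (fun _ : ι => range (n + 1)) := by
      intro σ hσ
      obtain ⟨X1, _, hX1⟩ := mem_image.1 hσ
      rw [Fintype.mem_piFinset]
      intro u
      rw [mem_range, ← hX1]
      calc typ X1 u ≤ (univ : Finset (Fin n)).card := card_filter_le _ _
        _ < n + 1 := by simp
    have h6 := card_le_card h5
    rw [Fintype.card_piFinset, prod_const, card_range, card_univ] at h6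
    exact_mod_cast h6
  rw [h1, h2]
  calc _ ≤ ∑ _σ ∈ (univ : Finset (Fin n → ι)).image typ, B := sum_le_sum h3
    _ = (((univ : Finset (Fin n → ι)).image typ).card : ℝ) * B := by
        rw [sum_const, nsmul_eq_mul]
    _ ≤ _ := mul_le_mul_of_nonneg_right h4 hB0

end TYPaux

theorem card_type_ge (hn : 1 ≤ n) (τ : U r → ℕ) (hτ : ∑ u, τ u = n) :
    (2 : ℝ) ^ (r * n) * Real.exp (-(2 ^ r * (∑ u, ((τ u : ℝ) - n / 2 ^ r) ^ 2) / n)) ≤
      (n + 1) ^ (2 ^ r) * ((univ.filter fun X : Cf n r => ∀ u, cnt X u = τ u).card : ℝ) := by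
  classical
  have hn0 : (0 : ℝ) < n := by exact_mod_cast hn
  have hU : Fintype.card (U r) = 2 ^ r := by
    simp [Fintype.card_pi, ZMod.card]
  have h1 := pow_le_types τ hτ
  rw [hU] at h1
  have hcls : (cls n τ).card = (univ.filter fun X : Cf n r => ∀ u, cnt X u = τ u).card := rfl
  rw [hcls] at h1
  set T : ℝ := ((univ.filter fun X : Cf n r => ∀ u, cnt X u = τ u).card : ℝ) with hT
  have hτn : ∑ u, (τ u : ℝ) = n := by exact_mod_cast hτ
  have hN0 : (0 : ℝ) < 2 ^ r := by positivity
  -- the weights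
  have hprod : 0 < ∏ u, (τ u : ℝ) ^ τ u := by
    apply prod_pos
    intro u _
    rcases Nat.eq_zero_or_pos (τ u) with h | h
    · rw [h, pow_zero]
      norm_num
    · have : (0 : ℝ) < τ u := by exact_mod_cast h
      positivity
  have h2 : (2 : ℝ) ^ (r * n) * Real.exp (-(2 ^ r * (∑ u, ((τ u : ℝ) - n / 2 ^ r) ^ 2) / n))
      * ∏ u, (τ u : ℝ) ^ τ u ≤ (n : ℝ) ^ n := by
    have e0 : ∏ u, (τ u : ℝ) ^ τ u = Real.exp (∑ u, (τ u : ℝ) * Real.log (τ u)) := by
      rw [Real.exp_sum]
      apply prod_congr rfl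
      intro u _
      rcases Nat.eq_zero_or_pos (τ u) with h | h
      · rw [h]
        simp
      · have hu : (0 : ℝ) < τ u := by exact_mod_cast h
        rw [Real.exp_nat_mul, Real.exp_log hu]
    have e1 : (n : ℝ) ^ n = Real.exp (n * Real.log n) := by
      rw [Real.exp_nat_mul, Real.exp_log hn0]
    have e2 : (2 : ℝ) ^ (r * n) = Real.exp (n * Real.log (2 ^ r)) := by
      rw [Real.exp_nat_mul, Real.exp_log hN0, ← pow_mul]
    rw [e0, e1, e2, ← Real.exp_add, ← Real.exp_add]
    apply Real.exp_le_exp.2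
    have h5 : ∑ u, ((τ u : ℝ) * Real.log (τ u))
        ≤ ∑ u, (τ u : ℝ) * (Real.log n - Real.log (2 ^ r) + (2 ^ r * τ u / n - 1)) := by
      apply sum_le_sum
      intro u _
      rcases Nat.eq_zero_or_pos (τ u) with h | h
      · rw [h]
        simp
      · have hu : (0 : ℝ) < τ u := by exact_mod_cast h
        apply mul_le_mul_of_nonneg_left _ hu.le
        have h6 : Real.log (2 ^ r * τ u / n) ≤ 2 ^ r * τ u / n - 1 :=
          Real.log_le_sub_one_of_pos (by positivity)
        rw [Real.log_div (by positivity) hn0.ne', Real.log_mul hN0.ne' hu.ne'] at h6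
        linarith
    have h6 : ∑ u, (τ u : ℝ) * (Real.log n - Real.log (2 ^ r) + (2 ^ r * τ u / n - 1))
        = n * Real.log n - n * Real.log (2 ^ r)
          + 2 ^ r * (∑ u, ((τ u : ℝ) - n / 2 ^ r) ^ 2) / n := by
      have e1 : ∀ u, (τ u : ℝ) * (Real.log n - Real.log (2 ^ r) + (2 ^ r * τ u / n - 1))
          = (Real.log n - Real.log (2 ^ r)) * τ u
            + (2 ^ r / n * ((τ u : ℝ) - n / 2 ^ r) ^ 2 + (τ u - n / 2 ^ r)) := by
        intro u
        field_simp
        ring
      simp_rw [e1]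
      rw [sum_add_distrib, sum_add_distrib, sum_sub_distrib, ← mul_sum, ← mul_sum, hτn, sum_const,
        card_univ, hU, nsmul_eq_mul]
      push_cast
      field_simp
      ring
    linarith
  have h3 : (2 : ℝ) ^ (r * n) * Real.exp (-(2 ^ r * (∑ u, ((τ u : ℝ) - n / 2 ^ r) ^ 2) / n))
      * ∏ u, (τ u : ℝ) ^ τ u ≤ ((n : ℝ) + 1) ^ (2 ^ r) * T * ∏ u, (τ u : ℝ) ^ τ u := by
    calc _ ≤ _ := h2
      _ ≤ _ := h1
      _ = _ := by ring
  exact le_of_mul_le_mul_right h3 hprod

end Pool.Agent.Lib.MP_0430e4_lc.Lin
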