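import Pool.Agent.Lib.MP_0430e4_lc.Lin.COR
import Pool.Agent.Lib.MP_0430e4_lc.Lin.LSQ
import Pool.Agent.Lib.MP_0430e4_lc.Lin.TYP
import Pool.Agent.Lib.MP_0430e4_lc.Lin.PAR

/-!
# COX: the correction at the nodes

PROOF. Nodes `x i = 2 (a + i h)`, `i = 0..k`; all `x i` are even, different, in
`[n/2^r - b, n/2^r]`. Apply `correction` with `Lm = Lmx`, `pm = pmx`: `EC_Lag_sq`; for the types:
`τ u = x (j u)` for `u ≠ 0`, `τ 0 = n - ∑_{u ≠ 0} τ u ≥ 0` (`(2^r - 1) n / 2^r ≤ n`),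
`∑_u (τ u - n/2^r)^2 ≤ (2^r - 1) b^2 + ((2^r - 1) b)^2 ≤ 4^r b^2`, `card_type_ge`, and the set of the
`X` with `cnt X u = τ u` for all `u` is the set with the conditions for `u ≠ 0`
(`∑_u cnt X u = n`). At the nodes `wt_of_cnt` gives `|n - 2 wt (row v X)| ≤ 2 * 2^r * b`, so
`2 d2 ≤ 2 wt (row v X)`.
-/

set_option autoImplicit false

namespace Pool.Agent.Lib.MP_0430e4_lc.Lin

open Finset

variable {n r : ℕ}

theorem cox_card_nz : ((Fintype.card {u : U r // u ≠ 0} : ℕ) : ℝ) + 1 = 2 ^ r := by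
  have h : Fintype.card {u : U r // u ≠ 0} + 1 = 2 ^ r := by
    rw [Fintype.card_subtype_compl, Fintype.card_subtype_eq]
    have : 1 ≤ 2 ^ r := Nat.one_le_two_pow
    simp only [Fintype.card_pi, ZMod.card, prod_const, card_univ, Fintype.card_fin]
    omega
  exact_mod_cast h

/-- The lower bound for the number of tuples at a node. -/
theorem cox_type (hn : 1 ≤ n) {b : ℝ} (x : {u : U r // u ≠ 0} → ℕ)
    (hx0 : ∀ u, (n : ℝ) / 2 ^ r - b ≤ x u) (hx1 : ∀ u, (x u : ℝ) ≤ n / 2 ^ r) (hb : 0 < b) :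
    pmx r n b * 2 ^ (r * (n - 1)) ≤
      ((univ.filter fun X : Cf n r => ∀ u : {u : U r // u ≠ 0}, cnt X u = x u).card : ℝ) := by
  classical
  have hn0 : (0 : ℝ) < n := by exact_mod_cast hn
  have hN := cox_card_nz (r := r)
  set N : ℝ := ((Fintype.card {u : U r // u ≠ 0} : ℕ) : ℝ) with hNdef
  have hN0 : 0 ≤ N := Nat.cast_nonneg _
  have hr0 : (0 : ℝ) < 2 ^ r := by positivity
  have hsum : ∑ u, x u ≤ n := by
    have h1 : ∑ u, (x u : ℝ) ≤ N * (n / 2 ^ r) := by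
      refine (sum_le_sum fun u _ => hx1 u).trans (le_of_eq ?_)
      rw [sum_const, card_univ, nsmul_eq_mul]
    have h2 : N * ((n : ℝ) / 2 ^ r) ≤ n := by
      rw [mul_div_assoc', div_le_iff₀ hr0, ← hN]
      nlinarith
    have h3 : ((∑ u, x u : ℕ) : ℝ) ≤ n := by
      push_cast
      exact h1.trans h2
    exact_mod_cast h3
  set τ : U r → ℕ := fun u => if h : u ≠ 0 then x ⟨u, h⟩ else n - ∑ u, x u with hτ
  have hτ1 : ∀ u : {u : U r // u ≠ 0}, τ u = x u := by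
    intro u
    rw [hτ]
    simp only
    rw [dif_pos u.2]
  have hτ0 : τ 0 = n - ∑ u, x u := by
    rw [hτ]
    simp only
    rw [dif_neg (by simp)]
  have hτs : ∑ u, τ u = n := by
    rw [Fintype.sum_eq_add_sum_subtype_ne τ 0, hτ0, sum_congr rfl fun u _ => hτ1 u]
    exact Nat.sub_add_cancel hsum
  have hτ0r : (τ 0 : ℝ) - n / 2 ^ r = -∑ u : {u : U r // u ≠ 0}, ((x u : ℝ) - n / 2 ^ r) := by
    have e1 : (τ 0 : ℝ) = n - ∑ u, (x u : ℝ) := by
      rw [hτ0, Nat.cast_sub hsum]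
      push_cast
      rfl
    rw [e1, sum_sub_distrib, sum_const, card_univ, nsmul_eq_mul, ← hNdef]
    have e2 : N = 2 ^ r - 1 := by linarith
    rw [e2]
    field_simp
    ring
  have habs : ∀ u, |(x u : ℝ) - n / 2 ^ r| ≤ b := by
    intro u
    rw [abs_le]
    constructor
    · linarith [hx0 u]
    · linarith [hx1 u]
  have hS : ∑ u, ((τ u : ℝ) - n / 2 ^ r) ^ 2 ≤ 4 ^ r * b ^ 2 := by
    rw [Fintype.sum_eq_add_sum_subtype_ne (fun u => ((τ u : ℝ) - n / 2 ^ r) ^ 2) 0]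
    have h1 : ∑ u : {u : U r // u ≠ 0}, ((τ u : ℝ) - n / 2 ^ r) ^ 2 ≤ N * b ^ 2 := by
      have h2 : ∀ u ∈ (univ : Finset {u : U r // u ≠ 0}),
          ((τ u : ℝ) - n / 2 ^ r) ^ 2 ≤ b ^ 2 := by
        intro u _
        rw [hτ1 u, ← sq_abs]
        exact pow_le_pow_left₀ (abs_nonneg _) (habs u) 2
      refine (sum_le_card_nsmul _ _ _ h2).trans (le_of_eq ?_)
      rw [nsmul_eq_mul, card_univ]
    have h3 : ((τ 0 : ℝ) - n / 2 ^ r) ^ 2 ≤ (N * b) ^ 2 := by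
      rw [hτ0r, neg_sq, ← sq_abs]
      refine pow_le_pow_left₀ (abs_nonneg _) ?_ 2
      refine (abs_sum_le_sum_abs _ _).trans ((sum_le_sum fun u _ => habs u).trans (le_of_eq ?_))
      rw [sum_const, card_univ, nsmul_eq_mul]
    have h4 : (4 : ℝ) ^ r = (N + 1) ^ 2 := by
      rw [hN, ← pow_mul, mul_comm r 2, pow_mul]
      norm_num
    rw [h4]
    nlinarith [sq_nonneg b]
  have hc := card_type_ge hn τ hτs
  have hsub : (univ.filter fun X : Cf n r => ∀ u, cnt X u = τ u) ⊆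
      univ.filter fun X : Cf n r => ∀ u : {u : U r // u ≠ 0}, cnt X u = x u := by
    intro X hX
    rw [mem_filter] at hX ⊢
    refine ⟨mem_univ _, fun u => ?_⟩
    rw [hX.2 u, hτ1 u]
  have hcard : ((univ.filter fun X : Cf n r => ∀ u, cnt X u = τ u).card : ℝ) ≤
      ((univ.filter fun X : Cf n r => ∀ u : {u : U r // u ≠ 0}, cnt X u = x u).card : ℝ) := by
    exact_mod_cast card_le_card hsub
  refine le_trans ?_ hcard
  have hexp : Real.exp (-(8 ^ r * b ^ 2 / n)) ≤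
      Real.exp (-(2 ^ r * (∑ u, ((τ u : ℝ) - n / 2 ^ r) ^ 2) / n)) := by
    refine Real.exp_le_exp.2 (neg_le_neg ?_)
    refine div_le_div_of_nonneg_right ?_ hn0.le
    have h8 : (8 : ℝ) ^ r = 2 ^ r * 4 ^ r := by
      rw [← mul_pow]
      norm_num
    rw [h8, mul_assoc]
    exact mul_le_mul_of_nonneg_left hS hr0.le
  have hpow : (2 : ℝ) ^ (r * (n - 1)) ≤ 2 ^ (r * n) :=
    pow_le_pow_right₀ (by norm_num) (Nat.mul_le_mul_left _ (Nat.sub_le _ _))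
  have hn1 : (0 : ℝ) < ((n : ℝ) + 1) ^ (2 ^ r) := by positivity
  unfold pmx
  rw [div_mul_eq_mul_div, div_le_iff₀ hn1]
  calc Real.exp (-(8 ^ r * b ^ 2 / n)) * 2 ^ (r * (n - 1))
      ≤ Real.exp (-(2 ^ r * (∑ u, ((τ u : ℝ) - n / 2 ^ r) ^ 2) / n)) * 2 ^ (r * n) :=
        mul_le_mul hexp hpow (by positivity) (by positivity)
    _ = 2 ^ (r * n) * Real.exp (-(2 ^ r * (∑ u, ((τ u : ℝ) - n / 2 ^ r) ^ 2) / n)) := by
        rw [mul_comm]
    _ ≤ _ := hc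
    _ = _ := by rw [mul_comm]

theorem corr_at (hr : 1 ≤ r) (hn : 1 ≤ n) {k a h d2 : ℕ} {b θ : ℝ} (hk : 1 ≤ k) (hk2 : 2 * k < n)
    (hh : 1 ≤ h) (hb : 0 < b) (hx0 : (n : ℝ) / 2 ^ r - b ≤ 2 * a)
    (hx1 : 2 * ((a : ℝ) + k * h) ≤ n / 2 ^ r) (hd2 : 2 * (d2 : ℝ) + 2 * 2 ^ r * b ≤ n)
    (u : Cf n r → ℝ) (hu : SymC u) (hθ : 0 ≤ θ)
    (hu2 : ∑ Ξ ∈ univ.filter (fun Ξ : Cf n r => (sup Ξ).card ≤ k), u Ξ ^ 2 ≤ θ ^ 2)
    (hcor : θ * Lmx r n k h b / pmx r n b ≤ 1 / 4) :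
    ∃ a' : Cf n r → ℝ, SymC a' ∧
      (∀ X, a' X ≠ 0 → X ∈ evC n r ∧ ∀ v ∈ Pn r, d2 ≤ wt (row v X)) ∧
      (∀ Ξ, (sup Ξ).card ≤ k → fc a' Ξ = -u Ξ) ∧ ∀ X, |a' X| ≤ 1 / 4 := by
  classical
  set x : Fin (k + 1) → ℕ := fun i => 2 * (a + i * h) with hxd
  have hxr : ∀ i, (x i : ℝ) = 2 * ((a : ℝ) + i * h) := by
    intro i
    rw [hxd]
    push_cast
    ring
  have hxlo : ∀ i, (n : ℝ) / 2 ^ r - b ≤ x i := by
    intro i
    rw [hxr]
    have : (0 : ℝ) ≤ ((i : ℕ) : ℝ) * h := by positivity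
    linarith
  have hxhi : ∀ i, (x i : ℝ) ≤ n / 2 ^ r := by
    intro i
    rw [hxr]
    have h1 : ((i : ℕ) : ℝ) ≤ k := by
      have := i.2
      exact_mod_cast (by omega : (i : ℕ) ≤ k)
    have h2 : ((i : ℕ) : ℝ) * h ≤ k * h := mul_le_mul_of_nonneg_right h1 (Nat.cast_nonneg _)
    linarith
  have hxb : ∀ i, |(x i : ℝ) - n / 2 ^ r| ≤ b := by
    intro i
    rw [abs_le]
    constructor
    · linarith [hxlo i]
    · linarith [hxhi i]
  have hinj : Function.Injective x := by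
    intro i j hij
    rw [hxd] at hij
    simp only at hij
    have h1 : (i : ℕ) * h = j * h := by omega
    exact Fin.ext (Nat.eq_of_mul_eq_mul_right (by omega) h1)
  have hev : ∀ i, Even (x i) := fun i => even_two_mul _
  have hpm : 0 < pmx r n b := by
    unfold pmx
    positivity
  have hLm : 0 ≤ Lmx r n k h b := Real.sqrt_nonneg _
  have hL : ∀ j, EC (fun X : Cf n r => Lag (fun i => (x i : ℝ)) j X ^ 2) ≤
      Lmx r n k h b ^ 2 := by
    intro j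
    have h1 := EC_Lag_sq (r := r) hn hk hh hb (fun i => (x i : ℝ)) hxr hxb j
    unfold Lmx
    rw [Real.sq_sqrt (by positivity)]
    exact h1
  obtain ⟨a', h1, h2, h3, h4⟩ := correction hn hk2 x hinj hev u hu hθ hu2 hLm hL hpm
    (fun j => cox_type hn (fun u => x (j u)) (fun u => hxlo _) (fun u => hxhi _) hb)
  refine ⟨a', h1, ?_, h3, fun X => (h4 X).trans hcor⟩
  intro X hX
  obtain ⟨h5, j, h6⟩ := h2 X hX
  refine ⟨h5, fun v hv => ?_⟩
  have h7 := wt_of_cnt (X := X) (b := b) (fun u hu => by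
    rw [h6 ⟨u, hu⟩]
    exact hxb _) hv
  have h8 := (abs_le.1 h7).2
  have h9 : (d2 : ℝ) ≤ wt (row v X) := by linarith
  exact_mod_cast h9

end Pool.Agent.Lib.MP_0430e4_lc.Lin
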