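import Pool.Agent.Lib.MP_0430e4_lc.Lin.Defs

/-!
# DUA: a duality lemma (finite-dimensional separation)

PROOF. The set `K = {A e + y : |e_i| ≤ κ, |y_j| ≤ η}` is convex and compact in `J → ℝ`. If `b ∉ K`
there is a linear functional `h` with `∑ h_j b_j > sup_K = κ ∑_i |∑_j h_j A j i| + η ∑_j |h_j|`
(`geometric_hahn_banach_point_compact` or similar; the supremum is attained at
`e_i = κ sign (∑_j h_j A j i)`, `y_j = η sign h_j`), against the hypothesis.
-/

set_option autoImplicit false

namespace Pool.Agent.Lib.MP_0430e4_lc.Lin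

open Finset

theorem exists_small {I J : Type} [Fintype I] [Fintype J] (A : J → I → ℝ) (b : J → ℝ) {κ η : ℝ}
    (hκ : 0 ≤ κ) (hη : 0 ≤ η)
    (h : ∀ y : J → ℝ, ∑ j, y j * b j ≤ η * ∑ j, |y j| + κ * ∑ i, |∑ j, y j * A j i|) :
    ∃ e : I → ℝ, (∀ i, |e i| ≤ κ) ∧ ∀ j, |∑ i, A j i * e i - b j| ≤ η := by
  classical
  let L : (I → ℝ) × (J → ℝ) →ₗ[ℝ] (J → ℝ) :=
    { toFun := fun p j => (∑ i, A j i * p.1 i) + p.2 j
      map_add' := by
        intro p q
        funext j
        simp only [Prod.fst_add, Prod.snd_add, Pi.add_apply, mul_add, Finset.sum_add_distrib]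
        ring
      map_smul' := by
        intro c p
        funext j
        simp only [Prod.smul_fst, Prod.smul_snd, Pi.smul_apply, smul_eq_mul, RingHom.id_apply,
          mul_add, Finset.mul_sum]
        congr 1
        apply Finset.sum_congr rfl
        intro i _
        ring }
  let B : Set ((I → ℝ) × (J → ℝ)) := (Set.univ.pi fun _ => Set.Icc (-κ) κ) ×ˢ
    (Set.univ.pi fun _ => Set.Icc (-η) η)
  have hBc : IsCompact B :=
    (isCompact_univ_pi fun _ => isCompact_Icc).prod (isCompact_univ_pi fun _ => isCompact_Icc)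
  have hBv : Convex ℝ B :=
    (convex_pi fun _ _ => convex_Icc _ _).prod (convex_pi fun _ _ => convex_Icc _ _)
  have hLc : Continuous L := by
    apply continuous_pi
    intro j
    change Continuous fun p : (I → ℝ) × (J → ℝ) => (∑ i, A j i * p.1 i) + p.2 j
    fun_prop
  have hKc : IsClosed (L '' B) := (hBc.image hLc).isClosed
  have hKv : Convex ℝ (L '' B) := hBv.linear_image L
  by_cases hb : b ∈ L '' B
  · obtain ⟨p, hp, hpb⟩ := hb
    obtain ⟨hp1, hp2⟩ := hp
    refine ⟨p.1, fun i => abs_le.2 (hp1 i (Set.mem_univ i)), fun j => ?_⟩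
    have h1 : (∑ i, A j i * p.1 i) + p.2 j = b j := congrFun hpb j
    have h2 : |p.2 j| ≤ η := abs_le.2 (hp2 j (Set.mem_univ j))
    rw [← h1]
    rw [show (∑ i, A j i * p.1 i) - ((∑ i, A j i * p.1 i) + p.2 j) = -p.2 j by ring, abs_neg]
    exact h2
  · exfalso
    obtain ⟨f, u, hfu, huf⟩ := geometric_hahn_banach_closed_point hKv hKc hb
    let y : J → ℝ := fun j => f (Pi.single j 1)
    have hf : ∀ x : J → ℝ, f x = ∑ j, y j * x j := by
      intro x
      have hx : x = ∑ j, x j • (Pi.single j (1 : ℝ) : J → ℝ) := by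
        funext k
        simp [Finset.sum_apply, Pi.single_apply]
      conv_lhs => rw [hx]
      rw [map_sum]
      apply Finset.sum_congr rfl
      intro j _
      rw [map_smul, smul_eq_mul, mul_comm]
    let e : I → ℝ := fun i => κ * SignType.sign (∑ j, y j * A j i)
    let z : J → ℝ := fun j => η * SignType.sign (y j)
    have hs : ∀ t : ℝ, |((SignType.sign t : SignType) : ℝ)| ≤ 1 := by
      intro t
      rcases lt_trichotomy t 0 with h0 | h0 | h0
      · simp [sign_neg h0]
      · simp [h0]
      · simp [sign_pos h0]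
    have hmem : (e, z) ∈ B := by
      refine ⟨fun i _ => abs_le.1 ?_, fun j _ => abs_le.1 ?_⟩
      · change |κ * _| ≤ κ
        rw [abs_mul, abs_of_nonneg hκ]
        exact mul_le_of_le_one_right hκ (hs _)
      · change |η * _| ≤ η
        rw [abs_mul, abs_of_nonneg hη]
        exact mul_le_of_le_one_right hη (hs _)
    have h1 := hfu _ ⟨_, hmem, rfl⟩
    have h2 := h y
    rw [hf] at h1 huf
    have h3 : ∑ j, y j * L (e, z) j = η * ∑ j, |y j| + κ * ∑ i, |∑ j, y j * A j i| := by
      change ∑ j, y j * ((∑ i, A j i * e i) + z j) = _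
      simp only [mul_add, Finset.sum_add_distrib]
      rw [add_comm]
      congr 1
      · rw [Finset.mul_sum]
        apply Finset.sum_congr rfl
        intro j _
        change y j * (η * _) = _
        rw [← self_mul_sign (y j)]
        ring
      · simp only [Finset.mul_sum]
        rw [Finset.sum_comm]
        apply Finset.sum_congr rfl
        intro i _
        rw [← self_mul_sign (∑ j, y j * A j i), ← mul_assoc, mul_comm κ, mul_assoc, Finset.sum_mul]
        apply Finset.sum_congr rfl
        intro j _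
        change y j * (A j i * (κ * _)) = _
        ring
    linarith

end Pool.Agent.Lib.MP_0430e4_lc.Lin
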