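import Mathlib

/-!
# The LP hierarchy for linear codes near relative distance 1/2: definitions

Words of length `n` are elements of `W n`, `r`-tuples of words are given by their `n` columns,
elements of `Cf n r`. Everything lives on even words: `evW n`, `evC n r`.
-/

set_option autoImplicit false

namespace Pool.Agent.Lib.MP_0430e4_lc.Lin

open Finset

/-- Words of length `n`. -/
abbrev W (n : ℕ) := Fin n → ZMod 2

/-- The space of columns. -/
abbrev U (r : ℕ) := Fin r → ZMod 2

/-- `r`-tuples of words of length `n`, as lists of `n` columns. -/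
abbrev Cf (n r : ℕ) := Fin n → Fin r → ZMod 2

/-- The sign `(-1)^a`. -/
def sg (a : ZMod 2) : ℝ := if a = 0 then 1 else -1

section

variable {n r : ℕ}

/-- The weight of a word. -/
def wt (x : W n) : ℕ := (univ.filter fun i => x i ≠ 0).card

/-- The characters of words. -/
def chw (w x : W n) : ℝ := ∏ i, sg (w i * x i)

/-- The characters of tuples. -/
def ch (Ξ X : Cf n r) : ℝ := ∏ i, sg (Ξ i ⬝ᵥ X i)

/-- The combination of the rows of `X` with coefficients `v`. -/
def row (v : U r) (X : Cf n r) : W n := fun i => v ⬝ᵥ X i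

/-- The number of columns equal to `u`. -/
def cnt (X : Cf n r) (u : U r) : ℕ := (univ.filter fun i => X i = u).card

/-- The positions of the nonzero columns. -/
def sup (Ξ : Cf n r) : Finset (Fin n) := univ.filter fun i => Ξ i ≠ 0

/-- The nonzero vectors. -/
def Pn (r : ℕ) : Finset (U r) := univ.erase 0

/-- Even words. -/
def evW (n : ℕ) : Finset (W n) := univ.filter fun x => ∑ i, x i = 0

/-- Tuples of even words. -/
def evC (n r : ℕ) : Finset (Cf n r) := univ.filter fun X => ∑ i, X i = 0

/-- The mean over even words. -/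
noncomputable def EW (f : W n → ℝ) : ℝ := (∑ x ∈ evW n, f x) / 2 ^ (n - 1)

/-- The mean over tuples of even words. -/
noncomputable def EC (f : Cf n r → ℝ) : ℝ := (∑ X ∈ evC n r, f X) / 2 ^ (r * (n - 1))

/-- Fourier coefficients on even words. -/
noncomputable def al (a : W n → ℝ) (w : W n) : ℝ := EW fun x => a x * chw w x

/-- Fourier coefficients on tuples of even words. -/
noncomputable def fc (f : Cf n r → ℝ) (Ξ : Cf n r) : ℝ := EC fun X => f X * ch Ξ X

/-- Invariance under permutations of the coordinates. -/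
def SymW (a : W n → ℝ) : Prop := ∀ (p : Equiv.Perm (Fin n)) (x : W n), a (x ∘ p) = a x

/-- Invariance under permutations of the coordinates. -/
def SymC (f : Cf n r → ℝ) : Prop := ∀ (p : Equiv.Perm (Fin n)) (X : Cf n r), f (X ∘ p) = f X

/-- The coefficient vectors whose combination of the rows of `Ξ` is constant. -/
def Kd (Ξ : Cf n r) : Submodule (ZMod 2) (U r) where
  carrier := {w | ∃ s : ZMod 2, ∀ i, w ⬝ᵥ Ξ i = s}
  zero_mem' := ⟨0, fun i => by simp⟩
  add_mem' := by
    rintro a b ⟨s, hs⟩ ⟨t, ht⟩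
    exact ⟨s + t, fun i => by rw [add_dotProduct, hs, ht]⟩
  smul_mem' := by
    rintro c a ⟨s, hs⟩
    exact ⟨c * s, fun i => by rw [smul_dotProduct, hs, smul_eq_mul]⟩

/-- The dimension of `Kd Ξ`; the rank of `Ξ` modulo constants is `r - kd Ξ`. -/
noncomputable def kd (Ξ : Cf n r) : ℕ := Module.finrank (ZMod 2) (Kd Ξ)

/-- Linear independence of a finite set of vectors. -/
def Ind (S : Finset (U r)) : Prop :=
  LinearIndependent (ZMod 2) (fun v : {v // v ∈ S} => (v : U r))

open Classical in
/-- The independent subsets of `T`. -/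
noncomputable def indSub (T : Finset (U r)) : Finset (Finset (U r)) :=
  T.powerset.filter fun S => Ind S

/-- The canonical coefficients: one representative for each pair `w`, `w + 1`. -/
noncomputable def ao (a : W n → ℝ) (w : W n) : ℝ :=
  (if 2 * wt w < n then 1 else if 2 * wt w = n then 1 / 2 else 0) * al a w

/-- The part of low frequency. -/
noncomputable def flat (c : ℕ) (a : W n → ℝ) (x : W n) : ℝ :=
  ∑ w ∈ univ.filter (fun w : W n => wt w ≤ c), al a w * chw w x

/-- The value at a tuple `ω` of words of the map to characters. -/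
def out (T : Finset (U r)) (ω : {v // v ∈ T} → W n) : Cf n r :=
  fun i => ∑ v : {v // v ∈ T}, ω v i • (v : U r)

/-- The positions outside the support of `Ξ` where some word of `ω` is not zero. -/
def Zs (T : Finset (U r)) (ω : {v // v ∈ T} → W n) (Ξ : Cf n r) : Finset (Fin n) :=
  univ.filter fun i => Ξ i = 0 ∧ ∃ v : {v // v ∈ T}, ω v i ≠ 0

/-- One term of the main function. -/
noncomputable def trm (f g : W n → ℝ) (T S : Finset (U r)) (X : Cf n r) : ℝ :=
  (∏ v ∈ S, f (row v X)) * ∏ v ∈ T \ S, g (row v X)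

/-- The sum over the independent subsets of `T`; `f` plays the role of the rough part, `g` of the
smooth part. -/
noncomputable def Psi (f g : W n → ℝ) (T : Finset (U r)) (X : Cf n r) : ℝ :=
  ∑ S ∈ indSub T, trm f g T S X

/-- The main function: `φ` is the sharp, `σ` the smooth function of level one. -/
noncomputable def f0 (φ σ : W n → ℝ) (X : Cf n r) : ℝ :=
  Psi (fun x => φ x - σ x) (fun x => 1 + σ x) (Pn r) X

/-- The generic function of level `r`: `M` is the size, `C` the constant. -/
def Generic (r n d : ℕ) (M C : ℝ) : Prop :=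
  ∃ g : Cf n r → ℝ, (∀ X, 0 ≤ g X) ∧ (∀ X, X ∉ evC n r → g X = 0) ∧
    (∀ X, (∃ v ∈ Pn r, wt (row v X) < d) → g X = 0) ∧
    1 / 2 ≤ fc g 0 ∧ ∀ Ξ : Cf n r, kd Ξ < r → |fc g Ξ| * M ^ r ≤ C * M ^ kd Ξ

/-- Level `l` of the hierarchy of Coregliano, Jeronimo and Jones. -/
noncomputable def linLP (l n d : ℕ) : ℝ :=
  sSup {s : ℝ | ∃ f : (Fin l → Fin n → ZMod 2) → ℝ,
    (∀ X, 0 ≤ f X) ∧ f 0 = 1 ∧
    (∀ X, (∃ c : Fin l → ZMod 2, 0 < hammingNorm (∑ j, c j • X j) ∧
      hammingNorm (∑ j, c j • X j) < d) → f X = 0) ∧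
    (∀ Y : Fin l → Fin n → ZMod 2, 0 ≤ ∑ X, f X * ∏ j, ∏ i, if X j i = 1 ∧ Y j i = 1 then -1 else 1) ∧
    s = ∑ X, f X}

/-- The Lagrange basis polynomial of the nodes `x`. -/
noncomputable def lag {k : ℕ} (x : Fin (k + 1) → ℝ) (j : Fin (k + 1)) (z : ℝ) : ℝ :=
  ∏ i ∈ univ.erase j, (z - x i) / (x j - x i)

/-- The product Lagrange basis function at the counts of `X`. -/
noncomputable def Lag {k : ℕ} (x : Fin (k + 1) → ℝ) (j : {u : U r // u ≠ 0} → Fin (k + 1))
    (X : Cf n r) : ℝ := ∏ u, lag x (j u) (cnt X u)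

/-- Averaging over two random unit steps. -/
noncomputable def sm (a : W n → ℝ) (x : W n) : ℝ :=
  (∑ i, ∑ j, a (x + Pi.single i 1 + Pi.single j 1)) / n ^ 2

end

end Pool.Agent.Lib.MP_0430e4_lc.Lin
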