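import Pool.Agent.Lib.MP_0430e4_lc.Lin.XBase

set_option autoImplicit false

namespace Pool.Agent.Lib.MP_0430e4_lc.Lin

open Finset

section

variable {n r : ℕ}

theorem add_self_U (v : U r) : v + v = 0 := by
  funext i
  have h2 : ∀ a : ZMod 2, a + a = 0 := by decide
  exact h2 _

theorem add_self_Cf (X : Cf n r) : X + X = 0 := by
  funext i
  exact add_self_U _

theorem add_self_W (x : W n) : x + x = 0 := add_self_U x

theorem eq_of_add_U {v w : U r} (h : v + w = 0) : v = w := by
  have := congrArg (· + w) h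
  simpa [add_assoc, add_self_U] using this

theorem ch_add (Ξ Θ X : Cf n r) : ch (Ξ + Θ) X = ch Ξ X * ch Θ X := by
  unfold ch
  rw [← prod_mul_distrib]
  refine prod_congr rfl fun i _ => ?_
  rw [Pi.add_apply, add_dotProduct, xsg_add]

theorem ch_comm (Ξ X : Cf n r) : ch Ξ X = ch X Ξ := by
  unfold ch
  refine prod_congr rfl fun i _ => ?_
  rw [dotProduct_comm]

theorem ch_zero (X : Cf n r) : ch 0 X = 1 := by
  unfold ch
  simp [xsg_zero]

theorem ch_sq (Ξ X : Cf n r) : ch Ξ X * ch Ξ X = 1 := by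
  rw [← ch_add, add_self_Cf, ch_zero]

theorem abs_ch (Ξ X : Cf n r) : |ch Ξ X| = 1 := by
  unfold ch
  rw [abs_prod]
  exact prod_eq_one fun i _ => xabs_sg _

theorem ch_const (s : U r) (X : Cf n r) : ch (fun _ => s) X = sg (s ⬝ᵥ ∑ i, X i) := by
  unfold ch
  rw [dotProduct_sum, xsg_sum]

theorem ch_const_ev (s : U r) {X : Cf n r} (hX : X ∈ evC n r) : ch (fun _ => s) X = 1 := by
  unfold evC at hX
  rw [mem_filter] at hX
  rw [ch_const, hX.2, dotProduct_zero, xsg_zero]

/-- The sum of a character over all tuples. -/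
theorem sum_ch (Ξ : Cf n r) : ∑ X : Cf n r, ch Ξ X = if Ξ = 0 then 2 ^ (r * n) else 0 := by
  have h1 := Finset.prod_univ_sum (fun _ : Fin n => (univ : Finset (U r)))
    fun i u => sg (Ξ i ⬝ᵥ u)
  rw [Fintype.piFinset_univ] at h1
  unfold ch
  rw [← h1]
  split_ifs with h
  · subst h
    simp [xsg_zero, U, ZMod.card, pow_mul]
  · obtain ⟨i, hi⟩ := Function.ne_iff.mp h
    exact prod_eq_zero (mem_univ i) (xsum_sg hi)

theorem sum_ch_left (X : Cf n r) : ∑ Ξ : Cf n r, ch Ξ X = if X = 0 then 2 ^ (r * n) else 0 := by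
  rw [← sum_ch X]
  exact sum_congr rfl fun Ξ _ => ch_comm _ _

theorem pow_split (hn : 0 < n) : (2 : ℝ) ^ (r * n) = 2 ^ r * 2 ^ (r * (n - 1)) := by
  rw [← pow_add]
  congr 1
  obtain ⟨m, rfl⟩ : ∃ m, n = m + 1 := ⟨n - 1, by omega⟩
  rw [Nat.add_sub_cancel]
  ring

/-- The number of tuples of even words. -/
theorem card_evC (hn : 0 < n) : ((evC n r).card : ℝ) = 2 ^ (r * (n - 1)) := by
  have h1 : ∀ X : Cf n r, (if X ∈ evC n r then (1 : ℝ) else 0) * 2 ^ r
      = ∑ s : U r, ch (fun _ => s) X := by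
    intro X
    have h2 : ∀ s : U r, ch (fun _ => s) X = sg ((∑ i, X i) ⬝ᵥ s) := by
      intro s
      rw [ch_const, dotProduct_comm]
    rw [sum_congr rfl fun s _ => h2 s]
    split_ifs with h
    · unfold evC at h
      rw [mem_filter] at h
      rw [h.2]
      simp [xsg_zero, U, ZMod.card]
    · unfold evC at h
      rw [mem_filter] at h
      rw [xsum_sg fun h3 => h ⟨mem_univ _, h3⟩]
      simp
  have h2 : ((evC n r).card : ℝ) * 2 ^ r = 2 ^ (r * n) := by
    have e1 : ((evC n r).card : ℝ) = ∑ X : Cf n r, if X ∈ evC n r then (1 : ℝ) else 0 := by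
      rw [Finset.sum_ite_mem, univ_inter]
      simp
    rw [e1, sum_mul, sum_congr rfl fun X _ => h1 X, sum_comm, sum_eq_single (0 : U r)]
    · rw [show (fun _ => (0 : U r)) = (0 : Cf n r) from rfl]
      rw [sum_ch]
      simp
    · intro s _ hs
      rw [sum_ch, if_neg]
      intro h
      exact hs (congrFun h ⟨0, hn⟩)
    · intro h
      exact absurd (mem_univ _) h
  rw [pow_split hn, mul_comm] at h2
  exact mul_left_cancel₀ (by positivity) h2

theorem zero_mem_evC : (0 : Cf n r) ∈ evC n r := by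
  unfold evC
  simp

theorem EC_const (hn : 0 < n) (c : ℝ) : EC (fun _ : Cf n r => c) = c := by
  unfold EC
  rw [sum_const, nsmul_eq_mul, card_evC hn]
  field_simp

theorem EC_add (f g : Cf n r → ℝ) : EC (fun X => f X + g X) = EC f + EC g := by
  unfold EC
  rw [sum_add_distrib, add_div]

theorem EC_sub (f g : Cf n r → ℝ) : EC (fun X => f X - g X) = EC f - EC g := by
  unfold EC
  rw [sum_sub_distrib, sub_div]

theorem EC_mul_left (c : ℝ) (f : Cf n r → ℝ) : EC (fun X => c * f X) = c * EC f := by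
  unfold EC
  rw [← mul_sum, mul_div_assoc]

theorem EC_sum {ι : Type*} (s : Finset ι) (f : ι → Cf n r → ℝ) :
    EC (fun X => ∑ i ∈ s, f i X) = ∑ i ∈ s, EC (f i) := by
  unfold EC
  rw [sum_comm, sum_div]

theorem EC_congr {f g : Cf n r → ℝ} (h : ∀ X ∈ evC n r, f X = g X) : EC f = EC g := by
  unfold EC
  rw [sum_congr rfl h]

theorem EC_mono {f g : Cf n r → ℝ} (h : ∀ X ∈ evC n r, f X ≤ g X) : EC f ≤ EC g := by
  unfold EC
  exact div_le_div_of_nonneg_right (sum_le_sum h) (by positivity)

theorem EC_nonneg {f : Cf n r → ℝ} (h : ∀ X ∈ evC n r, 0 ≤ f X) : 0 ≤ EC f := by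
  unfold EC
  exact div_nonneg (sum_nonneg h) (by positivity)

theorem abs_EC_le (f : Cf n r → ℝ) : |EC f| ≤ EC fun X => |f X| := by
  unfold EC
  rw [abs_div, abs_of_pos (by positivity : (0 : ℝ) < 2 ^ (r * (n - 1)))]
  exact div_le_div_of_nonneg_right (abs_sum_le_sum_abs _ _) (by positivity)

theorem abs_fc_le (f : Cf n r → ℝ) (Ξ : Cf n r) : |fc f Ξ| ≤ EC fun X => |f X| := by
  unfold fc
  refine (abs_EC_le _).trans (le_of_eq ?_)
  refine EC_congr fun X _ => ?_
  rw [abs_mul, abs_ch, mul_one]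

theorem fc_congr {f g : Cf n r → ℝ} (h : ∀ X ∈ evC n r, f X = g X) (Ξ : Cf n r) :
    fc f Ξ = fc g Ξ := EC_congr fun X hX => by rw [h X hX]

/-- The coefficients do not change when a constant is added. -/
theorem fc_add_const (f : Cf n r → ℝ) (Ξ : Cf n r) (s : U r) :
    fc f (fun i => Ξ i + s) = fc f Ξ := by
  unfold fc
  refine EC_congr fun X hX => ?_
  rw [show (fun i => Ξ i + s) = Ξ + fun _ => s from rfl, ch_add, ch_const_ev s hX, mul_one]

open Classical in
/-- Orthogonality. -/
theorem EC_ch (hn : 0 < n) (Ξ : Cf n r) :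
    EC (fun X => ch Ξ X) = if ∃ s : U r, ∀ i, Ξ i = s then 1 else 0 := by
  split_ifs with h
  · obtain ⟨s, hs⟩ := h
    have e : Ξ = fun _ => s := funext hs
    rw [EC_congr fun X hX => by rw [e, ch_const_ev s hX]]
    exact EC_const hn 1
  · have h1 : ∀ X : Cf n r, (if X ∈ evC n r then ch Ξ X else 0) * 2 ^ r
        = ∑ s : U r, ch (Ξ + fun _ => s) X := by
      intro X
      have h2 : ∀ s : U r, ch (Ξ + fun _ => s) X = ch Ξ X * sg ((∑ i, X i) ⬝ᵥ s) := by
        intro s
        rw [ch_add, ch_const, dotProduct_comm]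
      rw [sum_congr rfl fun s _ => h2 s, ← mul_sum]
      split_ifs with h3
      · unfold evC at h3
        rw [mem_filter] at h3
        rw [h3.2]
        simp [xsg_zero, U, ZMod.card]
      · unfold evC at h3
        rw [mem_filter] at h3
        rw [xsum_sg fun h4 => h3 ⟨mem_univ _, h4⟩]
        simp
    have h2 : (∑ X ∈ evC n r, ch Ξ X) * 2 ^ r = 0 := by
      have e1 : ∑ X ∈ evC n r, ch Ξ X = ∑ X : Cf n r, if X ∈ evC n r then ch Ξ X else 0 := by
        rw [Finset.sum_ite_mem, univ_inter]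
      rw [e1, sum_mul, sum_congr rfl fun X _ => h1 X, sum_comm]
      refine sum_eq_zero fun s _ => ?_
      rw [sum_ch, if_neg]
      intro h4
      refine h ⟨s, fun i => eq_of_add_U (congrFun h4 i)⟩
    have h3 : ∑ X ∈ evC n r, ch Ξ X = 0 := by
      rcases mul_eq_zero.mp h2 with h | h
      · exact h
      · exact absurd h (by positivity)
    unfold EC
    rw [h3, zero_div]

/-- Parseval. -/
theorem parseval (hn : 0 < n) (f : Cf n r → ℝ) :
    ∑ Ξ : Cf n r, fc f Ξ ^ 2 = 2 ^ r * EC (fun X => f X ^ 2) := by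
  have h1 : ∀ Ξ : Cf n r, fc f Ξ ^ 2
      = (∑ X ∈ evC n r, ∑ Y ∈ evC n r, f X * f Y * ch Ξ (X + Y)) / (2 ^ (r * (n - 1))) ^ 2 := by
    intro Ξ
    unfold fc EC
    rw [div_pow, sq (∑ X ∈ evC n r, f X * ch Ξ X), sum_mul_sum]
    congr 1
    refine sum_congr rfl fun X _ => sum_congr rfl fun Y _ => ?_
    rw [ch_comm Ξ (X + Y), ch_add, ch_comm X, ch_comm Y]
    ring
  rw [sum_congr rfl fun Ξ _ => h1 Ξ, ← sum_div, sum_comm]
  have h2 : ∀ X ∈ evC n r, ∑ Ξ : Cf n r, ∑ Y ∈ evC n r, f X * f Y * ch Ξ (X + Y)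
      = f X ^ 2 * 2 ^ (r * n) := by
    intro X hX
    rw [sum_comm, sum_eq_single X]
    · rw [← mul_sum, sum_ch_left, add_self_Cf, if_pos rfl]
      ring
    · intro Y _ hY
      rw [← mul_sum, sum_ch_left, if_neg, mul_zero]
      intro h
      refine hY ?_
      funext i
      exact (eq_of_add_U (congrFun h i)).symm
    · intro h
      exact absurd hX h
  rw [sum_congr rfl h2, ← sum_mul, pow_split hn]
  unfold EC
  have : (0 : ℝ) < 2 ^ (r * (n - 1)) := by positivity
  field_simp

theorem fc_comp {f : Cf n r → ℝ} (hf : SymC f) (Ξ : Cf n r) (p : Equiv.Perm (Fin n)) :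
    fc f (Ξ ∘ p) = fc f Ξ := by
  unfold fc EC
  congr 1
  refine (Finset.sum_nbij' (fun X => X ∘ p) (fun X => X ∘ p.symm) ?_ ?_ ?_ ?_ ?_).symm
  · intro X hX
    unfold evC at hX ⊢
    rw [mem_filter] at hX ⊢
    refine ⟨mem_univ _, ?_⟩
    rw [← hX.2]
    exact Equiv.sum_comp p X
  · intro X hX
    unfold evC at hX ⊢
    rw [mem_filter] at hX ⊢
    refine ⟨mem_univ _, ?_⟩
    rw [← hX.2]
    exact Equiv.sum_comp p.symm X
  · intro X _
    funext i
    simp
  · intro X _
    funext i
    simp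
  · intro X _
    rw [hf p X]
    congr 1
    unfold ch
    exact (Equiv.prod_comp p fun i => sg (Ξ i ⬝ᵥ X i)).symm

theorem exists_perm {S T : Finset (Fin n)} (h : S.card = T.card) :
    ∃ p : Equiv.Perm (Fin n), ∀ i, p i ∈ T ↔ i ∈ S := by
  classical
  have hc : Fintype.card {i // i ∈ S} = Fintype.card {i // i ∈ T} := by
    rw [Fintype.card_coe, Fintype.card_coe, h]
  let e : {i // i ∈ S} ≃ {i // i ∈ T} := Fintype.equivOfCardEq hc
  refine ⟨e.extendSubtype, fun i => ⟨fun h1 => ?_, fun h1 => e.extendSubtype_mem i h1⟩⟩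
  by_contra h2
  exact e.extendSubtype_not_mem i h2 h1

/-- The orbit of a list of columns is large. -/
theorem high_bound (hn : 0 < n) {f : Cf n r → ℝ} (hf : SymC f) (Ξ : Cf n r) (s : U r) :
    (n.choose (cnt Ξ s) : ℝ) * fc f Ξ ^ 2 ≤ 2 ^ r * EC (fun X => f X ^ 2) := by
  classical
  rw [← parseval hn]
  set T : Finset (Fin n) := univ.filter fun i => Ξ i = s with hT
  have hTc : T.card = cnt Ξ s := rfl
  have hex : ∀ S : Finset (Fin n), ∃ p : Equiv.Perm (Fin n),
      S.card = T.card → ∀ i, p i ∈ T ↔ i ∈ S := by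
    intro S
    by_cases h : S.card = T.card
    · obtain ⟨p, hp⟩ := exists_perm h
      exact ⟨p, fun _ => hp⟩
    · exact ⟨1, fun h1 => absurd h1 h⟩
  choose p hp using hex
  set I : Finset (Cf n r) := (powersetCard T.card (univ : Finset (Fin n))).image
    fun S => Ξ ∘ p S with hI
  have hIc : I.card = n.choose (cnt Ξ s) := by
    rw [hI, card_image_of_injOn, card_powersetCard, card_univ, Fintype.card_fin, hTc]
    intro S hS S' hS' h
    rw [mem_coe, mem_powersetCard] at hS hS'
    ext i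
    rw [← hp S hS.2 i, ← hp S' hS'.2 i, hT, mem_filter, mem_filter]
    have := congrFun h i
    simp only [Function.comp] at this
    simp only [mem_univ, true_and]
    rw [this]
  calc (n.choose (cnt Ξ s) : ℝ) * fc f Ξ ^ 2 = ∑ _Θ ∈ I, fc f Ξ ^ 2 := by
        rw [sum_const, nsmul_eq_mul, hIc]
    _ = ∑ Θ ∈ I, fc f Θ ^ 2 := by
        refine sum_congr rfl fun Θ hΘ => ?_
        rw [hI, mem_image] at hΘ
        obtain ⟨S, _, rfl⟩ := hΘ
        rw [fc_comp hf]
    _ ≤ _ := sum_le_sum_of_subset_of_nonneg (subset_univ _) fun Θ _ _ => sq_nonneg _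

/-! ### Words -/

theorem chw_add (w v x : W n) : chw (w + v) x = chw w x * chw v x := by
  unfold chw
  rw [← prod_mul_distrib]
  refine prod_congr rfl fun i _ => ?_
  rw [Pi.add_apply, add_mul, xsg_add]

theorem chw_comm (w x : W n) : chw w x = chw x w := by
  unfold chw
  refine prod_congr rfl fun i _ => ?_
  rw [mul_comm]

theorem abs_chw (w x : W n) : |chw w x| = 1 := by
  unfold chw
  rw [abs_prod]
  exact prod_eq_one fun i _ => xabs_sg _

theorem chw_zero (x : W n) : chw 0 x = 1 := by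
  unfold chw
  simp [xsg_zero]

theorem chw_one_ev {x : W n} (hx : x ∈ evW n) : chw 1 x = 1 := by
  unfold chw
  unfold evW at hx
  rw [mem_filter] at hx
  simp only [Pi.one_apply, one_mul]
  rw [← xsg_sum, hx.2, xsg_zero]

theorem sum_chw_left (x : W n) : ∑ w : W n, chw w x = if x = 0 then 2 ^ n else 0 := by
  have h1 : ∀ w : W n, chw w x = sg (x ⬝ᵥ w) := by
    intro w
    unfold chw
    rw [← xsg_sum]
    congr 1
    exact sum_congr rfl fun i _ => mul_comm _ _
  rw [sum_congr rfl fun w _ => h1 w]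
  split_ifs with h
  · subst h
    simp [xsg_zero, ZMod.card]
  · exact xsum_sg h

theorem pow_split_W (hn : 0 < n) : (2 : ℝ) ^ n = 2 * 2 ^ (n - 1) := by
  obtain ⟨m, rfl⟩ : ∃ m, n = m + 1 := ⟨n - 1, by omega⟩
  rw [Nat.add_sub_cancel, pow_succ]
  ring

/-- Parseval for words. -/
theorem parsevalW (hn : 0 < n) (a : W n → ℝ) :
    ∑ w : W n, al a w ^ 2 = 2 * EW (fun x => a x ^ 2) := by
  have h1 : ∀ w : W n, al a w ^ 2
      = (∑ x ∈ evW n, ∑ y ∈ evW n, a x * a y * chw w (x + y)) / (2 ^ (n - 1)) ^ 2 := by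
    intro w
    unfold al EW
    rw [div_pow, sq (∑ x ∈ evW n, a x * chw w x), sum_mul_sum]
    congr 1
    refine sum_congr rfl fun x _ => sum_congr rfl fun y _ => ?_
    rw [chw_comm w (x + y), chw_add, chw_comm x, chw_comm y]
    ring
  rw [sum_congr rfl fun w _ => h1 w, ← sum_div, sum_comm]
  have h2 : ∀ x ∈ evW n, ∑ w : W n, ∑ y ∈ evW n, a x * a y * chw w (x + y)
      = a x ^ 2 * 2 ^ n := by
    intro x hx
    rw [sum_comm, sum_eq_single x]
    · rw [← mul_sum, sum_chw_left, add_self_W, if_pos rfl]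
      ring
    · intro y _ hy
      rw [← mul_sum, sum_chw_left, if_neg, mul_zero]
      intro h
      exact hy (eq_of_add_U h).symm
    · intro h
      exact absurd hx h
  rw [sum_congr rfl h2, ← sum_mul, pow_split_W hn]
  unfold EW
  have : (0 : ℝ) < 2 ^ (n - 1) := by positivity
  field_simp

theorem al_add_one (a : W n → ℝ) (w : W n) : al a (w + 1) = al a w := by
  unfold al EW
  congr 1
  refine sum_congr rfl fun x hx => ?_
  show a x * chw (w + 1) x = a x * chw w x
  rw [chw_add, chw_one_ev hx, mul_one]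

theorem wt_add_one (w : W n) : wt (w + 1) + wt w = n := by
  unfold wt
  have h1 := card_filter_add_card_filter_not (s := (univ : Finset (Fin n))) fun i => w i ≠ 0
  rw [card_univ, Fintype.card_fin] at h1
  have h2 : (univ.filter fun i : Fin n => (w + 1) i ≠ 0)
      = univ.filter fun i : Fin n => ¬ w i ≠ 0 := by
    ext i
    simp only [mem_filter, mem_univ, true_and, Pi.add_apply, Pi.one_apply]
    have h3 : ∀ a : ZMod 2, a + 1 ≠ 0 ↔ ¬ a ≠ 0 := by decide
    exact h3 _
  rw [h2]
  omega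

/-- Inversion with the canonical coefficients. -/
theorem inversionW (hn : 0 < n) (a : W n → ℝ) {x : W n} (hx : x ∈ evW n) :
    a x = ∑ w : W n, ao a w * chw w x := by
  have h1 : ∑ w : W n, al a w * chw w x = 2 * a x := by
    have h2 : ∀ w : W n, al a w * chw w x
        = (∑ y ∈ evW n, a y * chw w (x + y)) / 2 ^ (n - 1) := by
      intro w
      unfold al EW
      rw [div_mul_eq_mul_div, sum_mul]
      congr 1
      refine sum_congr rfl fun y _ => ?_
      rw [chw_comm w (x + y), chw_add, chw_comm x, chw_comm y]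
      ring
    rw [sum_congr rfl fun w _ => h2 w, ← sum_div, sum_comm, sum_eq_single x]
    · rw [← mul_sum, sum_chw_left, add_self_W, if_pos rfl, pow_split_W hn]
      field_simp
    · intro y _ hy
      rw [← mul_sum, sum_chw_left, if_neg, mul_zero]
      intro h
      exact hy (eq_of_add_U h).symm
    · intro h
      exact absurd hx h
  have h3 := Equiv.sum_comp (Equiv.addRight (1 : W n)) fun w => ao a w * chw w x
  have h4 : ∀ w : W n, ao a w * chw w x + ao a (w + 1) * chw (w + 1) x = al a w * chw w x := by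
    intro w
    have e1 := wt_add_one w
    unfold ao
    rw [al_add_one, chw_add, chw_one_ev hx, mul_one, ← add_mul, ← add_mul]
    congr 1
    rcases lt_trichotomy (2 * wt w) n with h | h | h
    · rw [if_pos h, if_neg (by omega), if_neg (by omega)]
      ring
    · rw [if_neg (by omega), if_pos h, if_neg (by omega), if_pos (by omega)]
      ring
    · rw [if_neg (by omega), if_neg (by omega), if_pos (by omega)]
      ring
  have h5 : 2 * ∑ w : W n, ao a w * chw w x = 2 * a x := by
    rw [two_mul]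
    nth_rewrite 2 [← h3]
    rw [← sum_add_distrib, ← h1]
    exact sum_congr rfl fun w _ => h4 w
  linarith

theorem al_comp {a : W n → ℝ} (ha : SymW a) (w : W n) (p : Equiv.Perm (Fin n)) :
    al a (w ∘ p) = al a w := by
  unfold al EW
  congr 1
  refine (Finset.sum_nbij' (fun X => X ∘ p) (fun X => X ∘ p.symm) ?_ ?_ ?_ ?_ ?_).symm
  · intro X hX
    unfold evW at hX ⊢
    rw [mem_filter] at hX ⊢
    refine ⟨mem_univ _, ?_⟩
    rw [← hX.2]
    exact Equiv.sum_comp p X
  · intro X hX
    unfold evW at hX ⊢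
    rw [mem_filter] at hX ⊢
    refine ⟨mem_univ _, ?_⟩
    rw [← hX.2]
    exact Equiv.sum_comp p.symm X
  · intro X _
    funext i
    simp
  · intro X _
    funext i
    simp
  · intro X _
    rw [ha p X]
    congr 1
    unfold chw
    exact (Equiv.prod_comp p fun i => sg (w i * X i)).symm

theorem symW_al {a : W n → ℝ} (ha : SymW a) : SymW (al a) := fun p w => al_comp ha w p

theorem al_radial {a : W n → ℝ} (ha : SymW a) {w v : W n} (h : wt w = wt v) : al a w = al a v :=
  xradial (symW_al ha) h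

/-- Coefficients of radial functions are small. -/
theorem ao_bound (hn : 0 < n) {a : W n → ℝ} (ha : SymW a) (w : W n) :
    (n.choose (wt w) : ℝ) * ao a w ^ 2 ≤ EW (fun x => a x ^ 2) := by
  have hcl : ∀ k : ℕ, ∀ u : W n, wt u = k →
      (n.choose k : ℝ) * al a u ^ 2 ≤ ∑ v ∈ univ.filter (fun v : W n => wt v = k), al a v ^ 2 := by
    intro k u hu
    have h1 : ∑ v ∈ univ.filter (fun v : W n => wt v = k), al a v ^ 2
        = ((univ.filter fun v : W n => wt v = k).card : ℝ) * al a u ^ 2 := by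
      rw [← nsmul_eq_mul, ← sum_const]
      refine sum_congr rfl fun v hv => ?_
      rw [mem_filter] at hv
      rw [al_radial ha (hv.2.trans hu.symm)]
    rw [h1]
    exact mul_le_mul_of_nonneg_right (by exact_mod_cast xchoose_le k) (sq_nonneg _)
  have hP := parsevalW hn a
  have hE0 : 0 ≤ EW (fun x => a x ^ 2) := by
    unfold EW
    exact div_nonneg (sum_nonneg fun x _ => sq_nonneg _) (by positivity)
  rcases lt_trichotomy (2 * wt w) n with h | h | h
  · have e0 : ao a w = al a w := by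
      unfold ao
      rw [if_pos h, one_mul]
    have e1 := wt_add_one w
    have h1 := hcl _ w rfl
    have h2 := hcl _ (w + 1) rfl
    rw [al_add_one] at h2
    have h3 : n.choose (wt (w + 1)) = n.choose (wt w) := by
      rw [show wt (w + 1) = n - wt w by omega]
      exact Nat.choose_symm (xwt_le w)
    rw [h3] at h2
    have hd : Disjoint (univ.filter fun v : W n => wt v = wt w)
        (univ.filter fun v : W n => wt v = wt (w + 1)) := by
      rw [disjoint_filter]
      intro v _ h4 h5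
      omega
    have h4 : ∑ v ∈ univ.filter (fun v : W n => wt v = wt w), al a v ^ 2
        + ∑ v ∈ univ.filter (fun v : W n => wt v = wt (w + 1)), al a v ^ 2
        ≤ ∑ v : W n, al a v ^ 2 := by
      rw [← sum_union hd]
      exact sum_le_sum_of_subset_of_nonneg (subset_univ _) fun v _ _ => sq_nonneg _
    rw [e0]
    linarith
  · have e0 : ao a w = 1 / 2 * al a w := by
      unfold ao
      rw [if_neg (by omega), if_pos h]
    have h1 := hcl _ w rfl
    have h2 : ∑ v ∈ univ.filter (fun v : W n => wt v = wt w), al a v ^ 2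
        ≤ ∑ v : W n, al a v ^ 2 :=
      sum_le_sum_of_subset_of_nonneg (subset_univ _) fun v _ _ => sq_nonneg _
    rw [e0, mul_pow]
    have : (n.choose (wt w) : ℝ) * ((1 / 2) ^ 2 * al a w ^ 2)
        = 1 / 4 * ((n.choose (wt w) : ℝ) * al a w ^ 2) := by ring
    rw [this]
    linarith
  · have e0 : ao a w = 0 := by
      unfold ao
      rw [if_neg (by omega), if_neg (by omega), zero_mul]
    rw [e0]
    simpa using hE0

theorem abs_ao_le (a : W n → ℝ) (w : W n) : |ao a w| ≤ |al a w| := by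
  unfold ao
  rw [abs_mul]
  have : |(if 2 * wt w < n then (1 : ℝ) else if 2 * wt w = n then 1 / 2 else 0)| ≤ 1 := by
    split_ifs <;> norm_num [abs_of_pos]
  nlinarith [abs_nonneg (al a w)]

theorem ao_eq_zero (a : W n → ℝ) {w : W n} (h : n < 2 * wt w) : ao a w = 0 := by
  unfold ao
  rw [if_neg (by omega), if_neg (by omega), zero_mul]

/-! ### Products over the rows -/

theorem chw_row (w : W n) (v : U r) (X : Cf n r) :
    chw w (row v X) = ch (fun i => w i • v) X := by
  unfold chw ch row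
  refine prod_congr rfl fun i _ => ?_
  rw [smul_dotProduct, smul_eq_mul]

theorem ch_sum {ι : Type*} (s : Finset ι) (F : ι → Cf n r) (X : Cf n r) :
    ch (∑ j ∈ s, F j) X = ∏ j ∈ s, ch (F j) X := by
  classical
  induction s using Finset.induction_on with
  | empty => rw [sum_empty, prod_empty, ch_zero]
  | insert a s ha ih => rw [sum_insert ha, prod_insert ha, ch_add, ih]

theorem prod_chw_row (T : Finset (U r)) (ω : {v // v ∈ T} → W n) (X : Cf n r) :
    ∏ v : {v // v ∈ T}, chw (ω v) (row v X) = ch (out T ω) X := by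
  rw [prod_congr rfl fun v _ => chw_row (ω v) v X, ← ch_sum]
  congr 1
  funext i
  unfold out
  rw [Finset.sum_apply]

open Classical in
/-- The coefficients of a product over rows. -/
theorem fc_prod_rows (hn : 0 < n) (T : Finset (U r)) (a : U r → W n → ℝ) (Ξ : Cf n r) :
    fc (fun X => ∏ v ∈ T, a v (row v X)) Ξ
      = ∑ ω : {v // v ∈ T} → W n, (∏ v : {v // v ∈ T}, ao (a v) (ω v))
        * if ∃ s : U r, ∀ i, out T ω i + Ξ i = s then 1 else 0 := by
  have h1 : ∀ X ∈ evC n r, ∏ v ∈ T, a v (row v X)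
      = ∑ ω : {v // v ∈ T} → W n, (∏ v : {v // v ∈ T}, ao (a v) (ω v)) * ch (out T ω) X := by
    intro X hX
    rw [← prod_coe_sort]
    have h2 : ∀ v : {v // v ∈ T}, a v (row v X)
        = ∑ w : W n, ao (a v) w * chw w (row (v : U r) X) :=
      fun v => inversionW hn (a v) (xrow_even hX v)
    rw [prod_congr rfl fun v _ => h2 v, Finset.prod_univ_sum, Fintype.piFinset_univ]
    refine sum_congr rfl fun ω _ => ?_
    rw [prod_mul_distrib, prod_chw_row]
  rw [fc_congr h1]
  unfold fc
  have h2 : EC (fun X => (∑ ω : {v // v ∈ T} → W n, (∏ v : {v // v ∈ T}, ao (a v) (ω v))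
      * ch (out T ω) X) * ch Ξ X)
      = EC (fun X => ∑ ω : {v // v ∈ T} → W n, (∏ v : {v // v ∈ T}, ao (a v) (ω v))
      * ch (out T ω + Ξ) X) := by
    refine EC_congr fun X _ => ?_
    rw [sum_mul]
    refine sum_congr rfl fun ω _ => ?_
    rw [ch_add]
    ring
  rw [h2, EC_sum]
  refine sum_congr rfl fun ω _ => ?_
  rw [EC_mul_left, EC_ch hn]
  rfl

end

end Pool.Agent.Lib.MP_0430e4_lc.Lin
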