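import Pool.Agent.Lib.MP_0430e4_lc.Lin.POS
import Pool.Agent.Lib.MP_0430e4_lc.Lin.FBase

/-!
# EXP: the main function: properties and expansion

PROOFS. `f0_zero`: if `wt (row v X) < d` and `v ∈ S` then the factor `φ - σ = 0`, if `v ∉ S` the
factor `1 + σ = 0`. `f0_nonneg`, `f0_half`: `POS` with `ρ v = φ - σ`, `γ v = 1 + σ` at `row v X`,
`c = 3 κ`: if `ρ v < 0` then `wt ≥ d`, `γ v = 1 + φ - ρ ≥ 1 - κ`, `|ρ v| ≤ 2κ ≤ 3κ (1-κ)`
(κ ≤ 1/3; `σ ≤ κ`, `φ ≥ -κ`). `f0_eq`: expand `∏ (1 + σ)` over `P \ S` (`Finset.prod_one_add` or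
`prod_add`), put `T = S ∪ R`. `psi_ind`: all subsets of an independent set are independent, then
`Finset.prod_add`.
-/

set_option autoImplicit false

namespace Pool.Agent.Lib.MP_0430e4_lc.Lin

open Finset

variable {n r : ℕ}

theorem ind_subset {S T : Finset (U r)} (h : S ⊆ T) (hT : Ind T) : Ind S := by
  have h1 := LinearIndependent.comp hT (fun v : {v // v ∈ S} => (⟨v.1, h v.2⟩ : {v // v ∈ T}))
    (fun a b hab => by
      apply Subtype.ext
      have := congrArg Subtype.val hab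
      exact this)
  exact h1

theorem ind_empty : Ind (∅ : Finset (U r)) := by
  have : IsEmpty {v : U r // v ∈ (∅ : Finset (U r))} := ⟨fun v => absurd v.2 (notMem_empty _)⟩
  exact linearIndependent_empty_type

theorem zero_notMem_ind {T : Finset (U r)} (hT : Ind T) : (0 : U r) ∉ T := fun h =>
  LinearIndependent.ne_zero (⟨0, h⟩ : {v // v ∈ T}) hT rfl

theorem exp_mem_indSub {S T : Finset (U r)} : S ∈ indSub T ↔ S ⊆ T ∧ Ind S := by
  classical
  unfold indSub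
  rw [mem_filter, mem_powerset]

theorem f0_eq (φ σ : W n → ℝ) (X : Cf n r) :
    f0 φ σ X = ∑ T ∈ (Pn r).powerset, Psi (fun x => φ x - σ x) σ T X := by
  have h1 : f0 φ σ X = ∑ S ∈ indSub (Pn r), ∑ R ∈ (Pn r \ S).powerset,
      (∏ v ∈ S, (φ (row v X) - σ (row v X))) * ∏ v ∈ R, σ (row v X) := by
    unfold f0 Psi trm
    refine sum_congr rfl fun S _ => ?_
    rw [Finset.prod_one_add, mul_sum]
  have h2 : ∑ T ∈ (Pn r).powerset, Psi (fun x => φ x - σ x) σ T X =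
      ∑ T ∈ (Pn r).powerset, ∑ S ∈ indSub T,
        (∏ v ∈ S, (φ (row v X) - σ (row v X))) * ∏ v ∈ T \ S, σ (row v X) := rfl
  rw [h1, h2, sum_sigma', sum_sigma']
  refine sum_bij' (fun p _ => (⟨p.1 ∪ p.2, p.1⟩ : (_ : Finset (U r)) × Finset (U r)))
    (fun p _ => (⟨p.2, p.1 \ p.2⟩ : (_ : Finset (U r)) × Finset (U r))) ?_ ?_ ?_ ?_ ?_
  · rintro ⟨S, R⟩ h
    rw [mem_sigma, exp_mem_indSub, mem_powerset] at h
    obtain ⟨⟨h3, h4⟩, h5⟩ := h
    rw [mem_sigma, exp_mem_indSub, mem_powerset]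
    exact ⟨union_subset h3 (h5.trans sdiff_subset), subset_union_left, h4⟩
  · rintro ⟨T, S⟩ h
    rw [mem_sigma, exp_mem_indSub, mem_powerset] at h
    obtain ⟨h3, h4, h5⟩ := h
    rw [mem_sigma, exp_mem_indSub, mem_powerset]
    exact ⟨⟨h4.trans h3, h5⟩, sdiff_subset_sdiff h3 (subset_refl S)⟩
  · rintro ⟨S, R⟩ h
    rw [mem_sigma, exp_mem_indSub, mem_powerset] at h
    obtain ⟨⟨h3, h4⟩, h5⟩ := h
    have h6 : (S ∪ R) \ S = R := by
      rw [union_sdiff_left]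
      exact sdiff_eq_self_of_disjoint (disjoint_left.2 fun a ha hb => (mem_sdiff.1 (h5 ha)).2 hb)
    simp only [h6]
  · rintro ⟨T, S⟩ h
    rw [mem_sigma, exp_mem_indSub, mem_powerset] at h
    obtain ⟨h3, h4, h5⟩ := h
    simp only [union_sdiff_of_subset h4]
  · rintro ⟨S, R⟩ h
    rw [mem_sigma, exp_mem_indSub, mem_powerset] at h
    obtain ⟨⟨h3, h4⟩, h5⟩ := h
    have h6 : (S ∪ R) \ S = R := by
      rw [union_sdiff_left]
      exact sdiff_eq_self_of_disjoint (disjoint_left.2 fun a ha hb => (mem_sdiff.1 (h5 ha)).2 hb)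
    simp only [h6]

theorem psi_ind (φ σ : W n → ℝ) {T : Finset (U r)} (hT : Ind T) (X : Cf n r) :
    Psi (fun x => φ x - σ x) σ T X = ∏ v ∈ T, φ (row v X) := by
  have h1 : indSub T = T.powerset := by
    ext S
    rw [exp_mem_indSub, mem_powerset]
    exact ⟨fun h => h.1, fun h => ⟨h, ind_subset h hT⟩⟩
  have h2 : ∏ v ∈ T, φ (row v X) =
      ∏ v ∈ T, ((φ (row v X) - σ (row v X)) + σ (row v X)) :=
    prod_congr rfl fun v _ => by ring
  rw [h2, Finset.prod_add, ← h1]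
  rfl

theorem exp_row_comp (v : U r) (X : Cf n r) (p : Equiv.Perm (Fin n)) :
    row v (X ∘ p) = (row v X) ∘ p := rfl

theorem f0_sym {φ σ : W n → ℝ} (hφ : SymW φ) (hσ : SymW σ) : SymC (f0 (r := r) φ σ) := by
  intro p X
  unfold f0 Psi trm
  simp only [exp_row_comp, hφ p, hσ p]

/-- The hypotheses on the two functions of level one. -/
structure Two (n d d2 : ℕ) (κ : ℝ) (φ σ : W n → ℝ) : Prop where
  symφ : SymW φ
  symσ : SymW σ
  φlow : ∀ x, wt x < d → φ x = -1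
  σlow : ∀ x, wt x < d → σ x = -1
  φsmall : ∀ x, d ≤ wt x → |φ x| ≤ κ
  σge : ∀ x, -1 ≤ σ x
  σle : ∀ x, σ x ≤ κ
  σsmall : ∀ x, d2 ≤ wt x → |σ x| ≤ κ

variable {d d2 : ℕ} {κ : ℝ} {φ σ : W n → ℝ}

theorem f0_zero (h : Two n d d2 κ φ σ) {X : Cf n r} {v : U r} (hv : v ∈ Pn r)
    (hX : wt (row v X) < d) : f0 φ σ X = 0 := by
  unfold f0 Psi trm
  refine sum_eq_zero fun S _ => ?_
  by_cases hvS : v ∈ S
  · have h1 : ∏ v ∈ S, (φ (row v X) - σ (row v X)) = 0 :=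
      prod_eq_zero hvS (by rw [h.φlow _ hX, h.σlow _ hX, sub_self])
    rw [h1, zero_mul]
  · have h1 : ∏ v ∈ Pn r \ S, (1 + σ (row v X)) = 0 :=
      prod_eq_zero (mem_sdiff.2 ⟨hv, hvS⟩) (by rw [h.σlow _ hX]; ring)
    rw [h1, mul_zero]

theorem exp_card_Pn : (Pn r).card ≤ 2 ^ r := by
  unfold Pn
  refine (card_le_card (erase_subset _ _)).trans (le_of_eq ?_)
  rw [card_univ, Fintype.card_fun, ZMod.card, Fintype.card_fin]

theorem exp_kappa (hκ0 : 0 ≤ κ) (hκ : (1 + 3 * κ) ^ (2 ^ r) ≤ 5 / 4) : κ ≤ 1 / 12 := by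
  have h1 : 1 + 3 * κ ≤ (1 + 3 * κ) ^ (2 ^ r) :=
    le_self_pow₀ (by linarith) (pow_pos (by norm_num) r).ne'
  linarith

theorem exp_pow_card (hκ0 : 0 ≤ κ) (hκ : (1 + 3 * κ) ^ (2 ^ r) ≤ 5 / 4) :
    (1 + 3 * κ) ^ (Pn r).card ≤ 5 / 4 :=
  (pow_le_pow_right₀ (by linarith) exp_card_Pn).trans hκ

theorem f0_nonneg (h : Two n d d2 κ φ σ) (hκ0 : 0 ≤ κ) (hκ : (1 + 3 * κ) ^ (2 ^ r) ≤ 5 / 4)
    (X : Cf n r) : 0 ≤ f0 φ σ X := by
  have hk := exp_kappa hκ0 hκ
  have := sum_nonneg_of_small (Pn r) (indSub (Pn r)) (fun S hS => (exp_mem_indSub.1 hS).1)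
    (fun S hS S' hS' => exp_mem_indSub.2 ⟨hS'.trans (exp_mem_indSub.1 hS).1,
      ind_subset hS' (exp_mem_indSub.1 hS).2⟩)
    (fun v => φ (row v X) - σ (row v X)) (fun v => 1 + σ (row v X)) (c := 3 * κ) (by linarith)
    (fun v _ => by
      have := h.σge (row v X)
      show 0 ≤ 1 + σ (row v X)
      linarith)
    (fun v _ => by
      show 0 ≤ φ (row v X) - σ (row v X) ∨
        |φ (row v X) - σ (row v X)| ≤ 3 * κ * (1 + σ (row v X))
      rcases lt_or_ge (wt (row v X)) d with hw | hw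
      · left
        rw [h.φlow _ hw, h.σlow _ hw, sub_self]
      · rcases le_or_gt 0 (φ (row v X) - σ (row v X)) with h0 | h0
        · left; exact h0
        · right
          have h1 := abs_le.1 (h.φsmall _ hw)
          have h2 := h.σle (row v X)
          rw [abs_of_neg h0]
          nlinarith)
    ((exp_pow_card hκ0 hκ).trans (by norm_num))
  exact this

theorem f0_half (h : Two n d d2 κ φ σ) (hd : d ≤ d2) (hκ0 : 0 ≤ κ)
    (hκ : (1 + 3 * κ) ^ (2 ^ r) ≤ 5 / 4) {X : Cf n r} (hX : ∀ v ∈ Pn r, d2 ≤ wt (row v X)) :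
    1 / 2 ≤ f0 φ σ X := by
  have := half_le (Pn r) (indSub (Pn r)) (fun S hS => (exp_mem_indSub.1 hS).1)
    (exp_mem_indSub.2 ⟨empty_subset _, ind_empty⟩)
    (fun v => φ (row v X) - σ (row v X)) (fun v => 1 + σ (row v X)) (κ := κ) hκ0
    (fun v hv => by
      show |1 + σ (row v X) - 1| ≤ κ
      rw [add_sub_cancel_left]
      exact h.σsmall _ (hX v hv))
    (fun v hv => by
      show |φ (row v X) - σ (row v X)| ≤ 2 * κ
      have h1 := abs_le.1 (h.φsmall _ (hd.trans (hX v hv)))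
      have h2 := abs_le.1 (h.σsmall _ (hX v hv))
      rw [abs_le]
      constructor <;> linarith [h1.1, h1.2, h2.1, h2.2])
    (exp_pow_card hκ0 hκ)
  exact this

theorem f0_le (h : Two n d d2 κ φ σ) (hκ0 : 0 ≤ κ) (hκ1 : κ ≤ 1) (X : Cf n r) :
    |f0 φ σ X| ≤ 2 ^ (2 ^ r) * 2 ^ (2 ^ r) := by
  unfold f0 Psi trm
  refine (abs_sum_le_sum_abs _ _).trans ?_
  have hone : ∀ S ∈ indSub (Pn r), |(∏ v ∈ S, (φ (row v X) - σ (row v X))) *
      ∏ v ∈ Pn r \ S, (1 + σ (row v X))| ≤ 2 ^ (2 ^ r) := by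
    intro S hS
    have hSP := (exp_mem_indSub.1 hS).1
    rw [abs_mul, abs_prod, abs_prod]
    have h1 : ∏ v ∈ S, |φ (row v X) - σ (row v X)| ≤ 2 ^ S.card := by
      rw [← prod_const]
      refine prod_le_prod (fun v _ => abs_nonneg _) fun v _ => ?_
      rcases lt_or_ge (wt (row v X)) d with hw | hw
      · rw [h.φlow _ hw, h.σlow _ hw, sub_self, abs_zero]; norm_num
      · have h1 := abs_le.1 (h.φsmall _ hw)
        have h2 := h.σle (row v X)
        have h3 := h.σge (row v X)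
        rw [abs_le]
        constructor <;> linarith [h1.1, h1.2]
    have h2 : ∏ v ∈ Pn r \ S, |1 + σ (row v X)| ≤ 2 ^ (Pn r \ S).card := by
      rw [← prod_const]
      refine prod_le_prod (fun v _ => abs_nonneg _) fun v _ => ?_
      have h2 := h.σle (row v X)
      have h3 := h.σge (row v X)
      rw [abs_le]
      constructor <;> linarith
    calc (∏ v ∈ S, |φ (row v X) - σ (row v X)|) * ∏ v ∈ Pn r \ S, |1 + σ (row v X)|
        ≤ 2 ^ S.card * 2 ^ (Pn r \ S).card :=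
          mul_le_mul h1 h2 (prod_nonneg fun v _ => abs_nonneg _) (by positivity)
      _ = 2 ^ (Pn r).card := by
          rw [← pow_add, add_comm, card_sdiff_add_card_eq_card hSP]
      _ ≤ 2 ^ (2 ^ r) := pow_le_pow_right₀ (by norm_num) exp_card_Pn
  refine (sum_le_sum hone).trans ?_
  rw [sum_const, nsmul_eq_mul]
  refine mul_le_mul_of_nonneg_right ?_ (by positivity)
  have h3 : (indSub (Pn r)).card ≤ 2 ^ (2 ^ r) := by
    refine (card_le_card (t := (Pn r).powerset) ?_).trans ?_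
    · intro S hS
      exact mem_powerset.2 (exp_mem_indSub.1 hS).1
    · rw [card_powerset]
      exact Nat.pow_le_pow_right (by norm_num) exp_card_Pn
  exact_mod_cast h3

end Pool.Agent.Lib.MP_0430e4_lc.Lin
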