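import Pool.Agent.Lib.MP_0430e4_lc.Lin.FFlat

set_option autoImplicit false

namespace Pool.Agent.Lib.MP_0430e4_lc.Lin

open Finset

section

variable {n r : ℕ}

theorem zz_cases (a : ZMod 2) : a = 0 ∨ a = 1 := by
  revert a
  decide

theorem zz_one {a : ZMod 2} (h : a ≠ 0) : a = 1 := (zz_cases a).resolve_left h

/-- Coefficients of a combination of independent vectors are unique. -/
theorem ind_unique {S : Finset (U r)} (hS : Ind S) {a b : U r → ZMod 2}
    (h : ∑ v ∈ S, a v • v = ∑ v ∈ S, b v • v) {v : U r} (hv : v ∈ S) : a v = b v := by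
  have h1 : ∑ v : {v // v ∈ S}, (a v - b v) • (v : U r) = 0 := by
    have e1 : ∑ v : {v // v ∈ S}, (a v - b v) • (v : U r) = ∑ v ∈ S, (a v - b v) • v :=
      Finset.sum_coe_sort S fun v => (a v - b v) • v
    rw [e1]
    simp only [sub_smul]
    rw [sum_sub_distrib, h, sub_self]
  have h2 := Fintype.linearIndependent_iff.mp hS (fun v => a v - b v) h1 ⟨v, hv⟩
  exact sub_eq_zero.mp h2

/-- The value of `out` at a position. -/
theorem out_eq (T : Finset (U r)) (ω : {v // v ∈ T} → W n) (i : Fin n) (g : U r → ZMod 2)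
    (hg : ∀ v : {v // v ∈ T}, g v = ω v i) : out T ω i = ∑ v ∈ T, g v • v := by
  unfold out
  rw [← Finset.sum_coe_sort T fun v => g v • v]
  exact sum_congr rfl fun v _ => by rw [hg]

/-- The tuple of words has no constant shift and its support is controlled by the words outside
the independent set. -/
theorem cols_struct {T S : Finset (U r)} (hS : Ind S) (hST : S ⊆ T) {Ξ : Cf n r} {k c : ℕ}
    (hΞ : (sup Ξ).card ≤ k) (hc : 2 * (2 ^ r * c + k) < n)
    {ω : {v // v ∈ T} → W n} (hω : ∃ s : U r, ∀ i, out T ω i + Ξ i = s)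
    (h1 : ∀ v, 2 * wt (ω v) ≤ n) (h2 : ∀ v : {v // v ∈ T}, (v : U r) ∉ S → wt (ω v) ≤ c) :
    out T ω = Ξ ∧ (Zs T ω Ξ).card ≤ 2 ^ r * c := by
  classical
  obtain ⟨s, hs⟩ := hω
  set D : Finset (Fin n) := (univ : Finset {v // v ∈ T}).biUnion fun v =>
    if (v : U r) ∈ S then ∅ else univ.filter fun i => ω v i ≠ 0 with hD
  have hDc : D.card ≤ 2 ^ r * c := by
    calc D.card ≤ ∑ v : {v // v ∈ T}, (if (v : U r) ∈ S then ∅ else
          univ.filter fun i => ω v i ≠ 0 : Finset (Fin n)).card := card_biUnion_le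
      _ ≤ ∑ _v : {v // v ∈ T}, c := by
          refine sum_le_sum fun v _ => ?_
          split_ifs with h
          · simp
          · exact h2 v h
      _ = T.card * c := by
          rw [sum_const, card_univ, Fintype.card_coe, smul_eq_mul]
      _ ≤ 2 ^ r * c := by
          refine Nat.mul_le_mul_right _ ?_
          have h3 : T.card ≤ (univ : Finset (U r)).card := card_le_card (subset_univ _)
          have h4 : ((univ : Finset (U r)).card : ℝ) = 2 ^ r := by
            rw [card_univ]
            exact xcard_U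
          have h5 : (univ : Finset (U r)).card = 2 ^ r := by exact_mod_cast h4
          omega
  set O : Finset (Fin n) := univ \ (sup Ξ ∪ D) with hO
  have hOc : n < 2 * O.card := by
    have h3 := card_union_le (sup Ξ) D
    have h4 : O.card = n - (sup Ξ ∪ D).card := by
      rw [hO, card_sdiff_of_subset (subset_univ _), card_univ, Fintype.card_fin]
    have h5 : (sup Ξ ∪ D).card ≤ n := by
      calc (sup Ξ ∪ D).card ≤ (univ : Finset (Fin n)).card := card_le_card (subset_univ _)
        _ = n := by simp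
    omega
  have hO1 : ∀ i ∈ O, Ξ i = 0 ∧ ∀ v : {v // v ∈ T}, (v : U r) ∉ S → ω v i = 0 := by
    intro i hi
    rw [hO, mem_sdiff, mem_union] at hi
    push Not at hi
    refine ⟨?_, fun v hv => ?_⟩
    · by_contra h3
      exact hi.2.1 (mem_filter.mpr ⟨mem_univ _, h3⟩)
    · by_contra h3
      apply hi.2.2
      rw [hD, mem_biUnion]
      exact ⟨v, mem_univ _, by rw [if_neg hv]; exact mem_filter.mpr ⟨mem_univ _, h3⟩⟩
  -- on `O` the sum is over `S`
  set g : Fin n → U r → ZMod 2 := fun i v => if h : v ∈ T then ω ⟨v, h⟩ i else 0 with hg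
  have hgT : ∀ i, ∀ v : {v // v ∈ T}, g i v = ω v i := by
    intro i v
    rw [hg]
    simp only [v.2, dif_pos]
  have hsum : ∀ i ∈ O, ∑ v ∈ S, g i v • v = s := by
    intro i hi
    obtain ⟨h3, h4⟩ := hO1 i hi
    have h5 := hs i
    rw [h3, add_zero, out_eq T ω i (g i) (hgT i)] at h5
    rw [← h5]
    refine sum_subset hST fun v hv hvS => ?_
    rw [hgT i ⟨v, hv⟩, h4 ⟨v, hv⟩ hvS, zero_smul]
  have hOne : O.Nonempty := by
    rw [← card_pos]
    omega
  obtain ⟨i0, hi0⟩ := hOne
  have hsame : ∀ i ∈ O, ∀ v ∈ S, g i v = g i0 v := fun i hi v hv =>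
    ind_unique hS ((hsum i hi).trans (hsum i0 hi0).symm) hv
  have hzero : ∀ v ∈ S, g i0 v = 0 := by
    intro v hv
    by_contra h3
    have h4 : O ⊆ univ.filter fun i => ω ⟨v, hST hv⟩ i ≠ 0 := by
      intro i hi
      rw [mem_filter]
      refine ⟨mem_univ _, ?_⟩
      rw [← hgT i ⟨v, hST hv⟩, hsame i hi v hv]
      exact h3
    have h5 := card_le_card h4
    have h6 := h1 ⟨v, hST hv⟩
    unfold wt at h6
    omega
  have hs0 : s = 0 := by
    rw [← hsum i0 hi0]
    exact sum_eq_zero fun v hv => by rw [hzero v hv, zero_smul]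
  refine ⟨?_, ?_⟩
  · funext i
    have := hs i
    rw [hs0] at this
    exact eq_of_add_U this
  · refine le_trans (card_le_card ?_) hDc
    intro i hi
    unfold Zs at hi
    rw [mem_filter] at hi
    obtain ⟨_, h3, v, hv⟩ := hi
    by_contra h4
    have hiO : i ∈ O := by
      rw [hO, mem_sdiff, mem_union]
      refine ⟨mem_univ _, ?_⟩
      rintro (h5 | h5)
      · unfold sup at h5
        rw [mem_filter] at h5
        exact h5.2 h3
      · exact h4 h5
    by_cases hvS : (v : U r) ∈ S
    · apply hv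
      rw [← hgT i v, hsame i hiO v hvS]
      exact hzero v hvS
    · exact hv ((hO1 i hiO).2 v hvS)

/-- Every word is supported on `Zs` and the support of `Ξ`. -/
theorem wt_le_Zs (T : Finset (U r)) (ω : {v // v ∈ T} → W n) (Ξ : Cf n r) (v : {v // v ∈ T}) :
    wt (ω v) ≤ (Zs T ω Ξ).card + (sup Ξ).card := by
  classical
  unfold wt
  refine le_trans (card_le_card ?_) (card_union_le _ _)
  intro i hi
  rw [mem_filter] at hi
  rw [mem_union]
  by_cases h : Ξ i = 0
  · left
    unfold Zs
    exact mem_filter.mpr ⟨mem_univ _, h, v, hi.2⟩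
  · right
    unfold sup
    exact mem_filter.mpr ⟨mem_univ _, h⟩

/-- A nonempty set of nonzero vectors with sum zero has at least three elements. -/
theorem three_le_card {Q : Finset (U r)} (hQ : Q ⊆ Pn r) (hQ0 : Q.Nonempty)
    (hs : ∑ v ∈ Q, v = 0) : 3 ≤ Q.card := by
  by_contra h
  have h1 : 0 < Q.card := card_pos.mpr hQ0
  have h2 : Q.card = 1 ∨ Q.card = 2 := by omega
  rcases h2 with h2 | h2
  · obtain ⟨v, rfl⟩ := card_eq_one.mp h2
    rw [sum_singleton] at hs
    have := hQ (mem_singleton_self v)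
    unfold Pn at this
    rw [mem_erase] at this
    exact this.1 hs
  · obtain ⟨v, w, hvw, rfl⟩ := card_eq_two.mp h2
    rw [sum_pair hvw] at hs
    exact hvw (eq_of_add_U hs)

/-- Counting by columns. -/
theorem cols_count {T : Finset (U r)} (hT : T ⊆ Pn r) {Ξ : Cf n r} {ω : {v // v ∈ T} → W n}
    (h : out T ω = Ξ) :
    3 * (Zs T ω Ξ).card + (sup Ξ).card ≤ ∑ v : {v // v ∈ T}, wt (ω v) := by
  classical
  have h1 : ∑ v : {v // v ∈ T}, wt (ω v)
      = ∑ i : Fin n, (univ.filter fun v : {v // v ∈ T} => ω v i ≠ 0).card := by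
    unfold wt
    simp only [card_filter]
    rw [sum_comm]
  have hcol : ∀ i, Ξ i = ∑ v ∈ (univ.filter fun v : {v // v ∈ T} => ω v i ≠ 0).map
      (Function.Embedding.subtype _), v := by
    intro i
    rw [sum_map, ← congrFun h i]
    unfold out
    rw [sum_filter]
    refine sum_congr rfl fun v _ => ?_
    rcases zz_cases (ω v i) with h2 | h2
    · rw [h2, zero_smul, if_neg (by simp)]
    · rw [h2, one_smul, if_pos one_ne_zero]
      rfl
  have hcard : ∀ i, ((univ.filter fun v : {v // v ∈ T} => ω v i ≠ 0).map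
      (Function.Embedding.subtype _)).card
      = (univ.filter fun v : {v // v ∈ T} => ω v i ≠ 0).card := fun i => card_map _
  have hdis : Disjoint (Zs T ω Ξ) (sup Ξ) := by
    rw [disjoint_left]
    intro i h2 h3
    unfold Zs at h2
    unfold sup at h3
    rw [mem_filter] at h2 h3
    exact h3.2 h2.2.1
  rw [h1]
  calc 3 * (Zs T ω Ξ).card + (sup Ξ).card
      = ∑ _i ∈ Zs T ω Ξ, 3 + ∑ _i ∈ sup Ξ, 1 := by
        rw [sum_const, sum_const, smul_eq_mul, smul_eq_mul]
        ring
    _ ≤ ∑ i ∈ Zs T ω Ξ, (univ.filter fun v : {v // v ∈ T} => ω v i ≠ 0).card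
        + ∑ i ∈ sup Ξ, (univ.filter fun v : {v // v ∈ T} => ω v i ≠ 0).card := by
        refine add_le_add (sum_le_sum fun i hi => ?_) (sum_le_sum fun i hi => ?_)
        · unfold Zs at hi
          rw [mem_filter] at hi
          obtain ⟨_, h2, v, hv⟩ := hi
          rw [← hcard i]
          refine three_le_card ?_ ?_ ?_
          · intro w hw
            rw [mem_map] at hw
            obtain ⟨u, _, rfl⟩ := hw
            exact hT u.2
          · exact ⟨v, mem_map.mpr ⟨v, mem_filter.mpr ⟨mem_univ _, hv⟩, rfl⟩⟩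
          · rw [← hcol i, h2]
        · unfold sup at hi
          rw [mem_filter] at hi
          rw [Nat.one_le_iff_ne_zero, ← hcard i]
          intro h2
          rw [card_eq_zero] at h2
          have h3 := hcol i
          rw [h2, sum_empty] at h3
          exact hi.2 h3
    _ = ∑ i ∈ Zs T ω Ξ ∪ sup Ξ, (univ.filter fun v : {v // v ∈ T} => ω v i ≠ 0).card := by
        rw [sum_union hdis]
    _ ≤ _ := sum_le_sum_of_subset (subset_univ _)

/-- The number of tuples of words with a given set `Zs`. -/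
theorem card_Zs_eq (T : Finset (U r)) (Ξ : Cf n r) (Z : Finset (Fin n)) :
    (univ.filter fun ω : {v // v ∈ T} → W n => Zs T ω Ξ = Z).card
      ≤ 2 ^ (T.card * (Z.card + (sup Ξ).card)) := by
  classical
  set Q : Finset (Fin n) := Z ∪ sup Ξ with hQ
  have hQc : Q.card ≤ Z.card + (sup Ξ).card := card_union_le _ _
  have h1 : (univ.filter fun ω : {v // v ∈ T} → W n => Zs T ω Ξ = Z).card
      ≤ (univ : Finset ({v // v ∈ T} → {i // i ∈ Q} → ZMod 2)).card := by
    refine card_le_card_of_injOn (fun ω v i => ω v i) (fun _ _ => mem_coe.mpr (mem_univ _)) ?_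
    intro ω hω ω' hω' h
    rw [mem_coe, mem_filter] at hω hω'
    have key : ∀ ω : {v // v ∈ T} → W n, Zs T ω Ξ = Z → ∀ v i, i ∉ Q → ω v i = 0 := by
      intro ω hω v i hi
      by_contra h3
      apply hi
      rw [hQ, mem_union]
      by_cases h4 : Ξ i = 0
      · left
        rw [← hω]
        unfold Zs
        exact mem_filter.mpr ⟨mem_univ _, h4, v, h3⟩
      · right
        unfold sup
        exact mem_filter.mpr ⟨mem_univ _, h4⟩
    funext v i
    by_cases hi : i ∈ Q
    · exact congrFun (congrFun h v) ⟨i, hi⟩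
    · rw [key ω hω.2 v i hi, key ω' hω'.2 v i hi]
  refine h1.trans ?_
  rw [card_univ, Fintype.card_fun, Fintype.card_fun, ZMod.card, Fintype.card_coe,
    Fintype.card_coe, ← pow_mul, mul_comm]
  exact Nat.pow_le_pow_right (by norm_num) (Nat.mul_le_mul_left _ hQc)

/-- The number of tuples of words with a set `Zs` of given size. -/
theorem card_Zs (T : Finset (U r)) (Ξ : Cf n r) (q : ℕ) :
    (univ.filter fun ω : {v // v ∈ T} → W n => (Zs T ω Ξ).card = q).card
      ≤ n.choose q * 2 ^ (T.card * (q + (sup Ξ).card)) := by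
  classical
  have h1 : (univ.filter fun ω : {v // v ∈ T} → W n => (Zs T ω Ξ).card = q)
      ⊆ (powersetCard q (univ : Finset (Fin n))).biUnion fun Z =>
        univ.filter fun ω : {v // v ∈ T} → W n => Zs T ω Ξ = Z := by
    intro ω hω
    rw [mem_filter] at hω
    rw [mem_biUnion]
    exact ⟨Zs T ω Ξ, mem_powersetCard.mpr ⟨subset_univ _, hω.2⟩,
      mem_filter.mpr ⟨mem_univ _, rfl⟩⟩
  refine (card_le_card h1).trans (card_biUnion_le.trans ?_)
  calc ∑ Z ∈ powersetCard q (univ : Finset (Fin n)),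
        (univ.filter fun ω : {v // v ∈ T} → W n => Zs T ω Ξ = Z).card
      ≤ ∑ _Z ∈ powersetCard q (univ : Finset (Fin n)), 2 ^ (T.card * (q + (sup Ξ).card)) := by
        refine sum_le_sum fun Z hZ => ?_
        rw [mem_powersetCard] at hZ
        have := card_Zs_eq T Ξ Z
        rwa [hZ.2] at this
    _ = _ := by
        rw [sum_const, card_powersetCard, card_univ, Fintype.card_fin, smul_eq_mul]

end

end Pool.Agent.Lib.MP_0430e4_lc.Lin
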