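import Pool.Agent.Lib.MP_0430e4_lc.Lin.FFlat

set_option autoImplicit false

namespace Pool.Agent.Lib.MP_0430e4_lc.Lin

open Finset

section

variable {n r : ℕ}

theorem card_Pn_le : (Pn r).card ≤ 2 ^ r := by
  have h1 : (Pn r).card ≤ (univ : Finset (U r)).card := card_le_card (subset_univ _)
  have h2 : ((univ : Finset (U r)).card : ℝ) = 2 ^ r := by
    rw [card_univ]
    exact xcard_U
  have h3 : (univ : Finset (U r)).card = 2 ^ r := by exact_mod_cast h2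
  omega

theorem fc_sub (f g : Cf n r → ℝ) (Ξ : Cf n r) : fc (fun X => f X - g X) Ξ = fc f Ξ - fc g Ξ := by
  unfold fc
  rw [← EC_sub]
  exact EC_congr fun X _ => by ring

theorem fc_add (f g : Cf n r → ℝ) (Ξ : Cf n r) : fc (fun X => f X + g X) Ξ = fc f Ξ + fc g Ξ := by
  unfold fc
  rw [← EC_add]
  exact EC_congr fun X _ => by ring

theorem fc_sum {ι : Type*} (s : Finset ι) (f : ι → Cf n r → ℝ) (Ξ : Cf n r) :
    fc (fun X => ∑ i ∈ s, f i X) Ξ = ∑ i ∈ s, fc (f i) Ξ := by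
  unfold fc
  rw [← EC_sum]
  exact EC_congr fun X _ => sum_mul _ _ _

/-- Replacing the smooth factors by their low parts, pointwise. -/
theorem trm_diff_le {ρ σ τ : W n → ℝ} (hρ : ∀ x ∈ evW n, |ρ x| ≤ 2) (hσ : ∀ x ∈ evW n, |σ x| ≤ 1)
    (T S : Finset (U r)) {X : Cf n r} (hX : X ∈ evC n r) :
    |trm ρ σ T S X - trm ρ τ T S X|
      ≤ 2 ^ S.card * ∑ R ∈ (T \ S).powerset.erase ∅, ∏ v ∈ R, |σ (row v X) - τ (row v X)| := by
  classical
  unfold trm
  rw [← mul_sub, abs_mul]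
  have h1 : |∏ v ∈ S, ρ (row v X)| ≤ 2 ^ S.card := by
    rw [abs_prod, ← prod_const]
    exact prod_le_prod (fun v _ => abs_nonneg _) fun v _ => hρ _ (xrow_even hX v)
  have h2 : ∏ v ∈ T \ S, τ (row v X)
      = ∑ R ∈ (T \ S).powerset, (∏ v ∈ R, -(σ (row v X) - τ (row v X)))
        * ∏ v ∈ (T \ S) \ R, σ (row v X) := by
    rw [← prod_add]
    exact prod_congr rfl fun v _ => by ring
  have h3 : |∏ v ∈ T \ S, σ (row v X) - ∏ v ∈ T \ S, τ (row v X)|
      ≤ ∑ R ∈ (T \ S).powerset.erase ∅, ∏ v ∈ R, |σ (row v X) - τ (row v X)| := by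
    rw [h2, ← add_sum_erase _ _ (empty_mem_powerset (T \ S))]
    rw [prod_empty, one_mul, sdiff_empty, sub_add_cancel_left, abs_neg]
    refine (abs_sum_le_sum_abs _ _).trans (sum_le_sum fun R _ => ?_)
    rw [abs_mul, abs_prod, abs_prod]
    have e1 : ∏ v ∈ R, |-(σ (row v X) - τ (row v X))| = ∏ v ∈ R, |σ (row v X) - τ (row v X)| :=
      prod_congr rfl fun v _ => abs_neg _
    rw [e1]
    have e2 : ∏ v ∈ (T \ S) \ R, |σ (row v X)| ≤ 1 :=
      prod_le_one (fun v _ => abs_nonneg _) fun v _ => hσ _ (xrow_even hX v)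
    exact mul_le_of_le_one_right (prod_nonneg fun v _ => abs_nonneg _) e2
  exact mul_le_mul h1 h3 (abs_nonneg _) (by positivity)

/-- Replacing the smooth factors by their low parts costs little. -/
theorem fc_trm_diff (hr : 1 ≤ r) (hn : 0 < n) {ρ σ : W n → ℝ}
    (hρ : ∀ x ∈ evW n, |ρ x| ≤ 2) (hσ : ∀ x ∈ evW n, |σ x| ≤ 1) (hs : SymW σ) (c : ℕ)
    {η A : ℝ} (hη : 0 ≤ η) (hη1 : η ≤ 1)
    (hE : EW (fun x => (σ x - flat c σ x) ^ 2) ≤ η ^ 2)
    (hA : ∀ x ∈ evW n, |σ x - flat c σ x| ≤ A) (hA1 : 1 ≤ A)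
    {T S : Finset (U r)} (hT : T ⊆ Pn r) (hS : S ⊆ T) (Ξ : Cf n r) :
    |fc (trm ρ σ T S) Ξ - fc (trm ρ (flat c σ) T S) Ξ|
      ≤ 4 ^ 2 ^ r * (2 ^ r * (n + 1) ^ (2 * 2 ^ r) * η
        + 2 ^ (2 * r + 1) * A ^ 2 ^ r * Real.exp (-((1 / (2 * (2 ^ r) ^ 2)) ^ 2 * n / 2))) := by
  classical
  set B : ℝ := 2 ^ r * (n + 1) ^ (2 * 2 ^ r) * η
        + 2 ^ (2 * r + 1) * A ^ 2 ^ r * Real.exp (-((1 / (2 * (2 ^ r) ^ 2)) ^ 2 * n / 2)) with hB
  have hB0 : 0 ≤ B := by positivity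
  rw [← fc_sub]
  refine (abs_fc_le _ Ξ).trans ?_
  refine (EC_mono fun X hX => trm_diff_le hρ hσ T S hX).trans ?_
  rw [EC_mul_left, EC_sum]
  have hss : SymW fun x => σ x - flat c σ x := by
    intro p x
    simp only
    rw [hs p x, symW_flat hs c p x]
  have h1 : ∀ R ∈ (T \ S).powerset.erase ∅,
      EC (fun X : Cf n r => ∏ v ∈ R, |σ (row v X) - flat c σ (row v X)|) ≤ B := by
    intro R hR
    rw [mem_erase, mem_powerset] at hR
    exact lemX hr hn hss hη hη1 hE hA hA1 (hR.2.trans (sdiff_subset.trans hT))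
      (nonempty_iff_ne_empty.mpr hR.1)
  have h2 : ∑ R ∈ (T \ S).powerset.erase ∅,
      EC (fun X : Cf n r => ∏ v ∈ R, |σ (row v X) - flat c σ (row v X)|)
      ≤ 2 ^ (T \ S).card * B := by
    refine (sum_le_card_nsmul _ _ _ h1).trans ?_
    rw [nsmul_eq_mul]
    refine mul_le_mul_of_nonneg_right ?_ hB0
    have : ((T \ S).powerset.erase ∅).card ≤ 2 ^ (T \ S).card := by
      rw [← card_powerset]
      exact card_le_card (erase_subset _ _)
    exact_mod_cast this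
  calc 2 ^ S.card * ∑ R ∈ (T \ S).powerset.erase ∅,
      EC (fun X : Cf n r => ∏ v ∈ R, |σ (row v X) - flat c σ (row v X)|)
      ≤ 2 ^ S.card * (2 ^ (T \ S).card * B) := mul_le_mul_of_nonneg_left h2 (by positivity)
    _ = 2 ^ T.card * B := by
        rw [← mul_assoc, ← pow_add]
        congr 2
        rw [card_sdiff_of_subset hS]
        have := card_le_card hS
        omega
    _ ≤ 4 ^ 2 ^ r * B := by
        refine mul_le_mul_of_nonneg_right ?_ hB0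
        calc (2 : ℝ) ^ T.card ≤ 2 ^ 2 ^ r :=
              pow_le_pow_right₀ (by norm_num) ((card_le_card hT).trans card_Pn_le)
          _ ≤ 4 ^ 2 ^ r := pow_le_pow_left₀ (by norm_num) (by norm_num) _

end

end Pool.Agent.Lib.MP_0430e4_lc.Lin
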