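import Pool.Agent.Lib.MP_0430e4_lc.Lin.FBase

set_option autoImplicit false

namespace Pool.Agent.Lib.MP_0430e4_lc.Lin

open Finset

section

variable {n r : ℕ}

theorem EW_add (f g : W n → ℝ) : EW (fun x => f x + g x) = EW f + EW g := by
  unfold EW
  rw [sum_add_distrib, add_div]

theorem EW_sub (f g : W n → ℝ) : EW (fun x => f x - g x) = EW f - EW g := by
  unfold EW
  rw [sum_sub_distrib, sub_div]

theorem EW_mul_left (c : ℝ) (f : W n → ℝ) : EW (fun x => c * f x) = c * EW f := by
  unfold EW
  rw [← mul_sum, mul_div_assoc]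

theorem EW_sum {ι : Type*} (s : Finset ι) (f : ι → W n → ℝ) :
    EW (fun x => ∑ i ∈ s, f i x) = ∑ i ∈ s, EW (f i) := by
  unfold EW
  rw [sum_comm, sum_div]

theorem EW_congr {f g : W n → ℝ} (h : ∀ x ∈ evW n, f x = g x) : EW f = EW g := by
  unfold EW
  rw [sum_congr rfl h]

theorem EW_mono {f g : W n → ℝ} (h : ∀ x ∈ evW n, f x ≤ g x) : EW f ≤ EW g := by
  unfold EW
  exact div_le_div_of_nonneg_right (sum_le_sum h) (by positivity)

theorem EW_nonneg {f : W n → ℝ} (h : ∀ x ∈ evW n, 0 ≤ f x) : 0 ≤ EW f := by
  unfold EW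
  exact div_nonneg (sum_nonneg h) (by positivity)

theorem abs_EW_le (f : W n → ℝ) : |EW f| ≤ EW fun x => |f x| := by
  unfold EW
  rw [abs_div, abs_of_pos (by positivity : (0 : ℝ) < 2 ^ (n - 1))]
  exact div_le_div_of_nonneg_right (abs_sum_le_sum_abs _ _) (by positivity)

theorem abs_al_le (a : W n → ℝ) (w : W n) : |al a w| ≤ EW fun x => |a x| := by
  unfold al
  refine (abs_EW_le _).trans (le_of_eq ?_)
  refine EW_congr fun x _ => ?_
  rw [abs_mul, abs_chw, mul_one]

theorem zero_mem_evW : (0 : W n) ∈ evW n := by
  unfold evW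
  simp

theorem card_evW (hn : 0 < n) : ((evW n).card : ℝ) = 2 ^ (n - 1) := by
  have h := inversionW hn (fun x : W n => if x = 0 then (1 : ℝ) else 0) zero_mem_evW
  -- the coefficients of the point mass are all equal
  have hp := parsevalW hn (fun _ : W n => (1 : ℝ))
  have h1 : ∀ w : W n, al (fun x : W n => if x = 0 then (1 : ℝ) else 0) w = 1 / 2 ^ (n - 1) := by
    intro w
    unfold al EW
    congr 1
    rw [sum_eq_single (0 : W n)]
    · simp [chw, xsg_zero]
    · intro x _ hx
      simp [hx]
    · intro h
      exact absurd zero_mem_evW h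
  have h2 : ∀ x ∈ evW n, ∑ w : W n, chw w x = if x = 0 then 2 ^ n else 0 :=
    fun x _ => sum_chw_left x
  -- count by orthogonality
  have h3 : ∀ x : W n, (if x ∈ evW n then (1 : ℝ) else 0) * 2 = chw 0 x + chw 1 x := by
    intro x
    rw [chw_zero]
    split_ifs with hx
    · rw [chw_one_ev hx]
      norm_num
    · unfold evW at hx
      rw [mem_filter] at hx
      have h4 : chw 1 x = sg (∑ i, x i) := by
        unfold chw
        rw [xsg_sum]
        exact prod_congr rfl fun i _ => by rw [Pi.one_apply, one_mul]
      have h5 : sg (∑ i, x i) = -1 := by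
        unfold sg
        rw [if_neg fun h6 => hx ⟨mem_univ _, h6⟩]
      rw [h4, h5]
      norm_num
  have h4 : ((evW n).card : ℝ) * 2 = 2 ^ n := by
    have e1 : ((evW n).card : ℝ) = ∑ x : W n, if x ∈ evW n then (1 : ℝ) else 0 := by
      rw [Finset.sum_ite_mem, univ_inter]
      simp
    rw [e1, sum_mul, sum_congr rfl fun x _ => h3 x, sum_add_distrib]
    rw [sum_congr rfl fun x _ => chw_comm 0 x, sum_chw_left, if_pos rfl]
    rw [sum_congr rfl fun x _ => chw_comm 1 x, sum_chw_left, if_neg, add_zero]
    intro h6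
    exact one_ne_zero (congrFun h6 ⟨0, hn⟩)
  rw [pow_split_W hn] at h4
  linarith

theorem EW_const (hn : 0 < n) (c : ℝ) : EW (fun _ : W n => c) = c := by
  unfold EW
  rw [sum_const, nsmul_eq_mul, card_evW hn]
  field_simp

/-- Orthogonality for words. -/
theorem EW_chw (hn : 0 < n) (u : W n) :
    EW (fun x => chw u x) = if u = 0 ∨ u = 1 then 1 else 0 := by
  split_ifs with h
  · rcases h with rfl | rfl
    · rw [EW_congr fun x _ => chw_zero x]
      exact EW_const hn 1
    · rw [EW_congr fun x hx => chw_one_ev hx]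
      exact EW_const hn 1
  · push Not at h
    have h3 : ∀ x : W n, (if x ∈ evW n then chw u x else 0) * 2 = chw u x + chw (u + 1) x := by
      intro x
      rw [chw_add]
      split_ifs with hx
      · rw [chw_one_ev hx]
        ring
      · unfold evW at hx
        rw [mem_filter] at hx
        have h4 : chw 1 x = sg (∑ i, x i) := by
          unfold chw
          rw [xsg_sum]
          exact prod_congr rfl fun i _ => by rw [Pi.one_apply, one_mul]
        have h5 : sg (∑ i, x i) = -1 := by
          unfold sg
          rw [if_neg fun h6 => hx ⟨mem_univ _, h6⟩]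
        rw [h4, h5]
        ring
    have h4 : (∑ x ∈ evW n, chw u x) * 2 = 0 := by
      have e1 : ∑ x ∈ evW n, chw u x = ∑ x : W n, if x ∈ evW n then chw u x else 0 := by
        rw [Finset.sum_ite_mem, univ_inter]
      rw [e1, sum_mul, sum_congr rfl fun x _ => h3 x, sum_add_distrib]
      rw [sum_congr rfl fun x _ => chw_comm u x, sum_chw_left, if_neg h.1]
      rw [sum_congr rfl fun x _ => chw_comm (u + 1) x, sum_chw_left, if_neg, add_zero]
      intro h6
      exact h.2 (eq_of_add_U h6)
    unfold EW
    rw [show ∑ x ∈ evW n, chw u x = 0 by linarith, zero_div]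

/-- The coefficients of the low part. -/
theorem al_flat (hn : 0 < n) {c : ℕ} (hc : 2 * c < n) (a : W n → ℝ) (w : W n) :
    al (flat c a) w = if wt w ≤ c ∨ n - c ≤ wt w then al a w else 0 := by
  classical
  have h1 : al (flat c a) w
      = ∑ v ∈ univ.filter (fun v : W n => wt v ≤ c), al a v * if v + w = 0 ∨ v + w = 1 then 1 else 0 := by
    unfold al flat
    have h2 : EW (fun x => (∑ v ∈ univ.filter (fun v : W n => wt v ≤ c), al a v * chw v x)
        * chw w x) = EW (fun x => ∑ v ∈ univ.filter (fun v : W n => wt v ≤ c),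
        al a v * chw (v + w) x) := by
      refine EW_congr fun x _ => ?_
      rw [sum_mul]
      refine sum_congr rfl fun v _ => ?_
      rw [chw_add]
      ring
    rw [h2, EW_sum]
    refine sum_congr rfl fun v _ => ?_
    rw [EW_mul_left, EW_chw hn]
    rfl
  rw [h1]
  have hw := wt_add_one w
  split_ifs with h
  · rcases h with h | h
    · rw [sum_eq_single w]
      · rw [if_pos (Or.inl (add_self_W w)), mul_one]
      · intro v hv hvw
        rw [mem_filter] at hv
        rw [if_neg, mul_zero]
        rintro (h3 | h3)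
        · exact hvw (eq_of_add_U h3)
        · have h4 : v = w + 1 := by
            have := congrArg (· + w) h3
            simp only [add_assoc, add_self_W, add_zero] at this
            rw [this, add_comm]
          rw [h4] at hv
          omega
      · intro h3
        exact absurd (show w ∈ univ.filter fun v : W n => wt v ≤ c from
          mem_filter.mpr ⟨mem_univ w, h⟩) h3
    · rw [sum_eq_single (w + 1)]
      · rw [if_pos, mul_one, al_add_one]
        right
        rw [add_assoc, add_comm 1 w, ← add_assoc, add_self_W, zero_add]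
      · intro v hv hvw
        rw [mem_filter] at hv
        rw [if_neg, mul_zero]
        rintro (h3 | h3)
        · rw [eq_of_add_U h3] at hv
          omega
        · apply hvw
          have := congrArg (· + w) h3
          simp only [add_assoc, add_self_W, add_zero] at this
          rw [this, add_comm]
      · intro h3
        exact absurd (show w + 1 ∈ univ.filter fun v : W n => wt v ≤ c from
          mem_filter.mpr ⟨mem_univ _, by omega⟩) h3
  · push Not at h
    refine sum_eq_zero fun v hv => ?_
    rw [mem_filter] at hv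
    rw [if_neg, mul_zero]
    rintro (h3 | h3)
    · rw [eq_of_add_U h3] at hv
      omega
    · have h4 : v = w + 1 := by
        have := congrArg (· + w) h3
        simp only [add_assoc, add_self_W, add_zero] at this
        rw [this, add_comm]
      rw [h4] at hv
      omega

theorem al_sub (a b : W n → ℝ) (w : W n) : al (fun x => a x - b x) w = al a w - al b w := by
  unfold al
  rw [← EW_sub]
  exact EW_congr fun x _ => by ring

/-- The coefficients of the part of high frequency. -/
theorem al_sharp (hn : 0 < n) {c : ℕ} (hc : 2 * c < n) (a : W n → ℝ) (w : W n) :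
    al (fun x => a x - flat c a x) w = if c < wt w ∧ wt w < n - c then al a w else 0 := by
  rw [al_sub, show al (fun x => flat c a x) w = al (flat c a) w from rfl, al_flat hn hc]
  by_cases h : wt w ≤ c ∨ n - c ≤ wt w
  · rw [if_pos h, if_neg (by omega), sub_self]
  · rw [if_neg h, if_pos (by omega), sub_zero]

/-- The mean square of the part of high frequency. -/
theorem sharp_sq (hn : 0 < n) {c : ℕ} (hc : 2 * c < n) (a b : W n → ℝ) {η : ℝ}
    (h : ∀ w, c < wt w → wt w < n - c → |al a w| ≤ η * |al b w|) :
    EW (fun x => (a x - flat c a x) ^ 2) ≤ η ^ 2 * EW (fun x => b x ^ 2) := by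
  have h1 := parsevalW hn (fun x => a x - flat c a x)
  have h2 := parsevalW hn b
  have h3 : ∑ w : W n, al (fun x => a x - flat c a x) w ^ 2 ≤ η ^ 2 * ∑ w : W n, al b w ^ 2 := by
    rw [mul_sum]
    refine sum_le_sum fun w _ => ?_
    rw [al_sharp hn hc]
    split_ifs with h4
    · have h5 := h w h4.1 h4.2
      rw [← sq_abs, ← sq_abs (al b w), ← mul_pow]
      exact pow_le_pow_left₀ (abs_nonneg _) h5 2
    · rw [zero_pow two_ne_zero]
      positivity
  rw [h1, h2] at h3
  linarith

/-- The low part is symmetric. -/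
theorem symW_flat {a : W n → ℝ} (ha : SymW a) (c : ℕ) : SymW (flat c a) := by
  intro p x
  unfold flat
  refine Finset.sum_nbij' (fun w => w ∘ p.symm) (fun w => w ∘ p) ?_ ?_ ?_ ?_ ?_
  · intro w hw
    rw [mem_filter] at hw ⊢
    refine ⟨mem_univ _, ?_⟩
    have : wt (w ∘ p.symm) = wt w := by
      unfold wt
      refine card_bij (fun i _ => p.symm i) ?_ ?_ ?_
      · intro i hi
        rw [mem_filter] at hi ⊢
        exact ⟨mem_univ _, hi.2⟩
      · intro i _ j _ hij
        exact p.symm.injective hij
      · intro i hi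
        rw [mem_filter] at hi
        exact ⟨p i, mem_filter.mpr ⟨mem_univ _, by simpa using hi.2⟩, by simp⟩
    omega
  · intro w hw
    rw [mem_filter] at hw ⊢
    refine ⟨mem_univ _, ?_⟩
    have : wt (w ∘ p) = wt w := by
      unfold wt
      refine card_bij (fun i _ => p i) ?_ ?_ ?_
      · intro i hi
        rw [mem_filter] at hi ⊢
        exact ⟨mem_univ _, hi.2⟩
      · intro i _ j _ hij
        exact p.injective hij
      · intro i hi
        rw [mem_filter] at hi
        exact ⟨p.symm i, mem_filter.mpr ⟨mem_univ _, by simpa using hi.2⟩, by simp⟩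
    omega
  · intro w _
    funext i
    simp
  · intro w _
    funext i
    simp
  · intro w _
    rw [al_comp ha w p.symm]
    congr 1
    unfold chw
    rw [← Equiv.prod_comp p.symm]
    simp

theorem card_wt_le (c : ℕ) :
    (univ.filter fun w : W n => wt w ≤ c).card = ∑ k ∈ range (c + 1), n.choose k := by
  classical
  have h1 : (univ.filter fun w : W n => wt w ≤ c)
      = (range (c + 1)).biUnion fun k => univ.filter fun w : W n => wt w = k := by
    ext w
    simp only [mem_filter, mem_univ, true_and, mem_biUnion, mem_range]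
    constructor
    · intro h
      exact ⟨wt w, by omega, rfl⟩
    · rintro ⟨k, hk, h⟩
      omega
  rw [h1, card_biUnion]
  · refine sum_congr rfl fun k _ => le_antisymm ?_ (xchoose_le k)
    have h2 : (powersetCard k (univ : Finset (Fin n))).card = n.choose k := by
      rw [card_powersetCard, card_univ, Fintype.card_fin]
    rw [← h2]
    refine card_le_card_of_injOn (fun w => univ.filter fun i => w i ≠ 0) ?_ ?_
    · intro w hw
      rw [mem_coe, mem_filter] at hw
      rw [mem_coe, mem_powersetCard]
      exact ⟨subset_univ _, hw.2⟩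
    · intro w _ v _ h
      funext i
      have h3 : i ∈ (univ.filter fun i => w i ≠ 0) ↔ i ∈ (univ.filter fun i => v i ≠ 0) := by
        rw [show (univ.filter fun i => w i ≠ 0) = univ.filter fun i => v i ≠ 0 from h]
      simp only [mem_filter, mem_univ, true_and] at h3
      have h4 : ∀ a b : ZMod 2, (a ≠ 0 ↔ b ≠ 0) → a = b := by decide
      exact h4 _ _ h3
  · intro i _ j _ hij
    rw [Function.onFun, disjoint_filter]
    intro w _ h2 h3
    exact hij (h2.symm.trans h3)

/-- The sup norm of the low part. -/
theorem abs_flat_le (hn : 0 < n) {c : ℕ} (hc : 2 * c < n) (a : W n → ℝ) {B : ℝ} (hB : 0 ≤ B)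
    (hE : EW (fun x => a x ^ 2) ≤ B ^ 2) (x : W n) :
    |flat c a x| ≤ B * Real.sqrt (∑ k ∈ range (c + 1), (n.choose k : ℝ)) := by
  classical
  set L := univ.filter fun w : W n => wt w ≤ c with hL
  have h1 : |flat c a x| ≤ ∑ w ∈ L, |al a w| := by
    unfold flat
    refine (abs_sum_le_sum_abs _ _).trans (le_of_eq ?_)
    refine sum_congr rfl fun w _ => ?_
    rw [abs_mul, abs_chw, mul_one]
  have h2 : (∑ w ∈ L, |al a w|) ^ 2 ≤ (L.card : ℝ) * ∑ w ∈ L, |al a w| ^ 2 := by
    exact sq_sum_le_card_mul_sum_sq
  have h3 : ∑ w ∈ L, |al a w| ^ 2 ≤ B ^ 2 := by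
    have hP := parsevalW hn a
    have h4 : ∑ w ∈ L, al a w ^ 2 = ∑ w ∈ L, al a (w + 1) ^ 2 :=
      sum_congr rfl fun w _ => by rw [al_add_one]
    have h5 : ∑ w ∈ L, al a (w + 1) ^ 2 = ∑ w ∈ L.image (· + 1), al a w ^ 2 := by
      rw [sum_image]
      intro w _ v _ h
      exact add_right_cancel h
    have hd : Disjoint L (L.image (· + 1)) := by
      rw [disjoint_left]
      intro w h6 h7
      rw [mem_image] at h7
      obtain ⟨v, hv, h8⟩ := h7
      rw [hL, mem_filter] at h6 hv
      have h9 := wt_add_one v
      rw [h8] at h9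
      omega
    have h6 : ∑ w ∈ L, al a w ^ 2 + ∑ w ∈ L.image (· + 1), al a w ^ 2 ≤ ∑ w : W n, al a w ^ 2 := by
      rw [← sum_union hd]
      exact sum_le_sum_of_subset_of_nonneg (subset_univ _) fun v _ _ => sq_nonneg _
    have h7 : ∑ w ∈ L, |al a w| ^ 2 = ∑ w ∈ L, al a w ^ 2 :=
      sum_congr rfl fun w _ => sq_abs _
    rw [h7]
    linarith
  have h4 : (L.card : ℝ) = ∑ k ∈ range (c + 1), (n.choose k : ℝ) := by
    rw [hL, card_wt_le]
    push_cast
    rfl
  refine h1.trans (abs_le_of_sq_le_sq' ?_ (by positivity)).2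
  rw [mul_pow, Real.sq_sqrt (sum_nonneg fun k _ => Nat.cast_nonneg _), ← h4]
  refine h2.trans ?_
  rw [mul_comm]
  exact mul_le_mul_of_nonneg_right h3 (Nat.cast_nonneg _)

end

end Pool.Agent.Lib.MP_0430e4_lc.Lin
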