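import Pool.Agent.Lib.MP_0430e4_lc.Lin.FCoef

set_option autoImplicit false

namespace Pool.Agent.Lib.MP_0430e4_lc.Lin

open Finset

/-- The ratio `(q + m) / q` for the frequencies and the positions that occur. -/
noncomputable def cR (r : ℕ) : ℝ := 112 * r + 17

/-- The constant in the estimate of the second part. -/
noncomputable def cS (r : ℕ) : ℝ :=
  2 * (1 + 2 ^ r * cR r + 3 / 2 * Real.log (cR r) + cR r * (1 + r) / 2)

theorem cR_ge (r : ℕ) : 17 ≤ cR r := by
  unfold cR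
  have : (0 : ℝ) ≤ r := Nat.cast_nonneg _
  linarith

theorem cS_pos (r : ℕ) : 0 < cS r := by
  unfold cS
  have h1 := cR_ge r
  have h2 : 0 ≤ Real.log (cR r) := Real.log_nonneg (by linarith)
  have h3 : (0 : ℝ) < 2 ^ r := by positivity
  positivity

theorem two_pow_le_exp (k : ℕ) : (2 : ℝ) ^ k ≤ Real.exp k := by
  have h1 : (2 : ℝ) ≤ Real.exp 1 := by
    have := Real.add_one_le_exp (1 : ℝ)
    linarith
  calc (2 : ℝ) ^ k ≤ Real.exp 1 ^ k := pow_le_pow_left₀ (by norm_num) h1 k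
    _ = Real.exp k := by rw [← Real.exp_nat_mul, mul_one]

theorem shift_choose_le {n q m : ℕ} (hn : 0 < n) :
    (((q : ℝ) + m) / n) ^ m * n.choose m ≤ Real.exp (m + q) := by
  rcases Nat.eq_zero_or_pos m with rfl | hm
  · simp
  have hm0 : (0 : ℝ) < m := by exact_mod_cast hm
  have hn0 : (0 : ℝ) < n := by exact_mod_cast hn
  have h1 := choose_le_exp n m hm
  calc (((q : ℝ) + m) / n) ^ m * n.choose m
      ≤ (((q : ℝ) + m) / n) ^ m * (Real.exp m * ((n : ℝ) / m) ^ m) := by gcongr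
    _ = Real.exp m * ((((q : ℝ) + m) / n) * ((n : ℝ) / m)) ^ m := by
        rw [mul_pow]
        ring
    _ = Real.exp m * (1 + q / m) ^ m := by
        congr 2
        field_simp
        ring
    _ ≤ Real.exp m * Real.exp (q / m) ^ m := by
        gcongr
        rw [add_comm]
        exact Real.add_one_le_exp _
    _ = Real.exp (m + q) := by
        rw [← Real.exp_nat_mul, ← Real.exp_add]
        congr 1
        field_simp

/-- The estimate of one term of the second part. -/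
theorem term_le (r : ℕ) {n q m t : ℕ} (hn : 0 < n) (hq : 0 < q) (ht : t ≤ 2 ^ r)
    (hm : (q : ℝ) + m ≤ cR r * q) :
    (n.choose q : ℝ) * 2 ^ (t * (q + m))
        * (2 ^ t * Real.sqrt ((((q : ℝ) + m) / n) ^ (3 * q + m)))
        * Real.sqrt (n.choose m * 2 ^ (r * m))
      ≤ 2 ^ 2 ^ r * Real.exp (-(q / 2 * (Real.log (n / q) - cS r))) := by
  have hn0 : (0 : ℝ) < n := by exact_mod_cast hn
  have hq0 : (0 : ℝ) < q := by exact_mod_cast hq
  have hC := cR_ge r
  have hC0 : 0 < cR r := by linarith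
  set L := Real.log (n / q) with hL
  have hL1 : Real.exp L = n / q := Real.exp_log (by positivity)
  have f1 : (n.choose q : ℝ) ≤ Real.exp (q * (1 + L)) := by
    refine (choose_le_exp n q hq).trans (le_of_eq ?_)
    rw [← hL1, ← Real.exp_nat_mul, ← Real.exp_add]
    congr 1
    ring
  have f2 : (2 : ℝ) ^ (t * (q + m)) ≤ Real.exp (2 ^ r * cR r * q) := by
    refine (two_pow_le_exp _).trans (Real.exp_le_exp.mpr ?_)
    push_cast
    have h1 : (t : ℝ) ≤ 2 ^ r := by exact_mod_cast ht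
    calc (t : ℝ) * (q + m) ≤ 2 ^ r * (cR r * q) := by gcongr
      _ = _ := by ring
  have f3 : (2 : ℝ) ^ t ≤ 2 ^ 2 ^ r := pow_le_pow_right₀ (by norm_num) ht
  have g1 : (((q : ℝ) + m) / n) ^ (3 * q) ≤ Real.exp (3 * q * (Real.log (cR r) - L)) := by
    have h1 : ((q : ℝ) + m) / n ≤ Real.exp (Real.log (cR r) - L) := by
      rw [Real.exp_sub, Real.exp_log hC0, hL1, div_div_eq_mul_div]
      gcongr
    calc (((q : ℝ) + m) / n) ^ (3 * q) ≤ Real.exp (Real.log (cR r) - L) ^ (3 * q) :=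
          pow_le_pow_left₀ (by positivity) h1 _
      _ = _ := by
          rw [← Real.exp_nat_mul]
          congr 1
          push_cast
          ring
  have g2 := shift_choose_le (n := n) (q := q) (m := m) hn
  have g3 : (2 : ℝ) ^ (r * m) ≤ Real.exp (r * (cR r * q)) := by
    refine (two_pow_le_exp _).trans (Real.exp_le_exp.mpr ?_)
    push_cast
    have h1 : (m : ℝ) ≤ cR r * q := by linarith
    gcongr
  have f4 : Real.sqrt ((((q : ℝ) + m) / n) ^ (3 * q + m)) * Real.sqrt (n.choose m * 2 ^ (r * m))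
      ≤ Real.exp (q / 2 * (3 * Real.log (cR r) - 3 * L + cR r + r * cR r)) := by
    rw [← Real.sqrt_mul (by positivity)]
    have h1 : (((q : ℝ) + m) / n) ^ (3 * q + m) * (n.choose m * 2 ^ (r * m))
        ≤ Real.exp (q * (3 * Real.log (cR r) - 3 * L + cR r + r * cR r)) := by
      calc (((q : ℝ) + m) / n) ^ (3 * q + m) * (n.choose m * 2 ^ (r * m))
          = (((q : ℝ) + m) / n) ^ (3 * q) * ((((q : ℝ) + m) / n) ^ m * n.choose m)
            * 2 ^ (r * m) := by
            rw [pow_add]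
            ring
        _ ≤ Real.exp (3 * q * (Real.log (cR r) - L)) * Real.exp (m + q)
            * Real.exp (r * (cR r * q)) := by gcongr
        _ = Real.exp (3 * q * (Real.log (cR r) - L) + (m + q) + r * (cR r * q)) := by
            rw [← Real.exp_add, ← Real.exp_add]
        _ ≤ _ := by
            refine Real.exp_le_exp.mpr ?_
            nlinarith
    refine (Real.sqrt_le_sqrt h1).trans (le_of_eq ?_)
    rw [← Real.exp_half]
    congr 1
    ring
  calc (n.choose q : ℝ) * 2 ^ (t * (q + m))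
        * (2 ^ t * Real.sqrt ((((q : ℝ) + m) / n) ^ (3 * q + m)))
        * Real.sqrt (n.choose m * 2 ^ (r * m))
      = (2 : ℝ) ^ t * ((n.choose q : ℝ) * 2 ^ (t * (q + m))
        * (Real.sqrt ((((q : ℝ) + m) / n) ^ (3 * q + m))
          * Real.sqrt (n.choose m * 2 ^ (r * m)))) := by ring
    _ ≤ 2 ^ 2 ^ r * (Real.exp (q * (1 + L)) * Real.exp (2 ^ r * cR r * q)
        * Real.exp (q / 2 * (3 * Real.log (cR r) - 3 * L + cR r + r * cR r))) := by gcongr
    _ = _ := by
        rw [← Real.exp_add, ← Real.exp_add]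
        congr 2
        unfold cS
        ring

/-- The exponent is large in the whole range. -/
theorem expo_ge (r : ℕ) {n q : ℕ} {ε : ℝ} (hn : 0 < n) (hε : 0 < ε)
    (hlog : 2 * cS r ≤ Real.log (1 / ε)) (h1 : ε ^ 2 * n / 16 ≤ q)
    (h2 : (q : ℝ) ≤ Real.exp (-(cS r + 2)) * n) :
    ε ^ 2 * Real.log (1 / ε) * n / 64 ≤ q / 2 * (Real.log (n / q) - cS r) := by
  have hn0 : (0 : ℝ) < n := by exact_mod_cast hn
  have hq0 : (0 : ℝ) < q := lt_of_lt_of_le (by positivity) h1
  have hS := cS_pos r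
  have hlog0 : 0 < Real.log (1 / ε) := by linarith
  rcases le_or_gt (q : ℝ) (ε * n) with h | h
  · have h3 : Real.log (1 / ε) ≤ Real.log (n / q) := by
      refine Real.log_le_log (by positivity) ?_
      rw [div_le_div_iff₀ hε hq0]
      linarith
    have h4 : Real.log (1 / ε) / 2 ≤ Real.log (n / q) - cS r := by linarith
    calc ε ^ 2 * Real.log (1 / ε) * n / 64 = (ε ^ 2 * n / 16) / 2 * (Real.log (1 / ε) / 2) := by ring
      _ ≤ q / 2 * (Real.log (n / q) - cS r) := by gcongr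
  · have h3 : cS r + 2 ≤ Real.log (n / q) := by
      rw [Real.le_log_iff_exp_le (by positivity), le_div_iff₀ hq0]
      calc Real.exp (cS r + 2) * q ≤ Real.exp (cS r + 2) * (Real.exp (-(cS r + 2)) * n) := by gcongr
        _ = n := by rw [← mul_assoc, ← Real.exp_add]; simp
    have h4 : Real.log (1 / ε) ≤ 1 / ε := by
      have := Real.log_le_sub_one_of_pos (show 0 < 1 / ε by positivity)
      linarith
    have h5 : ε ^ 2 * Real.log (1 / ε) * n ≤ ε * n := by
      calc ε ^ 2 * Real.log (1 / ε) * n ≤ ε ^ 2 * (1 / ε) * n := by gcongr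
        _ = ε * n := by field_simp
    have h6 : (q : ℝ) / 2 * 2 ≤ q / 2 * (Real.log (n / q) - cS r) := by
      gcongr
      linarith
    have h7 : 0 ≤ ε ^ 2 * Real.log (1 / ε) * n := by positivity
    linarith

section

variable {n r : ℕ}

/-- The second part is small in mean square. -/
theorem coB_small (hn : 0 < n) {ρ σ : W n → ℝ} (hρs : SymW ρ) (hσs : SymW σ)
    (hρ : EW (fun x => ρ x ^ 2) ≤ 2 ^ 2) (hσ : EW (fun x => σ x ^ 2) ≤ 2 ^ 2)
    {T S : Finset (U r)} (hT : T ⊆ Pn r) (hS : Ind S) (hST : S ⊆ T)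
    {k c N0 : ℕ} (hc : 2 * (2 ^ r * c + k) < n) {ε : ℝ} (hε : 0 < ε)
    (hlog : 2 * cS r ≤ Real.log (1 / ε)) (hN0 : ε ^ 2 * n / 16 ≤ N0 + 1)
    (hk : (k : ℝ) ≤ 7 * r * ε ^ 2 * n + 1) (hn1 : 16 ≤ ε ^ 2 * n)
    (hcc : 2 ^ r * (c : ℝ) ≤ Real.exp (-(cS r + 2)) * n)
    {Ξ : Cf n r} (hΞ : (sup Ξ).card ≤ k) :
    |coB ρ (flat c σ) T S N0 Ξ| * Real.sqrt (n.choose (sup Ξ).card * 2 ^ (r * (sup Ξ).card))
      ≤ 2 ^ 2 ^ r * n * Real.exp (-(ε ^ 2 * Real.log (1 / ε) * n / 64)) := by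
  have hn0 : (0 : ℝ) < n := by exact_mod_cast hn
  set m := (sup Ξ).card with hm
  set G := Real.sqrt ((n.choose m : ℝ) * 2 ^ (r * m)) with hG
  have hb := abs_coB_le (N0 := N0) hn hρs hσs hρ hσ (by norm_num) hT hS hST hc hΞ
  have hterm : ∀ q ∈ Ioc N0 (2 ^ r * c), (n.choose q : ℝ) * 2 ^ (T.card * (q + m))
        * (2 ^ T.card * Real.sqrt (((q + m : ℝ) / n) ^ (3 * q + m))) * G
      ≤ 2 ^ 2 ^ r * Real.exp (-(ε ^ 2 * Real.log (1 / ε) * n / 64)) := by
    intro q hq
    rw [mem_Ioc] at hq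
    have hq0 : 0 < q := by omega
    have hq1 : (N0 : ℝ) + 1 ≤ q := by
      have : N0 + 1 ≤ q := hq.1
      exact_mod_cast this
    have hq2 : ε ^ 2 * n / 16 ≤ q := hN0.trans hq1
    have hq3 : (q : ℝ) ≤ Real.exp (-(cS r + 2)) * n := by
      refine le_trans ?_ hcc
      exact_mod_cast hq.2
    have hm1 : (m : ℝ) ≤ k := by exact_mod_cast hΞ
    have hmq : (q : ℝ) + m ≤ cR r * q := by
      unfold cR
      have h1 : ε ^ 2 * n ≤ 16 * q := by linarith
      have h2 : 7 * (r : ℝ) * ε ^ 2 * (n : ℝ) ≤ 7 * (r : ℝ) * (16 * (q : ℝ)) := by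
        have e : 7 * (r : ℝ) * ε ^ 2 * (n : ℝ) = 7 * (r : ℝ) * (ε ^ 2 * (n : ℝ)) := by ring
        rw [e]
        exact mul_le_mul_of_nonneg_left h1 (by positivity)
      have h3 : (1 : ℝ) ≤ q := by exact_mod_cast hq0
      nlinarith
    refine (term_le r hn hq0 ((card_le_card hT).trans ?_) hmq).trans ?_
    · have h1 : (Pn r).card ≤ (univ : Finset (U r)).card := card_le_card (subset_univ _)
      have h2 : ((univ : Finset (U r)).card : ℝ) = 2 ^ r := by
        rw [card_univ]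
        exact xcard_U
      have h3 : (univ : Finset (U r)).card = 2 ^ r := by exact_mod_cast h2
      omega
    · refine mul_le_mul_of_nonneg_left (Real.exp_le_exp.mpr (neg_le_neg ?_)) (by positivity)
      exact expo_ge r hn hε hlog hq2 hq3
  calc |coB ρ (flat c σ) T S N0 Ξ| * G
      ≤ (∑ q ∈ Ioc N0 (2 ^ r * c), (n.choose q : ℝ) * 2 ^ (T.card * (q + m))
        * (2 ^ T.card * Real.sqrt (((q + m : ℝ) / n) ^ (3 * q + m)))) * G := by
        refine mul_le_mul_of_nonneg_right hb (Real.sqrt_nonneg _)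
    _ = ∑ q ∈ Ioc N0 (2 ^ r * c), (n.choose q : ℝ) * 2 ^ (T.card * (q + m))
        * (2 ^ T.card * Real.sqrt (((q + m : ℝ) / n) ^ (3 * q + m))) * G := sum_mul _ _ _
    _ ≤ ∑ _q ∈ Ioc N0 (2 ^ r * c), 2 ^ 2 ^ r
        * Real.exp (-(ε ^ 2 * Real.log (1 / ε) * n / 64)) := sum_le_sum hterm
    _ = ((Ioc N0 (2 ^ r * c)).card : ℝ) * (2 ^ 2 ^ r
        * Real.exp (-(ε ^ 2 * Real.log (1 / ε) * n / 64))) := by rw [sum_const, nsmul_eq_mul]
    _ ≤ n * (2 ^ 2 ^ r * Real.exp (-(ε ^ 2 * Real.log (1 / ε) * n / 64))) := by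
        refine mul_le_mul_of_nonneg_right ?_ (by positivity)
        rw [Nat.card_Ioc]
        have : 2 ^ r * c - N0 ≤ n := by omega
        exact_mod_cast this
    _ = _ := by ring

end

end Pool.Agent.Lib.MP_0430e4_lc.Lin
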