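import Pool.Agent.Lib.MP_0430e4_lc.Lin.PAR
import Pool.Agent.Lib.MP_0430e4_lc.Lin.FNum

/-!
# NUC: the constant c₀

PROOF. All three conditions hold for all small positive `c₀`: `c₀ (1 + log (1/c₀)) → 0` as `c₀ → 0`.
-/

set_option autoImplicit false

namespace Pool.Agent.Lib.MP_0430e4_lc.Lin

open Finset Filter

theorem num_c (r : ℕ) : ∃ c₀ : ℝ, 0 < c₀ ∧ c₀ < 1 ∧ 2 ^ r * c₀ ≤ Real.exp (-(cS r + 2)) ∧
    2 ^ r * (c₀ / 2 * (1 + Real.log (1 / c₀))) ≤ 1 / (32 * 16 ^ r) ∧ c₀ ≤ 1 / (8 * 2 ^ r) := by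
  have hid : Tendsto (fun c : ℝ => c) (nhdsWithin 0 (Set.Ioi 0)) (nhds 0) :=
    tendsto_id.mono_left nhdsWithin_le_nhds
  have h0 : ∀ᶠ c : ℝ in nhdsWithin 0 (Set.Ioi 0), 0 < c := eventually_mem_nhdsWithin
  have h1 : ∀ᶠ c : ℝ in nhdsWithin 0 (Set.Ioi 0), c < 1 :=
    hid.eventually (gt_mem_nhds (by norm_num))
  have h2 : ∀ᶠ c : ℝ in nhdsWithin 0 (Set.Ioi 0), 2 ^ r * c < Real.exp (-(cS r + 2)) := by
    have : Tendsto (fun c : ℝ => 2 ^ r * c) (nhdsWithin 0 (Set.Ioi 0)) (nhds (2 ^ r * 0)) :=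
      hid.const_mul _
    rw [mul_zero] at this
    exact this.eventually (gt_mem_nhds (Real.exp_pos _))
  have h3 : ∀ᶠ c : ℝ in nhdsWithin 0 (Set.Ioi 0),
      2 ^ r * (c / 2 * (1 + Real.log (1 / c))) < 1 / (32 * 16 ^ r) := by
    have hl : Tendsto (fun c : ℝ => Real.log c * c) (nhdsWithin 0 (Set.Ioi 0)) (nhds 0) := by
      have := tendsto_log_mul_rpow_nhdsGT_zero (r := 1) one_pos
      simpa [Real.rpow_one] using this
    have : Tendsto (fun c : ℝ => 2 ^ r * (c / 2 - Real.log c * c / 2))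
        (nhdsWithin 0 (Set.Ioi 0)) (nhds (2 ^ r * (0 / 2 - 0 / 2))) :=
      ((hid.div_const 2).sub (hl.div_const 2)).const_mul _
    have h4 : (2 : ℝ) ^ r * (0 / 2 - 0 / 2) = 0 := by ring
    rw [h4] at this
    have h5 := this.eventually (gt_mem_nhds (show (0 : ℝ) < 1 / (32 * 16 ^ r) by positivity))
    filter_upwards [h5] with c hc
    have h6 : Real.log (1 / c) = - Real.log c := by rw [one_div, Real.log_inv]
    rw [h6]
    have h7 : (2 : ℝ) ^ r * (c / 2 * (1 + -Real.log c)) =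
        2 ^ r * (c / 2 - Real.log c * c / 2) := by ring
    rw [h7]
    exact hc
  have h4 : ∀ᶠ c : ℝ in nhdsWithin 0 (Set.Ioi 0), c < 1 / (8 * 2 ^ r) :=
    hid.eventually (gt_mem_nhds (by positivity))
  obtain ⟨c, a0, a1, a2, a3, a4⟩ := (h0.and (h1.and (h2.and (h3.and h4)))).exists
  exact ⟨c, a0, a1, a2.le, a3.le, a4.le⟩

end Pool.Agent.Lib.MP_0430e4_lc.Lin
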