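import Pool.Agent.Lib.MP_0430e4_lc.Lin.PAR

/-!
# NUD: the distances, numerics

PROOF. `J Y n ≥ 3` for `n` large gives the first claim (`2 j ≤ 2 J Y n + 2`). Second claim:
`2 (δ' n + 1 + 2 (J Y n + 1)) + ε n / 2 ≤ n` where `δ' = 1/2 - ε + 3 J Y`: it says
`10 J Y n + 6 ≤ (3/2) ε n`, true for `ε` small (`Y / ε → 0`) and `n` large.
-/

set_option autoImplicit false

namespace Pool.Agent.Lib.MP_0430e4_lc.Lin

open Finset Filter

theorem num_d {J : ℝ} (hJ : 0 < J) (r : ℕ) : ∃ ε₀ : ℝ, 0 < ε₀ ∧ ∀ ε : ℝ, 0 < ε → ε < ε₀ →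
    ∀ᶠ n : ℕ in atTop,
      ⌈(1 / 2 - ε) * n⌉₊ + 2 * jj J ε n ≤ ⌈(1 / 2 - ε + 3 * J * Yf ε) * n⌉₊ ∧
      2 * ((⌈(1 / 2 - ε + 3 * J * Yf ε) * n⌉₊ + 2 * jj J ε n : ℕ) : ℝ) +
        2 * 2 ^ r * bb r ε n ≤ n := by
  refine ⟨min (1 / 2) ((1 / (20 * J)) ^ 2), by positivity, fun ε h0 h1 => ?_⟩
  have hε1 : ε < 1 / 2 := lt_of_lt_of_le h1 (min_le_left _ _)
  have hε2 : ε < (1 / (20 * J)) ^ 2 := lt_of_lt_of_le h1 (min_le_right _ _)
  have hlog : 0 < Real.log (1 / ε) := by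
    apply Real.log_pos
    rw [lt_div_iff₀ h0]
    linarith
  have hY : 0 < Yf ε := by
    unfold Yf
    positivity
  have hs0 : 0 < Real.sqrt ε := Real.sqrt_pos.2 h0
  have hss : Real.sqrt ε * Real.sqrt ε = ε := Real.mul_self_sqrt h0.le
  have hs1 : Real.sqrt ε < 1 / (20 * J) := by
    rw [Real.sqrt_lt' (by positivity)]
    exact hε2
  have hl2 : Real.log (1 / ε) ≤ 2 * (1 / Real.sqrt ε) := by
    have h3 : (1 : ℝ) / ε = (1 / Real.sqrt ε) ^ 2 := by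
      rw [div_pow, one_pow, sq, hss]
    rw [h3, Real.log_pow]
    have h4 := Real.log_le_sub_one_of_pos (show 0 < 1 / Real.sqrt ε by positivity)
    have h5 : Real.log (1 / Real.sqrt ε) ≤ 1 / Real.sqrt ε := by linarith
    push_cast
    linarith
  have hYε : 10 * J * Yf ε ≤ ε := by
    unfold Yf
    have h6 : ε * Real.log (1 / ε) ≤ 2 * Real.sqrt ε := by
      calc ε * Real.log (1 / ε) ≤ ε * (2 * (1 / Real.sqrt ε)) :=
            mul_le_mul_of_nonneg_left hl2 h0.le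
        _ = 2 * Real.sqrt ε := by
            nth_rewrite 1 [← hss]
            field_simp
    have h7 : 10 * J * (2 * Real.sqrt ε) ≤ 1 := by
      have : 20 * J * Real.sqrt ε ≤ 20 * J * (1 / (20 * J)) :=
        mul_le_mul_of_nonneg_left hs1.le (by positivity)
      rw [mul_one_div_cancel (by positivity)] at this
      linarith
    have h8 : 10 * J * (ε * Real.log (1 / ε)) ≤ 1 :=
      le_trans (mul_le_mul_of_nonneg_left h6 (by positivity)) h7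
    have h9 := mul_le_mul_of_nonneg_left h8 h0.le
    nlinarith [h9]
  have hev1 : ∀ᶠ n : ℕ in atTop, 3 ≤ J * Yf ε * n := by
    have ht : Tendsto (fun n : ℕ => J * Yf ε * (n : ℝ)) atTop atTop :=
      Tendsto.const_mul_atTop (by positivity) tendsto_natCast_atTop_atTop
    exact ht.eventually_ge_atTop 3
  have hev2 : ∀ᶠ n : ℕ in atTop, 12 ≤ ε * n := by
    have ht : Tendsto (fun n : ℕ => ε * (n : ℝ)) atTop atTop :=
      Tendsto.const_mul_atTop h0 tendsto_natCast_atTop_atTop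
    exact ht.eventually_ge_atTop 12
  filter_upwards [hev1, hev2] with n hn1 hn2
  have hn0 : (0 : ℝ) ≤ n := Nat.cast_nonneg n
  have ha : (0 : ℝ) ≤ (1 / 2 - ε) * n := mul_nonneg (by linarith) hn0
  have hb : (0 : ℝ) ≤ J * Yf ε * n := by positivity
  have hc1 : ((⌈(1 / 2 - ε) * n⌉₊ : ℕ) : ℝ) < (1 / 2 - ε) * n + 1 := Nat.ceil_lt_add_one ha
  have hc2 : ((jj J ε n : ℕ) : ℝ) < J * Yf ε * n + 1 := Nat.ceil_lt_add_one hb
  have hc : (0 : ℝ) ≤ (1 / 2 - ε + 3 * J * Yf ε) * n := by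
    have : (1 / 2 - ε + 3 * J * Yf ε) * n = (1 / 2 - ε) * n + 3 * (J * Yf ε * n) := by ring
    rw [this]
    positivity
  have hc3 : ((⌈(1 / 2 - ε + 3 * J * Yf ε) * n⌉₊ : ℕ) : ℝ) < (1 / 2 - ε + 3 * J * Yf ε) * n + 1 :=
    Nat.ceil_lt_add_one hc
  have hc4 : (1 / 2 - ε + 3 * J * Yf ε) * n ≤ ((⌈(1 / 2 - ε + 3 * J * Yf ε) * n⌉₊ : ℕ) : ℝ) :=
    Nat.le_ceil _
  have hx : (1 / 2 - ε + 3 * J * Yf ε) * n = (1 / 2 - ε) * n + 3 * (J * Yf ε * n) := by ring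
  constructor
  · have h10 : ((⌈(1 / 2 - ε) * n⌉₊ + 2 * jj J ε n : ℕ) : ℝ) ≤
        ((⌈(1 / 2 - ε + 3 * J * Yf ε) * n⌉₊ : ℕ) : ℝ) := by
      push_cast
      linarith
    exact_mod_cast h10
  · have h11 : 2 * 2 ^ r * bb r ε n = ε * n / 2 := by
      unfold bb
      rw [pow_add]
      field_simp
    rw [h11]
    push_cast
    have h12 : 10 * J * Yf ε * n ≤ ε * n := mul_le_mul_of_nonneg_right hYε hn0
    nlinarith [h12, hc2, hc3, hx, hn2]

end Pool.Agent.Lib.MP_0430e4_lc.Lin
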