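import Pool.Agent.Lib.MP_0430e4_lc.Lin.PAR
import Pool.Agent.Lib.MP_0430e4_lc.Lin.NUM

/-!
# NUE: the first sum over tuples

PROOF. `N = NN ε n`, `k = kk r ε n`, `Y = Yf ε`. `sum_choose_le`: the sum of the binomials is at most
`exp (N (1 + log (n/N)))` and `x (1 + log (1/x))` is increasing on `(0, 1)`, so
`N (1 + log (n/N)) ≤ n (ε²/16) (1 + log (16/ε²)) ≤ n (Y/8 + ε²)`. `2^(t (N + k)) ≤ exp (2^r (7 r + 1) ε² n)`
(n large), `2^t ≤ exp (2^r)`. With `ζ = 1 / 2^(r+4)`, `t ζ ≤ 1/16`: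
`exp (-n (1-ζ) R)^t = exp (-n t R + n t ζ R) ≤ exp (-n t R + n R / 16)`. Total exponent
`≤ n (Y/8 + C ε²) + 2^r + n R / 16 - n R ≤ 0` since `R ≥ Y/2`, for `ε` small, then `n` large.
-/

set_option autoImplicit false

namespace Pool.Agent.Lib.MP_0430e4_lc.Lin

open Finset Filter

theorem num_e {r : ℕ} (hr : 1 ≤ r) : ∃ ε₀ : ℝ, 0 < ε₀ ∧ ∀ ε : ℝ, 0 < ε → ε < ε₀ →
    ∀ R : ℝ, Yf ε / 2 ≤ R → ∀ᶠ n : ℕ in atTop, ∀ t, 1 ≤ t → t ≤ 2 ^ r →
      (∑ q ∈ range (NN ε n + 1), (n.choose q : ℝ)) * 2 ^ (t * (NN ε n + kk r ε n)) *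
        (2 * Real.exp (-(n * ((1 - 1 / 2 ^ (r + 4)) * R)))) ^ t * Real.exp (n * R) ^ (t - 1) ≤ 1 := by
  set C : ℝ := 1 + 7 * r * 2 ^ r with hC
  have hr1 : (1 : ℝ) ≤ r := by exact_mod_cast hr
  have h2r : (0 : ℝ) < 2 ^ r := by positivity
  have hCpos : 0 < C := by positivity
  refine ⟨Real.exp (-(4 * (C + 1))), Real.exp_pos _, ?_⟩
  intro ε hε0 hε R hR
  have hlog : 4 * (C + 1) < Real.log (1 / ε) := by
    rw [one_div, Real.log_inv]
    have := Real.log_lt_log hε0 hε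
    rw [Real.log_exp] at this
    linarith
  have hε1 : ε < 1 := hε.trans (Real.exp_lt_one_iff.mpr (by linarith))
  have hY : Yf ε = ε ^ 2 * Real.log (1 / ε) := rfl
  have hε2 : 0 < ε ^ 2 := by positivity
  have hε21 : ε ^ 2 < 1 := by nlinarith
  have hY1 : ε ^ 2 * (4 * (C + 1)) ≤ Yf ε := by
    rw [hY]; exact mul_le_mul_of_nonneg_left hlog.le hε2.le
  have hY0 : 0 ≤ Yf ε := le_trans (by positivity) hY1
  have hR0 : 0 ≤ R := by linarith
  filter_upwards [eventually_ge_atTop (⌈(16 + 2 * 2 ^ r) / ε ^ 2⌉₊)] with n hn t ht1 ht2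
  have hn' : (16 + 2 * 2 ^ r) / ε ^ 2 ≤ (n : ℝ) := (Nat.le_ceil _).trans (by exact_mod_cast hn)
  have hn2 : 16 + 2 * 2 ^ r ≤ ε ^ 2 * n := by
    rw [div_le_iff₀ hε2] at hn'; linarith
  have hn0 : (0 : ℝ) < n := by
    by_contra h
    push Not at h
    nlinarith
  have hNle : (NN ε n : ℝ) ≤ ε ^ 2 * n / 16 := Nat.floor_le (by positivity)
  have hN1 : 1 ≤ NN ε n := by
    apply Nat.le_floor
    push_cast
    nlinarith
  have hN1' : (1 : ℝ) ≤ NN ε n := by exact_mod_cast hN1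
  have hN0 : (0 : ℝ) < NN ε n := by linarith
  have hkle : (kk r ε n : ℝ) ≤ 6 * r * ε ^ 2 * n + 1 := (Nat.ceil_lt_add_one (by positivity)).le
  have h2N : 2 * NN ε n ≤ n := by
    have : (2 : ℝ) * NN ε n ≤ n := by nlinarith
    exact_mod_cast this
  -- the binomials
  set y : ℝ := ε ^ 2 / 16 with hy
  have hy0 : 0 < y := by positivity
  have hlogy : Real.log (1 / y) = Real.log 16 + 2 * Real.log (1 / ε) := by
    have : 1 / y = 16 * (1 / ε) ^ 2 := by rw [hy]; field_simp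
    rw [this, Real.log_mul (by norm_num) (by positivity), Real.log_pow]
    push_cast; ring
  have hlog16 : Real.log 16 ≤ 3 := by
    have : (16 : ℝ) = 2 ^ 4 := by norm_num
    rw [this, Real.log_pow]
    have := Real.log_two_lt_d9
    push_cast
    linarith
  have hlog160 : 0 ≤ Real.log 16 := Real.log_nonneg (by norm_num)
  have hphi : (NN ε n : ℝ) * (1 + Real.log (n / NN ε n)) ≤ n * (ε ^ 2 + Yf ε / 8) := by
    have h1 : Real.log ((n : ℝ) / NN ε n) ≤ Real.log (1 / y) + (y * n / NN ε n - 1) := by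
      have : (n : ℝ) / NN ε n = 1 / y * (y * n / NN ε n) := by field_simp
      rw [this, Real.log_mul (by positivity) (by positivity)]
      have := Real.log_le_sub_one_of_pos (show 0 < y * n / NN ε n by positivity)
      linarith
    have h2 : (NN ε n : ℝ) * (1 + Real.log (n / NN ε n)) ≤
        NN ε n * (1 + (Real.log (1 / y) + (y * n / NN ε n - 1))) := by
      apply mul_le_mul_of_nonneg_left _ hN0.le
      linarith
    have h3 : (NN ε n : ℝ) * (1 + (Real.log (1 / y) + (y * n / NN ε n - 1))) =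
        NN ε n * Real.log (1 / y) + y * n := by
      field_simp
      ring
    have h4 : (NN ε n : ℝ) * Real.log (1 / y) ≤ (y * n) * Real.log (1 / y) := by
      apply mul_le_mul_of_nonneg_right
      · rw [hy]; linarith
      · rw [hlogy]; linarith
    have h5 : (y * n) * Real.log (1 / y) + y * n = n * (ε ^ 2 * (1 + Real.log 16) / 16 + Yf ε / 8) := by
      rw [hlogy, hY, hy]; ring
    have h6 : n * (ε ^ 2 * (1 + Real.log 16) / 16 + Yf ε / 8) ≤ n * (ε ^ 2 + Yf ε / 8) := by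
      apply mul_le_mul_of_nonneg_left _ hn0.le
      nlinarith
    linarith
  have e1 : (∑ q ∈ range (NN ε n + 1), (n.choose q : ℝ)) ≤
      Real.exp (n * (ε ^ 2 + Yf ε / 8)) :=
    (sum_choose_le hN1 h2N).trans (Real.exp_le_exp.mpr hphi)
  have ht1' : (1 : ℝ) ≤ t := by exact_mod_cast ht1
  have ht2' : (t : ℝ) ≤ 2 ^ r := by exact_mod_cast ht2
  have hl2 : Real.log 2 ≤ 1 := by
    have := Real.log_two_lt_d9
    linarith
  have hl20 : 0 ≤ Real.log 2 := Real.log_nonneg (by norm_num)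
  have hpow : ∀ m : ℕ, (2 : ℝ) ^ m ≤ Real.exp m := by
    intro m
    have : (2 : ℝ) ^ m = Real.exp ((m : ℝ) * Real.log 2) := by
      rw [Real.exp_nat_mul, Real.exp_log (by norm_num)]
    rw [this]
    apply Real.exp_le_exp.mpr
    have : (0 : ℝ) ≤ m := Nat.cast_nonneg m
    nlinarith
  have e2 : (2 : ℝ) ^ (t * (NN ε n + kk r ε n)) ≤
      Real.exp (2 ^ r * (7 * r * ε ^ 2 * n) + 2 ^ r) := by
    refine (hpow _).trans (Real.exp_le_exp.mpr ?_)
    push_cast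
    have h1 : (NN ε n : ℝ) + kk r ε n ≤ 7 * r * ε ^ 2 * n + 1 := by
      have : ε ^ 2 * n / 16 ≤ r * ε ^ 2 * n := by
        have h0 : 0 ≤ ε ^ 2 * n := by positivity
        nlinarith
      linarith
    calc (t : ℝ) * ((NN ε n : ℝ) + kk r ε n) ≤ 2 ^ r * (7 * r * ε ^ 2 * n + 1) := by
          apply mul_le_mul ht2' h1 (by positivity) h2r.le
      _ = _ := by ring
  have e3 : (2 * Real.exp (-(n * ((1 - 1 / 2 ^ (r + 4)) * R)))) ^ t ≤
      Real.exp (2 ^ r - t * (n * R) + n * R / 16) := by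
    rw [mul_pow, ← Real.exp_nat_mul]
    have h1 : (2 : ℝ) ^ t ≤ Real.exp (2 ^ r) := (hpow t).trans (Real.exp_le_exp.mpr ht2')
    calc (2 : ℝ) ^ t * Real.exp (t * (-(n * ((1 - 1 / 2 ^ (r + 4)) * R))))
        ≤ Real.exp (2 ^ r) * Real.exp (t * (-(n * ((1 - 1 / 2 ^ (r + 4)) * R)))) := by
          apply mul_le_mul_of_nonneg_right h1 (Real.exp_pos _).le
      _ = Real.exp (2 ^ r - t * (n * R) + (t * (1 / 2 ^ (r + 4))) * (n * R)) := by
          rw [← Real.exp_add]; congr 1; ring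
      _ ≤ _ := by
          apply Real.exp_le_exp.mpr
          have h2 : (t : ℝ) * (1 / 2 ^ (r + 4)) ≤ 1 / 16 := by
            rw [pow_add]
            have : (2 : ℝ) ^ r * (1 / (2 ^ r * 2 ^ 4)) = 1 / 16 := by field_simp; norm_num
            rw [← this]
            apply mul_le_mul_of_nonneg_right ht2' (by positivity)
          have h3 : 0 ≤ n * R := by positivity
          nlinarith
  have e4 : Real.exp (n * R) ^ (t - 1) = Real.exp ((t - 1) * (n * R)) := by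
    rw [← Real.exp_nat_mul, Nat.cast_sub ht1]; push_cast; rfl
  have hfin : (n * (ε ^ 2 + Yf ε / 8)) + (2 ^ r * (7 * r * ε ^ 2 * n) + 2 ^ r) +
      (2 ^ r - t * (n * R) + n * R / 16) + ((t - 1) * (n * R)) ≤ 0 := by
    have h1 : (n * (ε ^ 2 + Yf ε / 8)) + (2 ^ r * (7 * r * ε ^ 2 * n) + 2 ^ r) +
      (2 ^ r - t * (n * R) + n * R / 16) + ((t - 1) * (n * R)) =
      n * (C * ε ^ 2 + Yf ε / 8) + 2 * 2 ^ r - (15 / 16) * (n * R) := by
      rw [hC]; ring
    rw [h1]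
    have h2 : n * (Yf ε / 2) ≤ n * R := mul_le_mul_of_nonneg_left hR hn0.le
    have h3 : C * ε ^ 2 + Yf ε / 8 - 15 / 32 * Yf ε ≤ - ε ^ 2 := by
      nlinarith
    have h4 := mul_le_mul_of_nonneg_left h3 hn0.le
    nlinarith
  calc _ ≤ Real.exp (n * (ε ^ 2 + Yf ε / 8)) * Real.exp (2 ^ r * (7 * r * ε ^ 2 * n) + 2 ^ r) *
        Real.exp (2 ^ r - t * (n * R) + n * R / 16) * Real.exp ((t - 1) * (n * R)) := by
        rw [e4]
        gcongr
    _ = Real.exp ((n * (ε ^ 2 + Yf ε / 8)) + (2 ^ r * (7 * r * ε ^ 2 * n) + 2 ^ r) +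
      (2 ^ r - t * (n * R) + n * R / 16) + ((t - 1) * (n * R))) := by
        rw [← Real.exp_add, ← Real.exp_add, ← Real.exp_add]
    _ ≤ Real.exp 0 := Real.exp_le_exp.mpr hfin
    _ = 1 := Real.exp_zero

end Pool.Agent.Lib.MP_0430e4_lc.Lin
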