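import Pool.Agent.Lib.MP_0430e4_lc.Lin.PAR
import Pool.Agent.Lib.MP_0430e4_lc.Lin.NUM

/-!
# NUF: the error of the replacement of the smooth function by its flat part

PROOF. `c = cc c₀ n ≥ c₀ n / 2` for `n` large, `j = jj (2 r / c₀) ε n ≥ (2 r / c₀) Y n`, so
`η = exp (-(4 j c / n)) ≤ exp (-(4 r Y n))`. `sum_choose_le`: `A ≤ 2 exp ((c/2) (1 + log (n/c)))`, and
`(c/n) (1 + log (n/c)) ≤ c₀ (1 + log (1/c₀))` (`x (1 + log (1/x))` is increasing on `(0,1)`), so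
`A^(2^r) ≤ 2^(2^r) exp (n / (32 * 16^r))`; `(1 / (2 (2^r)^2))^2 / 2 = 1 / (8 * 16^r)`;
`exp (n R)^r ≤ exp (3 r Y n)`, `3 r Y ≤ 1 / (32 * 16^r)` for small `ε`. So the expression is at most
`C (n+1)^(2 * 2^r) exp (-(r Y n)) + C exp (-(n / (16 * 16^r)))`.
-/

set_option autoImplicit false

namespace Pool.Agent.Lib.MP_0430e4_lc.Lin

open Finset Filter

theorem NUF_ev (K : ℕ) (C c : ℝ) (hc : 0 < c) (hC : 0 ≤ C) :
    ∀ᶠ n : ℕ in atTop, C * ((n : ℝ) + 1) ^ K * Real.exp (-(c * n)) ≤ 1 / 2 := by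
  have h := isLittleO_pow_exp_pos_mul_atTop K hc
  have hδ : 0 < 1 / (2 * (C + 1) * Real.exp c) := by positivity
  have h2 := h.bound hδ
  have ht : Tendsto (fun n : ℕ => (n : ℝ) + 1) atTop atTop :=
    tendsto_atTop_add_const_right _ _ tendsto_natCast_atTop_atTop
  have h3 := ht.eventually h2
  filter_upwards [h3] with n hn
  have h4 : ((n : ℝ) + 1) ^ K ≤ 1 / (2 * (C + 1) * Real.exp c) * Real.exp (c * (n + 1)) := by
    have : ‖((n : ℝ) + 1) ^ K‖ = ((n : ℝ) + 1) ^ K := by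
      rw [Real.norm_eq_abs, abs_of_nonneg (by positivity)]
    rw [this, Real.norm_eq_abs, abs_of_pos (Real.exp_pos _)] at hn
    exact hn
  have h5 : Real.exp (c * (n + 1)) * Real.exp (-(c * n)) = Real.exp c := by
    rw [← Real.exp_add]; congr 1; ring
  calc C * ((n : ℝ) + 1) ^ K * Real.exp (-(c * n))
      ≤ C * (1 / (2 * (C + 1) * Real.exp c) * Real.exp (c * (n + 1))) * Real.exp (-(c * n)) := by
        gcongr
    _ = C * (1 / (2 * (C + 1) * Real.exp c)) * (Real.exp (c * (n + 1)) * Real.exp (-(c * n))) := by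
        ring
    _ = C / (2 * (C + 1)) := by
        rw [h5]
        have := Real.exp_pos c
        field_simp
    _ ≤ 1 / 2 := by
        rw [div_le_div_iff₀ (by positivity) (by norm_num)]
        linarith

theorem NUF_Y_le {ε : ℝ} (h0 : 0 < ε) : Yf ε ≤ ε := by
  unfold Yf
  have h1 : Real.log (1 / ε) ≤ 1 / ε := (Real.log_le_sub_one_of_pos (by positivity)).trans (by linarith)
  calc ε ^ 2 * Real.log (1 / ε) ≤ ε ^ 2 * (1 / ε) := by gcongr
    _ = ε := by field_simp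

theorem NUF_Y_pos {ε : ℝ} (h0 : 0 < ε) (h1 : ε < 1) : 0 < Yf ε := by
  unfold Yf
  have : 0 < Real.log (1 / ε) := Real.log_pos (by rw [lt_div_iff₀ h0]; linarith)
  positivity

/-- the function `x (1 + log (1 / x))` is nondecreasing on `(0, 1]` -/
theorem NUF_mono {x y : ℝ} (hx : 0 < x) (hxy : x ≤ y) (hy : y ≤ 1) :
    x * (1 + Real.log (1 / x)) ≤ y * (1 + Real.log (1 / y)) := by
  have hy0 : 0 < y := lt_of_lt_of_le hx hxy
  have h1 : Real.log (1 / x) = Real.log (1 / y) + Real.log (y / x) := by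
    rw [← Real.log_mul (by positivity) (by positivity)]
    congr 1
    field_simp
  have h2 : Real.log (y / x) ≤ y / x - 1 := Real.log_le_sub_one_of_pos (by positivity)
  have h3 : 0 ≤ Real.log (1 / y) := Real.log_nonneg (by rw [le_div_iff₀ hy0]; linarith)
  rw [h1]
  have h4 : x * Real.log (y / x) ≤ y - x := by
    calc x * Real.log (y / x) ≤ x * (y / x - 1) := by gcongr
      _ = y - x := by field_simp
  nlinarith

theorem num_f {r : ℕ} (hr : 1 ≤ r) {c₀ : ℝ} (hc0 : 0 < c₀) (hc2 : c₀ ≤ 1 / (8 * 2 ^ r))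
    (hc : 2 ^ r * (c₀ / 2 * (1 + Real.log (1 / c₀))) ≤ 1 / (32 * 16 ^ r)) :
    ∃ ε₀ : ℝ, 0 < ε₀ ∧ ∀ ε : ℝ, 0 < ε → ε < ε₀ → ∀ R : ℝ, R ≤ 3 * Yf ε → ∀ᶠ n : ℕ in atTop,
      4 ^ 2 ^ r * (2 ^ r * (n + 1) ^ (2 * 2 ^ r) *
        Real.exp (-(4 * jj (2 * r / c₀) ε n * cc c₀ n / n)) +
        2 ^ (2 * r + 1) * (1 + Real.sqrt (∑ q ∈ range (cc c₀ n + 1), (n.choose q : ℝ))) ^ 2 ^ r *
      Real.exp (-((1 / (2 * (2 ^ r) ^ 2)) ^ 2 * n / 2))) * Real.exp (n * R) ^ r ≤ 1 := by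
  have hr0 : (0 : ℝ) < r := by exact_mod_cast hr
  have h2r : (1 : ℝ) ≤ 2 ^ r := one_le_pow₀ (by norm_num)
  have hc1 : c₀ ≤ 1 / 8 := hc2.trans (by
    apply one_div_le_one_div_of_le (by norm_num)
    linarith)
  refine ⟨min 1 (1 / (96 * r * 16 ^ r)), lt_min one_pos (by positivity), ?_⟩
  intro ε he0 he1 R hR
  have hY0 : 0 < Yf ε := NUF_Y_pos he0 (lt_of_lt_of_le he1 (min_le_left _ _))
  have hY1 : 3 * r * Yf ε ≤ 1 / (32 * 16 ^ r) := by
    have h1 : Yf ε ≤ 1 / (96 * r * 16 ^ r) :=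
      (NUF_Y_le he0).trans (he1.le.trans (min_le_right _ _))
    calc 3 * r * Yf ε ≤ 3 * r * (1 / (96 * r * 16 ^ r)) := by gcongr
      _ = 1 / (32 * 16 ^ r) := by field_simp; norm_num
  have hev1 := NUF_ev (2 * 2 ^ r) (4 ^ 2 ^ r * 2 ^ r) (r * Yf ε) (by positivity) (by positivity)
  have hev2 := NUF_ev 0 (4 ^ 2 ^ r * (2 ^ (2 * r + 1) * 2 ^ 2 ^ r)) (1 / (16 * 16 ^ r))
    (by positivity) (by positivity)
  have hev3 : ∀ᶠ n : ℕ in atTop, 2 / c₀ ≤ (n : ℝ) :=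
    tendsto_natCast_atTop_atTop.eventually_ge_atTop _
  filter_upwards [hev1, hev2, hev3] with n h1 h2 h3
  have hn0 : (0 : ℝ) < n := lt_of_lt_of_le (by positivity) h3
  have hcn : 2 ≤ c₀ * n := by
    rw [div_le_iff₀ hc0] at h3; linarith
  have hcc1 : (cc c₀ n : ℝ) ≤ c₀ * n := Nat.floor_le (by positivity)
  have hcc2 : c₀ * n / 2 ≤ (cc c₀ n : ℝ) := by
    have := Nat.lt_floor_add_one (c₀ * n)
    have h5 : c₀ * n < (cc c₀ n : ℝ) + 1 := this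
    linarith
  have hcc3 : (1 : ℝ) ≤ (cc c₀ n : ℝ) := by linarith
  have hcc4 : 1 ≤ cc c₀ n := by exact_mod_cast hcc3
  have hcc5 : 2 * cc c₀ n ≤ n := by
    have : (2 : ℝ) * cc c₀ n ≤ n := by nlinarith
    exact_mod_cast this
  have hj : 2 * r / c₀ * Yf ε * n ≤ (jj (2 * r / c₀) ε n : ℝ) := Nat.le_ceil _
  -- first exponential
  have hE1 : Real.exp (-(4 * jj (2 * r / c₀) ε n * cc c₀ n / n)) ≤ Real.exp (-(4 * r * Yf ε * n)) := by
    apply Real.exp_le_exp.mpr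
    apply neg_le_neg
    rw [le_div_iff₀ hn0]
    calc 4 * r * Yf ε * n * n = 4 * (2 * r / c₀ * Yf ε * n) * (c₀ * n / 2) := by
          field_simp
      _ ≤ 4 * jj (2 * r / c₀) ε n * cc c₀ n := by gcongr
  -- the sum of binomials
  have hg : (cc c₀ n : ℝ) * (1 + Real.log (n / cc c₀ n)) ≤ n * (c₀ * (1 + Real.log (1 / c₀))) := by
    have h5 := NUF_mono (x := cc c₀ n / n) (y := c₀) (by positivity)
      (by rw [div_le_iff₀ hn0]; exact hcc1) (by linarith)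
    have h6 : (1 : ℝ) / (cc c₀ n / n) = n / cc c₀ n := by
      rw [one_div_div]
    rw [h6] at h5
    calc (cc c₀ n : ℝ) * (1 + Real.log (n / cc c₀ n))
        = n * (cc c₀ n / n * (1 + Real.log (n / cc c₀ n))) := by field_simp
      _ ≤ n * (c₀ * (1 + Real.log (1 / c₀))) := by gcongr
  have hS : Real.sqrt (∑ q ∈ range (cc c₀ n + 1), (n.choose q : ℝ)) ≤
      Real.exp (n * (c₀ / 2 * (1 + Real.log (1 / c₀)))) := by
    rw [Real.sqrt_le_left (Real.exp_pos _).le]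
    refine (sum_choose_le hcc4 hcc5).trans ?_
    rw [← Real.exp_nat_mul]
    apply Real.exp_le_exp.mpr
    refine hg.trans (le_of_eq ?_)
    push_cast; ring
  have hlog : 0 ≤ Real.log (1 / c₀) := Real.log_nonneg (by
    rw [le_div_iff₀ hc0]; linarith)
  have hA : (1 + Real.sqrt (∑ q ∈ range (cc c₀ n + 1), (n.choose q : ℝ))) ^ 2 ^ r ≤
      2 ^ 2 ^ r * Real.exp (n / (32 * 16 ^ r)) := by
    have h7 : (1 : ℝ) ≤ Real.exp (n * (c₀ / 2 * (1 + Real.log (1 / c₀)))) :=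
      Real.one_le_exp (by positivity)
    calc (1 + Real.sqrt (∑ q ∈ range (cc c₀ n + 1), (n.choose q : ℝ))) ^ 2 ^ r
        ≤ (2 * Real.exp (n * (c₀ / 2 * (1 + Real.log (1 / c₀))))) ^ 2 ^ r := by
          gcongr
          linarith
      _ = 2 ^ 2 ^ r * Real.exp (n * (2 ^ r * (c₀ / 2 * (1 + Real.log (1 / c₀))))) := by
          rw [mul_pow, ← Real.exp_nat_mul]
          congr 2
          push_cast; ring
      _ ≤ 2 ^ 2 ^ r * Real.exp (n * (1 / (32 * 16 ^ r))) := by gcongr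
      _ = 2 ^ 2 ^ r * Real.exp (n / (32 * 16 ^ r)) := by
          congr 2; ring
  have hE2 : Real.exp (-((1 / (2 * (2 ^ r) ^ 2)) ^ 2 * n / 2)) = Real.exp (-(n / (8 * 16 ^ r))) := by
    congr 2
    have : ((16 : ℝ)) ^ r = ((2 : ℝ) ^ r) ^ 4 := by
      rw [← pow_mul, mul_comm, pow_mul]; norm_num
    rw [this]
    field_simp
    norm_num
  have hE3 : Real.exp (n * R) ^ r ≤ Real.exp (3 * r * Yf ε * n) := by
    rw [← Real.exp_nat_mul]
    apply Real.exp_le_exp.mpr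
    calc (r : ℝ) * (n * R) ≤ r * (n * (3 * Yf ε)) := by gcongr
      _ = 3 * r * Yf ε * n := by ring
  rw [hE2]
  have hP1 : 4 ^ 2 ^ r * (2 ^ r * ((n : ℝ) + 1) ^ (2 * 2 ^ r) * Real.exp (-(4 * r * Yf ε * n))) *
      Real.exp (3 * r * Yf ε * n) ≤ 1 / 2 := by
    refine le_trans (le_of_eq ?_) h1
    have : Real.exp (-(4 * r * Yf ε * n)) * Real.exp (3 * r * Yf ε * n) =
        Real.exp (-(r * Yf ε * n)) := by
      rw [← Real.exp_add]; congr 1; ring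
    rw [← this]; ring
  have hP2 : 4 ^ 2 ^ r * (2 ^ (2 * r + 1) * (2 ^ 2 ^ r * Real.exp (n / (32 * 16 ^ r))) *
      Real.exp (-(n / (8 * 16 ^ r)))) * Real.exp (3 * r * Yf ε * n) ≤ 1 / 2 := by
    refine le_trans ?_ h2
    have h8 : Real.exp (3 * r * Yf ε * n) ≤ Real.exp (n / (32 * 16 ^ r)) := by
      apply Real.exp_le_exp.mpr
      calc 3 * r * Yf ε * n ≤ 1 / (32 * 16 ^ r) * n := by gcongr
        _ = n / (32 * 16 ^ r) := by ring
    calc 4 ^ 2 ^ r * (2 ^ (2 * r + 1) * (2 ^ 2 ^ r * Real.exp (n / (32 * 16 ^ r))) *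
          Real.exp (-(n / (8 * 16 ^ r)))) * Real.exp (3 * r * Yf ε * n)
        ≤ 4 ^ 2 ^ r * (2 ^ (2 * r + 1) * (2 ^ 2 ^ r * Real.exp (n / (32 * 16 ^ r))) *
          Real.exp (-(n / (8 * 16 ^ r)))) * Real.exp (n / (32 * 16 ^ r)) := by gcongr
      _ = 4 ^ 2 ^ r * (2 ^ (2 * r + 1) * 2 ^ 2 ^ r) * (((n : ℝ) + 1) ^ 0) *
          (Real.exp (n / (32 * 16 ^ r)) * Real.exp (-(n / (8 * 16 ^ r))) *
            Real.exp (n / (32 * 16 ^ r))) := by ring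
      _ = 4 ^ 2 ^ r * (2 ^ (2 * r + 1) * 2 ^ 2 ^ r) * (((n : ℝ) + 1) ^ 0) *
          Real.exp (-(1 / (16 * 16 ^ r) * n)) := by
          congr 1
          rw [← Real.exp_add, ← Real.exp_add]
          congr 1
          field_simp
          ring
  calc 4 ^ 2 ^ r * (2 ^ r * ((n : ℝ) + 1) ^ (2 * 2 ^ r) *
        Real.exp (-(4 * jj (2 * r / c₀) ε n * cc c₀ n / n)) +
        2 ^ (2 * r + 1) * (1 + Real.sqrt (∑ q ∈ range (cc c₀ n + 1), (n.choose q : ℝ))) ^ 2 ^ r *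
      Real.exp (-(n / (8 * 16 ^ r)))) * Real.exp (n * R) ^ r
      ≤ 4 ^ 2 ^ r * (2 ^ r * ((n : ℝ) + 1) ^ (2 * 2 ^ r) *
        Real.exp (-(4 * r * Yf ε * n)) +
        2 ^ (2 * r + 1) * (2 ^ 2 ^ r * Real.exp (n / (32 * 16 ^ r))) *
      Real.exp (-(n / (8 * 16 ^ r)))) * Real.exp (3 * r * Yf ε * n) := by gcongr
    _ = 4 ^ 2 ^ r * (2 ^ r * ((n : ℝ) + 1) ^ (2 * 2 ^ r) * Real.exp (-(4 * r * Yf ε * n))) *
          Real.exp (3 * r * Yf ε * n) +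
        4 ^ 2 ^ r * (2 ^ (2 * r + 1) * (2 ^ 2 ^ r * Real.exp (n / (32 * 16 ^ r))) *
          Real.exp (-(n / (8 * 16 ^ r)))) * Real.exp (3 * r * Yf ε * n) := by ring
    _ ≤ 1 := by linarith

end Pool.Agent.Lib.MP_0430e4_lc.Lin
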