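import Pool.Agent.Lib.MP_0430e4_lc.Lin.PAR
import Pool.Agent.Lib.MP_0430e4_lc.Lin.NUM

/-!
# NUG: high frequencies, numerics

PROOF. `choose_ge_pow`: `exp (a log (n/a)) ≤ binom (n, a)`. `a = k + 1`, `k = kk r ε n`:
`a ≥ 6 r ε² n`, `a ≤ 7 r ε² n` for `n` large, `log (n/a) ≥ log (1 / (7 r ε²)) ≥ log (1/ε)` for small `ε`;
so `a log (n/a) ≥ 6 r Y n ≥ 2 r R n`. `a = n / 2^r` (natural division): `a ≥ n / 2^(r+1)` for `n` large,
`log (n/a) ≥ r log 2`, and `6 Y ≤ log 2 / 2^(r+1)` for small `ε`.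
-/

set_option autoImplicit false

namespace Pool.Agent.Lib.MP_0430e4_lc.Lin

open Finset Filter

theorem num_g {r : ℕ} (hr : 1 ≤ r) {c₀ : ℝ} (hc0 : 0 < c₀) (hc2 : c₀ ≤ 1 / (8 * 2 ^ r)) :
    ∃ ε₀ : ℝ, 0 < ε₀ ∧ ∀ ε : ℝ, 0 < ε → ε < ε₀ → ∀ R : ℝ, R ≤ 3 * Yf ε → ∀ᶠ n : ℕ in atTop,
      Real.exp (n * R) ^ (2 * r) ≤ (n.choose (n / 2 ^ r) : ℝ) ∧
      Real.exp (n * R) ^ (2 * r) ≤ (n.choose (kk r ε n + 1) : ℝ) ∧ 2 * (kk r ε n + 1) ≤ n ∧
      2 * (2 ^ r * cc c₀ n + kk r ε n) < n := by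
  have hr1 : (1 : ℝ) ≤ r := by exact_mod_cast hr
  have hr0 : (0 : ℝ) < r := by linarith
  have h2r : (0 : ℝ) < 2 ^ r := by positivity
  have hl2 : 0 < Real.log 2 := Real.log_pos (by norm_num)
  refine ⟨min (1 / (7 * r)) (min (1 / 4) (Real.log 2 / (12 * 2 ^ r))), by positivity, ?_⟩
  intro ε hε hε0 R hR
  have he1 : ε < 1 / (7 * r) := lt_of_lt_of_le hε0 (min_le_left _ _)
  have he2 : ε < 1 / 4 := lt_of_lt_of_le hε0 ((min_le_right _ _).trans (min_le_left _ _))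
  have he3 : ε < Real.log 2 / (12 * 2 ^ r) :=
    lt_of_lt_of_le hε0 ((min_le_right _ _).trans (min_le_right _ _))
  have h7 : 7 * r * ε ≤ 1 := by
    rw [lt_div_iff₀ (by positivity)] at he1
    nlinarith
  have h7' : 7 * r * ε ^ 2 ≤ ε := by nlinarith
  have hlog : 0 < Real.log (1 / ε) := Real.log_pos (by rw [lt_div_iff₀ hε]; linarith)
  have hY0 : 0 < Yf ε := by unfold Yf; positivity
  have hYε : Yf ε ≤ ε := by
    unfold Yf
    have h1 : Real.log (1 / ε) ≤ 1 / ε := (Real.log_le_sub_one_of_pos (by positivity)).trans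
      (by linarith)
    calc ε ^ 2 * Real.log (1 / ε) ≤ ε ^ 2 * (1 / ε) := by gcongr
      _ = ε := by field_simp
  have hrε : 0 < (r : ℝ) * ε ^ 2 := by positivity
  -- `n` large
  have hev1 : ∀ᶠ n : ℕ in atTop, (2 : ℝ) ^ (r + 1) + 100 + 2 / (r * ε ^ 2) ≤ n :=
    tendsto_natCast_atTop_atTop.eventually_ge_atTop _
  filter_upwards [hev1] with n hn
  have hn1 : (2 : ℝ) ^ (r + 1) ≤ n := by
    have : 0 ≤ 2 / (r * ε ^ 2) := by positivity
    linarith
  have hn2 : (100 : ℝ) ≤ n := by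
    have : 0 ≤ 2 / (r * ε ^ 2) := by positivity
    have : (0 : ℝ) ≤ 2 ^ (r + 1) := by positivity
    linarith
  have hn3 : 2 ≤ r * ε ^ 2 * n := by
    have h1 : 2 / (r * ε ^ 2) ≤ n := by
      have : (0 : ℝ) ≤ 2 ^ (r + 1) := by positivity
      linarith
    rw [div_le_iff₀ hrε] at h1
    linarith
  have hn0 : (0 : ℝ) < n := by linarith
  -- the exponent
  have hexp : Real.exp (n * R) ^ (2 * r) ≤ Real.exp (6 * r * Yf ε * n) := by
    rw [← Real.exp_nat_mul]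
    apply Real.exp_le_exp.mpr
    push_cast
    have : (n : ℝ) * R ≤ n * (3 * Yf ε) := by gcongr
    nlinarith
  have hk1 : 6 * r * ε ^ 2 * n ≤ kk r ε n := Nat.le_ceil _
  have hk2 : (kk r ε n : ℝ) < 6 * r * ε ^ 2 * n + 1 := Nat.ceil_lt_add_one (by positivity)
  have h12 : 12 * r * ε ^ 2 ≤ 1 / 2 := by nlinarith
  have h12n : 12 * r * ε ^ 2 * n ≤ 1 / 2 * n := by gcongr
  have hkn : 2 * (kk r ε n + 1) ≤ n := by
    have : (2 : ℝ) * ((kk r ε n : ℝ) + 1) ≤ n := by linarith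
    exact_mod_cast this
  refine ⟨?_, ?_, hkn, ?_⟩
  · -- a = n / 2 ^ r
    have hmod := Nat.div_add_mod n (2 ^ r)
    have hlt := Nat.mod_lt n (show 0 < 2 ^ r by positivity)
    set a := n / 2 ^ r with ha
    have hN : (2 : ℝ) ^ r * a + ((n % 2 ^ r : ℕ) : ℝ) = n := by exact_mod_cast hmod
    have hN2 : ((n % 2 ^ r : ℕ) : ℝ) < 2 ^ r := by exact_mod_cast hlt
    have hN3 : (0 : ℝ) ≤ ((n % 2 ^ r : ℕ) : ℝ) := by positivity
    have hpow : (2 : ℝ) ^ (r + 1) = 2 * 2 ^ r := by ring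
    rw [hpow] at hn1
    have ha1 : (n : ℝ) / (2 * 2 ^ r) ≤ a := by
      rw [div_le_iff₀ (by positivity)]
      nlinarith
    have ha2 : (2 : ℝ) ^ r * a ≤ n := by linarith
    have ha0 : (0 : ℝ) < a := lt_of_lt_of_le (by positivity) ha1
    have ha1' : 1 ≤ a := by exact_mod_cast ha0
    have hlog2 : r * Real.log 2 ≤ Real.log (n / a) := by
      rw [← Real.log_pow]
      apply Real.log_le_log h2r
      rw [le_div_iff₀ ha0]
      exact ha2
    refine hexp.trans (le_trans ?_ (choose_ge_pow ha1' (Nat.div_le_self _ _)))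
    apply Real.exp_le_exp.mpr
    calc 6 * r * Yf ε * n ≤ 6 * r * (Real.log 2 / (12 * 2 ^ r)) * n := by
          gcongr
          exact hYε.trans he3.le
      _ = (n : ℝ) / (2 * 2 ^ r) * (r * Real.log 2) := by
          field_simp
          ring
      _ ≤ a * Real.log (n / a) := by gcongr
  · -- a = k + 1
    have ha0 : (0 : ℝ) < ((kk r ε n + 1 : ℕ) : ℝ) := by positivity
    have ha1 : ((kk r ε n + 1 : ℕ) : ℝ) ≤ 7 * r * ε ^ 2 * n := by
      push_cast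
      nlinarith
    refine hexp.trans (le_trans ?_ (choose_ge_pow (by omega) (by omega)))
    apply Real.exp_le_exp.mpr
    have hlog2 : Real.log (1 / ε) ≤ Real.log (n / ((kk r ε n + 1 : ℕ) : ℝ)) := by
      apply Real.log_le_log (by positivity)
      rw [div_le_div_iff₀ hε ha0]
      calc 1 * ((kk r ε n + 1 : ℕ) : ℝ) ≤ 7 * r * ε ^ 2 * n := by rw [one_mul]; exact ha1
        _ ≤ ε * n := by gcongr
        _ = n * ε := mul_comm _ _
    calc 6 * r * Yf ε * n = (6 * r * ε ^ 2 * n) * Real.log (1 / ε) := by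
          unfold Yf; ring
      _ ≤ ((kk r ε n + 1 : ℕ) : ℝ) * Real.log (n / ((kk r ε n + 1 : ℕ) : ℝ)) := by
          gcongr
          push_cast
          linarith
  · have hc1 : (cc c₀ n : ℝ) ≤ c₀ * n := Nat.floor_le (by positivity)
    have hc3 : (2 : ℝ) ^ r * cc c₀ n ≤ n / 8 := by
      calc (2 : ℝ) ^ r * cc c₀ n ≤ 2 ^ r * (c₀ * n) := by gcongr
        _ ≤ 2 ^ r * (1 / (8 * 2 ^ r) * n) := by gcongr
        _ = n / 8 := by field_simp
    have : (2 : ℝ) * (2 ^ r * (cc c₀ n : ℝ) + kk r ε n) < n := by linarith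
    exact_mod_cast this

end Pool.Agent.Lib.MP_0430e4_lc.Lin
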