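import Pool.Agent.Lib.MP_0430e4_lc.Lin.PAR

/-!
# NUH: the size of the correction, numerics

PROOF. `k = kk r ε n`, `b = bb r ε n = ε n / 2^(r+2)`, `h = hs r ε n`, `a = aa r ε n`.
`6 r ε² n ≤ k ≤ 7 r ε² n` for `n` large; `b ≥ 4 k` for small `ε`, so `h ≥ b / (8 k)`, `h ≥ 1`;
`n/2^r - b ≤ 2 a ≤ n/2^r - b + 2` and `2 k h ≤ b / 2`, so `2 (a + k h) ≤ n/2^r` if `b ≥ 4`.
`e b / (h k) ≤ 8 e`, `(8 e)^(2 k 2^r) ≤ exp (8 * 2^r k)` (`1 + log 8 ≤ 4`),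
`(2 k / b * 2^r)^2 n / 8 ≤ 392 r² 16^r ε² n`, so `Lmx² ≤ 2^(r+1) exp (C ε² n)`;
`1 / pmx = (n+1)^(2^r) exp (8^r b² / n) = (n+1)^(2^r) exp (2^r ε² n / 16)`. So the expression is at most
`poly (n) exp (C' ε² n - Y n / 64)`, `Y = ε² log (1/ε)`, `C'` depends on `r` only.
-/

set_option autoImplicit false

namespace Pool.Agent.Lib.MP_0430e4_lc.Lin

open Finset Filter

theorem NUH_ev (K : ℕ) (C c : ℝ) (hc : 0 < c) (hC : 0 ≤ C) :
    ∀ᶠ n : ℕ in atTop, C * ((n : ℝ) + 1) ^ K * Real.exp (-(c * n)) ≤ 1 / 4 := by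
  have h := isLittleO_pow_exp_pos_mul_atTop K hc
  have hδ : 0 < 1 / (4 * (C + 1) * Real.exp c) := by positivity
  have h2 := h.bound hδ
  have ht : Tendsto (fun n : ℕ => (n : ℝ) + 1) atTop atTop :=
    tendsto_atTop_add_const_right _ _ tendsto_natCast_atTop_atTop
  have h3 := ht.eventually h2
  filter_upwards [h3] with n hn
  have h4 : ((n : ℝ) + 1) ^ K ≤ 1 / (4 * (C + 1) * Real.exp c) * Real.exp (c * (n + 1)) := by
    have : ‖((n : ℝ) + 1) ^ K‖ = ((n : ℝ) + 1) ^ K := by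
      rw [Real.norm_eq_abs, abs_of_nonneg (by positivity)]
    rw [this, Real.norm_eq_abs, abs_of_pos (Real.exp_pos _)] at hn
    exact hn
  have h5 : Real.exp (c * (n + 1)) * Real.exp (-(c * n)) = Real.exp c := by
    rw [← Real.exp_add]; congr 1; ring
  calc C * ((n : ℝ) + 1) ^ K * Real.exp (-(c * n))
      ≤ C * (1 / (4 * (C + 1) * Real.exp c) * Real.exp (c * (n + 1))) * Real.exp (-(c * n)) := by
        gcongr
    _ = C * (1 / (4 * (C + 1) * Real.exp c)) * (Real.exp (c * (n + 1)) * Real.exp (-(c * n))) := by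
        ring
    _ = C / (4 * (C + 1)) := by
        rw [h5]
        have := Real.exp_pos c
        field_simp
    _ ≤ 1 / 4 := by
        rw [div_le_div_iff₀ (by positivity) (by norm_num)]
        linarith

theorem NUH_exp4 : 8 * Real.exp 1 ≤ Real.exp 4 := by
  have h1 : Real.exp 4 = Real.exp 1 ^ 3 * Real.exp 1 := by
    rw [← pow_succ, ← Real.exp_nat_mul]; norm_num
  have h2 := Real.exp_one_gt_d9
  have h3 : (8 : ℝ) ≤ Real.exp 1 ^ 3 := by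
    calc (8 : ℝ) = 2 ^ 3 := by norm_num
      _ ≤ Real.exp 1 ^ 3 := by gcongr; linarith
  rw [h1]
  gcongr

/-- the parameters for `n` large -/
theorem NUH_par {r : ℕ} (hr : 1 ≤ r) {ε : ℝ} (he0 : 0 < ε) (he1 : ε ≤ 1 / (224 * r * 2 ^ r))
    {n : ℕ} (hn1 : 1 ≤ r * ε ^ 2 * n) (hn2 : 4 ≤ bb r ε n) :
    (0 : ℝ) < n ∧ 1 ≤ kk r ε n ∧ (kk r ε n : ℝ) ≤ 7 * r * ε ^ 2 * n ∧ (kk r ε n : ℝ) ≤ n ∧
      1 ≤ hs r ε n ∧ bb r ε n / 8 ≤ (hs r ε n : ℝ) * kk r ε n ∧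
      (hs r ε n : ℝ) * kk r ε n ≤ bb r ε n / 4 := by
  have hr0 : (1 : ℝ) ≤ r := by exact_mod_cast hr
  have hn0 : (0 : ℝ) < n := by
    by_contra h
    have : (n : ℝ) = 0 := le_antisymm (not_lt.mp h) (Nat.cast_nonneg _)
    rw [this] at hn1
    linarith
  have h2r : (1 : ℝ) ≤ 2 ^ r := one_le_pow₀ (by norm_num)
  have hk1 : 6 * r * ε ^ 2 * n ≤ (kk r ε n : ℝ) := Nat.le_ceil _
  have hk2 : (kk r ε n : ℝ) ≤ 7 * r * ε ^ 2 * n := by
    have := (Nat.ceil_lt_add_one (by positivity : (0 : ℝ) ≤ 6 * r * ε ^ 2 * n)).le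
    have h : (kk r ε n : ℝ) ≤ 6 * r * ε ^ 2 * n + 1 := this
    linarith
  have hk0 : (1 : ℝ) ≤ (kk r ε n : ℝ) := by linarith
  have hre : 224 * r * 2 ^ r * ε ≤ 1 := by
    rw [le_div_iff₀ (by positivity)] at he1
    linarith
  have hre2 : 224 * r * ε ≤ 1 := by
    have : 224 * r * ε * 1 ≤ 224 * r * ε * 2 ^ r := by gcongr
    nlinarith
  have he2 : ε ≤ 1 := by nlinarith
  have hkn : (kk r ε n : ℝ) ≤ n := by
    have : 7 * r * ε ^ 2 ≤ 1 := by nlinarith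
    calc (kk r ε n : ℝ) ≤ 7 * r * ε ^ 2 * n := hk2
      _ ≤ 1 * n := by gcongr
      _ = n := one_mul _
  have hX : 2 ≤ bb r ε n / (4 * kk r ε n) := by
    rw [le_div_iff₀ (by positivity)]
    have h1 : 56 * r * ε ^ 2 * n ≤ bb r ε n := by
      unfold bb
      rw [le_div_iff₀ (by positivity), pow_add]
      have : 56 * r * ε ^ 2 * n * (2 ^ r * 2 ^ 2) = (224 * r * 2 ^ r * ε) * (ε * n) := by ring
      rw [this]
      have h3 : 0 ≤ ε * n := by positivity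
      nlinarith
    linarith
  have hf1 : (hs r ε n : ℝ) ≤ bb r ε n / (4 * kk r ε n) := Nat.floor_le (by positivity)
  have hf2 : bb r ε n / (4 * kk r ε n) < (hs r ε n : ℝ) + 1 := Nat.lt_floor_add_one _
  have hf3 : bb r ε n / (4 * kk r ε n) / 2 ≤ (hs r ε n : ℝ) := by linarith
  have hh1 : (1 : ℝ) ≤ hs r ε n := by linarith
  refine ⟨hn0, by exact_mod_cast hk0, hk2, hkn, by exact_mod_cast hh1, ?_, ?_⟩
  · calc bb r ε n / 8 = bb r ε n / (4 * kk r ε n) / 2 * kk r ε n := by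
          field_simp; norm_num
      _ ≤ (hs r ε n : ℝ) * kk r ε n := by gcongr
  · calc (hs r ε n : ℝ) * kk r ε n ≤ bb r ε n / (4 * kk r ε n) * kk r ε n := by gcongr
      _ = bb r ε n / 4 := by field_simp

theorem NUH_Lmx {r : ℕ} (hr : 1 ≤ r) {ε : ℝ} (he0 : 0 < ε) (he1 : ε ≤ 1 / (224 * r * 2 ^ r))
    {n : ℕ} (hn1 : 1 ≤ r * ε ^ 2 * n) (hn2 : 4 ≤ bb r ε n) :
    Lmx r n (kk r ε n) (hs r ε n) (bb r ε n) ≤
      2 ^ (r + 1) * Real.exp ((56 * r * 2 ^ r + 392 * r ^ 2 * 16 ^ r) * ε ^ 2 * n / 2) := by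
  obtain ⟨hn0, hk1, hk2, hkn, hh1, hb1, hb2⟩ := NUH_par hr he0 he1 hn1 hn2
  have hr0 : (1 : ℝ) ≤ r := by exact_mod_cast hr
  have hk0 : (0 : ℝ) < kk r ε n := by exact_mod_cast hk1
  have hb0 : (0 : ℝ) < bb r ε n := by linarith
  unfold Lmx
  have hq : Real.exp 1 * bb r ε n / ((hs r ε n : ℝ) * kk r ε n) ≤ Real.exp 4 := by
    rw [div_le_iff₀ (by linarith)]
    have := NUH_exp4
    have h1 := Real.exp_pos 1
    calc Real.exp 1 * bb r ε n = 8 * Real.exp 1 * (bb r ε n / 8) := by ring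
      _ ≤ Real.exp 4 * ((hs r ε n : ℝ) * kk r ε n) := by gcongr
  have hA : (Real.exp 1 * bb r ε n / ((hs r ε n : ℝ) * kk r ε n)) ^ (2 * kk r ε n * (2 ^ r - 1)) ≤
      Real.exp (56 * r * 2 ^ r * ε ^ 2 * n) := by
    calc (Real.exp 1 * bb r ε n / ((hs r ε n : ℝ) * kk r ε n)) ^ (2 * kk r ε n * (2 ^ r - 1))
        ≤ (Real.exp 4) ^ (2 * kk r ε n * (2 ^ r - 1)) := by
          gcongr
      _ ≤ (Real.exp 4) ^ (2 * kk r ε n * 2 ^ r) := by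
          apply pow_le_pow_right₀ (Real.one_le_exp (by norm_num))
          exact Nat.mul_le_mul_left _ (Nat.sub_le _ _)
      _ = Real.exp (8 * 2 ^ r * kk r ε n) := by
          rw [← Real.exp_nat_mul]
          congr 1
          push_cast; ring
      _ ≤ Real.exp (8 * 2 ^ r * (7 * r * ε ^ 2 * n)) := by gcongr
      _ = Real.exp (56 * r * 2 ^ r * ε ^ 2 * n) := by
          congr 1; ring
  have hB : Real.exp ((2 * kk r ε n / bb r ε n * 2 ^ r) ^ 2 * n / 8) ≤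
      Real.exp (392 * r ^ 2 * 16 ^ r * ε ^ 2 * n) := by
    apply Real.exp_le_exp.mpr
    have h1 : 2 * (kk r ε n : ℝ) / bb r ε n ≤ 56 * r * 2 ^ r * ε := by
      rw [div_le_iff₀ hb0]
      have : 56 * r * 2 ^ r * ε * bb r ε n = 14 * r * ε ^ 2 * n := by
        unfold bb
        rw [pow_add]
        field_simp
        norm_num
      rw [this]
      linarith
    calc (2 * (kk r ε n : ℝ) / bb r ε n * 2 ^ r) ^ 2 * n / 8
        ≤ (56 * r * 2 ^ r * ε * 2 ^ r) ^ 2 * n / 8 := by gcongr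
      _ = 392 * r ^ 2 * 16 ^ r * ε ^ 2 * n := by
        have : ((16 : ℝ)) ^ r = ((2 : ℝ) ^ r) ^ 4 := by
          rw [← pow_mul, mul_comm, pow_mul]; norm_num
        rw [this]
        ring
  rw [Real.sqrt_le_left (by positivity)]
  calc (Real.exp 1 * bb r ε n / ((hs r ε n : ℝ) * kk r ε n)) ^ (2 * kk r ε n * (2 ^ r - 1)) *
        (2 ^ r * (2 * Real.exp ((2 * kk r ε n / bb r ε n * 2 ^ r) ^ 2 * n / 8)))
      ≤ Real.exp (56 * r * 2 ^ r * ε ^ 2 * n) *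
        (2 ^ r * (2 * Real.exp (392 * r ^ 2 * 16 ^ r * ε ^ 2 * n))) := by gcongr
    _ = 2 ^ (r + 1) * Real.exp ((56 * r * 2 ^ r + 392 * r ^ 2 * 16 ^ r) * ε ^ 2 * n) := by
        rw [show (56 * r * 2 ^ r + 392 * r ^ 2 * 16 ^ r) * ε ^ 2 * n =
          56 * r * 2 ^ r * ε ^ 2 * n + 392 * r ^ 2 * 16 ^ r * ε ^ 2 * n by ring, Real.exp_add, pow_succ]
        ring
    _ ≤ (2 ^ (r + 1)) ^ 2 * Real.exp ((56 * r * 2 ^ r + 392 * r ^ 2 * 16 ^ r) * ε ^ 2 * n) := by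
        gcongr
        exact le_self_pow₀ (one_le_pow₀ (by norm_num)) (by norm_num)
    _ = (2 ^ (r + 1) *
        Real.exp ((56 * r * 2 ^ r + 392 * r ^ 2 * 16 ^ r) * ε ^ 2 * n / 2)) ^ 2 := by
        rw [mul_pow, ← Real.exp_nat_mul]
        congr 2
        push_cast; ring

theorem num_h {r : ℕ} (hr : 1 ≤ r) : ∃ ε₀ : ℝ, 0 < ε₀ ∧ ∀ ε : ℝ, 0 < ε → ε < ε₀ →
    ∀ᶠ n : ℕ in atTop, 1 ≤ kk r ε n ∧ 1 ≤ hs r ε n ∧ 0 < bb r ε n ∧
      (n : ℝ) / 2 ^ r - bb r ε n ≤ 2 * aa r ε n ∧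
      2 * ((aa r ε n : ℝ) + kk r ε n * hs r ε n) ≤ n / 2 ^ r ∧
      Real.sqrt (kk r ε n + 1) * (4 ^ 2 ^ r * (2 ^ 2 ^ r * n * Real.exp (-(Yf ε * n / 64)))) *
        Lmx r n (kk r ε n) (hs r ε n) (bb r ε n) / pmx r n (bb r ε n) ≤ 1 / 4 := by
  have hr0 : (1 : ℝ) ≤ r := by exact_mod_cast hr
  obtain ⟨C', hC'⟩ : ∃ C' : ℝ, C' = (56 * r * 2 ^ r + 392 * r ^ 2 * 16 ^ r) / 2 + 2 ^ r / 16 :=
    ⟨_, rfl⟩
  have hC'0 : 0 ≤ C' := by rw [hC']; positivity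
  refine ⟨min (1 / (224 * r * 2 ^ r)) (Real.exp (-(64 * C' + 64))),
    lt_min (by positivity) (Real.exp_pos _), ?_⟩
  intro ε he0 he
  have he1 : ε ≤ 1 / (224 * r * 2 ^ r) := he.le.trans (min_le_left _ _)
  have he2 : ε ≤ Real.exp (-(64 * C' + 64)) := he.le.trans (min_le_right _ _)
  have hlog : 64 * C' + 64 ≤ Real.log (1 / ε) := by
    rw [one_div, Real.log_inv]
    have := Real.log_le_log he0 he2
    rw [Real.log_exp] at this
    linarith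
  have hc : 0 < Yf ε / 64 - C' * ε ^ 2 := by
    unfold Yf
    have : 0 < ε ^ 2 := by positivity
    nlinarith
  have hev1 := NUH_ev (2 ^ r + 2) (4 ^ 2 ^ r * 2 ^ 2 ^ r * 2 ^ (r + 1)) (Yf ε / 64 - C' * ε ^ 2) hc
    (by positivity)
  have hev2 : ∀ᶠ n : ℕ in atTop, 1 / (r * ε ^ 2) ≤ (n : ℝ) :=
    tendsto_natCast_atTop_atTop.eventually_ge_atTop _
  have hev3 : ∀ᶠ n : ℕ in atTop, 4 * 2 ^ (r + 2) / ε ≤ (n : ℝ) :=
    tendsto_natCast_atTop_atTop.eventually_ge_atTop _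
  filter_upwards [hev1, hev2, hev3] with n h1 h2 h3
  have hn1 : 1 ≤ r * ε ^ 2 * n := by
    rw [div_le_iff₀ (by positivity)] at h2
    linarith
  have hn2 : 4 ≤ bb r ε n := by
    unfold bb
    rw [le_div_iff₀ (by positivity)]
    rw [div_le_iff₀ he0] at h3
    linarith
  obtain ⟨hn0, hk1, hk2, hkn, hh1, hb1, hb2⟩ := NUH_par hr he0 he1 hn1 hn2
  have hL := NUH_Lmx hr he0 he1 hn1 hn2
  have hbn : bb r ε n ≤ n / 2 ^ r := by
    unfold bb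
    rw [pow_add, div_le_div_iff₀ (by positivity) (by positivity)]
    have he3 : ε ≤ 1 := by
      refine he2.trans ?_
      apply Real.exp_le_one_iff.mpr
      linarith
    have h2r : (0 : ℝ) < 2 ^ r := by positivity
    have : ε * n ≤ n := by nlinarith
    nlinarith [mul_le_mul_of_nonneg_right this h2r.le]
  refine ⟨hk1, hh1, by linarith, ?_, ?_, ?_⟩
  · have := Nat.le_ceil (((n : ℝ) / 2 ^ r - bb r ε n) / 2)
    have h4 : ((n : ℝ) / 2 ^ r - bb r ε n) / 2 ≤ (aa r ε n : ℝ) := this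
    linarith
  · have := (Nat.ceil_lt_add_one (by linarith : (0 : ℝ) ≤ ((n : ℝ) / 2 ^ r - bb r ε n) / 2)).le
    have h4 : (aa r ε n : ℝ) ≤ ((n : ℝ) / 2 ^ r - bb r ε n) / 2 + 1 := this
    have h5 : (kk r ε n : ℝ) * hs r ε n = (hs r ε n : ℝ) * kk r ε n := mul_comm _ _
    rw [h5]
    linarith
  · have hsq : Real.sqrt ((kk r ε n : ℝ) + 1) ≤ n + 1 := by
      rw [Real.sqrt_le_left (by linarith)]
      nlinarith
    have hp : (pmx r n (bb r ε n))⁻¹ = ((n : ℝ) + 1) ^ 2 ^ r * Real.exp (2 ^ r / 16 * ε ^ 2 * n) := by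
      unfold pmx
      rw [inv_div, div_eq_mul_inv, ← Real.exp_neg, neg_neg]
      congr 2
      unfold bb
      have h8 : ((8 : ℝ)) ^ r = ((2 : ℝ) ^ r) ^ 3 := by
        rw [← pow_mul, mul_comm, pow_mul]; norm_num
      rw [h8, pow_add]
      field_simp
      norm_num
    rw [div_eq_mul_inv, hp]
    refine le_trans ?_ h1
    calc Real.sqrt ((kk r ε n : ℝ) + 1) * (4 ^ 2 ^ r * (2 ^ 2 ^ r * n * Real.exp (-(Yf ε * n / 64)))) *
          Lmx r n (kk r ε n) (hs r ε n) (bb r ε n) *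
          (((n : ℝ) + 1) ^ 2 ^ r * Real.exp (2 ^ r / 16 * ε ^ 2 * n))
        ≤ ((n : ℝ) + 1) * (4 ^ 2 ^ r * (2 ^ 2 ^ r * ((n : ℝ) + 1) * Real.exp (-(Yf ε * n / 64)))) *
          (2 ^ (r + 1) * Real.exp ((56 * r * 2 ^ r + 392 * r ^ 2 * 16 ^ r) * ε ^ 2 * n / 2)) *
          (((n : ℝ) + 1) ^ 2 ^ r * Real.exp (2 ^ r / 16 * ε ^ 2 * n)) := by
          gcongr <;> first | exact Real.sqrt_nonneg _ | linarith
      _ = 4 ^ 2 ^ r * 2 ^ 2 ^ r * 2 ^ (r + 1) * ((n : ℝ) + 1) ^ (2 ^ r + 2) *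
          (Real.exp (-(Yf ε * n / 64)) *
            Real.exp ((56 * r * 2 ^ r + 392 * r ^ 2 * 16 ^ r) * ε ^ 2 * n / 2) *
            Real.exp (2 ^ r / 16 * ε ^ 2 * n)) := by ring
      _ = 4 ^ 2 ^ r * 2 ^ 2 ^ r * 2 ^ (r + 1) * ((n : ℝ) + 1) ^ (2 ^ r + 2) *
          Real.exp (-((Yf ε / 64 - C' * ε ^ 2) * n)) := by
          congr 1
          rw [← Real.exp_add, ← Real.exp_add]
          congr 1
          rw [hC']
          ring
      _ ≤ _ := le_refl _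

end Pool.Agent.Lib.MP_0430e4_lc.Lin
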