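import Pool.Agent.Lib.MP_0430e4_lc.Lin.FFlat

/-!
# SMO: smoothing

PROOFS. `x ↦ x + e_i + e_j` preserves the even words and `chw w (x + e_i + e_j) =
chw w x * sg (w i) * sg (w j)`, `∑_i sg (w i) = n - 2 wt w`. The weight changes by at most 2 in each
step. `decay`: `|1 - 2 w / n| ≤ 1 - 2c/n ≤ exp (-2c/n)` for `c ≤ w`, `w + c ≤ n`.
-/

set_option autoImplicit false

namespace Pool.Agent.Lib.MP_0430e4_lc.Lin

open Finset

variable {n : ℕ}

theorem smo_chw_add (w x y : W n) : chw w (x + y) = chw w x * chw w y := by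
  rw [chw_comm w (x + y), chw_add, chw_comm x w, chw_comm y w]

theorem smo_sg_zero : sg 0 = 1 := by simp [sg]

theorem smo_chw_single (w : W n) (i : Fin n) : chw w (Pi.single i 1) = sg (w i) := by
  unfold chw
  rw [prod_eq_single i]
  · rw [Pi.single_eq_same, mul_one]
  · intro j _ hj
    rw [Pi.single_eq_of_ne hj, mul_zero, smo_sg_zero]
  · intro h
    exact absurd (mem_univ i) h

theorem smo_sum_sg (w : W n) : ∑ i, sg (w i) = n - 2 * (wt w : ℝ) := by
  have h1 : ∀ i, sg (w i) = 1 - 2 * (if w i ≠ 0 then (1 : ℝ) else 0) := by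
    intro i
    unfold sg
    by_cases h : w i = 0
    · simp [h]
    · simp [h]; norm_num
  rw [sum_congr rfl fun i _ => h1 i, sum_sub_distrib, ← mul_sum, sum_boole, sum_const, card_univ,
    Fintype.card_fin, nsmul_eq_mul, mul_one]
  rfl

theorem smo_add_add (x y : W n) : x + y + y = x := by
  rw [add_assoc, add_self_W, add_zero]

theorem smo_add4 (x y z : W n) : x + y + z + y + z = x := by
  rw [add_right_comm x y z, add_assoc (x + z) y y, add_self_W, add_zero, smo_add_add]

theorem smo_ev {x : W n} (hx : x ∈ evW n) (i j : Fin n) :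
    x + Pi.single i 1 + Pi.single j 1 ∈ evW n := by
  unfold evW at hx ⊢
  rw [mem_filter] at hx ⊢
  refine ⟨mem_univ _, ?_⟩
  have h1 : ∀ k : Fin n, ∑ l, (Pi.single k (1 : ZMod 2) : W n) l = 1 := by
    intro k
    rw [Finset.sum_pi_single']
    simp
  simp only [Pi.add_apply]
  rw [sum_add_distrib, sum_add_distrib, hx.2, h1, h1]
  decide

theorem smo_shift (F : W n → ℝ) (i j : Fin n) :
    ∑ x ∈ evW n, F (x + Pi.single i 1 + Pi.single j 1) = ∑ x ∈ evW n, F x := by
  refine sum_bij' (fun x _ => x + Pi.single i 1 + Pi.single j 1)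
    (fun x _ => x + Pi.single i 1 + Pi.single j 1) (fun x hx => smo_ev hx i j)
    (fun x hx => smo_ev hx i j) ?_ ?_ ?_
  · intro x _
    exact smo_add4 x _ _
  · intro x _
    exact smo_add4 x _ _
  · intro x _
    rfl

theorem al_sm (hn : 1 ≤ n) (a : W n → ℝ) (w : W n) :
    al (sm a) w = (1 - 2 * (wt w : ℝ) / n) ^ 2 * al a w := by
  have hn0 : (n : ℝ) ≠ 0 := by
    have : (1 : ℝ) ≤ n := by exact_mod_cast hn
    linarith
  have h1 : ∀ i j : Fin n, ∑ x ∈ evW n, a (x + Pi.single i 1 + Pi.single j 1) * chw w x =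
      sg (w i) * sg (w j) * ∑ x ∈ evW n, a x * chw w x := by
    intro i j
    rw [mul_sum, ← smo_shift (fun x => sg (w i) * sg (w j) * (a x * chw w x)) i j]
    refine sum_congr rfl fun x _ => ?_
    have h2 : chw w (x + Pi.single i 1 + Pi.single j 1) = chw w x * sg (w i) * sg (w j) := by
      rw [smo_chw_add, smo_chw_add, smo_chw_single, smo_chw_single]
    have h3 : ∀ c : ZMod 2, sg c * sg c = 1 := by
      intro c
      unfold sg
      split_ifs <;> norm_num
    rw [h2]
    calc a (x + Pi.single i 1 + Pi.single j 1) * chw w x =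
        (sg (w i) * sg (w i)) * (sg (w j) * sg (w j)) *
          (a (x + Pi.single i 1 + Pi.single j 1) * chw w x) := by rw [h3, h3]; ring
      _ = _ := by ring
  have h2 : ∑ x ∈ evW n, sm a x * chw w x =
      (∑ i, ∑ j, sg (w i) * sg (w j) * ∑ x ∈ evW n, a x * chw w x) / n ^ 2 := by
    have h3 : ∀ x ∈ evW n, sm a x * chw w x =
        (∑ i, ∑ j, a (x + Pi.single i 1 + Pi.single j 1) * chw w x) / n ^ 2 := by
      intro x _
      unfold sm
      rw [div_mul_eq_mul_div, sum_mul]
      congr 1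
      refine sum_congr rfl fun i _ => ?_
      rw [sum_mul]
    rw [sum_congr rfl h3, ← sum_div]
    congr 1
    rw [sum_comm]
    refine sum_congr rfl fun i _ => ?_
    rw [sum_comm]
    exact sum_congr rfl fun j _ => h1 i j
  have h4 : ∑ i, ∑ j, sg (w i) * sg (w j) * ∑ x ∈ evW n, a x * chw w x =
      (n - 2 * (wt w : ℝ)) ^ 2 * ∑ x ∈ evW n, a x * chw w x := by
    rw [← smo_sum_sg, sq, sum_mul_sum, sum_mul]
    refine sum_congr rfl fun i _ => ?_
    rw [sum_mul]
  unfold al EW
  rw [h2, h4]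
  field_simp

theorem al_sm_iter (hn : 1 ≤ n) (a : W n → ℝ) (j : ℕ) (w : W n) :
    al (sm^[j] a) w = (1 - 2 * (wt w : ℝ) / n) ^ (2 * j) * al a w := by
  induction j with
  | zero => simp
  | succ j ih =>
    rw [Function.iterate_succ_apply', al_sm hn, ih]
    ring

theorem smo_comp_single (p : Equiv.Perm (Fin n)) (y : W n) (i : Fin n) :
    y ∘ p + Pi.single i 1 = (y + Pi.single (p i) 1) ∘ p := by
  funext k
  simp only [Pi.add_apply, Function.comp_apply]
  by_cases h : k = i
  · rw [h, Pi.single_eq_same, Pi.single_eq_same]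
  · rw [Pi.single_eq_of_ne h, Pi.single_eq_of_ne (fun h' => h (p.injective h'))]

theorem smo_sym {a : W n → ℝ} (ha : SymW a) : SymW (sm a) := by
  intro p x
  have h2 : ∀ i j : Fin n, a (x ∘ p + Pi.single i 1 + Pi.single j 1) =
      a (x + Pi.single (p i) 1 + Pi.single (p j) 1) := by
    intro i j
    rw [smo_comp_single, smo_comp_single, ha p]
  have h4 : ∑ i, ∑ j, a (x ∘ p + Pi.single i 1 + Pi.single j 1) =
      ∑ i, ∑ j, a (x + Pi.single i 1 + Pi.single j 1) := by
    refine Fintype.sum_equiv p _ _ fun i => ?_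
    refine Fintype.sum_equiv p _ _ fun j => ?_
    exact h2 i j
  unfold sm
  rw [h4]

theorem symW_sm_iter {a : W n → ℝ} (ha : SymW a) (j : ℕ) : SymW (sm^[j] a) := by
  induction j with
  | zero => exact ha
  | succ j ih =>
    rw [Function.iterate_succ_apply']
    exact smo_sym ih

theorem smo_ge (hn : 1 ≤ n) {a : W n → ℝ} {l : ℝ} {x : W n}
    (h : ∀ i j : Fin n, l ≤ a (x + Pi.single i 1 + Pi.single j 1)) : l ≤ sm a x := by
  have hn0 : (1 : ℝ) ≤ n := by exact_mod_cast hn
  unfold sm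
  rw [le_div_iff₀ (by positivity)]
  calc l * (n : ℝ) ^ 2 = ∑ _i : Fin n, ∑ _j : Fin n, l := by
        simp only [sum_const, card_univ, Fintype.card_fin, nsmul_eq_mul]
        ring
    _ ≤ _ := sum_le_sum fun i _ => sum_le_sum fun j _ => h i j

theorem smo_le (hn : 1 ≤ n) {a : W n → ℝ} {l : ℝ} {x : W n}
    (h : ∀ i j : Fin n, a (x + Pi.single i 1 + Pi.single j 1) ≤ l) : sm a x ≤ l := by
  have hn0 : (1 : ℝ) ≤ n := by exact_mod_cast hn
  unfold sm
  rw [div_le_iff₀ (by positivity)]
  calc _ ≤ ∑ _i : Fin n, ∑ _j : Fin n, l := sum_le_sum fun i _ => sum_le_sum fun j _ => h i j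
    _ = l * (n : ℝ) ^ 2 := by
        simp only [sum_const, card_univ, Fintype.card_fin, nsmul_eq_mul]
        ring

theorem smo_wt_single (x : W n) (i : Fin n) : wt (x + Pi.single i 1) ≤ wt x + 1 := by
  unfold wt
  refine (card_le_card (t := insert i (univ.filter fun k => x k ≠ 0)) ?_).trans
    (card_insert_le _ _)
  intro k hk
  rw [mem_filter] at hk
  rw [mem_insert, mem_filter]
  by_cases h : k = i
  · left; exact h
  · right
    refine ⟨mem_univ _, ?_⟩
    have := hk.2
    rwa [Pi.add_apply, Pi.single_eq_of_ne h, add_zero] at this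

theorem smo_wt_le (x : W n) (i j : Fin n) :
    wt (x + Pi.single i 1 + Pi.single j 1) ≤ wt x + 2 := by
  have h1 := smo_wt_single x i
  have h2 := smo_wt_single (x + Pi.single i 1) j
  omega

theorem smo_wt_ge (x : W n) (i j : Fin n) :
    wt x ≤ wt (x + Pi.single i 1 + Pi.single j 1) + 2 := by
  have h := smo_wt_le (x + Pi.single i 1 + Pi.single j 1) i j
  rwa [smo_add4] at h

theorem sm_iter_low (hn : 1 ≤ n) {a : W n → ℝ} {d j : ℕ} (h : ∀ x, wt x < d + 2 * j → a x = -1) :
    ∀ x, wt x < d → (sm^[j] a) x = -1 := by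
  induction j generalizing a with
  | zero =>
    intro x hx
    exact h x (by omega)
  | succ j ih =>
    intro x hx
    rw [Function.iterate_succ_apply]
    refine ih (a := sm a) (fun y hy => ?_) x hx
    have h1 : ∀ i k : Fin n, a (y + Pi.single i 1 + Pi.single k 1) = -1 := fun i k =>
      h _ (by have := smo_wt_le y i k; omega)
    exact le_antisymm (smo_le hn fun i k => (h1 i k).le) (smo_ge hn fun i k => (h1 i k).ge)

theorem sm_iter_high (hn : 1 ≤ n) {a : W n → ℝ} {d j : ℕ} {κ : ℝ}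
    (h : ∀ x, d ≤ wt x → |a x| ≤ κ) : ∀ x, d + 2 * j ≤ wt x → |(sm^[j] a) x| ≤ κ := by
  induction j generalizing a d with
  | zero =>
    intro x hx
    exact h x (by omega)
  | succ j ih =>
    intro x hx
    rw [Function.iterate_succ_apply]
    refine ih (a := sm a) (d := d + 2) (fun y hy => ?_) x (by omega)
    have h1 : ∀ i k : Fin n, |a (y + Pi.single i 1 + Pi.single k 1)| ≤ κ := fun i k =>
      h _ (by have := smo_wt_ge y i k; omega)
    rw [abs_le]
    exact ⟨smo_ge hn fun i k => (abs_le.1 (h1 i k)).1, smo_le hn fun i k => (abs_le.1 (h1 i k)).2⟩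

theorem sm_iter_ge (hn : 1 ≤ n) {a : W n → ℝ} {l : ℝ} (h : ∀ x, l ≤ a x) (j : ℕ) :
    ∀ x, l ≤ (sm^[j] a) x := by
  induction j with
  | zero => exact h
  | succ j ih =>
    intro x
    rw [Function.iterate_succ_apply']
    exact smo_ge hn fun i k => ih _

theorem sm_iter_le (hn : 1 ≤ n) {a : W n → ℝ} {l : ℝ} (h : ∀ x, a x ≤ l) (j : ℕ) :
    ∀ x, (sm^[j] a) x ≤ l := by
  induction j with
  | zero => exact h
  | succ j ih =>
    intro x
    rw [Function.iterate_succ_apply']
    exact smo_le hn fun i k => ih _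

theorem decay {w c j : ℕ} (hn : 1 ≤ n) (h1 : c ≤ w) (h2 : w + c ≤ n) :
    |(1 - 2 * (w : ℝ) / n) ^ (2 * j)| ≤ Real.exp (-(4 * j * c / n)) := by
  have hn0 : (1 : ℝ) ≤ n := by exact_mod_cast hn
  have h1' : (c : ℝ) ≤ w := by exact_mod_cast h1
  have h2' : (w : ℝ) + c ≤ n := by exact_mod_cast h2
  have hc0 : (0 : ℝ) ≤ c := Nat.cast_nonneg c
  have hb : |1 - 2 * (w : ℝ) / n| ≤ 1 - 2 * c / n := by
    rw [abs_le]
    constructor
    · have : 2 * (w : ℝ) / n + 2 * c / n ≤ 2 := by
        rw [← add_div, div_le_iff₀ (by linarith)]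
        linarith
      linarith
    · have : 2 * (c : ℝ) / n ≤ 2 * w / n := by
        apply div_le_div_of_nonneg_right _ (by linarith)
        linarith
      linarith
  have he : 1 - 2 * (c : ℝ) / n ≤ Real.exp (-(2 * c / n)) := by
    have := Real.add_one_le_exp (-(2 * (c : ℝ) / n))
    linarith
  rw [abs_pow]
  calc |1 - 2 * (w : ℝ) / n| ^ (2 * j) ≤ Real.exp (-(2 * c / n)) ^ (2 * j) :=
        pow_le_pow_left₀ (abs_nonneg _) (hb.trans he) _
    _ = Real.exp (-(4 * j * c / n)) := by
        rw [← Real.exp_nat_mul]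
        congr 1
        push_cast
        ring

end Pool.Agent.Lib.MP_0430e4_lc.Lin
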