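import Pool.Agent.Lib.MP_0430e4_lc.Lin.GFI
import Pool.Agent.Lib.MP_0430e4_lc.Lin.NUC
import Pool.Agent.Lib.MP_0430e4_lc.Lin.NUE
import Pool.Agent.Lib.MP_0430e4_lc.Lin.NUF
import Pool.Agent.Lib.MP_0430e4_lc.Lin.NUG
import Pool.Agent.Lib.MP_0430e4_lc.Lin.NUH
import Pool.Agent.Lib.MP_0430e4_lc.Lin.NUD
import Pool.Agent.Lib.MP_0430e4_lc.Lin.NEAR
import Pool.Agent.Lib.MP_0430e4_lc.Lin.LV1
import Pool.Agent.Lib.MP_0430e4_lc.Lin.SMO

/-!
# GEN: the generic function exists near 1/2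
-/

set_option autoImplicit false

namespace Pool.Agent.Lib.MP_0430e4_lc.Lin

open Finset Filter Topology

theorem Generic.mono {r n d : ℕ} {M M' C : ℝ} (h : Generic r n d M C) (h1 : 0 < M') (h2 : M' ≤ M) :
    Generic r n d M' C := by
  obtain ⟨g, hg0, hg1, hg2, hg3, hg4⟩ := h
  refine ⟨g, hg0, hg1, hg2, hg3, fun Ξ hΞ => ?_⟩
  have hM : 0 < M := lt_of_lt_of_le h1 h2
  have h3 := hg4 Ξ hΞ
  obtain ⟨t, ht⟩ : ∃ t, r = kd Ξ + t := ⟨r - kd Ξ, by omega⟩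
  have hp : ∀ x : ℝ, x ^ r = x ^ kd Ξ * x ^ t := fun x => by rw [← pow_add, ← ht]
  have h4 : |fc g Ξ| * M ^ t ≤ C := by
    rw [hp M] at h3
    have h5 : M ^ kd Ξ * (|fc g Ξ| * M ^ t) ≤ M ^ kd Ξ * C := by
      calc M ^ kd Ξ * (|fc g Ξ| * M ^ t) = |fc g Ξ| * (M ^ kd Ξ * M ^ t) := by ring
        _ ≤ C * M ^ kd Ξ := h3
        _ = M ^ kd Ξ * C := mul_comm _ _
    exact le_of_mul_le_mul_left h5 (by positivity)
  have h5 : |fc g Ξ| * M' ^ t ≤ C :=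
    (mul_le_mul_of_nonneg_left (pow_le_pow_left₀ h1.le h2 t) (abs_nonneg _)).trans h4
  calc |fc g Ξ| * M' ^ r = (|fc g Ξ| * M' ^ t) * M' ^ kd Ξ := by
        rw [hp M']
        ring
    _ ≤ C * M' ^ kd Ξ := mul_le_mul_of_nonneg_right h5 (by positivity)

/-- The two functions of level one satisfy the hypotheses `Two`. -/
theorem two_of {n d d' j : ℕ} (hn : 1 ≤ n) {κ : ℝ} (hκ0 : 0 ≤ κ) (hκ1 : κ ≤ 1) {a b : ℕ → ℝ}
    (ha1 : ∀ w, w < d → a w = -1) (ha2 : ∀ w, d ≤ w → |a w| ≤ κ)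
    (hb1 : ∀ w, w < d' → b w = -1) (hb2 : ∀ w, d' ≤ w → |b w| ≤ κ) (hd : d + 2 * j ≤ d') :
    Two n d (d' + 2 * j) κ (fun x => a (wt x)) (sm^[j] fun x => b (wt x)) := by
  have hbs : SymW (n := n) fun x => b (wt x) := fun p x => by
    show b (wt (x ∘ p)) = b (wt x)
    rw [wt_comp]
  have hb0 : ∀ w, -1 ≤ b w := by
    intro w
    rcases lt_or_ge w d' with h | h
    · rw [hb1 w h]
    · have := (abs_le.1 (hb2 w h)).1
      linarith
  have hb3 : ∀ w, b w ≤ κ := by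
    intro w
    rcases lt_or_ge w d' with h | h
    · rw [hb1 w h]
      linarith
    · exact (abs_le.1 (hb2 w h)).2
  exact
    { symφ := fun p x => by
        show a (wt (x ∘ p)) = a (wt x)
        rw [wt_comp]
      symσ := symW_sm_iter hbs j
      φlow := fun x hx => ha1 _ hx
      σlow := sm_iter_low hn fun x hx => hb1 _ (lt_of_lt_of_le hx hd)
      φsmall := fun x hx => ha2 _ hx
      σge := sm_iter_ge hn (fun x => hb0 _) j
      σle := sm_iter_le hn (fun x => hb3 _) j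
      σsmall := sm_iter_high hn fun x hx => hb2 _ hx }

/-- The Fourier hypotheses. -/
theorem fou_of {n d d' j c : ℕ} (hn : 1 ≤ n) (hc : 2 * c < n) {κ R R' : ℝ}
    (hκ1 : κ ≤ 1) {a b : ℕ → ℝ} (hRR : R' ≤ R)
    (h2 : Two n d (d' + 2 * j) κ (fun x => a (wt x)) (sm^[j] fun x => b (wt x)))
    (hb1 : ∀ w, w < d' → b w = -1) (hb2 : ∀ w, d' ≤ w → |b w| ≤ κ)
    (ha : ∀ w : W n, |al (fun x => a (wt x)) w| ≤ Real.exp (-(n * R)))
    (hb : ∀ w : W n, |al (fun x => b (wt x)) w| ≤ Real.exp (-(n * R'))) :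
    Fou n c (Real.exp (n * R)) (2 * Real.exp (-(n * R'))) (Real.exp (-(4 * j * c / n)))
      (1 + Real.sqrt (∑ q ∈ range (c + 1), (n.choose q : ℝ)))
      (fun x => a (wt x)) (sm^[j] fun x => b (wt x)) := by
  have hn0 : (0 : ℝ) < n := by exact_mod_cast hn
  have hbabs : ∀ w, |b w| ≤ 1 := by
    intro w
    rcases lt_or_ge w d' with h | h
    · rw [hb1 w h]
      norm_num
    · exact (hb2 w h).trans hκ1
  have hσabs : ∀ x : W n, |(sm^[j] fun x => b (wt x)) x| ≤ 1 := fun x =>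
    abs_le.2 ⟨h2.σge x, (h2.σle x).trans hκ1⟩
  have hEσ : EW (fun x : W n => ((sm^[j] fun x => b (wt x)) x) ^ 2) ≤ 1 ^ 2 := by
    have : EW (fun x : W n => ((sm^[j] fun x => b (wt x)) x) ^ 2) ≤ EW (fun _ : W n => (1 : ℝ)) :=
      EW_mono fun x _ => by
        rw [← sq_abs]
        have h3 := hσabs x
        have h4 := abs_nonneg ((sm^[j] fun x => b (wt x)) x)
        nlinarith
    rw [EW_const hn] at this
    simpa using this
  have hEb : EW (fun x : W n => (b (wt x)) ^ 2) ≤ 1 := by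
    have : EW (fun x : W n => (b (wt x)) ^ 2) ≤ EW (fun _ : W n => (1 : ℝ)) :=
      EW_mono fun x _ => by
        rw [← sq_abs]
        have h3 := hbabs (wt x)
        have h4 := abs_nonneg (b (wt x))
        nlinarith
    rwa [EW_const hn] at this
  have hwt : ∀ w : W n, wt w ≤ n := by
    intro w
    unfold wt
    calc _ ≤ (univ : Finset (Fin n)).card := card_le_card (filter_subset _ _)
      _ = n := by rw [card_univ, Fintype.card_fin]
  exact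
    { alφ := fun w => by
        refine (ha w).trans (le_of_eq ?_)
        rw [Real.exp_neg, one_div]
      alσ := fun w => by
        rw [al_sm_iter hn, abs_mul]
        have h3 : |(1 - 2 * (wt w : ℝ) / n) ^ (2 * j)| ≤ 1 := by
          rw [abs_pow]
          apply pow_le_one₀ (abs_nonneg _)
          have h4 : (wt w : ℝ) ≤ n := by exact_mod_cast hwt w
          have h5 : 0 ≤ 2 * (wt w : ℝ) / n := by positivity
          have h6 : 2 * (wt w : ℝ) / n ≤ 2 := by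
            rw [div_le_iff₀ hn0]
            linarith
          rw [abs_le]
          constructor <;> linarith
        calc _ ≤ 1 * Real.exp (-(n * R')) :=
              mul_le_mul h3 (hb w) (abs_nonneg _) (by norm_num)
          _ = 2 * Real.exp (-(n * R')) / 2 := by ring
      MB := by
        rw [one_div, ← Real.exp_neg]
        have : Real.exp (-(n * R)) ≤ Real.exp (-(n * R')) := by
          apply Real.exp_le_exp.2
          nlinarith
        linarith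
      sharp := by
        refine (sharp_sq hn hc _ (fun x : W n => b (wt x)) (η := Real.exp (-(4 * j * c / n)))
          fun w hw1 hw2 => ?_).trans ?_
        · rw [al_sm_iter hn, abs_mul]
          exact mul_le_mul_of_nonneg_right (decay hn hw1.le (by omega)) (abs_nonneg _)
        · exact mul_le_of_le_one_right (by positivity) hEb
      sup := fun x => by
        have h3 := abs_flat_le hn hc (sm^[j] fun x => b (wt x)) (B := 1) (by norm_num) hEσ x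
        calc _ ≤ |(sm^[j] fun x => b (wt x)) x| + |flat c (sm^[j] fun x => b (wt x)) x| :=
              abs_sub _ _
          _ ≤ _ := by
              rw [one_mul] at h3
              exact add_le_add (hσabs x) h3 }

/-- The generic function at a fixed length. -/
theorem gen_at {r n : ℕ} (hr : 1 ≤ r) (hn : 1 ≤ n) {ε c₀ κ R : ℝ} (hε : 0 < ε) (hc0 : 0 < c₀)
    (hcS : 2 ^ r * c₀ ≤ Real.exp (-(cS r + 2)))
    (hlog : 2 * cS r ≤ Real.log (1 / ε)) (hn16 : 16 ≤ ε ^ 2 * n)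
    (hκ0 : 0 ≤ κ) (hκ1 : κ ≤ 1) (hκ : (1 + 3 * κ) ^ (2 ^ r) ≤ 5 / 4) (hR : 0 ≤ R)
    (hM : 6 * 16 ^ 2 ^ r ≤ Real.exp (n * R)) {a b : ℕ → ℝ}
    (ha1 : ∀ w, w < ⌈(1 / 2 - ε) * n⌉₊ → a w = -1)
    (ha2 : ∀ w, ⌈(1 / 2 - ε) * n⌉₊ ≤ w → |a w| ≤ κ)
    (ha3 : ∀ w : W n, |al (fun x => a (wt x)) w| ≤ Real.exp (-(n * R)))
    (hb1 : ∀ w, w < ⌈(1 / 2 - ε + 3 * (2 * r / c₀) * Yf ε) * n⌉₊ → b w = -1)
    (hb2 : ∀ w, ⌈(1 / 2 - ε + 3 * (2 * r / c₀) * Yf ε) * n⌉₊ ≤ w → |b w| ≤ κ)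
    (hb3 : ∀ w : W n, |al (fun x => b (wt x)) w| ≤
      Real.exp (-(n * ((1 - 1 / 2 ^ (r + 4)) * R))))
    (he : ∀ t, 1 ≤ t → t ≤ 2 ^ r →
      (∑ q ∈ range (NN ε n + 1), (n.choose q : ℝ)) * 2 ^ (t * (NN ε n + kk r ε n)) *
        (2 * Real.exp (-(n * ((1 - 1 / 2 ^ (r + 4)) * R)))) ^ t * Real.exp (n * R) ^ (t - 1) ≤ 1)
    (hf : 4 ^ 2 ^ r * (2 ^ r * (n + 1) ^ (2 * 2 ^ r) *
        Real.exp (-(4 * jj (2 * r / c₀) ε n * cc c₀ n / n)) +
        2 ^ (2 * r + 1) * (1 + Real.sqrt (∑ q ∈ range (cc c₀ n + 1), (n.choose q : ℝ))) ^ 2 ^ r *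
      Real.exp (-((1 / (2 * (2 ^ r) ^ 2)) ^ 2 * n / 2))) * Real.exp (n * R) ^ r ≤ 1)
    (hg1 : Real.exp (n * R) ^ (2 * r) ≤ (n.choose (n / 2 ^ r) : ℝ))
    (hg2 : Real.exp (n * R) ^ (2 * r) ≤ (n.choose (kk r ε n + 1) : ℝ))
    (hg3 : 2 * (kk r ε n + 1) ≤ n) (hg4 : 2 * (2 ^ r * cc c₀ n + kk r ε n) < n)
    (hh1 : 1 ≤ kk r ε n) (hh2 : 1 ≤ hs r ε n) (hh3 : 0 < bb r ε n)
    (hh4 : (n : ℝ) / 2 ^ r - bb r ε n ≤ 2 * aa r ε n)
    (hh5 : 2 * ((aa r ε n : ℝ) + kk r ε n * hs r ε n) ≤ n / 2 ^ r)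
    (hh6 : Real.sqrt (kk r ε n + 1) * (4 ^ 2 ^ r * (2 ^ 2 ^ r * n * Real.exp (-(Yf ε * n / 64)))) *
        Lmx r n (kk r ε n) (hs r ε n) (bb r ε n) / pmx r n (bb r ε n) ≤ 1 / 4)
    (hd1 : ⌈(1 / 2 - ε) * n⌉₊ + 2 * jj (2 * r / c₀) ε n ≤
      ⌈(1 / 2 - ε + 3 * (2 * r / c₀) * Yf ε) * n⌉₊)
    (hd2 : 2 * ((⌈(1 / 2 - ε + 3 * (2 * r / c₀) * Yf ε) * n⌉₊ + 2 * jj (2 * r / c₀) ε n : ℕ) : ℝ) +
        2 * 2 ^ r * bb r ε n ≤ n) :
    Generic r n ⌈(1 / 2 - ε) * n⌉₊ (Real.exp (n * R)) (3 * 16 ^ 2 ^ r) := by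
  classical
  have hn0 : (0 : ℝ) < n := by exact_mod_cast hn
  have hζ0 : (0 : ℝ) ≤ 1 / 2 ^ (r + 4) := by positivity
  have hRR : (1 - 1 / 2 ^ (r + 4)) * R ≤ R := by nlinarith
  have hc2 : 2 * cc c₀ n < n := by
    have : 1 ≤ 2 ^ r := Nat.one_le_two_pow
    nlinarith
  have h2 := two_of (n := n) (j := jj (2 * r / c₀) ε n) hn hκ0 hκ1 ha1 ha2 hb1 hb2 hd1
  have hF := fou_of (c := cc c₀ n) hn hc2 hκ1 hRR h2 hb1 hb2 ha3 hb3
  set φ : W n → ℝ := fun x => a (wt x) with hφ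
  set σ : W n → ℝ := sm^[jj (2 * r / c₀) ε n] fun x => b (wt x) with hσ
  have hφ1 : ∀ x, |φ x| ≤ 1 := by
    intro x
    rcases lt_or_ge (wt x) ⌈(1 / 2 - ε) * n⌉₊ with h | h
    · rw [h2.φlow x h]
      norm_num
    · exact (h2.φsmall x h).trans hκ1
  have hσ1 : ∀ x, |σ x| ≤ 1 := fun x => abs_le.2 ⟨h2.σge x, (h2.σle x).trans hκ1⟩
  have hEρ : EW (fun x => (φ x - σ x) ^ 2) ≤ 2 ^ 2 := by
    have : EW (fun x => (φ x - σ x) ^ 2) ≤ EW (fun _ : W n => (4 : ℝ)) :=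
      EW_mono fun x _ => by
        have h3 := abs_le.1 (hφ1 x)
        have h4 := abs_le.1 (hσ1 x)
        nlinarith
    rw [EW_const hn] at this
    linarith
  have hEσ : EW (fun x => σ x ^ 2) ≤ 2 ^ 2 := by
    have : EW (fun x => σ x ^ 2) ≤ EW (fun _ : W n => (4 : ℝ)) :=
      EW_mono fun x _ => by
        have h4 := abs_le.1 (hσ1 x)
        nlinarith
    rw [EW_const hn] at this
    linarith
  have hρs : SymW (fun x => φ x - σ x) := fun p x => by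
    show φ (x ∘ p) - σ (x ∘ p) = φ x - σ x
    rw [h2.symφ p x, h2.symσ p x]
  refine gen_fin (a := aa r ε n) (h := hs r ε n) (c := cc c₀ n) (k := kk r ε n) (N0 := NN ε n)
    (b := bb r ε n) (Θ := 2 ^ 2 ^ r * n * Real.exp (-(Yf ε * n / 64))) hr hn h2
    (by omega) hκ0 hκ1 hκ hF hM (Real.exp_pos _).le ?_ ?_ hf hg4 he (by positivity) ?_ hh1 hg3 hh2
    hh3 hh4 hh5 hd2 hh6 hg1 hg2
  · rw [Real.exp_le_one_iff, neg_nonpos]
    positivity
  · have := Real.sqrt_nonneg (∑ q ∈ range (cc c₀ n + 1), (n.choose q : ℝ))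
    linarith
  · intro T hT S hS Ξ hΞ
    have hT1 : T ⊆ Pn r := by
      unfold depS at hT
      exact mem_powerset.1 (mem_filter.1 hT).1
    have hS1 : S ⊆ T := by
      unfold indSub at hS
      exact mem_powerset.1 (mem_filter.1 hS).1
    have hS2 : Ind S := by
      unfold indSub at hS
      exact (mem_filter.1 hS).2
    have hN0 : ε ^ 2 * n / 16 ≤ (NN ε n : ℝ) + 1 := (Nat.lt_floor_add_one _).le
    have hk : (kk r ε n : ℝ) ≤ 7 * r * ε ^ 2 * n + 1 := by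
      have h5 : (kk r ε n : ℝ) ≤ 6 * r * ε ^ 2 * n + 1 := by
        unfold kk
        exact (Nat.ceil_lt_add_one (by positivity)).le
      have h6 : (0 : ℝ) ≤ r * ε ^ 2 * n := by positivity
      nlinarith
    have hcc : 2 ^ r * (cc c₀ n : ℝ) ≤ Real.exp (-(cS r + 2)) * n := by
      have h5 : (cc c₀ n : ℝ) ≤ c₀ * n := by
        unfold cc
        exact Nat.floor_le (by positivity)
      calc 2 ^ r * (cc c₀ n : ℝ) ≤ 2 ^ r * (c₀ * n) := by gcongr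
        _ = (2 ^ r * c₀) * n := by ring
        _ ≤ _ := by gcongr
    have h7 := coB_small (N0 := NN ε n) hn hρs h2.symσ hEρ hEσ hT1 hS2 hS1 hg4 hε hlog hN0 hk hn16
      hcc hΞ
    unfold Yf
    exact h7

theorem generic_near (r : ℕ) (hr : 1 ≤ r) : ∃ δr : ℝ, 0 < δr ∧ δr < 1 / 2 ∧
    ∀ δ : ℝ, δr < δ → δ < 1 / 2 → ∀ R : ℝ, R < Tensor.ell δ * Real.log 2 →
      ∃ C : ℝ, 1 ≤ C ∧ ∀ᶠ n : ℕ in atTop, Generic r n ⌈δ * n⌉₊ (Real.exp (n * R)) C := by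
  have hr0 : (0 : ℝ) < r := by exact_mod_cast hr
  obtain ⟨c₀, hc0, hc1, hcS, hcL, hc8⟩ := num_c r
  have hJ : (0 : ℝ) < 2 * r / c₀ := by positivity
  obtain ⟨e1, he1, he1', hnear⟩ := ell_near
  obtain ⟨e2, he2, he2', hrat⟩ := ell_ratio (J := 3 * (2 * r / c₀)) (ζ := 1 / 2 ^ (r + 4))
    (by positivity) (by positivity)
  obtain ⟨e3, he3, hE⟩ := num_e hr
  obtain ⟨e4, he4, hF⟩ := num_f hr hc0 hc8 hcL
  obtain ⟨e5, he5, hG⟩ := num_g hr hc0 hc8
  obtain ⟨e6, he6, hH⟩ := num_h hr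
  obtain ⟨e7, he7, hD⟩ := num_d hJ r
  set e8 : ℝ := Real.exp (-(2 * cS r)) with he8
  have he8' : 0 < e8 := Real.exp_pos _
  set ε₀ : ℝ := min (min (min e1 e2) (min e3 e4)) (min (min e5 e6) (min e7 e8)) with hε₀
  have hε₀0 : 0 < ε₀ := by
    rw [hε₀]
    exact lt_min (lt_min (lt_min he1 he2) (lt_min he3 he4)) (lt_min (lt_min he5 he6)
      (lt_min he7 he8'))
  have hε₀1 : ε₀ ≤ e1 := (min_le_left _ _).trans ((min_le_left _ _).trans (min_le_left _ _))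
  have hε₀2 : ε₀ ≤ e2 := (min_le_left _ _).trans ((min_le_left _ _).trans (min_le_right _ _))
  have hε₀3 : ε₀ ≤ e3 := (min_le_left _ _).trans ((min_le_right _ _).trans (min_le_left _ _))
  have hε₀4 : ε₀ ≤ e4 := (min_le_left _ _).trans ((min_le_right _ _).trans (min_le_right _ _))
  have hε₀5 : ε₀ ≤ e5 := (min_le_right _ _).trans ((min_le_left _ _).trans (min_le_left _ _))
  have hε₀6 : ε₀ ≤ e6 := (min_le_right _ _).trans ((min_le_left _ _).trans (min_le_right _ _))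
  have hε₀7 : ε₀ ≤ e7 := (min_le_right _ _).trans ((min_le_right _ _).trans (min_le_left _ _))
  have hε₀8 : ε₀ ≤ e8 := (min_le_right _ _).trans ((min_le_right _ _).trans (min_le_right _ _))
  refine ⟨1 / 2 - ε₀, by linarith, by linarith, fun δ h1 h2 R hR => ?_⟩
  obtain ⟨ε, hε⟩ : ∃ ε, ε = 1 / 2 - δ := ⟨_, rfl⟩
  have hεδ : δ = 1 / 2 - ε := by linarith
  have hε0 : 0 < ε := by linarith
  have hεlt : ε < ε₀ := by linarith
  have hε1 : ε < e1 := lt_of_lt_of_le hεlt hε₀1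
  have hε2 : ε < e2 := lt_of_lt_of_le hεlt hε₀2
  have hε8 : ε < e8 := lt_of_lt_of_le hεlt hε₀8
  have hlog : 2 * cS r ≤ Real.log (1 / ε) := by
    rw [one_div, Real.log_inv]
    have := Real.log_le_log hε0 hε8.le
    rw [he8, Real.log_exp] at this
    linarith
  have hlog0 : 0 < Real.log (1 / ε) := by
    have := cS_pos r
    linarith
  have hY : 0 < Yf ε := by
    unfold Yf
    positivity
  subst hεδ
  obtain ⟨hn1, hn2⟩ := hnear ε hε0 hε1
  obtain ⟨hr1, hr2⟩ := hrat ε hε0 hε2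
  have hl2 : 0 < Real.log 2 := Real.log_pos (by norm_num)
  -- the rate
  set R1 : ℝ := max R (Yf ε / 2) with hR1
  have hR1L : R1 < Tensor.ell (1 / 2 - ε) * Real.log 2 := by
    rw [hR1]
    refine max_lt hR (lt_of_lt_of_le ?_ hn1)
    unfold Yf at hY ⊢
    linarith
  have hR1Y : Yf ε / 2 ≤ R1 := le_max_right _ _
  have hR10 : 0 < R1 := lt_of_lt_of_le (by linarith) hR1Y
  have hR13 : R1 ≤ 3 * Yf ε := by
    unfold Yf
    linarith
  have hζ1 : (0 : ℝ) < 1 - 1 / 2 ^ (r + 4) := by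
    have : (1 : ℝ) / 2 ^ (r + 4) < 1 := by
      rw [div_lt_one (by positivity)]
      exact one_lt_pow₀ (by norm_num) (by omega)
    linarith
  set δ' : ℝ := 1 / 2 - ε + 3 * (2 * r / c₀) * Yf ε with hδ'
  have hδ'0 : 0 < δ' := by
    rw [hδ']
    have : 0 < 3 * (2 * r / c₀) * Yf ε := by positivity
    linarith
  have hδ'1 : δ' < 1 / 2 := by
    rw [hδ']
    unfold Yf
    linarith
  have hR' : (1 - 1 / 2 ^ (r + 4)) * R1 < Tensor.ell δ' * Real.log 2 := by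
    have h3 : (1 - 1 / 2 ^ (r + 4)) * R1 <
        (1 - 1 / 2 ^ (r + 4)) * (Tensor.ell (1 / 2 - ε) * Real.log 2) :=
      mul_lt_mul_of_pos_left hR1L hζ1
    have h4 := mul_lt_mul_of_pos_right hr2 hl2
    have h5 : Tensor.ell (1 / 2 - ε + 3 * (2 * r / c₀) * (ε ^ 2 * Real.log (1 / ε))) =
        Tensor.ell δ' := by
      rw [hδ']
      rfl
    rw [h5] at h4
    linarith
  obtain ⟨ea, hea, hA⟩ := level1 (by linarith : (0 : ℝ) < 1 / 2 - ε) h2 hR1L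
  obtain ⟨eb, heb, hB⟩ := level1 hδ'0 hδ'1 hR'
  set em : ℝ := min ea eb with hem
  have hem0 : 0 < em := lt_min hea heb
  have hκt : Tendsto (fun n : ℕ => (1 + 3 * Real.exp (-(n * em))) ^ (2 ^ r)) atTop (𝓝 1) := by
    have h3 : Tendsto (fun n : ℕ => Real.exp (-(n * em))) atTop (𝓝 0) := by
      apply Real.tendsto_exp_neg_atTop_nhds_zero.comp
      exact tendsto_natCast_atTop_atTop.atTop_mul_const hem0
    have h4 : Tendsto (fun n : ℕ => (1 + 3 * Real.exp (-(n * em))) ^ (2 ^ r)) atTop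
        (𝓝 ((1 + 3 * 0) ^ (2 ^ r))) := ((h3.const_mul 3).const_add 1).pow _
    simpa using h4
  have hMt : Tendsto (fun n : ℕ => Real.exp (n * R1)) atTop atTop :=
    Real.tendsto_exp_atTop.comp (tendsto_natCast_atTop_atTop.atTop_mul_const hR10)
  have hnt : Tendsto (fun n : ℕ => ε ^ 2 * (n : ℝ)) atTop atTop :=
    tendsto_natCast_atTop_atTop.const_mul_atTop (by positivity)
  refine ⟨3 * 16 ^ 2 ^ r, ?_, ?_⟩
  · have : (1 : ℝ) ≤ 16 ^ 2 ^ r := one_le_pow₀ (by norm_num)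
    linarith
  filter_upwards [hA, hB, hE ε hε0 (lt_of_lt_of_le hεlt hε₀3) R1 hR1Y,
    hF ε hε0 (lt_of_lt_of_le hεlt hε₀4) R1 hR13, hG ε hε0 (lt_of_lt_of_le hεlt hε₀5) R1 hR13,
    hH ε hε0 (lt_of_lt_of_le hεlt hε₀6), hD ε hε0 (lt_of_lt_of_le hεlt hε₀7),
    hκt.eventually_le_const (by norm_num : (1 : ℝ) < 5 / 4),
    hMt.eventually_ge_atTop (6 * 16 ^ 2 ^ r), hnt.eventually_ge_atTop 16,
    eventually_ge_atTop 1] with n hA hB hE hF hG hH hD hκ hM hn16 hn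
  obtain ⟨a, ha1, ha2, ha3⟩ := hA
  obtain ⟨b, hb1, hb2, hb3⟩ := hB
  obtain ⟨hg1, hg2, hg3, hg4⟩ := hG
  obtain ⟨hh1, hh2, hh3, hh4, hh5, hh6⟩ := hH
  obtain ⟨hd1, hd2⟩ := hD
  have hn0 : (0 : ℝ) ≤ n := Nat.cast_nonneg n
  have hκ1 : Real.exp (-(n * em)) ≤ 1 := by
    rw [Real.exp_le_one_iff, neg_nonpos]
    positivity
  have hea' : Real.exp (-(n * ea)) ≤ Real.exp (-(n * em)) := by
    apply Real.exp_le_exp.2
    have : em ≤ ea := min_le_left _ _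
    nlinarith
  have heb' : Real.exp (-(n * eb)) ≤ Real.exp (-(n * em)) := by
    apply Real.exp_le_exp.2
    have : em ≤ eb := min_le_right _ _
    nlinarith
  have key := gen_at hr hn hε0 hc0 hcS hlog hn16 (Real.exp_pos _).le hκ1 hκ hR10.le hM ha1
    (fun w hw => (ha2 w hw).trans hea') ha3 hb1 (fun w hw => (hb2 w hw).trans heb') hb3 hE hF
    hg1 hg2 hg3 hg4 hh1 hh2 hh3 hh4 hh5 hh6 hd1 hd2
  refine key.mono (Real.exp_pos _) (Real.exp_le_exp.2 ?_)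
  exact mul_le_mul_of_nonneg_left (le_max_left _ _) hn0

end Pool.Agent.Lib.MP_0430e4_lc.Lin
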