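import Pool.Agent.Lib.MP_0430e4_lc.Lin.IND
import Pool.Agent.Lib.MP_0430e4_lc.Lin.NUM

/-!
# HGH: high frequencies

PROOF. Choose `s` with `cnt Ξ s` maximal, so `2^r * cnt Ξ s ≥ n`, `cnt Ξ s + (k + 1) ≤ n`.
`choose_between` (with `a = n / 2^r`, `b = k + 1`) gives `M^(2r) ≤ binom (n, cnt Ξ s)`, and
`high_bound` (FBase) gives `(fc f Ξ)^2 M^(2r) ≤ 2^r EC f^2 ≤ 2^r C^2`. `low_shift`: if
`n - cnt Ξ s ≤ k` then the support of `Ξ + s` has at most `k` elements.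
-/

set_option autoImplicit false

namespace Pool.Agent.Lib.MP_0430e4_lc.Lin

open Finset

variable {n r : ℕ}

theorem hgh_sum_cnt (Ξ : Cf n r) : ∑ s : U r, cnt Ξ s = n := by
  classical
  have h := Finset.card_eq_sum_card_fiberwise (s := (univ : Finset (Fin n))) (t := (univ : Finset (U r)))
    (f := Ξ) (fun _ _ => mem_univ _)
  rw [card_univ, Fintype.card_fin] at h
  exact h.symm

theorem hgh_exists_cnt (Ξ : Cf n r) : ∃ s : U r, n / 2 ^ r ≤ cnt Ξ s := by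
  classical
  obtain ⟨s, -, hs⟩ := exists_max_image (univ : Finset (U r)) (cnt Ξ) univ_nonempty
  refine ⟨s, ?_⟩
  have h1 : n ≤ 2 ^ r * cnt Ξ s := by
    calc n = ∑ t : U r, cnt Ξ t := (hgh_sum_cnt Ξ).symm
      _ ≤ ∑ _t : U r, cnt Ξ s := sum_le_sum fun t ht => hs t ht
      _ = 2 ^ r * cnt Ξ s := by
          rw [sum_const, card_univ, smul_eq_mul]
          congr 1
          simp [U, ZMod.card]
  exact Nat.div_le_of_le_mul h1

theorem high_case (hr : 1 ≤ r) (hn : 1 ≤ n) {f : Cf n r → ℝ} (hf : SymC f) {C M : ℝ} (hC : 0 ≤ C)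
    (hfC : ∀ X, |f X| ≤ C) (hM : 1 ≤ M) {k : ℕ} (hk : 2 * (k + 1) ≤ n)
    (h1 : M ^ (2 * r) ≤ (n.choose (n / 2 ^ r) : ℝ)) (h2 : M ^ (2 * r) ≤ (n.choose (k + 1) : ℝ))
    (Ξ : Cf n r) (hΞ : ∀ s, cnt Ξ s + k < n) : |fc f Ξ| * M ^ r ≤ 2 ^ r * C := by
  obtain ⟨s, hs⟩ := hgh_exists_cnt Ξ
  have ha : 2 * (n / 2 ^ r) ≤ n := by
    have h3 : n / 2 ^ r ≤ n / 2 := by
      refine Nat.div_le_div_left ?_ (by norm_num)
      calc 2 = 2 ^ 1 := (pow_one 2).symm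
        _ ≤ 2 ^ r := Nat.pow_le_pow_right (by norm_num) hr
    omega
  have hb := choose_between (n := n) (a := n / 2 ^ r) (b := k + 1) (t := cnt Ξ s) ha hk hs
    (by have := hΞ s; omega)
  have h3 : M ^ (2 * r) ≤ (n.choose (cnt Ξ s) : ℝ) := by
    have h4 : (min (n.choose (n / 2 ^ r)) (n.choose (k + 1)) : ℝ) ≤ (n.choose (cnt Ξ s) : ℝ) := by
      exact_mod_cast hb
    exact (le_min h1 h2).trans h4
  have h5 := high_bound (by omega) hf Ξ s
  have h6 : EC (fun X => f X ^ 2) ≤ C ^ 2 := by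
    calc EC (fun X => f X ^ 2) ≤ EC (fun _ : Cf n r => C ^ 2) := by
          refine EC_mono fun X _ => ?_
          rw [← sq_abs]
          exact pow_le_pow_left₀ (abs_nonneg _) (hfC X) 2
      _ = C ^ 2 := EC_const (by omega) _
  have h7 : (|fc f Ξ| * M ^ r) ^ 2 ≤ (2 ^ r * C) ^ 2 := by
    calc (|fc f Ξ| * M ^ r) ^ 2 = M ^ (2 * r) * fc f Ξ ^ 2 := by
          rw [mul_pow, sq_abs, ← pow_mul, mul_comm r 2]
          ring
      _ ≤ (n.choose (cnt Ξ s) : ℝ) * fc f Ξ ^ 2 := mul_le_mul_of_nonneg_right h3 (sq_nonneg _)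
      _ ≤ 2 ^ r * EC (fun X => f X ^ 2) := h5
      _ ≤ 2 ^ r * C ^ 2 := mul_le_mul_of_nonneg_left h6 (by positivity)
      _ ≤ (2 ^ r * C) ^ 2 := by
          rw [mul_pow]
          refine mul_le_mul_of_nonneg_right ?_ (sq_nonneg _)
          have h8 : (1 : ℝ) ≤ 2 ^ r := one_le_pow₀ (by norm_num)
          nlinarith
  exact le_of_sq_le_sq h7 (by positivity)

theorem low_shift {k : ℕ} (Ξ : Cf n r) (h : ¬ ∀ s, cnt Ξ s + k < n) :
    ∃ s : U r, (sup (fun i => Ξ i + s)).card ≤ k := by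
  classical
  push Not at h
  obtain ⟨s, hs⟩ := h
  refine ⟨s, ?_⟩
  have h1 : sup (fun i => Ξ i + s) = (univ.filter fun i => Ξ i = s)ᶜ := by
    ext i
    simp only [sup, mem_filter, mem_univ, true_and, mem_compl, ne_eq, not_iff_not]
    constructor
    · exact fun h => eq_of_add_U h
    · intro h
      rw [h]
      exact add_self_U s
  rw [h1, card_compl, Fintype.card_fin]
  have h2 : (univ.filter fun i => Ξ i = s).card = cnt Ξ s := rfl
  rw [h2]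
  omega

end Pool.Agent.Lib.MP_0430e4_lc.Lin
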