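import Pool.Agent.Lib.MP_0430e4_lc.Lin.UBB
import Pool.Agent.Lib.MP_0430e4_lc.Lin.COX
import Pool.Agent.Lib.MP_0430e4_lc.Lin.HGH

/-!
# GFI: the generic function, finite form

PROOF. Let `a'` be the correction of `corr_at` for `u = uB`, `θ = √(k+1) (4^(2^r) Θ)`, and
`g X = f0 φ σ X + a' X` for `X ∈ evC n r`, `0` otherwise. `g ≥ 0`: where `a' X ≠ 0`, `f0 ≥ 1/2`
(`f0_half`). Support: `f0_zero`, and `d ≤ d2`. `fc g Ξ = fc f0 Ξ + fc a' Ξ` (both sides only see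
even tuples). `Ξ = 0`: `low_zero`. `kd Ξ < r`: if `∀ s, cnt Ξ s + k < n` use `high_case` for `g`
(or for the symmetric function `f0 + a'`), else shift by `low_shift` (`fc_add_const`, `kd_add_const`)
and use `low_bound` (`fc g Ξ = fc f0 Ξ - uB Ξ`).
-/

set_option autoImplicit false

namespace Pool.Agent.Lib.MP_0430e4_lc.Lin

open Finset

variable {n r : ℕ} {a h c k N0 d d2 : ℕ} {κ M B η A Θ b : ℝ} {φ σ : W n → ℝ}

theorem gen_fin (hr : 1 ≤ r) (hn : 1 ≤ n) (h2 : Two n d d2 κ φ σ) (hdd : d ≤ d2) (hκ0 : 0 ≤ κ)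
    (hκ1 : κ ≤ 1) (hκ : (1 + 3 * κ) ^ (2 ^ r) ≤ 5 / 4) (hF : Fou n c M B η A φ σ)
    (hM : 6 * 16 ^ 2 ^ r ≤ M) (hη0 : 0 ≤ η) (hη1 : η ≤ 1) (hA : 1 ≤ A)
    (hΔ : 4 ^ 2 ^ r * (2 ^ r * (n + 1) ^ (2 * 2 ^ r) * η + 2 ^ (2 * r + 1) * A ^ 2 ^ r *
      Real.exp (-((1 / (2 * (2 ^ r) ^ 2)) ^ 2 * n / 2))) * M ^ r ≤ 1)
    (hck : 2 * (2 ^ r * c + k) < n)
    (hAb : ∀ t, 1 ≤ t → t ≤ 2 ^ r → (∑ q ∈ range (N0 + 1), (n.choose q : ℝ)) *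
      2 ^ (t * (N0 + k)) * B ^ t * M ^ (t - 1) ≤ 1)
    (hΘ0 : 0 ≤ Θ)
    (hΘ : ∀ T ∈ depS r, ∀ S ∈ indSub T, ∀ Ξ : Cf n r, (sup Ξ).card ≤ k →
      |coB (fun x => φ x - σ x) (flat c σ) T S N0 Ξ| *
        Real.sqrt ((n.choose (sup Ξ).card : ℝ) * 2 ^ (r * (sup Ξ).card)) ≤ Θ)
    (hk : 1 ≤ k) (hk2 : 2 * (k + 1) ≤ n) (hh : 1 ≤ h) (hb : 0 < b)
    (hx0 : (n : ℝ) / 2 ^ r - b ≤ 2 * a) (hx1 : 2 * ((a : ℝ) + k * h) ≤ n / 2 ^ r)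
    (hd2 : 2 * (d2 : ℝ) + 2 * 2 ^ r * b ≤ n)
    (hcor : Real.sqrt (k + 1) * (4 ^ 2 ^ r * Θ) * Lmx r n k h b / pmx r n b ≤ 1 / 4)
    (h1 : M ^ (2 * r) ≤ (n.choose (n / 2 ^ r) : ℝ)) (h3 : M ^ (2 * r) ≤ (n.choose (k + 1) : ℝ)) :
    Generic r n d M (3 * 16 ^ 2 ^ r) := by
  classical
  have h16 : (1 : ℝ) ≤ 16 ^ 2 ^ r := one_le_pow₀ (by norm_num)
  have hM1 : (1 : ℝ) ≤ M := by linarith
  have hk2' : 2 * k < n := by omega
  have hkn : k ≤ n := by omega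
  obtain ⟨a', ha1, ha2, ha3, ha4⟩ := corr_at hr hn hk hk2' hh hb hx0 hx1 hd2 (uB r c N0 φ σ)
    (symC_uB h2.symφ h2.symσ) (θ := Real.sqrt (k + 1) * (4 ^ 2 ^ r * Θ)) (by positivity)
    (uB_sq_le hkn hΘ0 hΘ) hcor
  have hg : ∀ (g : Cf n r → ℝ), (∀ X ∈ evC n r, g X = f0 φ σ X + a' X) →
      ∀ Ξ, fc g Ξ = fc (fun X => f0 φ σ X + a' X) Ξ := fun g hg Ξ => fc_congr hg Ξ
  have hadd : ∀ Ξ : Cf n r, fc (fun X => f0 φ σ X + a' X) Ξ = fc (f0 φ σ) Ξ + fc a' Ξ := by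
    intro Ξ
    unfold fc
    rw [← EC_add]
    congr 1
    funext X
    ring
  have hlow : ∀ Ξ : Cf n r, (sup Ξ).card ≤ k →
      fc (fun X => f0 φ σ X + a' X) Ξ = fc (f0 φ σ) Ξ - uB r c N0 φ σ Ξ := by
    intro Ξ hΞ
    rw [hadd Ξ, ha3 Ξ hΞ]
    ring
  set g : Cf n r → ℝ := fun X => if X ∈ evC n r then f0 φ σ X + a' X else 0 with hgd
  have hgev : ∀ X ∈ evC n r, g X = f0 φ σ X + a' X := fun X hX => by rw [hgd]; exact if_pos hX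
  have hgne : ∀ X, X ∉ evC n r → g X = 0 := fun X hX => by rw [hgd]; exact if_neg hX
  refine ⟨g, ?_, hgne, ?_, ?_, ?_⟩
  · intro X
    by_cases hX : X ∈ evC n r
    · rw [hgev X hX]
      by_cases h0 : a' X = 0
      · rw [h0, add_zero]
        exact f0_nonneg h2 hκ0 hκ X
      · have h3 := f0_half h2 hdd hκ0 hκ (ha2 X h0).2
        have h4 := (abs_le.1 (ha4 X)).1
        linarith
    · rw [hgne X hX]
  · rintro X ⟨v, hv, hX⟩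
    by_cases hE : X ∈ evC n r
    · rw [hgev X hE, f0_zero h2 hv hX, zero_add]
      by_contra h0
      have := (ha2 X h0).2 v hv
      omega
    · exact hgne X hE
  · rw [hg g hgev, hlow 0 (by
      have : sup (0 : Cf n r) = ∅ := by
        unfold sup
        exact filter_false_of_mem fun i _ => by simp
      rw [this]; simp)]
    have h3 := low_zero (r := r) hr hn h2 hκ0 hκ1 hF hM1 hη0 hη1 hA hΔ hck hAb
    have h4 : 3 * 16 ^ 2 ^ r / M ≤ 1 / 2 := by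
      rw [div_le_iff₀ (by linarith)]
      linarith
    have h5 := (abs_le.1 (h3.trans h4)).1
    linarith
  · intro Ξ hΞ
    rw [hg g hgev]
    by_cases hlo : ∀ s, cnt Ξ s + k < n
    · have hsym : SymC (fun X => f0 φ σ X + a' X) := by
        intro p X
        have e1 := f0_sym (r := r) h2.symφ h2.symσ p X
        have e2 := ha1 p X
        show f0 φ σ (X ∘ p) + a' (X ∘ p) = f0 φ σ X + a' X
        rw [e1, e2]
      have h4 : (4 : ℝ) ^ 2 ^ r = 2 ^ (2 ^ r) * 2 ^ (2 ^ r) := by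
        rw [← mul_pow]; norm_num
      have hbd : ∀ X, |f0 φ σ X + a' X| ≤ 2 * 4 ^ 2 ^ r := by
        intro X
        have e1 := f0_le h2 hκ0 hκ1 X
        have e2 := ha4 X
        have e3 : (1 : ℝ) ≤ 4 ^ 2 ^ r := one_le_pow₀ (by norm_num)
        rw [← h4] at e1
        calc |f0 φ σ X + a' X| ≤ |f0 φ σ X| + |a' X| := abs_add_le _ _
          _ ≤ 2 * 4 ^ 2 ^ r := by linarith
      have h5 := high_case hr hn hsym (C := 2 * 4 ^ 2 ^ r) (by positivity) hbd hM1 hk2 h1 h3 Ξ hlo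
      refine h5.trans ?_
      have h6 : (1 : ℝ) ≤ M ^ kd Ξ := one_le_pow₀ hM1
      have h7 : (2 : ℝ) ^ r * 4 ^ 2 ^ r ≤ 16 ^ 2 ^ r := by
        have e1 : (2 : ℝ) ^ r ≤ 4 ^ 2 ^ r := by
          calc (2 : ℝ) ^ r ≤ 4 ^ r := pow_le_pow_left₀ (by norm_num) (by norm_num) r
            _ ≤ 4 ^ 2 ^ r := pow_le_pow_right₀ (by norm_num) (Nat.lt_two_pow_self).le
        calc (2 : ℝ) ^ r * 4 ^ 2 ^ r ≤ 4 ^ 2 ^ r * 4 ^ 2 ^ r :=
              mul_le_mul_of_nonneg_right e1 (by positivity)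
          _ = 16 ^ 2 ^ r := by rw [← mul_pow]; norm_num
      calc (2 : ℝ) ^ r * (2 * 4 ^ 2 ^ r) = 2 * (2 ^ r * 4 ^ 2 ^ r) := by ring
        _ ≤ 2 * 16 ^ 2 ^ r := by linarith
        _ ≤ 3 * 16 ^ 2 ^ r := by linarith
        _ = 3 * 16 ^ 2 ^ r * 1 := (mul_one _).symm
        _ ≤ 3 * 16 ^ 2 ^ r * M ^ kd Ξ := mul_le_mul_of_nonneg_left h6 (by positivity)
    · obtain ⟨s, hs⟩ := low_shift Ξ hlo
      have e1 : fc (fun X => f0 φ σ X + a' X) Ξ =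
          fc (fun X => f0 φ σ X + a' X) (fun i => Ξ i + s) :=
        (fc_add_const _ Ξ s).symm
      have e2 : kd (fun i => Ξ i + s) = kd Ξ := kd_add_const Ξ s
      rw [e1, hlow _ hs, ← e2]
      exact low_bound hr hn h2 hκ0 hκ1 hF hM1 hη0 hη1 hA hΔ hck hAb _ hs (by rw [e2]; exact hΞ)

end Pool.Agent.Lib.MP_0430e4_lc.Lin
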