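import Pool.Agent.Lib.MP_0430e4_lc.Lin.EXP
import Pool.Agent.Lib.MP_0430e4_lc.Lin.IND
import Pool.Agent.Lib.MP_0430e4_lc.Lin.FCoef
import Pool.Agent.Lib.MP_0430e4_lc.Lin.FDiff

/-!
# LOW: the coefficients of low frequency of the main function

PROOF. `low_decomp`: `f0_eq`, `fc_sum`; independent `T`: `psi_ind`; dependent `T`: `Psi` is the sum
of the `trm` over `indSub T`, add and subtract the `trm` with `flat c σ`, and use `fc_trm_eq`.
`low_bound`, `low_zero`: independent `T`: `fc_ind` with `η = 1 / M`; dependent `T` (so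
`2 ≤ |T|`): the difference is at most `M^(-r)` by `fc_trm_diff` and `hΔ`; `coA` is at most
`M^(-(|T| - 1))` by `abs_coA_le` (`D = B`) and `hAb`, and if it is not zero then some `ω` has
`out T ω = Ξ`, so `r < kd Ξ + |T|` (`lt_kd_of_out`). There are at most `2^(2^r)` sets `T` and at most
`4^(2^r)` pairs `(T, S)`. For `Ξ = 0` the set `T = ∅` contributes `1`.
-/

set_option autoImplicit false

namespace Pool.Agent.Lib.MP_0430e4_lc.Lin

open Finset

variable {n r : ℕ}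

open Classical in
/-- The dependent sets of nonzero vectors. -/
noncomputable def depS (r : ℕ) : Finset (Finset (U r)) := (Pn r).powerset.filter fun T => ¬ Ind T

/-- The part of the coefficients which is removed by the correction. -/
noncomputable def uB (r c N0 : ℕ) (φ σ : W n → ℝ) (Ξ : Cf n r) : ℝ :=
  ∑ T ∈ depS r, ∑ S ∈ indSub T,
    coB (fun x => φ x - σ x) (flat c σ) T S N0 Ξ

/-- The Fourier hypotheses on the two functions of level one. -/
structure Fou (n c : ℕ) (M B η A : ℝ) (φ σ : W n → ℝ) : Prop where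
  alφ : ∀ w, |al φ w| ≤ 1 / M
  alσ : ∀ w, |al σ w| ≤ B / 2
  MB : 1 / M ≤ B / 2
  sharp : EW (fun x => (σ x - flat c σ x) ^ 2) ≤ η ^ 2
  sup : ∀ x, |σ x - flat c σ x| ≤ A

theorem low_decomp (hn : 1 ≤ n) (φ σ : W n → ℝ) {c k : ℕ} (N0 : ℕ)
    (hck : 2 * (2 ^ r * c + k) < n) (Ξ : Cf n r) (hΞ : (sup Ξ).card ≤ k) :
    fc (f0 φ σ) Ξ - uB r c N0 φ σ Ξ =
      ∑ T ∈ indSub (Pn r), fc (fun X => ∏ v ∈ T, φ (row v X)) Ξ +
      ∑ T ∈ depS r, ∑ S ∈ indSub T, ((fc (trm (fun x => φ x - σ x) σ T S) Ξ -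
          fc (trm (fun x => φ x - σ x) (flat c σ) T S) Ξ) +
        coA (fun x => φ x - σ x) (flat c σ) T S N0 Ξ) := by
  classical
  have h1 : fc (f0 φ σ) Ξ =
      ∑ T ∈ (Pn r).powerset, fc (fun X => Psi (fun x => φ x - σ x) σ T X) Ξ := by
    rw [← fc_sum]
    exact fc_congr (fun X _ => f0_eq φ σ X) Ξ
  have h2 : ∑ T ∈ (Pn r).powerset, fc (fun X => Psi (fun x => φ x - σ x) σ T X) Ξ =
      ∑ T ∈ (Pn r).powerset.filter (fun T => Ind T),
        fc (fun X => Psi (fun x => φ x - σ x) σ T X) Ξ +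
      ∑ T ∈ (Pn r).powerset.filter (fun T => ¬ Ind T),
        fc (fun X => Psi (fun x => φ x - σ x) σ T X) Ξ :=
    (sum_filter_add_sum_filter_not _ _ _).symm
  have h3 : ∑ T ∈ (Pn r).powerset.filter (fun T => Ind T),
      fc (fun X => Psi (fun x => φ x - σ x) σ T X) Ξ =
      ∑ T ∈ indSub (Pn r), fc (fun X => ∏ v ∈ T, φ (row v X)) Ξ := by
    have h4 : indSub (Pn r) = (Pn r).powerset.filter (fun T => Ind T) := by
      ext T
      rw [exp_mem_indSub, mem_filter, mem_powerset]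
    rw [h4]
    refine sum_congr rfl fun T hT => ?_
    exact fc_congr (fun X _ => psi_ind φ σ (mem_filter.1 hT).2 X) Ξ
  have h5 : ∑ T ∈ (Pn r).powerset.filter (fun T => ¬ Ind T),
      fc (fun X => Psi (fun x => φ x - σ x) σ T X) Ξ =
      ∑ T ∈ depS r, ∑ S ∈ indSub T, fc (trm (fun x => φ x - σ x) σ T S) Ξ := by
    have h4 : depS r = (Pn r).powerset.filter (fun T => ¬ Ind T) := by
      ext T
      rw [depS, mem_filter]
    rw [h4]
    refine sum_congr rfl fun T _ => ?_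
    rw [← fc_sum]
    rfl
  rw [h1, h2, h3, h5, add_sub_assoc]
  congr 1
  unfold uB
  rw [← sum_sub_distrib]
  refine sum_congr rfl fun T _ => ?_
  rw [← sum_sub_distrib]
  refine sum_congr rfl fun S hS => ?_
  obtain ⟨hST, hSi⟩ := exp_mem_indSub.1 hS
  rw [fc_trm_eq (N0 := N0) hn hSi hST hck hΞ]
  ring

theorem low_card_powerset : (((Pn r).powerset.card : ℕ) : ℝ) ≤ 2 ^ 2 ^ r := by
  rw [card_powerset]
  have h := exp_card_Pn (r := r)
  have h2 : 2 ^ (Pn r).card ≤ 2 ^ 2 ^ r := Nat.pow_le_pow_right (by norm_num) h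
  exact_mod_cast h2

theorem low_card_indSub (T : Finset (U r)) (hT : T ⊆ Pn r) :
    (((indSub T).card : ℕ) : ℝ) ≤ 2 ^ 2 ^ r := by
  classical
  have h1 : (indSub T).card ≤ T.powerset.card := by
    unfold indSub
    exact card_filter_le _ _
  have h2 : T.powerset.card ≤ (Pn r).powerset.card :=
    card_le_card (powerset_mono.2 hT)
  refine le_trans ?_ (low_card_powerset (r := r))
  exact_mod_cast h1.trans h2

theorem low_card_depS : (((depS r).card : ℕ) : ℝ) ≤ 2 ^ 2 ^ r := by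
  classical
  refine le_trans ?_ (low_card_powerset (r := r))
  have h1 : (depS r).card ≤ (Pn r).powerset.card := by
    unfold depS
    exact card_filter_le _ _
  exact_mod_cast h1

theorem low_depS {T : Finset (U r)} (hT : T ∈ depS r) : T ⊆ Pn r ∧ ¬ Ind T := by
  classical
  rw [depS, mem_filter, mem_powerset] at hT
  exact hT

theorem low_ind_of_card {T : Finset (U r)} (hT : T ⊆ Pn r) (h : T.card ≤ 1) : Ind T := by
  rcases Nat.eq_zero_or_pos T.card with h0 | h0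
  · rw [card_eq_zero] at h0
    rw [h0]
    exact ind_empty
  · obtain ⟨v, rfl⟩ := card_eq_one.1 (le_antisymm h h0)
    have hv : v ≠ 0 := by
      have := hT (mem_singleton_self v)
      rw [Pn, mem_erase] at this
      exact this.1
    unfold Ind
    have : Unique {w // w ∈ ({v} : Finset (U r))} :=
      ⟨⟨⟨v, mem_singleton_self v⟩⟩, fun w => Subtype.ext (mem_singleton.1 w.2)⟩
    refine LinearIndependent.of_subsingleton (⟨v, mem_singleton_self v⟩ :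
      {w // w ∈ ({v} : Finset (U r))}) hv

theorem low_two_le {T : Finset (U r)} (hT : T ∈ depS r) : 2 ≤ T.card := by
  obtain ⟨h1, h2⟩ := low_depS hT
  by_contra hc
  exact h2 (low_ind_of_card h1 (by omega))

theorem low_card_le {T : Finset (U r)} (hT : T ∈ depS r) : T.card ≤ 2 ^ r :=
  (card_le_card (low_depS hT).1).trans exp_card_Pn

variable {c k N0 d d2 : ℕ} {κ M B η A : ℝ} {φ σ : W n → ℝ}

theorem low_abs_phi (h2 : Two n d d2 κ φ σ) (hκ1 : κ ≤ 1) (x : W n) : |φ x| ≤ 1 := by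
  rcases lt_or_ge (wt x) d with h | h
  · rw [h2.φlow x h]; simp
  · exact (h2.φsmall x h).trans hκ1

theorem low_abs_sigma (h2 : Two n d d2 κ φ σ) (hκ1 : κ ≤ 1) (x : W n) : |σ x| ≤ 1 := by
  rw [abs_le]
  exact ⟨h2.σge x, (h2.σle x).trans hκ1⟩

/-- The two estimates for one pair `(T, S)`. -/
theorem low_pair (hr : 1 ≤ r) (hn : 1 ≤ n) (h2 : Two n d d2 κ φ σ) (hκ1 : κ ≤ 1)
    (hF : Fou n c M B η A φ σ) (hM : 1 ≤ M) (hη0 : 0 ≤ η) (hη1 : η ≤ 1) (hA : 1 ≤ A)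
    (hΔ : 4 ^ 2 ^ r * (2 ^ r * (n + 1) ^ (2 * 2 ^ r) * η + 2 ^ (2 * r + 1) * A ^ 2 ^ r *
      Real.exp (-((1 / (2 * (2 ^ r) ^ 2)) ^ 2 * n / 2))) * M ^ r ≤ 1)
    (hck : 2 * (2 ^ r * c + k) < n)
    (hAb : ∀ t, 1 ≤ t → t ≤ 2 ^ r → (∑ q ∈ range (N0 + 1), (n.choose q : ℝ)) *
      2 ^ (t * (N0 + k)) * B ^ t * M ^ (t - 1) ≤ 1)
    (Ξ : Cf n r) (hΞ : (sup Ξ).card ≤ k) {T S : Finset (U r)} (hT : T ∈ depS r)
    (hS : S ∈ indSub T) :
    |fc (trm (fun x => φ x - σ x) σ T S) Ξ -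
        fc (trm (fun x => φ x - σ x) (flat c σ) T S) Ξ| * M ^ r ≤ 1 ∧
      |coA (fun x => φ x - σ x) (flat c σ) T S N0 Ξ| * M ^ (T.card - 1) ≤ 1 ∧
      (coA (fun x => φ x - σ x) (flat c σ) T S N0 Ξ ≠ 0 → r < kd Ξ + T.card) := by
  classical
  obtain ⟨hTP, hTd⟩ := low_depS hT
  obtain ⟨hST, hSi⟩ := exp_mem_indSub.1 hS
  have hM0 : (0 : ℝ) < M := by linarith
  have hB : 0 < B := by
    have h1 : 0 < 1 / M := by positivity
    linarith [hF.MB]
  have hc2 : 2 * c < n := by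
    have : 1 ≤ 2 ^ r := Nat.one_le_two_pow
    nlinarith
  refine ⟨?_, ?_, ?_⟩
  · have h1 := fc_trm_diff (r := r) hr hn (ρ := fun x => φ x - σ x) (σ := σ)
      (fun x _ => by
        have e1 := low_abs_phi h2 hκ1 x
        have e2 := low_abs_sigma h2 hκ1 x
        have e3 := abs_sub (φ x) (σ x)
        linarith)
      (fun x _ => low_abs_sigma h2 hκ1 x) h2.symσ c hη0 hη1 hF.sharp (fun x _ => hF.sup x) hA
      hTP hST Ξ
    exact (mul_le_mul_of_nonneg_right h1 (by positivity)).trans hΔ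
  · have hρ : ∀ w, |al (fun x => φ x - σ x) w| ≤ B := by
      intro w
      rw [al_sub]
      have e1 := hF.alφ w
      have e2 := hF.alσ w
      have e3 := abs_sub (al φ w) (al σ w)
      linarith [hF.MB]
    have hτ : ∀ w, |al (flat c σ) w| ≤ B := by
      intro w
      have e1 := abs_al_flat_le hn hc2 σ w
      have e2 := hF.alσ w
      linarith
    have h1 := abs_coA_le (T := T) (S := S) (N0 := N0) hρ hτ Ξ
    have h3 : (∑ q ∈ range (N0 + 1), (n.choose q : ℝ) * 2 ^ (T.card * (q + (sup Ξ).card))) ≤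
        (∑ q ∈ range (N0 + 1), (n.choose q : ℝ)) * 2 ^ (T.card * (N0 + k)) := by
      rw [sum_mul]
      refine sum_le_sum fun q hq => ?_
      refine mul_le_mul_of_nonneg_left ?_ (Nat.cast_nonneg _)
      refine pow_le_pow_right₀ (by norm_num) (Nat.mul_le_mul_left _ ?_)
      have := mem_range.1 hq
      omega
    have h4 := hAb T.card ((by norm_num : 1 ≤ 2).trans (low_two_le hT)) (low_card_le hT)
    refine le_trans ?_ h4
    refine mul_le_mul_of_nonneg_right (h1.trans ?_) (by positivity)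
    exact mul_le_mul_of_nonneg_right h3 (by positivity)
  · intro hne
    have h1 : ∃ ω : {v // v ∈ T} → W n, out T ω = Ξ := by
      by_contra hcon
      apply hne
      unfold coA
      rw [sum_eq_zero]
      intro ω hω
      exact absurd ⟨ω, (mem_filter.1 hω).2.1⟩ hcon
    obtain ⟨ω, hω⟩ := h1
    refine lt_kd_of_out T hTd Ξ ω ⟨0, fun i => ?_⟩
    rw [hω]
    exact add_self_U (Ξ i)

/-- The sum over the pairs. -/
theorem low_sum_pairs (F : Finset (U r) → Finset (U r) → ℝ) {b : ℝ} (hb : 0 ≤ b)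
    (h : ∀ T ∈ depS r, ∀ S ∈ indSub T, F T S ≤ b) :
    ∑ T ∈ depS r, ∑ S ∈ indSub T, F T S ≤ 4 ^ 2 ^ r * b := by
  have h1 : ∀ T ∈ depS r, ∑ S ∈ indSub T, F T S ≤ 2 ^ 2 ^ r * b := by
    intro T hT
    have h2 := sum_le_card_nsmul (indSub T) (F T) b (h T hT)
    rw [nsmul_eq_mul] at h2
    exact h2.trans (mul_le_mul_of_nonneg_right (low_card_indSub T (low_depS hT).1) hb)
  have h3 := sum_le_card_nsmul (depS r) (fun T => ∑ S ∈ indSub T, F T S) _ h1
  rw [nsmul_eq_mul] at h3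
  refine h3.trans ((mul_le_mul_of_nonneg_right low_card_depS (by positivity)).trans ?_)
  rw [← mul_assoc, ← mul_pow]
  norm_num

theorem low_const : (2 : ℝ) ^ 2 ^ r + 2 * 4 ^ 2 ^ r ≤ 3 * 16 ^ 2 ^ r := by
  have h1 : (2 : ℝ) ^ 2 ^ r ≤ 16 ^ 2 ^ r := pow_le_pow_left₀ (by norm_num) (by norm_num) _
  have h2 : (4 : ℝ) ^ 2 ^ r ≤ 16 ^ 2 ^ r := pow_le_pow_left₀ (by norm_num) (by norm_num) _
  linarith

theorem low_bound (hr : 1 ≤ r) (hn : 1 ≤ n) (h2 : Two n d d2 κ φ σ) (hκ0 : 0 ≤ κ) (hκ1 : κ ≤ 1)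
    (hF : Fou n c M B η A φ σ) (hM : 1 ≤ M) (hη0 : 0 ≤ η) (hη1 : η ≤ 1) (hA : 1 ≤ A)
    (hΔ : 4 ^ 2 ^ r * (2 ^ r * (n + 1) ^ (2 * 2 ^ r) * η + 2 ^ (2 * r + 1) * A ^ 2 ^ r *
      Real.exp (-((1 / (2 * (2 ^ r) ^ 2)) ^ 2 * n / 2))) * M ^ r ≤ 1)
    (hck : 2 * (2 ^ r * c + k) < n)
    (hAb : ∀ t, 1 ≤ t → t ≤ 2 ^ r → (∑ q ∈ range (N0 + 1), (n.choose q : ℝ)) *
      2 ^ (t * (N0 + k)) * B ^ t * M ^ (t - 1) ≤ 1)
    (Ξ : Cf n r) (hΞ : (sup Ξ).card ≤ k) (hk : kd Ξ < r) :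
    |fc (f0 φ σ) Ξ - uB r c N0 φ σ Ξ| * M ^ r ≤ 3 * 16 ^ 2 ^ r * M ^ kd Ξ := by
  classical
  have hM0 : (0 : ℝ) < M := by linarith
  have hMk : (1 : ℝ) ≤ M ^ kd Ξ := one_le_pow₀ hM
  rw [low_decomp hn φ σ N0 hck Ξ hΞ]
  have h1 : |∑ T ∈ indSub (Pn r), fc (fun X => ∏ v ∈ T, φ (row v X)) Ξ| * M ^ r ≤
      2 ^ 2 ^ r * M ^ kd Ξ := by
    refine (mul_le_mul_of_nonneg_right (abs_sum_le_sum_abs _ _) (by positivity)).trans ?_
    rw [sum_mul]
    have h3 : ∀ T ∈ indSub (Pn r), |fc (fun X => ∏ v ∈ T, φ (row v X)) Ξ| * M ^ r ≤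
        M ^ kd Ξ := by
      intro T hT
      obtain ⟨-, hTi⟩ := exp_mem_indSub.1 hT
      obtain ⟨h4, h5⟩ := fc_ind hn hTi hF.alφ Ξ
      by_cases h0 : fc (fun X => ∏ v ∈ T, φ (row v X)) Ξ = 0
      · rw [h0, abs_zero, zero_mul]
        positivity
      · have h6 := h5 h0
        have h7 : M ^ r ≤ M ^ (kd Ξ + T.card) := pow_le_pow_right₀ hM h6
        calc |fc (fun X => ∏ v ∈ T, φ (row v X)) Ξ| * M ^ r
            ≤ (1 / M) ^ T.card * M ^ (kd Ξ + T.card) :=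
              mul_le_mul h4 h7 (by positivity) (by positivity)
          _ = M ^ kd Ξ := by
              rw [pow_add, one_div, inv_pow]
              field_simp
    have h4 := sum_le_card_nsmul _ _ _ h3
    rw [nsmul_eq_mul] at h4
    exact h4.trans (mul_le_mul_of_nonneg_right (low_card_indSub _ (subset_refl _)) (by positivity))
  have h6 : |∑ T ∈ depS r, ∑ S ∈ indSub T, ((fc (trm (fun x => φ x - σ x) σ T S) Ξ -
          fc (trm (fun x => φ x - σ x) (flat c σ) T S) Ξ) +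
        coA (fun x => φ x - σ x) (flat c σ) T S N0 Ξ)| * M ^ r ≤
      4 ^ 2 ^ r * (2 * M ^ kd Ξ) := by
    have h7 : |∑ T ∈ depS r, ∑ S ∈ indSub T, ((fc (trm (fun x => φ x - σ x) σ T S) Ξ -
          fc (trm (fun x => φ x - σ x) (flat c σ) T S) Ξ) +
        coA (fun x => φ x - σ x) (flat c σ) T S N0 Ξ)| * M ^ r ≤
        ∑ T ∈ depS r, ∑ S ∈ indSub T, |(fc (trm (fun x => φ x - σ x) σ T S) Ξ -
          fc (trm (fun x => φ x - σ x) (flat c σ) T S) Ξ) +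
        coA (fun x => φ x - σ x) (flat c σ) T S N0 Ξ| * M ^ r := by
      simp_rw [← sum_mul]
      refine mul_le_mul_of_nonneg_right ?_ (by positivity)
      exact (abs_sum_le_sum_abs _ _).trans (sum_le_sum fun T _ => abs_sum_le_sum_abs _ _)
    refine h7.trans (low_sum_pairs _ (by positivity) fun T hT S hS => ?_)
    obtain ⟨e1, e2, e3⟩ := low_pair hr hn h2 hκ1 hF hM hη0 hη1 hA hΔ hck hAb Ξ hΞ hT hS
    have e4 : |coA (fun x => φ x - σ x) (flat c σ) T S N0 Ξ| * M ^ r ≤ M ^ kd Ξ := by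
      by_cases h0 : coA (fun x => φ x - σ x) (flat c σ) T S N0 Ξ = 0
      · rw [h0, abs_zero, zero_mul]
        positivity
      · have h8 := e3 h0
        have h9 : M ^ r ≤ M ^ (T.card - 1 + kd Ξ) := pow_le_pow_right₀ hM (by omega)
        calc |coA (fun x => φ x - σ x) (flat c σ) T S N0 Ξ| * M ^ r
            ≤ |coA (fun x => φ x - σ x) (flat c σ) T S N0 Ξ| * M ^ (T.card - 1 + kd Ξ) :=
              mul_le_mul_of_nonneg_left h9 (abs_nonneg _)
          _ = |coA (fun x => φ x - σ x) (flat c σ) T S N0 Ξ| * M ^ (T.card - 1) * M ^ kd Ξ := by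
              rw [pow_add, mul_assoc]
          _ ≤ 1 * M ^ kd Ξ := mul_le_mul_of_nonneg_right e2 (by positivity)
          _ = M ^ kd Ξ := one_mul _
    calc |(fc (trm (fun x => φ x - σ x) σ T S) Ξ -
          fc (trm (fun x => φ x - σ x) (flat c σ) T S) Ξ) +
        coA (fun x => φ x - σ x) (flat c σ) T S N0 Ξ| * M ^ r
        ≤ (|fc (trm (fun x => φ x - σ x) σ T S) Ξ -
          fc (trm (fun x => φ x - σ x) (flat c σ) T S) Ξ| +
        |coA (fun x => φ x - σ x) (flat c σ) T S N0 Ξ|) * M ^ r :=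
          mul_le_mul_of_nonneg_right (abs_add_le _ _) (by positivity)
      _ ≤ 2 * M ^ kd Ξ := by
          rw [add_mul]
          linarith
  have h8 := low_const (r := r)
  calc |∑ T ∈ indSub (Pn r), fc (fun X => ∏ v ∈ T, φ (row v X)) Ξ +
      ∑ T ∈ depS r, ∑ S ∈ indSub T, ((fc (trm (fun x => φ x - σ x) σ T S) Ξ -
          fc (trm (fun x => φ x - σ x) (flat c σ) T S) Ξ) +
        coA (fun x => φ x - σ x) (flat c σ) T S N0 Ξ)| * M ^ r
      ≤ (|∑ T ∈ indSub (Pn r), fc (fun X => ∏ v ∈ T, φ (row v X)) Ξ| +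
      |∑ T ∈ depS r, ∑ S ∈ indSub T, ((fc (trm (fun x => φ x - σ x) σ T S) Ξ -
          fc (trm (fun x => φ x - σ x) (flat c σ) T S) Ξ) +
        coA (fun x => φ x - σ x) (flat c σ) T S N0 Ξ)|) * M ^ r :=
        mul_le_mul_of_nonneg_right (abs_add_le _ _) (by positivity)
    _ ≤ 2 ^ 2 ^ r * M ^ kd Ξ + 4 ^ 2 ^ r * (2 * M ^ kd Ξ) := by
        rw [add_mul]
        exact add_le_add h1 h6
    _ = (2 ^ 2 ^ r + 2 * 4 ^ 2 ^ r) * M ^ kd Ξ := by ring
    _ ≤ 3 * 16 ^ 2 ^ r * M ^ kd Ξ := mul_le_mul_of_nonneg_right h8 (by positivity)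

theorem low_zero (hr : 1 ≤ r) (hn : 1 ≤ n) (h2 : Two n d d2 κ φ σ) (hκ0 : 0 ≤ κ) (hκ1 : κ ≤ 1)
    (hF : Fou n c M B η A φ σ) (hM : 1 ≤ M) (hη0 : 0 ≤ η) (hη1 : η ≤ 1) (hA : 1 ≤ A)
    (hΔ : 4 ^ 2 ^ r * (2 ^ r * (n + 1) ^ (2 * 2 ^ r) * η + 2 ^ (2 * r + 1) * A ^ 2 ^ r *
      Real.exp (-((1 / (2 * (2 ^ r) ^ 2)) ^ 2 * n / 2))) * M ^ r ≤ 1)
    (hck : 2 * (2 ^ r * c + k) < n)
    (hAb : ∀ t, 1 ≤ t → t ≤ 2 ^ r → (∑ q ∈ range (N0 + 1), (n.choose q : ℝ)) *
      2 ^ (t * (N0 + k)) * B ^ t * M ^ (t - 1) ≤ 1) :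
    |fc (f0 (r := r) φ σ) 0 - uB r c N0 φ σ 0 - 1| ≤ 3 * 16 ^ 2 ^ r / M := by
  classical
  have hM0 : (0 : ℝ) < M := by linarith
  have hΞ : (sup (0 : Cf n r)).card ≤ k := by
    have : sup (0 : Cf n r) = ∅ := by
      ext i
      simp [sup]
    rw [this]
    simp
  rw [low_decomp hn φ σ N0 hck 0 hΞ]
  have hempty : (∅ : Finset (U r)) ∈ indSub (Pn r) := exp_mem_indSub.2 ⟨empty_subset _, ind_empty⟩
  rw [← add_sum_erase _ _ hempty]
  have hone : fc (fun X : Cf n r => ∏ v ∈ (∅ : Finset (U r)), φ (row v X)) 0 = 1 := by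
    unfold fc
    simp only [prod_empty, ch_zero, mul_one]
    exact EC_const hn 1
  rw [hone]
  have hinv : 0 ≤ 1 / M := by positivity
  have hinv1 : 1 / M ≤ 1 := by
    rw [div_le_one hM0]
    exact hM
  have h1 : |∑ T ∈ (indSub (Pn r)).erase ∅, fc (fun X => ∏ v ∈ T, φ (row v X)) 0| ≤
      2 ^ 2 ^ r * (1 / M) := by
    refine (abs_sum_le_sum_abs _ _).trans ?_
    have h3 : ∀ T ∈ (indSub (Pn r)).erase ∅,
        |fc (fun X : Cf n r => ∏ v ∈ T, φ (row v X)) 0| ≤ 1 / M := by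
      intro T hT
      obtain ⟨hne, hT2⟩ := mem_erase.1 hT
      obtain ⟨-, hTi⟩ := exp_mem_indSub.1 hT2
      obtain ⟨h4, -⟩ := fc_ind hn hTi hF.alφ (0 : Cf n r)
      refine h4.trans ?_
      have h5 : 1 ≤ T.card := card_pos.2 (nonempty_iff_ne_empty.2 hne)
      calc (1 / M) ^ T.card ≤ (1 / M) ^ 1 := pow_le_pow_of_le_one hinv hinv1 h5
        _ = 1 / M := pow_one _
    have h4 := sum_le_card_nsmul _ _ _ h3
    rw [nsmul_eq_mul] at h4
    refine h4.trans (mul_le_mul_of_nonneg_right ?_ hinv)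
    refine le_trans ?_ (low_card_indSub (Pn r) (subset_refl _))
    exact_mod_cast card_le_card (erase_subset _ _)
  have h6 : |∑ T ∈ depS r, ∑ S ∈ indSub T, ((fc (trm (fun x => φ x - σ x) σ T S) (0 : Cf n r) -
          fc (trm (fun x => φ x - σ x) (flat c σ) T S) (0 : Cf n r)) +
        coA (fun x => φ x - σ x) (flat c σ) T S N0 (0 : Cf n r))| ≤ 4 ^ 2 ^ r * (2 * (1 / M)) := by
    have h7 : |∑ T ∈ depS r, ∑ S ∈ indSub T, ((fc (trm (fun x => φ x - σ x) σ T S) (0 : Cf n r) -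
          fc (trm (fun x => φ x - σ x) (flat c σ) T S) (0 : Cf n r)) +
        coA (fun x => φ x - σ x) (flat c σ) T S N0 (0 : Cf n r))| ≤
        ∑ T ∈ depS r, ∑ S ∈ indSub T, |(fc (trm (fun x => φ x - σ x) σ T S) (0 : Cf n r) -
          fc (trm (fun x => φ x - σ x) (flat c σ) T S) (0 : Cf n r)) +
        coA (fun x => φ x - σ x) (flat c σ) T S N0 (0 : Cf n r)| :=
      (abs_sum_le_sum_abs _ _).trans (sum_le_sum fun T _ => abs_sum_le_sum_abs _ _)
    refine h7.trans (low_sum_pairs _ (by positivity) fun T hT S hS => ?_)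
    obtain ⟨e1, e2, -⟩ := low_pair hr hn h2 hκ1 hF hM hη0 hη1 hA hΔ hck hAb 0 hΞ hT hS
    have e3 : |fc (trm (fun x => φ x - σ x) σ T S) (0 : Cf n r) -
          fc (trm (fun x => φ x - σ x) (flat c σ) T S) (0 : Cf n r)| ≤ 1 / M := by
      rw [le_div_iff₀ hM0]
      refine le_trans (mul_le_mul_of_nonneg_left ?_ (abs_nonneg _)) e1
      calc M = M ^ 1 := (pow_one M).symm
        _ ≤ M ^ r := pow_le_pow_right₀ hM hr
    have e4 : |coA (fun x => φ x - σ x) (flat c σ) T S N0 (0 : Cf n r)| ≤ 1 / M := by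
      rw [le_div_iff₀ hM0]
      refine le_trans (mul_le_mul_of_nonneg_left ?_ (abs_nonneg _)) e2
      have h8 := low_two_le hT
      calc M = M ^ 1 := (pow_one M).symm
        _ ≤ M ^ (T.card - 1) := pow_le_pow_right₀ hM (by omega)
    exact (abs_add_le _ _).trans (by linarith)
  have h8 := low_const (r := r)
  rw [show ∀ a b : ℝ, 1 + a + b - 1 = a + b by intro a b; ring]
  calc _ ≤ _ := abs_add_le _ _
    _ ≤ 2 ^ 2 ^ r * (1 / M) + 4 ^ 2 ^ r * (2 * (1 / M)) := add_le_add h1 h6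
    _ = (2 ^ 2 ^ r + 2 * 4 ^ 2 ^ r) / M := by ring
    _ ≤ 3 * 16 ^ 2 ^ r / M := div_le_div_of_nonneg_right h8 hM0.le

end Pool.Agent.Lib.MP_0430e4_lc.Lin
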