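import Pool.Agent.Lib.MP_0430e4_lc.Lin.Defs

/-!
# POS: positivity of the truncated product (pure finite sums)

PROOF of `sum_nonneg_of_small`. Let `Q` be the set of `v ∈ P` with `ρ v < 0` (there `|ρ v| ≤ c γ v`).
Group the sum by `S₊ = S \ Q`: for a fixed `S₊ ∈ I` the inner sum over `S₋ ⊆ Q` with
`S₊ ∪ S₋ ∈ I` is `ρ_{S₊} γ_{(P \ Q) \ S₊} (∑_{S₋} ρ_{S₋} γ_{Q \ S₋})`, the term `S₋ = ∅` is
`γ_Q`, and the others are in absolute value at most `c^{|S₋|} γ_Q`, with sum at most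
`((1 + c)^|Q| - 1) γ_Q ≤ γ_Q`. `ρ_{S₊} ≥ 0`.
PROOF of `half_le`. The term `∅` is at least `(1-κ)^|P| ≥ 1 - |P| κ`; the others have sum at most
`∑_{S ≠ ∅} (2κ)^{|S|} (1+κ)^{|P \ S|} = (1+3κ)^|P| - (1+κ)^|P| ≤ (1 + 3κ)^|P| - 1 ≤ 1/4`, and
`1 + 3 |P| κ ≤ (1+3κ)^|P| ≤ 5/4`.
-/

set_option autoImplicit false

namespace Pool.Agent.Lib.MP_0430e4_lc.Lin

open Finset

theorem pos_sum_pow {ι : Type*} [DecidableEq ι] (Q : Finset ι) (c : ℝ) :
    ∑ B ∈ Q.powerset.erase ∅, c ^ B.card = (1 + c) ^ Q.card - 1 := by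
  have h := Finset.sum_pow_mul_eq_add_pow c 1 Q
  rw [← Finset.add_sum_erase _ _ (Finset.empty_mem_powerset Q)] at h
  simp only [one_pow, mul_one, Finset.card_empty, pow_zero] at h
  rw [add_comm 1 c, ← h]
  ring

theorem pos_inner {ι : Type*} [DecidableEq ι] (Q : Finset ι) (J : Finset ι → Prop)
    [DecidablePred J] (h0 : J ∅) (ρ γ : ι → ℝ) {c : ℝ}
    (hc : 0 ≤ c) (hγ : ∀ v ∈ Q, 0 ≤ γ v) (hρ : ∀ v ∈ Q, |ρ v| ≤ c * γ v)
    (hc2 : (1 + c) ^ Q.card ≤ 2) :
    0 ≤ ∑ B ∈ Q.powerset, if J B then (∏ v ∈ B, ρ v) * ∏ v ∈ Q \ B, γ v else 0 := by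
  set g : ℝ := ∏ v ∈ Q, γ v with hg
  have hg0 : 0 ≤ g := Finset.prod_nonneg hγ
  rw [← Finset.add_sum_erase _ _ (Finset.empty_mem_powerset Q), if_pos h0]
  have h1 : ∀ B ∈ Q.powerset.erase ∅, -(c ^ B.card * g) ≤
      if J B then (∏ v ∈ B, ρ v) * ∏ v ∈ Q \ B, γ v else 0 := by
    intro B hB
    have hBQ : B ⊆ Q := Finset.mem_powerset.1 (Finset.mem_of_mem_erase hB)
    have hcg : 0 ≤ c ^ B.card * g := by positivity
    split_ifs with hJ
    · have h2 : |(∏ v ∈ B, ρ v) * ∏ v ∈ Q \ B, γ v| ≤ c ^ B.card * g := by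
        rw [abs_mul, Finset.abs_prod, Finset.abs_prod]
        have h3 : ∏ v ∈ B, |ρ v| ≤ ∏ v ∈ B, (c * γ v) :=
          Finset.prod_le_prod (fun v _ => abs_nonneg _) fun v hv => hρ v (hBQ hv)
        have h4 : ∏ v ∈ Q \ B, |γ v| = ∏ v ∈ Q \ B, γ v :=
          Finset.prod_congr rfl fun v hv => abs_of_nonneg (hγ v (Finset.mem_sdiff.1 hv).1)
        rw [h4]
        have h5 : 0 ≤ ∏ v ∈ Q \ B, γ v :=
          Finset.prod_nonneg fun v hv => hγ v (Finset.mem_sdiff.1 hv).1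
        refine (mul_le_mul_of_nonneg_right h3 h5).trans (le_of_eq ?_)
        rw [Finset.prod_mul_distrib, Finset.prod_const, mul_assoc, hg,
          ← Finset.prod_sdiff hBQ, mul_comm (∏ v ∈ B, γ v)]
      exact (abs_le.1 h2).1
    · linarith
  have h6 := Finset.sum_le_sum h1
  rw [Finset.sum_neg_distrib, ← Finset.sum_mul, pos_sum_pow] at h6
  rw [Finset.prod_empty, one_mul, Finset.sdiff_empty]
  nlinarith

theorem sum_nonneg_of_small {ι : Type*} [DecidableEq ι] (P : Finset ι) (I : Finset (Finset ι))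
    (hI : ∀ S ∈ I, S ⊆ P) (hdown : ∀ S ∈ I, ∀ S', S' ⊆ S → S' ∈ I) (ρ γ : ι → ℝ) {c : ℝ}
    (hc : 0 ≤ c) (hγ : ∀ v ∈ P, 0 ≤ γ v) (hρ : ∀ v ∈ P, 0 ≤ ρ v ∨ |ρ v| ≤ c * γ v)
    (hc2 : (1 + c) ^ P.card ≤ 2) :
    0 ≤ ∑ S ∈ I, (∏ v ∈ S, ρ v) * ∏ v ∈ P \ S, γ v := by
  classical
  set Q : Finset ι := P.filter fun v => ρ v < 0 with hQ
  have hQP : Q ⊆ P := Finset.filter_subset _ _
  set R : Finset ι := P \ Q with hR
  have hRP : R ⊆ P := Finset.sdiff_subset
  have hRQ : Disjoint R Q := Finset.sdiff_disjoint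
  have e : ∑ S ∈ I, (∏ v ∈ S, ρ v) * ∏ v ∈ P \ S, γ v =
      ∑ p ∈ (R.powerset ×ˢ Q.powerset).filter (fun p => p.1 ∪ p.2 ∈ I),
        (∏ v ∈ p.1 ∪ p.2, ρ v) * ∏ v ∈ P \ (p.1 ∪ p.2), γ v := by
    refine Finset.sum_bij' (fun S _ => (S \ Q, S ∩ Q)) (fun p _ => p.1 ∪ p.2) ?_ ?_ ?_ ?_ ?_
    · intro S hS
      rw [Finset.mem_filter, Finset.mem_product, Finset.mem_powerset, Finset.mem_powerset]
      refine ⟨⟨Finset.sdiff_subset_sdiff (hI S hS) le_rfl, Finset.inter_subset_right⟩, ?_⟩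
      simp only
      rw [Finset.sdiff_union_inter]
      exact hS
    · intro p hp
      exact (Finset.mem_filter.1 hp).2
    · intro S hS
      simp only
      rw [Finset.sdiff_union_inter]
    · rintro ⟨A, B⟩ hp
      rw [Finset.mem_filter, Finset.mem_product, Finset.mem_powerset, Finset.mem_powerset] at hp
      obtain ⟨⟨hA, hB⟩, -⟩ := hp
      simp only at hA hB ⊢
      have hAQ : Disjoint A Q := Finset.disjoint_of_subset_left hA hRQ
      ext v
      · simp only [Finset.mem_sdiff, Finset.mem_union]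
        constructor
        · rintro ⟨h1 | h1, h2⟩
          · exact h1
          · exact absurd (hB h1) h2
        · intro h
          exact ⟨Or.inl h, fun h2 => (Finset.disjoint_left.1 hAQ h) h2⟩
      · simp only [Finset.mem_inter, Finset.mem_union]
        constructor
        · rintro ⟨h1 | h1, h2⟩
          · exact absurd h2 (Finset.disjoint_left.1 hAQ h1)
          · exact h1
        · intro h
          exact ⟨Or.inr h, hB h⟩
    · intro S hS
      simp only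
      rw [Finset.sdiff_union_inter]
  rw [e, Finset.sum_filter, Finset.sum_product]
  refine Finset.sum_nonneg fun A hA => ?_
  rw [Finset.mem_powerset] at hA
  have hAQ : Disjoint A Q := Finset.disjoint_of_subset_left hA hRQ
  by_cases hAI : A ∈ I
  · have h1 : ∀ B ∈ Q.powerset, (if A ∪ B ∈ I then (∏ v ∈ A ∪ B, ρ v) * ∏ v ∈ P \ (A ∪ B), γ v
        else 0) = ((∏ v ∈ A, ρ v) * ∏ v ∈ R \ A, γ v) *
          (if A ∪ B ∈ I then (∏ v ∈ B, ρ v) * ∏ v ∈ Q \ B, γ v else 0) := by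
      intro B hB
      rw [Finset.mem_powerset] at hB
      split_ifs with h
      · have hAB : Disjoint A B := Finset.disjoint_of_subset_right hB hAQ
        have e1 : P \ (A ∪ B) = (R \ A) ∪ (Q \ B) := by
          ext v
          simp only [Finset.mem_sdiff, Finset.mem_union, hR, not_or]
          constructor
          · rintro ⟨h1, h2, h3⟩
            by_cases hv : v ∈ Q
            · exact Or.inr ⟨hv, h3⟩
            · exact Or.inl ⟨⟨h1, hv⟩, h2⟩
          · rintro (⟨⟨h1, h2⟩, h3⟩ | ⟨h1, h2⟩)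
            · exact ⟨h1, h3, fun h4 => h2 (hB h4)⟩
            · exact ⟨hQP h1, fun h4 => Finset.disjoint_left.1 hAQ h4 h1, h2⟩
        have e2 : Disjoint (R \ A) (Q \ B) :=
          Finset.disjoint_of_subset_left Finset.sdiff_subset
            (Finset.disjoint_of_subset_right Finset.sdiff_subset hRQ)
        rw [Finset.prod_union hAB, e1, Finset.prod_union e2]
        ring
      · rw [mul_zero]
    rw [Finset.sum_congr rfl h1, ← Finset.mul_sum]
    refine mul_nonneg (mul_nonneg ?_ ?_) ?_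
    · refine Finset.prod_nonneg fun v hv => ?_
      have h2 := Finset.mem_sdiff.1 (hA hv)
      by_contra h3
      exact h2.2 (Finset.mem_filter.2 ⟨h2.1, not_le.1 h3⟩)
    · exact Finset.prod_nonneg fun v hv => hγ v (hRP (Finset.mem_sdiff.1 hv).1)
    · refine pos_inner Q (fun B => A ∪ B ∈ I) (by simpa using hAI) ρ γ hc
        (fun v hv => hγ v (hQP hv)) (fun v hv => ?_) ?_
      · rcases hρ v (hQP hv) with h | h
        · exact absurd (Finset.mem_filter.1 hv).2 (not_lt.2 h)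
        · exact h
      · refine le_trans ?_ hc2
        exact pow_le_pow_right₀ (by linarith) (Finset.card_le_card hQP)
  · refine le_of_eq (Eq.symm (Finset.sum_eq_zero fun B _ => ?_))
    rw [if_neg]
    exact fun h => hAI (hdown _ h A Finset.subset_union_left)

theorem half_le {ι : Type*} [DecidableEq ι] (P : Finset ι) (I : Finset (Finset ι))
    (hI : ∀ S ∈ I, S ⊆ P) (h0 : ∅ ∈ I) (ρ γ : ι → ℝ) {κ : ℝ} (hκ : 0 ≤ κ)
    (hγ : ∀ v ∈ P, |γ v - 1| ≤ κ) (hρ : ∀ v ∈ P, |ρ v| ≤ 2 * κ)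
    (hκ2 : (1 + 3 * κ) ^ P.card ≤ 5 / 4) :
    1 / 2 ≤ ∑ S ∈ I, (∏ v ∈ S, ρ v) * ∏ v ∈ P \ S, γ v := by
  classical
  have hsub : I ⊆ P.powerset := fun S hS => Finset.mem_powerset.2 (hI S hS)
  have h1 : ∀ S ∈ P.powerset, |(∏ v ∈ S, ρ v) * ∏ v ∈ P \ S, γ v| ≤
      (2 * κ) ^ S.card * (1 + κ) ^ (P.card - S.card) := by
    intro S hS
    rw [Finset.mem_powerset] at hS
    rw [abs_mul, Finset.abs_prod, Finset.abs_prod]
    refine mul_le_mul ?_ ?_ (Finset.prod_nonneg fun v _ => abs_nonneg _) (by positivity)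
    · rw [← Finset.prod_const]
      exact Finset.prod_le_prod (fun v _ => abs_nonneg _) fun v hv => hρ v (hS hv)
    · rw [← Finset.card_sdiff_of_subset hS, ← Finset.prod_const]
      refine Finset.prod_le_prod (fun v _ => abs_nonneg _) fun v hv => ?_
      have h2 := hγ v (Finset.mem_sdiff.1 hv).1
      rw [abs_le] at h2 ⊢
      constructor <;> linarith [h2.1, h2.2]
  -- the empty set
  have h2 : 2 - (1 + κ) ^ P.card ≤ ∏ v ∈ P, γ v := by
    have e1 : ∏ v ∈ P, γ v = ∏ v ∈ P, ((γ v - 1) + 1) :=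
      Finset.prod_congr rfl fun v _ => by ring
    rw [e1, Finset.prod_add_one, ← Finset.add_sum_erase _ _ (Finset.empty_mem_powerset P),
      Finset.prod_empty]
    have h3 : ∀ S ∈ P.powerset.erase ∅, -(κ ^ S.card) ≤ ∏ v ∈ S, (γ v - 1) := by
      intro S hS
      have hS' : S ⊆ P := Finset.mem_powerset.1 (Finset.mem_of_mem_erase hS)
      have h4 : |∏ v ∈ S, (γ v - 1)| ≤ κ ^ S.card := by
        rw [Finset.abs_prod, ← Finset.prod_const]
        exact Finset.prod_le_prod (fun v _ => abs_nonneg _) fun v hv => hγ v (hS' hv)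
      exact (abs_le.1 h4).1
    have h5 := Finset.sum_le_sum h3
    rw [Finset.sum_neg_distrib, pos_sum_pow] at h5
    linarith
  rw [← Finset.add_sum_erase _ _ h0, Finset.prod_empty, one_mul, Finset.sdiff_empty]
  have h6 : -∑ S ∈ P.powerset.erase ∅, (2 * κ) ^ S.card * (1 + κ) ^ (P.card - S.card) ≤
      ∑ S ∈ I.erase ∅, (∏ v ∈ S, ρ v) * ∏ v ∈ P \ S, γ v := by
    rw [← Finset.sum_neg_distrib]
    calc ∑ S ∈ P.powerset.erase ∅, -((2 * κ) ^ S.card * (1 + κ) ^ (P.card - S.card))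
        ≤ ∑ S ∈ I.erase ∅, -((2 * κ) ^ S.card * (1 + κ) ^ (P.card - S.card)) := by
          have := Finset.sum_le_sum_of_subset_of_nonneg
            (f := fun S : Finset ι => (2 * κ) ^ S.card * (1 + κ) ^ (P.card - S.card))
            (Finset.erase_subset_erase ∅ hsub) (fun S _ _ => by positivity)
          rw [Finset.sum_neg_distrib, Finset.sum_neg_distrib]
          linarith
      _ ≤ ∑ S ∈ I.erase ∅, (∏ v ∈ S, ρ v) * ∏ v ∈ P \ S, γ v := by
          refine Finset.sum_le_sum fun S hS => ?_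
          exact (abs_le.1 (h1 S (hsub (Finset.mem_of_mem_erase hS)))).1
  have h7 := Finset.sum_pow_mul_eq_add_pow (2 * κ) (1 + κ) P
  rw [← Finset.add_sum_erase _ _ (Finset.empty_mem_powerset P)] at h7
  simp only [Finset.card_empty, pow_zero, one_mul, Nat.sub_zero] at h7
  have e2 : 2 * κ + (1 + κ) = 1 + 3 * κ := by ring
  rw [e2] at h7
  linarith

end Pool.Agent.Lib.MP_0430e4_lc.Lin
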