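import Pool.Agent.Lib.MP_0430e4_lc.Lin.FCols

set_option autoImplicit false

namespace Pool.Agent.Lib.MP_0430e4_lc.Lin

open Finset

variable {n r : ℕ}

theorem tuple_small {T S : Finset (U r)} (hS : S ⊆ T) (hI : Ind S) {c : ℕ} {Ξ : Cf n r}
    (hcn : 2 * (2 ^ r * c + (sup Ξ).card) < n) (ω : {v // v ∈ T} → W n)
    (h1 : ∀ v, 2 * wt (ω v) ≤ n) (h2 : ∀ v : {v // v ∈ T}, (v : U r) ∉ S → wt (ω v) ≤ c)
    (h : ∃ s : U r, ∀ i, out T ω i + Ξ i = s) :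
    out T ω = Ξ ∧ (Zs T ω Ξ).card ≤ 2 ^ r * c :=
  cols_struct hI hS le_rfl hcn h h1 h2

theorem weights {T : Finset (U r)} (hT : T ⊆ Pn r) {Ξ : Cf n r} {ω : {v // v ∈ T} → W n}
    (h : out T ω = Ξ) :
    3 * (Zs T ω Ξ).card + (sup Ξ).card ≤ ∑ v, wt (ω v) ∧
      ∀ v, wt (ω v) ≤ (Zs T ω Ξ).card + (sup Ξ).card :=
  ⟨cols_count hT h, wt_le_Zs T ω Ξ⟩

open Classical in
theorem card_tuples (T : Finset (U r)) (Ξ : Cf n r) (q : ℕ) :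
    (univ.filter fun ω : {v // v ∈ T} → W n => out T ω = Ξ ∧ (Zs T ω Ξ).card = q).card ≤
      n.choose q * 2 ^ (T.card * (q + (sup Ξ).card)) := by
  refine le_trans (card_le_card fun ω hω => ?_) (card_Zs T Ξ q)
  rw [mem_filter] at hω ⊢
  exact ⟨mem_univ _, hω.2.2⟩

end Pool.Agent.Lib.MP_0430e4_lc.Lin
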