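import Pool.Agent.Lib.MP_0430e4_lc.Lin.LOW
import Pool.Agent.Lib.MP_0430e4_lc.Lin.PAR
import Pool.Agent.Lib.MP_0430e4_lc.Lin.CNT

/-!
# UBB: the part removed by the correction is symmetric and small in mean square

PROOF. `symC_uB`: reindex the tuples `ω` by `ω ∘ p` (`out T (ω ∘ p) = out T ω ∘ p`, `Zs` is mapped by
`p`), `ao` of a symmetric function is symmetric (`symW_al`), `symW_flat`. `uB_sq_le`: at most
`4^(2^r)` pairs `(T, S)`, so `uB Ξ ^ 2 * (binom (n, m) 2^(r m)) ≤ (4^(2^r) Θ)^2` for `m = |sup Ξ| ≤ k`;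
the number of `Ξ` with `|sup Ξ| = m` is at most `binom (n, m) 2^(r m)`; sum over `m = 0..k`.
-/

set_option autoImplicit false

namespace Pool.Agent.Lib.MP_0430e4_lc.Lin

open Finset

variable {n r : ℕ} {c k N0 : ℕ} {Θ : ℝ} {φ σ : W n → ℝ}

theorem ubb_ao_comp {a : W n → ℝ} (ha : SymW a) (p : Equiv.Perm (Fin n)) (w : W n) :
    ao a (w ∘ p) = ao a w := by
  unfold ao
  rw [wt_comp, symW_al ha p w]

theorem ubb_coB {ρ τ : W n → ℝ} (hρ : SymW ρ) (hτ : SymW τ) (T S : Finset (U r)) (N0 : ℕ)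
    (p : Equiv.Perm (Fin n)) (Ξ : Cf n r) : coB ρ τ T S N0 (Ξ ∘ p) = coB ρ τ T S N0 Ξ := by
  classical
  have h := tsum_perm (T := T) (β := fun v => ao (fac ρ τ S v)) (fun v _ q w => ?_) Ξ
    (fun q => N0 < q) p
  · unfold tsum at h
    unfold coB
    convert h using 2
  · refine ubb_ao_comp ?_ q w
    unfold fac
    split_ifs
    · exact hρ
    · exact hτ

theorem symC_uB (hφ : SymW φ) (hσ : SymW σ) : SymC (uB r c N0 φ σ) := by
  intro p Ξ
  unfold uB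
  refine sum_congr rfl fun T _ => sum_congr rfl fun S _ => ?_
  refine ubb_coB (fun q x => ?_) (symW_flat hσ c) T S N0 p Ξ
  rw [hφ q x, hσ q x]

theorem ubb_card_sup_eq (Z : Finset (Fin n)) :
    (univ.filter fun Ξ : Cf n r => sup Ξ = Z).card ≤ 2 ^ (r * Z.card) := by
  classical
  have h1 : (univ.filter fun Ξ : Cf n r => sup Ξ = Z).card
      ≤ (univ : Finset ({i // i ∈ Z} → U r)).card := by
    refine card_le_card_of_injOn (fun Ξ i => Ξ i) (fun _ _ => mem_coe.mpr (mem_univ _)) ?_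
    intro Ξ hΞ Ξ' hΞ' h
    rw [mem_coe, mem_filter] at hΞ hΞ'
    have key : ∀ Ξ : Cf n r, sup Ξ = Z → ∀ i, i ∉ Z → Ξ i = 0 := by
      intro Ξ hΞ i hi
      by_contra h3
      apply hi
      rw [← hΞ]
      unfold sup
      exact mem_filter.mpr ⟨mem_univ _, h3⟩
    funext i
    by_cases hi : i ∈ Z
    · exact congrFun h ⟨i, hi⟩
    · rw [key Ξ hΞ.2 i hi, key Ξ' hΞ'.2 i hi]
  refine h1.trans ?_
  rw [card_univ, Fintype.card_fun, Fintype.card_fun, ZMod.card, Fintype.card_coe,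
    Fintype.card_fin, ← pow_mul]

theorem ubb_card_sup (m : ℕ) :
    (univ.filter fun Ξ : Cf n r => (sup Ξ).card = m).card ≤ n.choose m * 2 ^ (r * m) := by
  classical
  have h1 : (univ.filter fun Ξ : Cf n r => (sup Ξ).card = m)
      ⊆ (powersetCard m (univ : Finset (Fin n))).biUnion fun Z =>
        univ.filter fun Ξ : Cf n r => sup Ξ = Z := by
    intro Ξ hΞ
    rw [mem_filter] at hΞ
    rw [mem_biUnion]
    exact ⟨sup Ξ, mem_powersetCard.mpr ⟨subset_univ _, hΞ.2⟩,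
      mem_filter.mpr ⟨mem_univ _, rfl⟩⟩
  refine (card_le_card h1).trans (card_biUnion_le.trans ?_)
  calc ∑ Z ∈ powersetCard m (univ : Finset (Fin n)),
        (univ.filter fun Ξ : Cf n r => sup Ξ = Z).card
      ≤ ∑ _Z ∈ powersetCard m (univ : Finset (Fin n)), 2 ^ (r * m) := by
        refine sum_le_sum fun Z hZ => ?_
        rw [mem_powersetCard] at hZ
        have := ubb_card_sup_eq (r := r) Z
        rwa [hZ.2] at this
    _ = _ := by
        rw [sum_const, card_powersetCard, card_univ, Fintype.card_fin, smul_eq_mul]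

theorem uB_sq_le (hk : k ≤ n) (hΘ0 : 0 ≤ Θ)
    (hΘ : ∀ T ∈ depS r, ∀ S ∈ indSub T, ∀ Ξ : Cf n r, (sup Ξ).card ≤ k →
      |coB (fun x => φ x - σ x) (flat c σ) T S N0 Ξ| *
        Real.sqrt ((n.choose (sup Ξ).card : ℝ) * 2 ^ (r * (sup Ξ).card)) ≤ Θ) :
    ∑ Ξ ∈ univ.filter (fun Ξ : Cf n r => (sup Ξ).card ≤ k), uB r c N0 φ σ Ξ ^ 2 ≤
      (Real.sqrt (k + 1) * (4 ^ 2 ^ r * Θ)) ^ 2 := by
  classical
  have hone : ∀ Ξ : Cf n r, (sup Ξ).card ≤ k →
      uB r c N0 φ σ Ξ ^ 2 * ((n.choose (sup Ξ).card : ℝ) * 2 ^ (r * (sup Ξ).card)) ≤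
        (4 ^ 2 ^ r * Θ) ^ 2 := by
    intro Ξ hΞ
    set D : ℝ := (n.choose (sup Ξ).card : ℝ) * 2 ^ (r * (sup Ξ).card) with hD
    have hD0 : 0 ≤ D := by positivity
    have h1 : |uB r c N0 φ σ Ξ| * Real.sqrt D ≤ 4 ^ 2 ^ r * Θ := by
      have h2 : |uB r c N0 φ σ Ξ| * Real.sqrt D ≤ ∑ T ∈ depS r, ∑ S ∈ indSub T,
          |coB (fun x => φ x - σ x) (flat c σ) T S N0 Ξ| * Real.sqrt D := by
        simp_rw [← sum_mul]
        refine mul_le_mul_of_nonneg_right ?_ (Real.sqrt_nonneg _)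
        unfold uB
        exact (abs_sum_le_sum_abs _ _).trans (sum_le_sum fun T _ => abs_sum_le_sum_abs _ _)
      exact h2.trans (low_sum_pairs _ hΘ0 fun T hT S hS => hΘ T hT S hS Ξ hΞ)
    calc uB r c N0 φ σ Ξ ^ 2 * D = (|uB r c N0 φ σ Ξ| * Real.sqrt D) ^ 2 := by
          rw [mul_pow, sq_abs, Real.sq_sqrt hD0]
      _ ≤ _ := pow_le_pow_left₀ (by positivity) h1 2
  have hmaps : ∀ Ξ ∈ univ.filter (fun Ξ : Cf n r => (sup Ξ).card ≤ k),
      (sup Ξ).card ∈ range (k + 1) := by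
    intro Ξ hΞ
    rw [mem_filter] at hΞ
    rw [mem_range]
    omega
  rw [← sum_fiberwise_of_maps_to hmaps]
  have hm : ∀ m ∈ range (k + 1), ∑ Ξ ∈ (univ.filter (fun Ξ : Cf n r => (sup Ξ).card ≤ k)).filter
      (fun Ξ => (sup Ξ).card = m), uB r c N0 φ σ Ξ ^ 2 ≤ (4 ^ 2 ^ r * Θ) ^ 2 := by
    intro m hm
    rw [mem_range] at hm
    set D : ℝ := (n.choose m : ℝ) * 2 ^ (r * m) with hD
    have hD0 : 0 < D := by
      have : 0 < n.choose m := Nat.choose_pos (by omega)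
      have h2 : (0 : ℝ) < n.choose m := by exact_mod_cast this
      positivity
    have h1 : ∀ Ξ ∈ (univ.filter (fun Ξ : Cf n r => (sup Ξ).card ≤ k)).filter
        (fun Ξ => (sup Ξ).card = m), uB r c N0 φ σ Ξ ^ 2 ≤ (4 ^ 2 ^ r * Θ) ^ 2 / D := by
      intro Ξ hΞ
      rw [mem_filter, mem_filter] at hΞ
      obtain ⟨⟨-, h2⟩, h3⟩ := hΞ
      have h4 := hone Ξ h2
      rw [h3] at h4
      rw [le_div_iff₀ hD0]
      exact h4
    refine (sum_le_card_nsmul _ _ _ h1).trans ?_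
    rw [nsmul_eq_mul]
    have h2 : ((((univ.filter (fun Ξ : Cf n r => (sup Ξ).card ≤ k)).filter
        (fun Ξ => (sup Ξ).card = m)).card : ℕ) : ℝ) ≤ D := by
      have h3 : (univ.filter (fun Ξ : Cf n r => (sup Ξ).card ≤ k)).filter
          (fun Ξ => (sup Ξ).card = m) ⊆ univ.filter (fun Ξ : Cf n r => (sup Ξ).card = m) :=
        filter_subset_filter _ (subset_univ _)
      have h4 := (card_le_card h3).trans (ubb_card_sup (r := r) m)
      rw [hD]
      exact_mod_cast h4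
    calc _ ≤ D * ((4 ^ 2 ^ r * Θ) ^ 2 / D) := mul_le_mul_of_nonneg_right h2 (by positivity)
      _ = _ := by field_simp
  refine (sum_le_card_nsmul _ _ _ hm).trans (le_of_eq ?_)
  have hs : Real.sqrt ((k : ℝ) + 1) ^ 2 = (k : ℝ) + 1 := Real.sq_sqrt (by positivity)
  rw [nsmul_eq_mul, card_range, mul_pow (Real.sqrt ((k : ℝ) + 1)), hs]
  push_cast
  ring

end Pool.Agent.Lib.MP_0430e4_lc.Lin
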